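import Mathlib

/-!
# Exchange of algebraically independent families
-/

set_option autoImplicit false
set_option linter.unusedSectionVars false

namespace Pool.Agent.K1H80.EC

open AlgebraicIndependent

/-- a family which generates as many independent elements is independent -/
theorem exch {E κ : Type*} [Field E] [Field κ] [Algebra E κ] {ι ι' : Type*} [Finite ι] [Finite ι']
    (z : ι → κ) (p : ι' → κ) (hp : AlgebraicIndependent E p) (hcard : Nat.card ι ≤ Nat.card ι')
    (halg : ∀ i, IsAlgebraic (Algebra.adjoin E (Set.range z)) (p i)) :
    AlgebraicIndependent E z := by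
  classical
  set M := matroid E κ with hM
  have h1 : M.Indep (Set.range p) := matroid_indep_iff.2 hp.to_subtype_range
  have h2 : Set.range p ⊆ M.closure (Set.range z) := by
    rintro _ ⟨i, rfl⟩
    rw [hM, matroid_closure_eq]
    exact halg i
  have h3 : (Set.range p).encard ≤ M.eRk (Set.range z) := by
    rw [← h1.eRk_eq_encard, ← M.eRk_closure_eq (Set.range z)]
    exact M.eRk_mono h2
  have h4 : (Set.range p).encard = (Nat.card ι' : ℕ∞) := by
    rw [← Set.image_univ, hp.injective.encard_image, Set.encard_univ, ENat.card_eq_coe_natCard]
  have h5 : (Set.range z).encard ≤ (Nat.card ι : ℕ∞) := by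
    rw [← Set.image_univ]
    refine (Set.encard_image_le z Set.univ).trans ?_
    rw [Set.encard_univ, ENat.card_eq_coe_natCard]
  have h6 : (Nat.card ι : ℕ∞) ≤ (Nat.card ι' : ℕ∞) := by exact_mod_cast hcard
  have h7 : M.eRk (Set.range z) ≤ (Set.range z).encard := M.eRk_le_encard _
  have h8 : M.eRk (Set.range z) = (Set.range z).encard := by
    refine le_antisymm h7 (h5.trans (h6.trans ?_))
    rw [← h4]
    exact h3
  have h9 : (Nat.card ι : ℕ∞) ≤ (Set.range z).encard := by
    refine h6.trans ?_
    rw [← h4]
    exact h3.trans h7
  have h10 : M.Indep (Set.range z) := by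
    have hfin : (Set.range z).Finite := Set.finite_range z
    exact (M.indep_iff_eRk_eq_encard_of_finite hfin).2 h8
  have hinj : Function.Injective z := by
    have h11 : (Set.univ : Set ι).InjOn z := by
      have hfin : (Set.univ : Set ι).Finite := Set.toFinite _
      refine hfin.injOn_of_encard_image_eq ?_
      rw [Set.image_univ, Set.encard_univ, ENat.card_eq_coe_natCard]
      exact le_antisymm h5 h9
    exact Set.injOn_univ.1 h11
  exact AlgebraicIndependent.of_subtype_range hinj (matroid_indep_iff.1 h10)

end Pool.Agent.K1H80.EC
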