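import Pool.Agent.K1H80.EC.Amalg

/-!
# The differential coordinate ring of a generic point of a product of constant elliptic curves is
# simple
-/

set_option autoImplicit false
set_option linter.unusedSectionVars false

namespace Pool.Agent.K1H80.EC

open WeierstrassCurve WeierstrassCurve.Affine
open scoped Classical

/-- algebraicity over a larger ring -/
theorem isAlg_mono' {E M U : Type*} [Field E] [CommRing M] [Field U] [Algebra E M] [Algebra M U]
    [Algebra E U] [IsScalarTower E M U] (hinj : Function.Injective (algebraMap M U)) {S : Set U}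
    (hS : ∀ s ∈ S, ∃ m : M, algebraMap M U m = s)
    {z : U} (hz : IsAlgebraic (Algebra.adjoin E S) z) : IsAlgebraic M z := by
  have hle : Algebra.adjoin E S ≤ (IsScalarTower.toAlgHom E M U).range := by
    rw [Algebra.adjoin_le_iff]
    intro s hs
    obtain ⟨m, hm⟩ := hS s hs
    exact ⟨m, hm⟩
  let f : Algebra.adjoin E S →+* M :=
    ((AlgEquiv.ofInjective (IsScalarTower.toAlgHom E M U) hinj).symm : _ →+* M).comp
      (Subalgebra.inclusion hle : Algebra.adjoin E S →+* (IsScalarTower.toAlgHom E M U).range)
  have hf : ∀ r, algebraMap M U (f r) = r := by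
    intro r
    have h1 := (AlgEquiv.ofInjective (IsScalarTower.toAlgHom E M U)
      hinj).apply_symm_apply (Subalgebra.inclusion hle r)
    exact congrArg Subtype.val h1
  obtain ⟨p, hp0, hp⟩ := hz
  refine ⟨p.map f, ?_, ?_⟩
  · rw [Ne, Polynomial.map_eq_zero_iff]
    · exact hp0
    · intro r r' h
      have := congrArg (algebraMap M U) h
      rw [hf, hf] at this
      exact Subtype.ext this
  · rw [Polynomial.aeval_def, Polynomial.eval₂_map]
    have h2 : (algebraMap M U).comp f = algebraMap (Algebra.adjoin E S) U := RingHom.ext hf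
    rw [h2]
    exact hp

/-- a derivation that preserves `E` and maps the elements of `S` to `E[S]` preserves `E[S]` -/
theorem derA_adjoin {k E U : Type*} [Field k] [Field E] [Field U] [Algebra k U] [Algebra E U]
    (D : Derivation k U U) (hE : ∀ e : E, ∃ e' : E, D (algebraMap E U e) = algebraMap E U e')
    (S : Set U) (hS : ∀ s ∈ S, D s ∈ Algebra.adjoin E S) :
    ∀ z ∈ Algebra.adjoin E S, D z ∈ Algebra.adjoin E S := by
  intro z hz
  induction hz using Algebra.adjoin_induction with
  | mem x hx => exact hS x hx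
  | algebraMap x =>
    obtain ⟨e', he'⟩ := hE x
    rw [he']
    exact (Algebra.adjoin E S).algebraMap_mem e'
  | add x y _ _ h1 h2 =>
    rw [map_add]
    exact add_mem h1 h2
  | mul x y hx hy h1 h2 =>
    rw [D.leibniz, smul_eq_mul, smul_eq_mul]
    exact add_mem (mul_mem hx h2) (mul_mem hy h1)

/-- restriction of a derivation to an invariant subalgebra -/
noncomputable def resA {k E U : Type*} [Field k] [Field E] [Field U] [Algebra k E] [Algebra k U]
    [Algebra E U] [IsScalarTower k E U] (D : Derivation k U U) (M : Subalgebra E U)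
    (h : ∀ z ∈ M, D z ∈ M) : Derivation k M M :=
  Derivation.mk'
    { toFun := fun z => ⟨D z, h z z.2⟩
      map_add' := fun x y => Subtype.ext (by simp)
      map_smul' := fun c x => Subtype.ext (by
        have : ((c • x : M) : U) = c • (x : U) := rfl
        simp [this]) }
    (fun x y => Subtype.ext (by
      change D ((x : U) * y) = (x : U) * D y + (y : U) * D x
      rw [D.leibniz, smul_eq_mul, smul_eq_mul]))

theorem coe_resA {k E U : Type*} [Field k] [Field E] [Field U] [Algebra k E] [Algebra k U]
    [Algebra E U] [IsScalarTower k E U] (D : Derivation k U U) (M : Subalgebra E U)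
    (h : ∀ z ∈ M, D z ∈ M) (z : M) : ((resA D M h z : M) : U) = D z := rfl

section transfer

variable {R U K : Type*} [CommRing R] [Field U] [Field K] [CharZero K] [CharZero U]

theorem tr_rel (i : R →+* U) (hi : Function.Injective i) (φ : R →+* K) (c : Bool) {α β p q : R}
    (h : rel c (i α) (i β) (i p) (i q) = 0) : rel c (φ α) (φ β) (φ p) (φ q) = 0 := by
  cases c
  · simp only [rel, Bool.false_eq_true, if_false] at h ⊢
    have h1 : q ^ 3 + α * q + (β - p ^ 2) = 0 := hi (by simpa using h)
    simpa using congrArg φ h1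
  · simp only [rel, if_true] at h ⊢
    have h1 : q ^ 3 + α * p ^ 2 * q + (β * p ^ 3 - p) = 0 := hi (by simpa using h)
    simpa using congrArg φ h1

theorem tr_dP (i : R →+* U) (hi : Function.Injective i) (φ : R →+* K) (c : Bool)
    {α β u p q d : R} (h : i d = dP c (i α) (i β) (i u) (i p) (i q)) :
    φ d = dP c (φ α) (φ β) (φ u) (φ p) (φ q) := by
  have h2 : (2 : U) ≠ 0 := two_ne_zero
  have h2' : (2 : K) ≠ 0 := two_ne_zero
  cases c
  · simp only [dP, Bool.false_eq_true, if_false] at h ⊢
    have h1 : 2 * d = u * (3 * q ^ 2 + α) := hi (by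
      simp only [map_mul, map_add, map_pow, map_ofNat]
      rw [h]
      field_simp)
    have h3 := congrArg φ h1
    simp only [map_mul, map_add, map_pow, map_ofNat] at h3
    rw [← h3]
    field_simp
  · simp only [dP, if_true] at h ⊢
    have h1 : 2 * d = -(u * (3 * q ^ 2 + α * p ^ 2)) := hi (by
      simp only [map_mul, map_add, map_pow, map_ofNat, map_neg]
      rw [h]
      field_simp)
    have h3 := congrArg φ h1
    simp only [map_mul, map_add, map_pow, map_ofNat, map_neg] at h3
    have h4 : φ d = (2 * φ d) * 2⁻¹ := by field_simp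
    rw [h4, h3]
    ring

theorem tr_dQ (i : R →+* U) (hi : Function.Injective i) (φ : R →+* K) (c : Bool)
    {α β u p q d : R} (h : i d = dQ c (i α) (i β) (i u) (i p) (i q)) :
    φ d = dQ c (φ α) (φ β) (φ u) (φ p) (φ q) := by
  have h2 : (2 : U) ≠ 0 := two_ne_zero
  have h2' : (2 : K) ≠ 0 := two_ne_zero
  cases c
  · simp only [dQ, Bool.false_eq_true, if_false] at h ⊢
    have h1 : d = u * p := hi (by rw [map_mul, h])
    rw [h1, map_mul]
  · simp only [dQ, if_true] at h ⊢
    have h1 : 2 * d = u * (-1 + 2 * α * p * q + 3 * β * p ^ 2) := hi (by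
      simp only [map_mul, map_add, map_pow, map_ofNat, map_neg, map_one]
      rw [h]
      field_simp)
    have h3 := congrArg φ h1
    simp only [map_mul, map_add, map_pow, map_ofNat, map_neg, map_one] at h3
    have h4 : φ d = (2 * φ d) * 2⁻¹ := by field_simp
    rw [h4, h3]
    field_simp

end transfer

/-- a root of a monic cubic -/
theorem integral_cubic {R A : Type*} [CommRing R] [CommRing A] [Algebra R A] {q : A} {f g : R}
    (h : q ^ 3 + algebraMap R A f * q + algebraMap R A g = 0) : IsIntegral R q := by
  rcases subsingleton_or_nontrivial R with hR | hR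
  · have : Subsingleton A := ⟨fun x y => by
      have h1 : (1 : A) = 0 := by
        rw [← map_one (algebraMap R A), ← map_zero (algebraMap R A), Subsingleton.elim (1 : R) 0]
      rw [← mul_one x, ← mul_one y, h1, mul_zero, mul_zero]⟩
    rw [Subsingleton.elim q 0]
    exact isIntegral_zero
  refine ⟨Polynomial.X ^ 3 + (Polynomial.C f * Polynomial.X + Polynomial.C g), ?_, ?_⟩
  · refine Polynomial.monic_X_pow_add (lt_of_le_of_lt Polynomial.degree_linear_le ?_)
    norm_num
  · simp only [Polynomial.eval₂_add, Polynomial.eval₂_pow, Polynomial.eval₂_X,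
      Polynomial.eval₂_mul, Polynomial.eval₂_C]
    rw [← add_assoc]
    exact h

/-- the algebra generated by the coordinates in the charts of some of the points -/
def RB (E : Type) {U ι : Type} [Field E] [Field U] [Algebra E U] (p q : ι → U) (B : Set ι) :
    Subalgebra E U := Algebra.adjoin E (p '' B ∪ q '' B)

theorem RB_mono {E U ι : Type} [Field E] [Field U] [Algebra E U] {p q : ι → U} {B C : Set ι}
    (h : B ⊆ C) : RB E p q B ≤ RB E p q C :=
  Algebra.adjoin_mono (Set.union_subset_union (Set.image_mono h) (Set.image_mono h))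

variable {k E U : Type} [Field k] [CharZero k] [Field E] [Field U] [Algebra k E] [Algebra k U]
  [Algebra E U] [IsScalarTower k E U]

section ring

variable {ι : Type} {p q : ι → U} {c : ι → Bool} {a b : ι → k} {u : ι → E}

theorem mem_p {B : Set ι} {i : ι} (hi : i ∈ B) : p i ∈ RB E p q B :=
  Algebra.subset_adjoin (Or.inl ⟨i, hi, rfl⟩)

theorem mem_q {B : Set ι} {i : ι} (hi : i ∈ B) : q i ∈ RB E p q B :=
  Algebra.subset_adjoin (Or.inr ⟨i, hi, rfl⟩)

theorem k_mem (R : Subalgebra E U) (e : k) : algebraMap k U e ∈ R := by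
  rw [IsScalarTower.algebraMap_apply k E U]
  exact R.algebraMap_mem _

theorem half_mem [CharZero U] (R : Subalgebra E U) : (2⁻¹ : U) ∈ R := by
  have h : (2⁻¹ : U) = algebraMap E U 2⁻¹ := by rw [map_inv₀, map_ofNat]
  rw [h]
  exact R.algebraMap_mem _

/-- the algebra is closed under the derivation -/
theorem der_RB (D : Derivation k U U)
    (hE : ∀ e : E, ∃ e' : E, D (algebraMap E U e) = algebraMap E U e')
    (hp : ∀ i, D (p i) = dP (c i) (algebraMap k U (a i)) (algebraMap k U (b i))
      (algebraMap E U (u i)) (p i) (q i))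
    (hq : ∀ i, D (q i) = dQ (c i) (algebraMap k U (a i)) (algebraMap k U (b i))
      (algebraMap E U (u i)) (p i) (q i)) (B : Set ι) :
    ∀ z ∈ RB E p q B, D z ∈ RB E p q B := by
  have hcU : CharZero U := charZero_of_injective_algebraMap (algebraMap k U).injective
  refine derA_adjoin D hE _ ?_
  have h3 : (3 : U) ∈ RB E p q B := by exact_mod_cast natCast_mem (RB E p q B) 3
  have h2 : (2⁻¹ : U) ∈ RB E p q B := half_mem _
  have hu : ∀ i, algebraMap E U (u i) ∈ RB E p q B := fun i => Subalgebra.algebraMap_mem _ _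
  have ha : ∀ i, algebraMap k U (a i) ∈ RB E p q B := fun i => k_mem _ _
  have hb : ∀ i, algebraMap k U (b i) ∈ RB E p q B := fun i => k_mem _ _
  rintro _ (⟨i, hi, rfl⟩ | ⟨i, hi, rfl⟩)
  · change D (p i) ∈ RB E p q B
    rw [hp]
    have h4 : p i ∈ RB E p q B := mem_p hi
    have h5 : q i ∈ RB E p q B := mem_q hi
    unfold dP
    split_ifs
    · exact neg_mem (mul_mem (mul_mem (hu i) (add_mem (mul_mem h3 (pow_mem h5 2))
        (mul_mem (ha i) (pow_mem h4 2)))) h2)
    · exact mul_mem (mul_mem (hu i) (add_mem (mul_mem h3 (pow_mem h5 2)) (ha i))) h2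
  · change D (q i) ∈ RB E p q B
    rw [hq]
    have h4 : p i ∈ RB E p q B := mem_p hi
    have h5 : q i ∈ RB E p q B := mem_q hi
    unfold dQ
    split_ifs
    · exact mul_mem (hu i) (add_mem (add_mem (neg_mem h2) (mul_mem (mul_mem (ha i) h4) h5))
        (mul_mem (mul_mem (mul_mem h3 h2) (hb i)) (pow_mem h4 2)))
    · exact mul_mem (hu i) h4

/-- the second coordinates are integral over the first ones -/
theorem int_q (hrel : ∀ i, rel (c i) (algebraMap k U (a i)) (algebraMap k U (b i)) (p i) (q i) = 0)
    {R : Subalgebra E U} {i : ι} (hi : p i ∈ R) : IsIntegral R (q i) := by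
  obtain ⟨f, g, h1, h2, h3⟩ := rel_ord (c i) (α := algebraMap k U (a i))
    (β := algebraMap k U (b i)) (p := p i) (q := q i)
  rw [hrel] at h1
  have hf : f ∈ R := by
    rw [h2]
    split_ifs
    · exact mul_mem (k_mem _ _) (pow_mem hi 2)
    · exact k_mem _ _
  have hg : g ∈ R := by
    rw [h3]
    split_ifs
    · exact sub_mem (mul_mem (k_mem _ _) (pow_mem hi 3)) hi
    · exact sub_mem (k_mem _ _) (pow_mem hi 2)
  exact integral_cubic (f := (⟨f, hf⟩ : R)) (g := ⟨g, hg⟩) h1.symm

end ring

end Pool.Agent.K1H80.EC
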