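import Pool.Agent.K1H80.EC.Ct

/-!
# Common zeros outside codimension two: the count
-/

set_option autoImplicit false
set_option linter.unusedSectionVars false
set_option linter.unusedVariables false

namespace Pool.Agent.K1H80.EC

open FF Filter MvPolynomial Module Pool.Agent.W603.LV Pool.Agent.W603.PV Pool.Agent.W603.CZ
open Pool.Agent.Y731.FG
open scoped Classical

section one

variable {k : Type} [Field k] [IsAlgClosed k] [CharZero k] {K : Type} [Field K] [Algebra k K]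
  [IsFF k K]

theorem sum_pole_le (z : K) (T : Finset (Place k K)) : ∑ P ∈ T, max (-P.ord z) 0 ≤ hgt k z := by
  obtain ⟨T0, hT0⟩ := exists_supp (k := k) (Finset.univ : Finset (Fin 1)) (fun _ => z)
  rw [hgt_finset z (T ∪ T0) (fun P hP => Finset.mem_union_right _ (hT0 0 (Finset.mem_univ _) P hP))]
  exact Finset.sum_le_sum_of_subset_of_nonneg Finset.subset_union_left fun _ _ _ => le_max_right _ _

theorem sum_zero_le (z : K) (T : Finset (Place k K)) : ∑ P ∈ T, max (P.ord z) 0 ≤ hgt k z := by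
  have h := sum_pole_le (k := k) z⁻¹ T
  rw [hgt_inv] at h
  refine le_trans (le_of_eq ?_) h
  refine Finset.sum_congr rfl fun P _ => ?_
  rw [P.ord_inv, neg_neg]

end one

variable {I : Type} {𝒰 : Ultrafilter I} {k F : Type} [Field k] [IsAlgClosed k] [CharZero k]
  [Field F] {L : I → Type} [∀ i, Field (L i)] [∀ i, Algebra k (L i)] [∀ i, Algebra F (L i)]
  [∀ i, IsFF k (L i)] {Δ : Dt 𝒰 k F L}

/-- the height of the value of a polynomial -/
theorem ht_poly {m : ℕ} (s : Fin m → UL 𝒰 L) (hs : ∀ j, s j ≠ 0) (p : MvPolynomial (Fin m) Δ.E)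
    {N : ℕ} (hp : p.totalDegree ≤ N) :
    ∃ B : ℕ, ∀ᶠ i in (𝒰 : Filter I), ht k (aeval s p) i ≤ N * Hu k s i + B * Δ.χ i := by
  obtain ⟨e, he, h1⟩ := Pool.Agent.Y141.FG.low Δ m s hs p
  have he' := he.pos
  obtain ⟨B, hB⟩ := he'
  refine ⟨B, ?_⟩
  have hmon : ∀ᶠ ω in EV 𝒰 k L, ∀ t ∈ p.support, oo (mon s t) ω = ∑ j, t j * oo (s j) ω := by
    rw [Finset.eventually_all]
    intro t _
    exact Pool.Agent.Y960.FG.oo_mon hs t
  filter_upwards [hB, ev_iff.1 h1, ev_iff.1 hmon, rep_zero (𝒰 := 𝒰) (L := L)] with i h2 h3 h4 h5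
  refine Pool.Agent.Y141.FG.hgt_le_of _ (fun P => N * ∑ j, max (-P.ord (rep (s j) i)) 0 +
    max (e ⟨i, P⟩) 0) (fun P => ?_) (fun T => ?_)
  · have h6 : (0 : ℤ) ≤ N * ∑ j, max (-P.ord (rep (s j) i)) 0 :=
      mul_nonneg (by positivity) (Finset.sum_nonneg fun j _ => le_max_right _ _)
    have h7 := le_max_right (e ⟨i, P⟩) 0
    refine max_le ?_ (by linarith)
    have h8 := h3 P (-(N * ∑ j, max (-P.ord (rep (s j) i)) 0)) (by
      intro t ht
      rw [h4 P t ht]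
      have h9 : (∑ j, (t j : ℤ)) ≤ N := by
        have h10 : (t.sum fun _ e => e) ≤ N := (le_totalDegree ht).trans hp
        rw [Finsupp.sum_fintype _ _ (fun _ => rfl)] at h10
        exact_mod_cast h10
      have h11 : ∀ j, -((t j : ℤ) * ∑ j, max (-P.ord (rep (s j) i)) 0) ≤ t j * oo (s j) ⟨i, P⟩ := by
        intro j
        have h12 : max (-P.ord (rep (s j) i)) 0 ≤ ∑ j, max (-P.ord (rep (s j) i)) 0 :=
          Finset.single_le_sum (f := fun j => max (-P.ord (rep (s j) i)) 0)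
            (fun j _ => le_max_right _ _) (Finset.mem_univ j)
        have h13 : -P.ord (rep (s j) i) ≤ ∑ j, max (-P.ord (rep (s j) i)) 0 :=
          (le_max_left _ _).trans h12
        have h14 : oo (s j) ⟨i, P⟩ = P.ord (rep (s j) i) := rfl
        rw [h14, ← mul_neg]
        exact mul_le_mul_of_nonneg_left (by linarith) (by positivity)
      refine le_trans ?_ (Finset.sum_le_sum fun j _ => h11 j)
      rw [Finset.sum_neg_distrib, ← Finset.sum_mul]
      refine neg_le_neg (mul_le_mul_of_nonneg_right h9 ?_)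
      exact Finset.sum_nonneg fun j _ => le_max_right _ _)
    rcases h8 with h8 | h8
    · rw [h8, h5, P.ord_zero]
      linarith
    · have h9 : oo (aeval s p) ⟨i, P⟩ = P.ord (rep (aeval s p) i) := rfl
      rw [h9] at h8
      have := le_max_left (e ⟨i, P⟩) 0
      linarith
  · rw [Finset.sum_add_distrib, ← Finset.mul_sum]
    refine add_le_add (mul_le_mul_of_nonneg_left ?_ (by positivity)) (h2 T)
    rw [Finset.sum_comm]
    exact Finset.sum_le_sum fun j _ => sum_pole_le _ T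

theorem mem_K0_of_der {z : UL 𝒰 L} (hz : uD Δ.D z = 0) : z ∈ K0 𝒰 k L := by
  have h1 : um 𝒰 (fun i => Δ.D i (rep z i)) = 0 := by
    rw [← uD_um, um_rep]
    exact hz
  have h2 := um_zero_iff.1 h1
  have h3 : ∀ᶠ i in (𝒰 : Filter I), ∃ c : k, rep z i = algebraMap k (L i) c := by
    filter_upwards [h2, Δ.D_ne] with i h4 h5
    exact const_of_der h5 h4
  refine ⟨fun i => if h : ∃ c : k, rep z i = algebraMap k (L i) c then h.choose else 0, ?_⟩
  conv_rhs => rw [← um_rep z]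
  rw [um_eq]
  filter_upwards [h3] with i h
  rw [dif_pos h]
  exact h.choose_spec.symm

/-- **Common zeros outside codimension two.** -/
theorem ct {m : ℕ} (s : Fin m → UL 𝒰 L) (hs : AlgebraicIndependent Δ.E s)
    (R : Subalgebra Δ.E (UL 𝒰 L)) (hsR : ∀ a, s a ∈ R) (hDR : ∀ w ∈ R, uD Δ.D w ∈ R)
    (hsim : ∀ J : Ideal R, (∀ w : R, w ∈ J → (⟨uD Δ.D w, hDR _ w.2⟩ : R) ∈ J) → J ≠ ⊥ → J = ⊤)
    (hfin : (aeval (fun a => (⟨s a, hsR a⟩ : R)) :
      MvPolynomial (Fin m) Δ.E →ₐ[Δ.E] R).toRingHom.Finite)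
    (Q : Set (Om k L)) (hQ : R ≤ BQ Δ Q) {w : ℕ} (ψ : Fin w → R)
    (hψ : ∀ 𝔭 : Ideal R, 𝔭.IsPrime → (∀ j, ψ j ∈ 𝔭) → ∀ a0, ¬ AlgebraicIndependent Δ.E
      (fun a : {a : Fin m // a ≠ a0} => (Ideal.Quotient.mk 𝔭 (⟨s a, hsR a⟩ : R) : R ⧸ 𝔭)))
    (h0 : ∃ j, ψ j ≠ 0) :
    Ng 𝒰 Δ.χ (Hu k s) (fun ω => if ω ∈ Q then mo (fun j => (ψ j : UL 𝒰 L)) ω else 0) := by
  have hsn : ∀ j, s j ≠ 0 := fun j => hs.ne_zero j
  obtain ⟨M, e1, he1, he10, hM⟩ := mult_bound R hDR hsim Q hQ ψ h0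
  -- coprime elements of the ideal
  obtain ⟨f, g, hf0, hg0, hfg, hfI, hgI⟩ := exists_coprime (E := Δ.E)
    (fun a => (⟨s a, hsR a⟩ : R)) hfin (Ideal.span (Set.range ψ)) (by
      obtain ⟨j, hj⟩ := h0
      intro h
      apply hj
      rw [← Ideal.mem_bot, ← h]
      exact Ideal.subset_span ⟨j, rfl⟩) (fun 𝔭 h𝔭 hle => hψ 𝔭 h𝔭 fun j => hle (Ideal.subset_span ⟨j, rfl⟩))
  have hval : ∀ p : MvPolynomial (Fin m) Δ.E,
      ((aeval (fun a => (⟨s a, hsR a⟩ : R)) p : R) : UL 𝒰 L) = aeval s p := by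
    intro p
    exact comp_aeval_apply (f := fun a => (⟨s a, hsR a⟩ : R)) R.val p
  have hIle : Ideal.span (Set.range ψ) ≤ SmlI R Q hQ (fun j => (ψ j : UL 𝒰 L)) := by
    rw [Ideal.span_le]
    rintro _ ⟨j, rfl⟩
    exact Sml.self Q (fun j => (ψ j : UL 𝒰 L)) j
  -- generators of the module
  obtain ⟨J0, r0, hr0⟩ : ∃ (J0 : ℕ) (r0 : Fin J0 → R), ∀ w : R, ∃ p : Fin J0 →
      MvPolynomial (Fin m) Δ.E, w = ∑ j, aeval (fun a => (⟨s a, hsR a⟩ : R)) (p j) * r0 j := by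
    let _ : Algebra (MvPolynomial (Fin m) Δ.E) R :=
      (aeval (fun a => (⟨s a, hsR a⟩ : R)) : MvPolynomial (Fin m) Δ.E →ₐ[Δ.E] R).toRingHom.toAlgebra
    have : Module.Finite (MvPolynomial (Fin m) Δ.E) R := hfin
    obtain ⟨J0, r0, hr0⟩ := Module.Finite.exists_fin (R := MvPolynomial (Fin m) Δ.E) (M := R)
    refine ⟨J0, r0, fun w => ?_⟩
    have h1 : w ∈ Submodule.span (MvPolynomial (Fin m) Δ.E) (Set.range r0) := by
      rw [hr0]; trivial
    rw [Submodule.mem_span_range_iff_exists_fun] at h1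
    obtain ⟨p, hp⟩ := h1
    exact ⟨p, hp.symm⟩
  have hspan : ∀ w ∈ R, ∃ p : Fin (J0 + 1) → MvPolynomial (Fin m) Δ.E,
      w = ∑ j, aeval s (p j) * (Fin.cons 1 (fun j => (r0 j : UL 𝒰 L)) : Fin (J0 + 1) → UL 𝒰 L) j := by
    intro w hw
    obtain ⟨p, hp⟩ := hr0 ⟨w, hw⟩
    refine ⟨Fin.cons 0 p, ?_⟩
    rw [Fin.sum_univ_succ]
    simp only [Fin.cons_zero, Fin.cons_succ, map_zero, zero_mul, zero_add]
    have h1 := congrArg (fun z : R => (z : UL 𝒰 L)) hp
    simp only at h1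
    rw [h1]
    rw [show ((∑ j, aeval (fun a => (⟨s a, hsR a⟩ : R)) (p j) * r0 j : R) : UL 𝒰 L) =
      ∑ j, ((aeval (fun a => (⟨s a, hsR a⟩ : R)) (p j) * r0 j : R) : UL 𝒰 L) from
        map_sum R.val _ _]
    refine Finset.sum_congr rfl fun j _ => ?_
    rw [← hval]
    rfl
  choose! dE hdE using fun e : Δ.E => (show ∃ e' : Δ.E,
    uD Δ.D (algebraMap Δ.E (UL 𝒰 L) e) = algebraMap Δ.E (UL 𝒰 L) e' from
      ⟨⟨_, (Pool.Agent.Y141.FG.ld Δ).1 _ e.2⟩, rfl⟩)
  have hsieg := fun q => siegel (E := Δ.E) (K := UL 𝒰 L) (s := s)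
    (r := Fin.cons 1 (fun j => (r0 j : UL 𝒰 L))) (D := uD Δ.D) (dE := dE)
    (fun v w => map_add _ _ _) (fun v w => by
      rw [Derivation.leibniz, smul_eq_mul, smul_eq_mul]; ring) hdE hs R hsR hDR
    (fun j => by
      refine Fin.cases ?_ (fun j => ?_) j
      · exact one_mem R
      · exact (r0 j).2) ⟨0, rfl⟩ hspan hf0 hg0 hfg q
  intro ε hε
  obtain ⟨q, hq1, hq⟩ : ∃ q : ℕ, 1 ≤ q ∧ (M : ℝ) ≤ ε * q := by
    obtain ⟨q, hq⟩ := exists_nat_ge ((M : ℝ) / ε)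
    refine ⟨q + 1, by omega, ?_⟩
    rw [div_le_iff₀ hε] at hq
    push_cast
    nlinarith
  obtain ⟨N0, hN0, p, hp, hp0, hv⟩ := hsieg q
  set v := aeval s p with hvdef
  set l := q * N0 with hl
  have hl1 : 1 ≤ l := Nat.one_le_iff_ne_zero.2 (Nat.mul_ne_zero (by omega) (by omega))
  have hv0 : v ≠ 0 := by
    intro h
    exact hp0 (hs (by rw [map_zero]; exact h))
  obtain ⟨B, hB⟩ := ht_poly s hsn p hp
  -- the iterates are small
  have hsm : ∀ i : Fin l, ∃ e : Om k L → ℤ, Bd 𝒰 Δ.χ e ∧ (∀ ω, 0 ≤ e ω) ∧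
      ∀ᶠ ω in EV 𝒰 k L, ω ∈ Q → (uD Δ.D)^[i] v = 0 ∨
        mo (fun j => (ψ j : UL 𝒰 L)) ω - e ω ≤ oo ((uD Δ.D)^[i] v) ω := by
    intro i
    obtain ⟨u, hu, u', hu', heq⟩ := hv i i.2
    have h1 : (⟨aeval s f * u + aeval s g * u', add_mem (mul_mem (by rw [← hval]; exact Subtype.property _) hu)
        (mul_mem (by rw [← hval]; exact Subtype.property _) hu')⟩ : R) ∈
        SmlI R Q hQ (fun j => (ψ j : UL 𝒰 L)) := by
      have h2 := Ideal.add_mem _ (Ideal.mul_mem_right (⟨u, hu⟩ : R) _ (hIle hfI))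
        (Ideal.mul_mem_right (⟨u', hu'⟩ : R) _ (hIle hgI))
      convert h2 using 1
      apply Subtype.ext
      change aeval s f * u + aeval s g * u' =
        ((aeval (fun a => (⟨s a, hsR a⟩ : R)) f : R) : UL 𝒰 L) * u +
        ((aeval (fun a => (⟨s a, hsR a⟩ : R)) g : R) : UL 𝒰 L) * u'
      rw [hval, hval]
    obtain ⟨e, he, he0, h3⟩ := h1
    refine ⟨e, he, he0, ?_⟩
    filter_upwards [h3] with ω h4 hω
    have h5 := h4 hω (mo (fun j => (ψ j : UL 𝒰 L)) ω) (fun j => by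
      by_cases hj : (ψ j : UL 𝒰 L) = 0
      · exact Or.inl hj
      · exact Or.inr (mo_le _ hj ω))
    rw [heq]
    simpa using h5
  choose e2 he2 he20 h2 using hsm
  -- the good places
  set bad : Om k L → ℤ := fun ω => ∑ i, e2 i ω + |vo ω.2 (Δ.D ω.1)| with hbad
  have hbadBd : Bd 𝒰 Δ.χ bad := (Bd.sum Δ.nonneg Finset.univ fun i _ => he2 i).add Δ.vo_bd
  have hbad0 : ∀ ω, 0 ≤ bad ω := fun ω =>
    add_nonneg (Finset.sum_nonneg fun i _ => he20 i ω) (abs_nonneg _)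
  have hK0 : ∀ i : Fin l, ∀ᶠ ω in EV 𝒰 k L, ((uD Δ.D)^[i] v ≠ 0 →
      uD Δ.D ((uD Δ.D)^[i] v) = 0 → oo ((uD Δ.D)^[i] v) ω = 0) := by
    intro i
    by_cases h3 : (uD Δ.D)^[i] v ≠ 0 ∧ uD Δ.D ((uD Δ.D)^[i] v) = 0
    · filter_upwards [Pool.Agent.Y852.FG.oo_K0 (mem_K0_of_der h3.2) h3.1] with ω h4 _ _
      exact h4
    · refine Eventually.of_forall fun ω h4 h5 => absurd ⟨h4, h5⟩ h3
  have hcount : ∀ᶠ ω in EV 𝒰 k L, ω ∈ Q → bad ω = 0 → 1 ≤ mo (fun j => (ψ j : UL 𝒰 L)) ω →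
      (l : ℤ) ≤ oo v ω := by
    filter_upwards [eventually_all.2 h2, eventually_all.2 hK0,
      eventually_all.2 (fun i : Fin l => Pool.Agent.Y960.FG.oo_uD (Δ := Δ) ((uD Δ.D)^[i] v))]
      with ω h3 h4 h5 hω hb hmo
    have hvo : vo ω.2 (Δ.D ω.1) = 0 := by
      have h6 := abs_nonneg (vo ω.2 (Δ.D ω.1))
      have h7 : 0 ≤ ∑ i, e2 i ω := Finset.sum_nonneg fun i _ => he20 i ω
      have h8 : |vo ω.2 (Δ.D ω.1)| = 0 := by
        simp only [hbad] at hb
        omega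
      exact abs_eq_zero.1 h8
    have he : ∀ i, e2 i ω = 0 := by
      intro i
      have h6 := abs_nonneg (vo ω.2 (Δ.D ω.1))
      have h7 := Finset.single_le_sum (f := fun i => e2 i ω) (fun i _ => he20 i ω)
        (Finset.mem_univ i)
      have h8 := he20 i ω
      simp only [hbad] at hb h7
      omega
    have key : ∀ i (hi : i < l), (uD Δ.D)^[i] v ≠ 0 ∧ oo ((uD Δ.D)^[i] v) ω = oo v ω - i ∧
        1 ≤ oo ((uD Δ.D)^[i] v) ω := by
      intro i
      induction i with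
      | zero =>
        intro hi
        have h6 := h3 ⟨0, hi⟩ hω
        rw [he ⟨0, hi⟩] at h6
        have h7 : (uD Δ.D)^[((⟨0, hi⟩ : Fin l) : ℕ)] v = v := rfl
        rw [h7] at h6
        have h8 := h6.resolve_left hv0
        refine ⟨hv0, ?_, ?_⟩
        · simp
        · change 1 ≤ oo v ω
          linarith
      | succ i ih =>
        intro hi
        obtain ⟨h6, h7, h8⟩ := ih (by omega)
        have h9 := h5 ⟨i, by omega⟩ (by
          change oo ((uD Δ.D)^[i] v) ω ≠ 0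
          omega)
        change oo (uD Δ.D ((uD Δ.D)^[i] v)) ω = oo ((uD Δ.D)^[i] v) ω - 1 + vo ω.2 (Δ.D ω.1) at h9
        rw [hvo] at h9
        rw [Function.iterate_succ_apply']
        have h10 : uD Δ.D ((uD Δ.D)^[i] v) ≠ 0 := by
          intro h11
          have h12 := h4 ⟨i, by omega⟩ h6 h11
          change oo ((uD Δ.D)^[i] v) ω = 0 at h12
          omega
        refine ⟨h10, ?_, ?_⟩
        · rw [h9, h7]; push_cast; ring
        · have h11 := h3 ⟨i + 1, hi⟩ hω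
          rw [he ⟨i + 1, hi⟩] at h11
          have h12 : (uD Δ.D)^[((⟨i + 1, hi⟩ : Fin l) : ℕ)] v = uD Δ.D ((uD Δ.D)^[i] v) :=
            Function.iterate_succ_apply' _ _ _
          rw [h12] at h11
          have h13 := h11.resolve_left h10
          linarith
    obtain ⟨-, h6, h7⟩ := key (l - 1) (by omega)
    rw [h6] at h7
    have h8 : ((l - 1 : ℕ) : ℤ) = l - 1 := by omega
    rw [h8] at h7
    linarith
  -- conclusion
  have hmain : ∀ᶠ ω in EV 𝒰 k L, (l : ℤ) * (if ω ∈ Q then mo (fun j => (ψ j : UL 𝒰 L)) ω else 0) ≤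
      l * (M * bad ω + e1 ω) + M * max (oo v ω) 0 := by
    filter_upwards [hM, hcount] with ω h3 h4
    have h5 := he10 ω
    have h6 := hbad0 ω
    have h7 := le_max_right (oo v ω) 0
    have h8 : (0 : ℤ) ≤ M * bad ω := mul_nonneg (by positivity) h6
    have h9 : (0 : ℤ) ≤ M * max (oo v ω) 0 := mul_nonneg (by positivity) h7
    have h10 : (0 : ℤ) ≤ l := by positivity
    split_ifs with hω
    · have h11 := h3 hω
      by_cases hb : bad ω = 0
      · by_cases hmo : 1 ≤ mo (fun j => (ψ j : UL 𝒰 L)) ω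
        · have h12 := h4 hω hb hmo
          have h13 : (l : ℤ) * mo (fun j => (ψ j : UL 𝒰 L)) ω ≤ l * (M + e1 ω) :=
            mul_le_mul_of_nonneg_left h11 h10
          have h14 : (M : ℤ) * l ≤ M * max (oo v ω) 0 :=
            mul_le_mul_of_nonneg_left (h12.trans (le_max_left _ _)) (by positivity)
          rw [hb]
          nlinarith
        · have h13 : (l : ℤ) * mo (fun j => (ψ j : UL 𝒰 L)) ω ≤ l * 0 :=
            mul_le_mul_of_nonneg_left (by omega) h10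
          have h14 : (0 : ℤ) ≤ l * (M * bad ω + e1 ω) := mul_nonneg h10 (by linarith)
          linarith
      · have h12 : 1 ≤ bad ω := by omega
        have h13 : (l : ℤ) * mo (fun j => (ψ j : UL 𝒰 L)) ω ≤ l * (M * bad ω + e1 ω) := by
          refine mul_le_mul_of_nonneg_left ?_ h10
          have h14 : (M : ℤ) * 1 ≤ M * bad ω := mul_le_mul_of_nonneg_left h12 (by positivity)
          linarith
        linarith
    · have h14 : (0 : ℤ) ≤ l * (M * bad ω + e1 ω) := mul_nonneg h10 (by linarith)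
      linarith
  obtain ⟨C, hC⟩ := (hbadBd.smul M).add he1
  refine ⟨C + M * B / l, ?_⟩
  filter_upwards [ev_iff.1 hmain, hC, hB, Δ.nonneg] with i h3 h4 h5 h6 T
  have h7 : (l : ℤ) * ∑ P ∈ T, (if (⟨i, P⟩ : Om k L) ∈ Q then
      mo (fun j => (ψ j : UL 𝒰 L)) ⟨i, P⟩ else 0) ≤
      l * (C * Δ.χ i) + M * (N0 * Hu k s i + B * Δ.χ i) := by
    rw [Finset.mul_sum]
    refine (Finset.sum_le_sum fun P _ => h3 P).trans ?_
    rw [Finset.sum_add_distrib, ← Finset.mul_sum, ← Finset.mul_sum]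
    refine add_le_add (mul_le_mul_of_nonneg_left (h4 T) (by positivity))
      (mul_le_mul_of_nonneg_left ?_ (by positivity))
    exact (sum_zero_le _ T).trans h5
  have h8 : (l : ℝ) * ((∑ P ∈ T, (if (⟨i, P⟩ : Om k L) ∈ Q then
      mo (fun j => (ψ j : UL 𝒰 L)) ⟨i, P⟩ else 0) : ℤ) : ℝ) ≤
      l * (C * Δ.χ i) + M * (N0 * Hu k s i + B * Δ.χ i) := by exact_mod_cast h7
  have h9 : (0 : ℝ) < l := by exact_mod_cast (by omega : 0 < l)
  have h10 : (0 : ℝ) ≤ Hu k s i := by exact_mod_cast Hu_nonneg s i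
  have h11 : (l : ℝ) = q * N0 := by rw [hl]; push_cast; ring
  refine le_of_mul_le_mul_left (h8.trans ?_) h9
  have h12 : (M : ℝ) * (N0 * Hu k s i) ≤ l * (ε * Hu k s i) := by
    rw [h11]
    have h13 : (0 : ℝ) ≤ N0 * Hu k s i := by positivity
    nlinarith
  have h14 : (l : ℝ) * ((C + M * B / l) * Δ.χ i) = l * (C * Δ.χ i) + M * (B * Δ.χ i) := by
    field_simp
  linarith

end Pool.Agent.K1H80.EC
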