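import Pool.Agent.K1H80.EC.Tu
import Pool.Agent.Y731.FG.Fin5

/-!
# The truncated inequality of Vojta for products of constant elliptic curves
-/

set_option autoImplicit false
set_option linter.unusedSectionVars false
set_option linter.unusedVariables false

namespace Pool.Agent.K1H80.EC

open FF Filter MvPolynomial Module Pool.Agent.W603.LV Pool.Agent.W603.PV Pool.Agent.W603.CZ
open Pool.Agent.Y731.FG
open scoped Classical

section one

variable {k : Type} [Field k] [IsAlgClosed k] [CharZero k] {K : Type} [Field K] [Algebra k K]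
  [IsFF k K]

theorem locE_finite {F : Type} [Field F] [Algebra F K] {n w : ℕ}
    (G : Fin w → MvPolynomial (Fin n × Fin 3) F) (d : Fin w → Fin n → ℕ) (x y : Fin n → K)
    (hne : ∃ j, aeval (XX x y) (G j) ≠ 0) : {P : Place k K | locE G d P (XX x y) ≠ 0}.Finite := by
  have h1 : (⋃ j : Fin w, {P : Place k K | P.ord (aeval (XX x y) (G j)) ≠ 0}).Finite :=
    Set.finite_iUnion fun j => finite_support _
  have h2 : (⋃ i : Fin n, {P : Place k K | minOrd P (fun c => XX x y (i, c)) ≠ 0}).Finite :=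
    Set.finite_iUnion fun i => minOrd_finite (k := k) ⟨2, by simp [XX]⟩
  refine (h1.union h2).subset fun P hP => ?_
  by_contra hcon
  rw [Set.mem_union, not_or] at hcon
  have h3 : ∀ j, P.ord (aeval (XX x y) (G j)) = 0 := by
    intro j
    by_contra h
    exact hcon.1 (Set.mem_iUnion.2 ⟨j, h⟩)
  have h4 : ∀ i, minOrd P (fun c => XX x y (i, c)) = 0 := by
    intro i
    by_contra h
    exact hcon.2 (Set.mem_iUnion.2 ⟨i, h⟩)
  apply hP
  unfold locE
  obtain ⟨j, hj⟩ := hne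
  have : Nonempty {j // aeval (XX x y) (G j) ≠ 0} := ⟨⟨j, hj⟩⟩
  simp only [h3, h4, mul_zero, Finset.sum_const_zero, sub_zero, ciInf_const]

/-- the height of the second coordinate -/
theorem ht_y_le (x y : K) : hgt k y ≤ hgtP k ![x, y, 1] := by
  have hx : ∃ c, ![x, y, 1] c ≠ 0 := ⟨2, by simp⟩
  have hf1 := (finite_support (k := k) y).union (minOrd_finite (k := k) hx)
  rw [hgt_finset y hf1.toFinset (fun P hP => by
    rw [Set.Finite.mem_toFinset]
    exact Or.inl hP), hgtP_finset hx hf1.toFinset (fun P hP => by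
    rw [Set.Finite.mem_toFinset]
    exact Or.inr hP), ← Finset.sum_neg_distrib]
  refine Finset.sum_le_sum fun P _ => max_le ?_ ?_
  · by_cases hy : y = 0
    · have h1 := minOrd_le P (x := ![x, y, 1]) (c := 2) (by simp)
      have h2 : P.ord (![x, y, 1] 2) = 0 := by simp [P.ord_one]
      rw [hy, P.ord_zero]
      rw [hy] at h1 h2
      omega
    · have h1 := minOrd_le P (x := ![x, y, 1]) (c := 1) (by simpa using hy)
      have h2 : P.ord (![x, y, 1] 1) = P.ord y := by simp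
      omega
  · have h1 := minOrd_le P (x := ![x, y, 1]) (c := 2) (by simp)
    have h2 : P.ord (![x, y, 1] 2) = 0 := by simp [P.ord_one]
    omega

end one

/-- **The main theorem**, for divisors (`τ = 1`) and for subschemes of codimension at least two
(`τ = 0`). -/
theorem ecMain {k F : Type} [Field k] [IsAlgClosed k] [CharZero k] [Field F] [Algebra k F]
    [IsFF k F] {n w : ℕ} {a b : Fin n → k} (hab : ∀ i, 4 * a i ^ 3 + 27 * b i ^ 2 ≠ 0)
    (hni : ∀ i j, i ≠ j → NonIsogenous (a i) (b i) (a j) (b j))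
    (G : Fin w → MvPolynomial (Fin n × Fin 3) F) (d : Fin w → Fin n → ℕ)
    (hG : ∀ j, IsForm (d j) (G j)) (τ : ℕ) (hτ : (τ = 1 ∧ Red a b G) ∨ (τ = 0 ∧ Cod a b G))
    (ε : ℝ) (hε : 0 < ε) :
    ∃ (f : MvPolynomial (Fin n) F) (C : ℕ), f ≠ 0 ∧
      ∀ (L : Type) [Field L] [Algebra k L] [Algebra F L] [IsScalarTower k F L]
        [FiniteDimensional F L] (x y : Fin n → L),
        (∀ i, y i ^ 2 = x i ^ 3 + algebraMap k L (a i) * x i + algebraMap k L (b i)) →
        aeval x f ≠ 0 → (∃ j, aeval (XX x y) (G j) ≠ 0) →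
        ((∑ᶠ P : Place k L, locE G d P (XX x y) : ℤ) : ℝ) ≤
          τ * ({P : Place k L | 0 < locE G d P (XX x y)}.ncard : ℝ) +
            ε * ∑ i, (hgtP k ![x i, y i, 1] : ℝ) + C * (Module.finrank F L + disc k F L) := by
  by_contra hcon
  have hF0 : CharZero F := charZero_of_injective_algebraMap (algebraMap k F).injective
  let S : Set (MvPolynomial (Fin n) F) := {f | f ≠ 0}
  obtain ⟨𝒰, h𝒰⟩ := exists_uf S (fun a ha => ha) (fun a ha b hb => mul_ne_zero ha hb)
    ⟨1, one_ne_zero⟩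
  have hex : ∀ i : S × ℕ, ∃ (L : Type) (_ : Field L) (_ : Algebra k L) (_ : Algebra F L)
      (_ : IsScalarTower k F L) (_ : FiniteDimensional F L) (x y : Fin n → L),
      (∀ i, y i ^ 2 = x i ^ 3 + algebraMap k L (a i) * x i + algebraMap k L (b i)) ∧
        aeval x (i.1 : MvPolynomial (Fin n) F) ≠ 0 ∧ (∃ j, aeval (XX x y) (G j) ≠ 0) ∧
        ¬ ((∑ᶠ P : Place k L, locE G d P (XX x y) : ℤ) : ℝ) ≤
          τ * ({P : Place k L | 0 < locE G d P (XX x y)}.ncard : ℝ) +
            ε * ∑ i, (hgtP k ![x i, y i, 1] : ℝ) + i.2 * (Module.finrank F L + disc k F L) := by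
    rintro ⟨⟨f, hf⟩, C⟩
    by_contra hno
    apply hcon
    refine ⟨f, C, hf, ?_⟩
    intro L _ _ _ _ _ x y h1 h2 h3
    by_contra h7
    exact hno ⟨L, _, _, _, inferInstance, inferInstance, x, y, h1, h2, h3, h7⟩
  choose L iF ikL iFL iT iD x y h1 h2 h3 h7 using hex
  have iFF : ∀ i, IsFF k (L i) := fun i => isFF_of_finite (F := F)
  set χ : S × ℕ → ℤ := fun i => (Module.finrank F (L i) : ℤ) + disc k F (L i) with hχ
  obtain ⟨Δ, hΔ⟩ := allDT (𝒰 := 𝒰) (k := k) (F := F) (L := L) χ (fun i => le_rfl)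
  -- the points of the ultraproduct
  set xu : Fin n → UL 𝒰 L := fun m => um 𝒰 (fun i => x i m) with hxu
  set yu : Fin n → UL 𝒰 L := fun m => um 𝒰 (fun i => y i m) with hyu
  have hxy : ∀ m, yu m ^ 2 = xu m ^ 3 + algebraMap k (UL 𝒰 L) (a m) * xu m +
      algebraMap k (UL 𝒰 L) (b m) := by
    intro m
    have e1 : ∀ t : k, algebraMap k (UL 𝒰 L) t = um 𝒰 (fun i => algebraMap k (L i) t) :=
      fun t => rfl
    rw [hxu, hyu, e1, e1]
    simp only
    rw [← um_pow, ← um_pow, ← um_mul, ← um_add, ← um_add, um_eq]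
    exact Eventually.of_forall fun i => h1 i m
  have hgen : AlgebraicIndependent F xu := by
    rw [algebraicIndependent_iff]
    intro f hf
    by_contra hf0
    rw [hxu, ← um_aeval 𝒰 (fun m i => x i m) f, um_zero_iff] at hf
    obtain ⟨i, hi1, hi2⟩ := (hf.and (h𝒰 f hf0 0)).exists
    apply h2 i
    obtain ⟨g, hg⟩ := hi2.1
    rw [hg, map_mul]
    have : aeval (x i) f = 0 := hi1
    rw [this, zero_mul]
  have hXX : ∀ v, XX xu yu v = um 𝒰 (fun i => XX (x i) (y i) v) := by
    rintro ⟨m, c⟩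
    fin_cases c
    · rfl
    · rfl
    · rfl
  have hXXf : XX xu yu = fun v => um 𝒰 (fun i => XX (x i) (y i) v) := funext hXX
  have hne : ∃ j, aeval (XX xu yu) (G j) ≠ 0 := by
    have h8 : ∀ᶠ i in (𝒰 : Filter (S × ℕ)), ∃ j, aeval (XX (x i) (y i)) (G j) ≠ 0 :=
      Eventually.of_forall h3
    obtain ⟨j, hj⟩ := Pool.Agent.Y852.FG.ev_exists h8
    refine ⟨j, ?_⟩
    rw [hXXf, ← um_aeval 𝒰 (fun v i => XX (x i) (y i) v) (G j), um_ne_iff]
    exact hj
  -- the inequality at almost all places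
  have hT : ∃ e : Om k L → ℤ, Ng 𝒰 Δ.χ (HJ Δ xu yu) e ∧
      ∀ᶠ ω in EV 𝒰 k L, lamE G d (XX xu yu) ω -
        τ * (if 0 < lamE G d (XX xu yu) ω then 1 else 0) ≤ e ω := by
    rcases hτ with ⟨rfl, hred⟩ | ⟨rfl, hcod⟩
    · obtain ⟨e, he1, he2⟩ := T1u (Δ := Δ) hab hni hxy hgen hG hne hred
      refine ⟨e, he1, ?_⟩
      filter_upwards [he2] with ω h
      rw [Nat.cast_one, one_mul]
      exact h
    · obtain ⟨e, he1, he2⟩ := T2u (Δ := Δ) hab hni hxy hgen hG hne hcod
      refine ⟨e, he1, ?_⟩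
      filter_upwards [he2] with ω h
      rw [Nat.cast_zero, zero_mul, sub_zero]
      exact h
  obtain ⟨e, he1, he2⟩ := hT
  obtain ⟨B, hB⟩ := he1 ε hε
  obtain ⟨C0, hC0⟩ := exists_nat_ge B
  have hrep : ∀ᶠ i in (𝒰 : Filter (S × ℕ)), ∀ v, rep (XX xu yu v) i = XX (x i) (y i) v := by
    rw [eventually_all]
    intro v
    rw [hXX]
    exact rep_um _
  have hrepy : ∀ᶠ i in (𝒰 : Filter (S × ℕ)), ∀ m, rep (yu m) i = y i m := by
    rw [eventually_all]
    intro m
    exact rep_um _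
  obtain ⟨i, hi1, hi2, hi3, hi4, hi5, hi6, hi7⟩ := (hB.and ((ev_iff.1 he2).and
    ((lamE_eq (k := k) G d (XX xu yu)).and (hrep.and (hrepy.and (Δ.nonneg.and
      (h𝒰 1 one_ne_zero C0))))))).exists
  apply h7 i
  have hlam : ∀ P : Place k (L i), lamE G d (XX xu yu) (⟨i, P⟩ : Om k L) =
      locE G d P (XX (x i) (y i)) := by
    intro P
    rw [hi3]
    congr 1
    funext v
    exact hi4 v
  have hfin := locE_finite (k := k) G d (x i) (y i) (h3 i)
  set T := hfin.toFinset with hTdef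
  have e1 : ∑ᶠ P : Place k (L i), locE G d P (XX (x i) (y i)) =
      ∑ P ∈ T, locE G d P (XX (x i) (y i)) := by
    rw [finsum_eq_sum_of_support_subset]
    intro P hP
    rw [hTdef, Set.Finite.coe_toFinset]
    exact hP
  have e2 : {P : Place k (L i) | 0 < locE G d P (XX (x i) (y i))}.ncard =
      (T.filter fun P => 0 < locE G d P (XX (x i) (y i))).card := by
    rw [← Set.ncard_coe_finset]
    congr 1
    ext P
    rw [Finset.coe_filter, hTdef]
    simp only [Set.Finite.mem_toFinset]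
    exact ⟨fun h => ⟨ne_of_gt h, h⟩, fun h => h.2⟩
  have e3 : ∑ P ∈ T, locE G d P (XX (x i) (y i)) ≤
      τ * ((T.filter fun P => 0 < locE G d P (XX (x i) (y i))).card : ℤ) +
        ∑ P ∈ T, e ⟨i, P⟩ := by
    rw [Finset.card_filter]
    push_cast
    rw [Finset.mul_sum, ← Finset.sum_add_distrib]
    refine Finset.sum_le_sum fun P _ => ?_
    have := hi2 P
    rw [hlam] at this
    linarith
  have e4 : ((∑ P ∈ T, locE G d P (XX (x i) (y i)) : ℤ) : ℝ) ≤
      τ * ((T.filter fun P => 0 < locE G d P (XX (x i) (y i))).card : ℝ) +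
        ((∑ P ∈ T, e ⟨i, P⟩ : ℤ) : ℝ) := by exact_mod_cast e3
  rw [e1, e2]
  refine e4.trans ?_
  rw [add_assoc]
  refine add_le_add le_rfl ((hi1 T).trans ?_)
  have g1 : (0 : ℝ) ≤ Δ.χ i := by exact_mod_cast hi6
  have g2 : (B : ℝ) ≤ i.2 := hC0.trans (by exact_mod_cast hi7.2)
  have g3 : (Δ.χ i : ℝ) = Module.finrank F (L i) + disc k F (L i) := by
    rw [hΔ, hχ]
    push_cast
    rfl
  have g4 : (HJ Δ xu yu i : ℝ) ≤ ∑ m, (hgtP k ![x i m, y i m, 1] : ℝ) := by
    have g5 : HJ Δ xu yu i ≤ ∑ m, hgtP k ![x i m, y i m, 1] := by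
      unfold HJ
      have g6 : ∑ j : JJ Δ xu, ht k (yu j) i ≤ ∑ j : JJ Δ xu, hgtP k ![x i j, y i j, 1] := by
        refine Finset.sum_le_sum fun j _ => ?_
        unfold ht
        rw [hi5]
        exact ht_y_le _ _
      refine g6.trans ?_
      have g8 : ∑ j : JJ Δ xu, hgtP k ![x i j, y i j, 1] =
          ∑ j ∈ (Finset.univ : Finset (JJ Δ xu)).map (Function.Embedding.subtype _),
            hgtP k ![x i j, y i j, 1] := by
        rw [Finset.sum_map]
        rfl
      rw [g8]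
      exact Finset.sum_le_sum_of_subset_of_nonneg (Finset.subset_univ _)
        fun j _ _ => hgtP_nonneg ⟨2, by simp⟩
    exact_mod_cast g5
  rw [← g3]
  have g9 := mul_le_mul_of_nonneg_right g2 g1
  have g10 := mul_le_mul_of_nonneg_left g4 hε.le
  linarith

end Pool.Agent.K1H80.EC
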