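import Pool.Agent.K1H80.EC.Asm

/-!
# Local heights in the ultraproduct
-/

set_option autoImplicit false
set_option linter.unusedSectionVars false
set_option linter.unusedVariables false

namespace Pool.Agent.K1H80.EC

open FF Filter MvPolynomial Module Pool.Agent.W603.LV Pool.Agent.W603.PV Pool.Agent.W603.CZ
open Pool.Agent.Y731.FG
open scoped Classical

section defs

variable {I : Type} {𝒰 : Ultrafilter I} {k F : Type} [Field k] [Field F] {L : I → Type}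
  [∀ i, Field (L i)] [∀ i, Algebra k (L i)] [∀ i, Algebra F (L i)]

/-- the local height with respect to the subscheme with the equations `G j = 0` -/
noncomputable def locE {K : Type} [Field K] [Algebra k K] [Algebra F K] {n w : ℕ}
    (G : Fin w → MvPolynomial (Fin n × Fin 3) F) (d : Fin w → Fin n → ℕ) (P : Place k K)
    (X : Fin n × Fin 3 → K) : ℤ :=
  ⨅ j : {j // aeval X (G j) ≠ 0},
    (P.ord (aeval X (G j.1)) - ∑ i, d j.1 i * minOrd P (fun c => X (i, c)))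

/-- the local height in the ultraproduct -/
noncomputable def lamE {n w : ℕ} (G : Fin w → MvPolynomial (Fin n × Fin 3) F)
    (d : Fin w → Fin n → ℕ) (z : Fin n × Fin 3 → UL 𝒰 L) (ω : Om k L) : ℤ :=
  ⨅ j : {j // aeval z (G j) ≠ 0},
    (oo (aeval z (G j.1)) ω - ∑ i, d j.1 i * mo (fun c => z (i, c)) ω)

theorem lamE_le {n w : ℕ} (G : Fin w → MvPolynomial (Fin n × Fin 3) F)
    (d : Fin w → Fin n → ℕ) (z : Fin n × Fin 3 → UL 𝒰 L) {j : Fin w} (hj : aeval z (G j) ≠ 0)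
    (ω : Om k L) :
    lamE G d z ω ≤ oo (aeval z (G j)) ω - ∑ i, d j i * mo (fun c => z (i, c)) ω :=
  ciInf_le (Finite.bddBelow_range _) (⟨j, hj⟩ : {j // aeval z (G j) ≠ 0})

theorem lamE_eq {n w : ℕ} (G : Fin w → MvPolynomial (Fin n × Fin 3) F)
    (d : Fin w → Fin n → ℕ) (z : Fin n × Fin 3 → UL 𝒰 L) :
    ∀ᶠ i in (𝒰 : Filter I), ∀ P : Place k (L i),
      lamE G d z (⟨i, P⟩ : Om k L) = locE G d P (fun v => rep (z v) i) := by
  have h1 : ∀ᶠ i in (𝒰 : Filter I), ∀ j, rep (aeval z (G j)) i =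
      aeval (fun s => rep (z s) i) (G j) := eventually_all.2 fun j => rep_aeval z (G j)
  have h2 : ∀ᶠ i in (𝒰 : Filter I), ∀ m : Fin n, ∀ P : Place k (L i),
      mo (fun c => z (m, c)) (⟨i, P⟩ : Om k L) = minOrd P (fun c => rep (z (m, c)) i) :=
    eventually_all.2 fun m => mo_eq _
  filter_upwards [rep_ne_iff (fun j => aeval z (G j)), h1, h2] with i hi h1 h2 P
  unfold lamE locE
  have h3 : ∀ j, aeval z (G j) ≠ 0 ↔ aeval (fun s => rep (z s) i) (G j) ≠ 0 := by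
    intro j
    rw [← h1]
    exact hi j
  refine Equiv.iInf_congr (Equiv.subtypeEquivRight h3) fun j => ?_
  change P.ord (aeval (fun s => rep (z s) i) (G j.1)) -
    ∑ m, (d j.1 m : ℤ) * minOrd P (fun c => rep (z (m, c)) i) =
    P.ord (rep (aeval z (G j.1)) i) - ∑ m, (d j.1 m : ℤ) * mo (fun c => z (m, c)) ⟨i, P⟩
  rw [h1]
  congr 1
  exact Finset.sum_congr rfl fun m _ => by rw [h2]

end defs

variable {I : Type} {𝒰 : Ultrafilter I} {k F : Type} [Field k] [IsAlgClosed k] [CharZero k]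
  [Field F] [Algebra k F] {L : I → Type} [∀ i, Field (L i)] [∀ i, Algebra k (L i)]
  [∀ i, Algebra F (L i)] [∀ i, IsScalarTower k F (L i)]
  [∀ i, IsFF k (L i)] {Δ : Dt 𝒰 k F L}

/-- homogeneous coordinates of the points -/
def XX {K : Type*} [One K] {n : ℕ} (x y : Fin n → K) (v : Fin n × Fin 3) : K :=
  ![x v.1, y v.1, 1] v.2

variable {n : ℕ} {a b : Fin n → k} {x y : Fin n → UL 𝒰 L}

/-- the error term of the coordinates in the small field -/
noncomputable def e0 (Δ : Dt 𝒰 k F L) {w : ℕ} (d : Fin w → Fin n → ℕ) (x y : Fin n → UL 𝒰 L)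
    (ω : Om k L) : ℤ :=
  ∑ j, ∑ i, (d j i : ℤ) * (if i ∈ JJ Δ x then 0 else |oo (x i) ω| + |oo (y i) ω|)

theorem e0_nonneg {w : ℕ} (d : Fin w → Fin n → ℕ) (ω : Om k L) : 0 ≤ e0 Δ d x y ω := by
  refine Finset.sum_nonneg fun j _ => Finset.sum_nonneg fun i _ => mul_nonneg (by positivity) ?_
  split_ifs
  · exact le_refl _
  · exact add_nonneg (abs_nonneg _) (abs_nonneg _)

theorem e0_bd (hxy : ∀ i, y i ^ 2 = x i ^ 3 + algebraMap k (UL 𝒰 L) (a i) * x i +
      algebraMap k (UL 𝒰 L) (b i)) {w : ℕ} (d : Fin w → Fin n → ℕ) :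
    Bd 𝒰 Δ.χ (e0 Δ d x y : Om k L → ℤ) := by
  refine Bd.sum Δ.nonneg Finset.univ fun j _ => Bd.sum Δ.nonneg Finset.univ fun i _ => ?_
  refine Bd.smul (d j i) ?_
  by_cases hi : i ∈ JJ Δ x
  · simp only [if_pos hi]
    exact Bd.zero Δ.nonneg
  · simp only [if_neg hi]
    have hx : x i ∈ Δ.E := not_not.1 hi
    exact (Δ.bd_E hx).add (Δ.bd_E (y_mem_E (hxy i) hx))

theorem e0_ge {w : ℕ} (d : Fin w → Fin n → ℕ) (j : Fin w) (ω : Om k L) :
    ∑ i, (d j i : ℤ) * (if i ∈ JJ Δ x then 0 else |oo (x i) ω| + |oo (y i) ω|) ≤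
      e0 Δ d x y ω := by
  refine Finset.single_le_sum (f := fun j => ∑ i, (d j i : ℤ) *
    (if i ∈ JJ Δ x then 0 else |oo (x i) ω| + |oo (y i) ω|)) (fun j _ => ?_) (Finset.mem_univ j)
  refine Finset.sum_nonneg fun i _ => mul_nonneg (by positivity) ?_
  split_ifs
  · exact le_refl _
  · exact add_nonneg (abs_nonneg _) (abs_nonneg _)

/-- the local height is at most the order of the equations in a chart -/
theorem lamE_chart
    (hxy : ∀ i, y i ^ 2 = x i ^ 3 + algebraMap k (UL 𝒰 L) (a i) * x i +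
      algebraMap k (UL 𝒰 L) (b i)) (hy : ∀ i, y i ≠ 0)
    (hEx : ∀ i ∉ JJ Δ x, ∃ e : Δ.E, algebraMap Δ.E (UL 𝒰 L) e = x i)
    (hEy : ∀ i ∉ JJ Δ x, ∃ e : Δ.E, algebraMap Δ.E (UL 𝒰 L) e = y i)
    {c : Fin n → Bool} (hc : ∀ i ∉ JJ Δ x, c i = false) {w : ℕ}
    {G : Fin w → MvPolynomial (Fin n × Fin 3) F} {d : Fin w → Fin n → ℕ}
    (hG : ∀ j, IsForm (d j) (G j)) :
    (∀ j, aeval (XX x y) (G j) ≠ 0 ↔ aeval (Pt hEx hEy hc) (G j) ≠ 0) ∧
    ∀ᶠ ω in EV 𝒰 k L, ω ∈ QJ (JJ Δ x) c x → ∀ j, aeval (Pt hEx hEy hc) (G j) ≠ 0 →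
      lamE G d (XX x y) ω - e0 Δ d x y ω ≤
        oo ((aeval (Pt hEx hEy hc) (G j) : RI Δ.E c x y (JJ Δ x)) : UL 𝒰 L) ω := by
  have hcU : CharZero (UL 𝒰 L) := charZero_of_injective_algebraMap (algebraMap k _).injective
  set t : Fin n → UL 𝒰 L := fun i => if c i = true then y i else 1 with ht
  have ht0 : ∀ i, t i ≠ 0 := by
    intro i
    simp only [ht]
    split_ifs
    · exact hy i
    · exact one_ne_zero
  have hX : XX x y = fun v => t v.1 * ((Pt hEx hEy hc v : RI Δ.E c x y (JJ Δ x)) : UL 𝒰 L) := by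
    funext v
    obtain ⟨i, j⟩ := v
    have h1 : ((Pt hEx hEy hc (i, j) : RI Δ.E c x y (JJ Δ x)) : UL 𝒰 L) =
        cv (c i) (pc (c i) (x i) (y i)) (qc (c i) (x i) (y i)) j :=
      cv_map ((RI Δ.E c x y (JJ Δ x)).val : RI Δ.E c x y (JJ Δ x) →+* UL 𝒰 L) _ _ _ _
    rw [h1]
    have h2 := hy i
    by_cases hci : c i = true
    · fin_cases j
      · simp [XX, ht, hci, cv, pc, qc]; field_simp
      · simp [XX, ht, hci, cv, pc, qc]
      · simp [XX, ht, hci, cv, pc, qc, h2]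
    · fin_cases j <;> simp [XX, ht, hci, cv, pc, qc]
  have hval : ∀ j, aeval (XX x y) (G j) = (∏ i, t i ^ d j i) *
      ((aeval (Pt hEx hEy hc) (G j) : RI Δ.E c x y (JJ Δ x)) : UL 𝒰 L) := by
    intro j
    rw [hX, (hG j).scale t]
    congr 1
    exact (pi_aeval (κ := UL 𝒰 L) (RI Δ.E c x y (JJ Δ x)).val (Pt hEx hEy hc) (G j)).symm
  have hprod : ∀ j, ∏ i, t i ^ d j i ≠ 0 := fun j =>
    Finset.prod_ne_zero_iff.2 fun i _ => pow_ne_zero _ (ht0 i)
  have hiff : ∀ j, aeval (XX x y) (G j) ≠ 0 ↔ aeval (Pt hEx hEy hc) (G j) ≠ 0 := by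
    intro j
    rw [hval, mul_ne_zero_iff]
    refine ⟨fun h h0 => h.2 (by rw [h0]; rfl), fun h => ⟨hprod j, fun h0 => h (Subtype.ext h0)⟩⟩
  refine ⟨hiff, ?_⟩
  have hord : ∀ᶠ ω in EV 𝒰 k L, ∀ j, aeval (Pt hEx hEy hc) (G j) ≠ 0 →
      oo (aeval (XX x y) (G j)) ω = ∑ i, (d j i : ℤ) * oo (t i) ω +
        oo ((aeval (Pt hEx hEy hc) (G j) : RI Δ.E c x y (JJ Δ x)) : UL 𝒰 L) ω := by
    rw [eventually_all]
    intro j
    by_cases hj : aeval (Pt hEx hEy hc) (G j) = 0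
    · exact Eventually.of_forall fun ω h => absurd hj h
    have hj' : ((aeval (Pt hEx hEy hc) (G j) : RI Δ.E c x y (JJ Δ x)) : UL 𝒰 L) ≠ 0 :=
      fun h0 => hj (Subtype.ext h0)
    have h3 : ∀ᶠ ω in EV 𝒰 k L, ∀ i, oo (t i ^ d j i) ω = d j i * oo (t i) ω := by
      rw [eventually_all]
      exact fun i => oo_pow (t i) (d j i)
    filter_upwards [oo_mul (k := k) (hprod j) hj', oo_prod (k := k) Finset.univ
      (fun i => t i ^ d j i) (fun i _ => pow_ne_zero _ (ht0 i)), h3] with ω h4 h5 h6 _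
    rw [hval, h4, h5]
    congr 1
    exact Finset.sum_congr rfl fun i _ => h6 i
  have hmo : ∀ᶠ ω in EV 𝒰 k L, ω ∈ QJ (JJ Δ x) c x → ∀ i, oo (t i) ω -
      (if i ∈ JJ Δ x then 0 else |oo (x i) ω| + |oo (y i) ω|) ≤
        mo (fun c => XX x y (i, c)) ω := by
    have h1 : ∀ᶠ ω in EV 𝒰 k L, ∀ i, (oo (x i) ω < 0 → y i ≠ 0 ∧ 2 * oo (y i) ω = 3 * oo (x i) ω) ∧
      (0 ≤ oo (x i) ω → y i = 0 ∨ 0 ≤ oo (y i) ω) := by
      rw [eventually_all]
      exact fun i => pole_ev (hxy i)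
    filter_upwards [h1, oo_one (𝒰 := 𝒰) (k := k) (L := L)] with ω h2 h3 hω i
    obtain ⟨j, hj, hj2⟩ := exists_mo (fun c => XX x y (i, c)) ⟨2, by simp [XX]⟩ ω
    rw [← hj2]
    have h4 : oo (XX x y (i, j)) ω = oo (x i) ω ∨ oo (XX x y (i, j)) ω = oo (y i) ω ∨
        oo (XX x y (i, j)) ω = 0 := by
      fin_cases j
      · left; simp [XX]
      · right; left; simp [XX]
      · right; right; simp [XX, h3]
    have h5 := h2 i
    by_cases hi : i ∈ JJ Δ x
    · rw [if_pos hi, sub_zero]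
      have h6 := hω i hi
      by_cases hci : c i = true
      · have h7 := h6.1 hci
        have h8 := (h5.1 h7).2
        have h9 : oo (t i) ω = oo (y i) ω := by simp [ht, hci]
        rw [h9]
        rcases h4 with h4 | h4 | h4 <;> rw [h4] <;> omega
      · have h7 : 0 ≤ oo (x i) ω := not_lt.1 fun h => hci (h6.2 h)
        have h8 := (h5.2 h7).resolve_left (hy i)
        have h9 : oo (t i) ω = 0 := by simp [ht, hci, h3]
        rw [h9]
        rcases h4 with h4 | h4 | h4 <;> rw [h4] <;> omega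
    · rw [if_neg hi]
      have h9 : oo (t i) ω = 0 := by simp [ht, hc i hi, h3]
      rw [h9]
      have h10 := neg_abs_le (oo (x i) ω)
      have h11 := neg_abs_le (oo (y i) ω)
      have h12 := abs_nonneg (oo (x i) ω)
      have h13 := abs_nonneg (oo (y i) ω)
      rcases h4 with h4 | h4 | h4 <;> rw [h4] <;> omega
  filter_upwards [hord, hmo] with ω h1 h2 hω j hj
  have h3 := lamE_le G d (XX x y) ((hiff j).2 hj) ω
  rw [h1 j hj] at h3
  have h4 := h2 hω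
  have h5 := e0_ge (Δ := Δ) (x := x) (y := y) d j ω
  have h6 : ∑ i, (d j i : ℤ) * oo (t i) ω - ∑ i, (d j i : ℤ) * (if i ∈ JJ Δ x then 0 else
      |oo (x i) ω| + |oo (y i) ω|) ≤ ∑ i, (d j i : ℤ) * mo (fun c => XX x y (i, c)) ω := by
    rw [← Finset.sum_sub_distrib]
    refine Finset.sum_le_sum fun i _ => ?_
    rw [← mul_sub]
    exact mul_le_mul_of_nonneg_left (h4 i) (by positivity)
  linarith

end Pool.Agent.K1H80.EC
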