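import Pool.Agent.K1H80.EC.Chart

/-!
# Amalgamation of differential fields
-/

set_option autoImplicit false
set_option linter.unusedSectionVars false

namespace Pool.Agent.K1H80.EC

open scoped Classical

/-- **Amalgamation.** -/
theorem amalg {k R κ Ω : Type} [Field k] [CommRing R] [IsDomain R] [Field κ] [Field Ω] [CharZero Ω]
    [IsAlgClosed Ω] [Algebra k R] [Algebra k κ] [Algebra k Ω] [Algebra R κ] [Algebra R Ω]
    (hκ : Function.Injective (algebraMap R κ)) (hΩ : Function.Injective (algebraMap R Ω))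
    (halg : Algebra.IsAlgebraic R κ) (D : Derivation k R R) (Dκ : Derivation k κ κ)
    (DΩ : Derivation k Ω Ω) (h1 : ∀ r, Dκ (algebraMap R κ r) = algebraMap R κ (D r))
    (h2 : ∀ r, DΩ (algebraMap R Ω r) = algebraMap R Ω (D r)) :
    ∃ j : κ →+* Ω, (∀ r, j (algebraMap R κ r) = algebraMap R Ω r) ∧ (∀ z, DΩ (j z) = j (Dκ z)) ∧
      ∀ d : Ω → Ω, IsD (RingHom.id Ω) d → (∀ r, d (algebraMap R Ω r) = 0) → ∀ z, d (j z) = 0 := by
  have hf1 : FaithfulSMul R κ := (faithfulSMul_iff_algebraMap_injective _ _).2 hκ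
  have hf2 : FaithfulSMul R Ω := (faithfulSMul_iff_algebraMap_injective _ _).2 hΩ
  let K := FractionRing R
  let _ : Algebra K κ := FractionRing.liftAlgebra R κ
  let _ : Algebra K Ω := FractionRing.liftAlgebra R Ω
  have hs1 : IsScalarTower R K κ := inferInstance
  have hs2 : IsScalarTower R K Ω := inferInstance
  have hcK : CharZero K := by
    have hinj : Function.Injective (algebraMap K Ω) := (algebraMap K Ω).injective
    exact ⟨fun a b h => by
      have h2 := congrArg (algebraMap K Ω) h
      rw [map_natCast, map_natCast] at h2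
      exact_mod_cast h2⟩
  have halgK : Algebra.IsAlgebraic K κ := (IsFractionRing.comap_isAlgebraic_iff (A := R) (K := K)).1 halg
  let j : κ →ₐ[K] Ω := IsAlgClosed.lift
  have hj : ∀ r, j (algebraMap R κ r) = algebraMap R Ω r := by
    intro r
    rw [IsScalarTower.algebraMap_apply R K κ, j.commutes, ← IsScalarTower.algebraMap_apply]
  refine ⟨j, hj, fun z => ?_, fun d hd hd0 z => ?_⟩
  · refine (isD_left DΩ (j : κ →+* Ω)).eq_of_alg (E := K) (isD_right Dκ (j : κ →+* Ω))
      (fun m => ?_) (Algebra.IsAlgebraic.isAlgebraic z)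
    have hH := (isD_left DΩ (j : κ →+* Ω))
    have hH' := (isD_right Dκ (j : κ →+* Ω))
    obtain ⟨r, s, hs, rfl⟩ := IsFractionRing.div_surjective (A := R) m
    have hr : ∀ r : R, algebraMap K κ (algebraMap R K r) ∈ hH.eqField hH' := by
      intro r
      rw [IsD.mem_eqField, ← IsScalarTower.algebraMap_apply]
      change DΩ (j (algebraMap R κ r)) = j (Dκ (algebraMap R κ r))
      rw [hj, h1, h2, hj]
    rw [map_div₀]
    exact div_mem (hr r) (hr s)
  · have hH : IsD (j : κ →+* Ω) (fun z => d (j z)) :=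
      ⟨fun x y => by simp only [map_add]; exact hd.add _ _,
        fun x y => by
          simp only [map_mul]
          have := hd.mul (j x) (j y)
          simpa using this⟩
    have hH0 : IsD (j : κ →+* Ω) (fun _ => 0) := ⟨fun x y => by simp, fun x y => by simp⟩
    refine hH.eq_of_alg (E := K) hH0 (fun m => ?_) (Algebra.IsAlgebraic.isAlgebraic z)
    obtain ⟨r, s, hs, rfl⟩ := IsFractionRing.div_surjective (A := R) m
    have hr : ∀ r : R, algebraMap K κ (algebraMap R K r) ∈ hH.eqField hH0 := by
      intro r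
      rw [IsD.mem_eqField, ← IsScalarTower.algebraMap_apply, hj]
      exact hd0 r
    rw [map_div₀]
    exact div_mem (hr r) (hr s)

/-- a derivation of a quotient -/
theorem exists_quotD {k R : Type} [Field k] [CommRing R] [Algebra k R] (D : Derivation k R R)
    (I : Ideal R) (hI : ∀ r ∈ I, D r ∈ I) :
    ∃ d : Derivation k (R ⧸ I) (R ⧸ I), ∀ r, d (Ideal.Quotient.mk I r) = Ideal.Quotient.mk I (D r) := by
  have key : ∀ r : R, Ideal.Quotient.mk I (D (Quotient.out (Ideal.Quotient.mk I r))) =
      Ideal.Quotient.mk I (D r) := by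
    intro r
    rw [Ideal.Quotient.eq, ← map_sub]
    apply hI
    rw [← Ideal.Quotient.eq]
    exact Quotient.out_eq _
  refine ⟨Derivation.mk'
    { toFun := fun z => Ideal.Quotient.mk I (D (Quotient.out z))
      map_add' := ?_
      map_smul' := ?_ } ?_, fun r => key r⟩
  · intro z w
    obtain ⟨r, rfl⟩ := Ideal.Quotient.mk_surjective z
    obtain ⟨s, rfl⟩ := Ideal.Quotient.mk_surjective w
    rw [← map_add, key, key, key, map_add, map_add]
  · intro e z
    obtain ⟨r, rfl⟩ := Ideal.Quotient.mk_surjective z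
    have h1 : e • (Ideal.Quotient.mk I r) = Ideal.Quotient.mk I (e • r) := rfl
    rw [h1, key, key, D.map_smul]
    rfl
  · intro z w
    obtain ⟨r, rfl⟩ := Ideal.Quotient.mk_surjective z
    obtain ⟨s, rfl⟩ := Ideal.Quotient.mk_surjective w
    change Ideal.Quotient.mk I (D (Quotient.out _)) = _ * Ideal.Quotient.mk I (D (Quotient.out _)) +
      _ * Ideal.Quotient.mk I (D (Quotient.out _))
    rw [← map_mul, key, key, key, D.leibniz, smul_eq_mul, smul_eq_mul, map_add, map_mul, map_mul]

/-- the derivation of the residue field of a differential prime ideal -/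
theorem exists_resD {k R : Type} [Field k] [CharZero k] [CommRing R] [Algebra k R]
    (D : Derivation k R R) (I : Ideal R) [I.IsPrime] (hI : ∀ r ∈ I, D r ∈ I) :
    ∃ d : Derivation k (FractionRing (R ⧸ I)) (FractionRing (R ⧸ I)),
      ∀ r, d (algebraMap (R ⧸ I) (FractionRing (R ⧸ I)) (Ideal.Quotient.mk I r)) =
        algebraMap (R ⧸ I) (FractionRing (R ⧸ I)) (Ideal.Quotient.mk I (D r)) := by
  obtain ⟨d0, hd0⟩ := exists_quotD D I hI
  have hc : CharZero (FractionRing (R ⧸ I)) :=
    charZero_of_injective_algebraMap (algebraMap k (FractionRing (R ⧸ I))).injective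
  obtain ⟨d, hd⟩ := exists_ext (k := k) (R := R ⧸ I) (K := FractionRing (R ⧸ I))
    (IsFractionRing.injective _ _)
    ((Algebra.linearMap (R ⧸ I) (FractionRing (R ⧸ I))).compDer d0)
  refine ⟨d, fun r => ?_⟩
  rw [hd]
  change algebraMap _ _ (d0 _) = _
  rw [hd0]

end Pool.Agent.K1H80.EC
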