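import Pool.Agent.K1H80.EC.Core2

/-!
# The coordinate ring is a finite module over a polynomial ring
-/

set_option autoImplicit false
set_option linter.unusedSectionVars false

namespace Pool.Agent.K1H80.EC

open MvPolynomial
open scoped Classical

variable {k E U : Type} [Field k] [CharZero k] [Field E] [Field U] [Algebra k E] [Algebra k U]
  [Algebra E U] [IsScalarTower k E U]

variable {D : Derivation k U U} {ι : Type} {a b : ι → k} {x y : ι → U} {u : ι → E}

theorem RC_induction {c : ι → Bool} {P : RC E c x y Set.univ → Prop}
    (hE : ∀ e : E, P (algebraMap E _ e)) (hp : ∀ i, P (PP E c x y i)) (hq : ∀ i, P (QQ E c x y i))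
    (hadd : ∀ r s, P r → P s → P (r + s)) (hmul : ∀ r s, P r → P s → P (r * s))
    (r : RC E c x y Set.univ) : P r := by
  obtain ⟨r, hr⟩ := r
  have hr' : r ∈ Algebra.adjoin E ((fun i => pc (c i) (x i) (y i)) '' Set.univ ∪
    (fun i => qc (c i) (x i) (y i)) '' Set.univ) := hr
  have : ∀ h0 : r ∈ RC E c x y Set.univ, P ⟨r, h0⟩ := by
    induction hr' using Algebra.adjoin_induction with
    | mem w hw =>
      intro h0
      rcases hw with ⟨i, -, rfl⟩ | ⟨i, -, rfl⟩
      · exact hp i
      · exact hq i
    | algebraMap e =>
      intro h0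
      exact hE e
    | add v w hv hw h4 h5 =>
      intro h0
      exact hadd ⟨v, hv⟩ ⟨w, hw⟩ (h4 hv hv) (h5 hw hw)
    | mul v w hv hw h4 h5 =>
      intro h0
      exact hmul ⟨v, hv⟩ ⟨w, hw⟩ (h4 hv hv) (h5 hw hw)
  exact this hr

theorem Sit.finite [Finite ι] (S : Sit D ι a b x y u) (c : ι → Bool) {m : ℕ} (e : ι ≃ Fin m) :
    (aeval (fun j => PP E c x y (e.symm j)) :
      MvPolynomial (Fin m) E →ₐ[E] RC E c x y Set.univ).toRingHom.Finite := by
  set φ : MvPolynomial (Fin m) E →ₐ[E] RC E c x y Set.univ :=
    aeval (fun j => PP E c x y (e.symm j)) with hφ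
  rw [RingHom.finite_iff_isIntegral_and_finiteType]
  constructor
  · let _ : Algebra (MvPolynomial (Fin m) E) (RC E c x y Set.univ) := φ.toRingHom.toAlgebra
    have halg : ∀ f, algebraMap (MvPolynomial (Fin m) E) (RC E c x y Set.univ) f = φ f :=
      fun _ => rfl
    intro r
    change IsIntegral (MvPolynomial (Fin m) E) r
    induction r using RC_induction with
    | hE t =>
      have : algebraMap E (RC E c x y Set.univ) t = algebraMap (MvPolynomial (Fin m) E) _ (C t) := by
        rw [halg, hφ, aeval_C]
      rw [this]
      exact isIntegral_algebraMap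
    | hp i =>
      have : PP E c x y i = algebraMap (MvPolynomial (Fin m) E) _ (X (e i)) := by
        rw [halg, hφ, aeval_X, Equiv.symm_apply_apply]
      rw [this]
      exact isIntegral_algebraMap
    | hq i =>
      have hX : algebraMap (MvPolynomial (Fin m) E) (RC E c x y Set.univ) (X (e i)) =
          PP E c x y i := by
        rw [halg, hφ, aeval_X, Equiv.symm_apply_apply]
      have hC : ∀ t : E, algebraMap (MvPolynomial (Fin m) E) (RC E c x y Set.univ) (C t) =
          algebraMap E _ t := by
        intro t
        rw [halg, hφ, aeval_C]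
      have hk : ∀ t : k, ((algebraMap E (RC E c x y Set.univ) (algebraMap k E t) :
          RC E c x y Set.univ) : U) = algebraMap k U t := algMapRC
      have h1 := S.rel c i
      by_cases hc : c i = true
      · refine integral_cubic (f := C (algebraMap k E (a i)) * X (e i) ^ 2)
          (g := C (algebraMap k E (b i)) * X (e i) ^ 3 - X (e i)) ?_
        simp only [map_mul, map_pow, map_sub, hX, hC]
        apply Subtype.ext
        have h2 : (qc (c i) (x i) (y i)) ^ 3 + algebraMap k U (a i) * (pc (c i) (x i) (y i)) ^ 2 *
            (qc (c i) (x i) (y i)) + (algebraMap k U (b i) * (pc (c i) (x i) (y i)) ^ 3 -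
            (pc (c i) (x i) (y i))) = 0 := by
          simpa [EC.rel, hc] using h1
        rw [← hk, ← hk] at h2
        exact h2
      · refine integral_cubic (f := C (algebraMap k E (a i)))
          (g := C (algebraMap k E (b i)) - X (e i) ^ 2) ?_
        simp only [map_pow, map_sub, hX, hC]
        apply Subtype.ext
        have h2 : (qc (c i) (x i) (y i)) ^ 3 + algebraMap k U (a i) *
            (qc (c i) (x i) (y i)) + (algebraMap k U (b i) -
            (pc (c i) (x i) (y i)) ^ 2) = 0 := by
          simpa [EC.rel, hc] using h1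
        rw [← hk, ← hk] at h2
        exact h2
    | hadd r s hr hs => exact hr.add hs
    | hmul r s hr hs => exact hr.mul hs
  · have h1 : (φ.toRingHom.comp (C : E →+* MvPolynomial (Fin m) E)).FiniteType := by
      have h2 : φ.toRingHom.comp (C : E →+* MvPolynomial (Fin m) E) =
          algebraMap E (RC E c x y Set.univ) := by
        ext t
        change ((φ (C t) : RC E c x y Set.univ) : U) = _
        rw [hφ, aeval_C]
      rw [h2]
      have h3 : Algebra.FiniteType E (RC E c x y Set.univ) := by
        rw [← Subalgebra.fg_iff_finiteType]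
        exact Subalgebra.fg_def.2 ⟨_, ((Set.toFinite _).image _).union ((Set.toFinite _).image _), rfl⟩
      exact RingHom.finiteType_algebraMap.2 h3
    exact RingHom.FiniteType.of_comp_finiteType h1

end Pool.Agent.K1H80.EC
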