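import Pool.Agent.K1H80.EC.Ell
import Pool.Agent.K1H80.EC.Finm

/-!
# Assembly
-/

set_option autoImplicit false
set_option linter.unusedSectionVars false
set_option linter.unusedVariables false

namespace Pool.Agent.K1H80.EC

open FF Filter MvPolynomial Module Pool.Agent.W603.LV Pool.Agent.W603.PV Pool.Agent.W603.CZ
open Pool.Agent.Y731.FG
open scoped Classical

variable {I : Type} {𝒰 : Ultrafilter I} {k F : Type} [Field k] [IsAlgClosed k] [CharZero k]
  [Field F] [Algebra k F] {L : I → Type} [∀ i, Field (L i)] [∀ i, Algebra k (L i)]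
  [∀ i, Algebra F (L i)] [∀ i, IsScalarTower k F (L i)]
  [∀ i, IsFF k (L i)] {Δ : Dt 𝒰 k F L}

instance towerE : IsScalarTower k Δ.E (UL 𝒰 L) := IsScalarTower.of_algebraMap_eq fun _ => rfl

/-- the indices of the points which are not defined over the small field -/
def JJ (Δ : Dt 𝒰 k F L) {n : ℕ} (x : Fin n → UL 𝒰 L) : Set (Fin n) := {i | x i ∉ Δ.E}

theorem exists_sit {n : ℕ} {a b : Fin n → k} (hab : ∀ i, 4 * a i ^ 3 + 27 * b i ^ 2 ≠ 0)
    (hni : ∀ i j, i ≠ j → NonIsogenous (a i) (b i) (a j) (b j)) {x y : Fin n → UL 𝒰 L}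
    (hxy : ∀ i, y i ^ 2 = x i ^ 3 + algebraMap k (UL 𝒰 L) (a i) * x i +
      algebraMap k (UL 𝒰 L) (b i)) :
    ∃ u : JJ Δ x → Δ.E, Sit (E := Δ.E) (uD Δ.D) (JJ Δ x) (fun i => a i) (fun i => b i)
      (fun i => x i) (fun i => y i) u := by
  have hcU : CharZero (UL 𝒰 L) := charZero_of_injective_algebraMap (algebraMap k _).injective
  have htr : ∀ i : JJ Δ x, Transcendental Δ.E (x i) := fun i h => i.2 (mem_E_of_alg h)
  have hy : ∀ i : JJ Δ x, y i ≠ 0 := fun i => trans_ne_zero (htr i) (hxy i)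
  have hE : ∀ e : Δ.E, ∃ e' : Δ.E, uD Δ.D (algebraMap Δ.E (UL 𝒰 L) e) =
      algebraMap Δ.E (UL 𝒰 L) e' := fun e => ⟨⟨_, (Pool.Agent.Y141.FG.ld Δ).1 _ e.2⟩, rfl⟩
  have hC : ∀ z : UL 𝒰 L, uD Δ.D z = 0 → IsAlgebraic Δ.E z := fun z hz =>
    isAlgebraic_algebraMap (⟨z, Pool.Agent.Y960.FG.mem_E_of_der hz⟩ : Δ.E)
  let u : JJ Δ x → Δ.E := fun i => ⟨uD Δ.D (x i) / y i, om_mem_E (hab i) (hxy i) (hy i)⟩
  have hu : ∀ i : JJ Δ x, uD Δ.D (x i) = algebraMap Δ.E (UL 𝒰 L) (u i) * y i := fun i =>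
    (div_mul_cancel₀ _ (hy i)).symm
  refine ⟨u, ?_⟩
  exact
    { hE := hE
      hC := hC
      hab := fun i => hab i
      hxy := fun i => hxy i
      hu0 := fun i h => by
        have h1 := hu i
        rw [h, map_zero, zero_mul] at h1
        exact i.2 (Pool.Agent.Y960.FG.mem_E_of_der h1)
      hu := hu
      hind := indep (ι := JJ Δ x) (a := fun i => a i) (b := fun i => b i)
        (x := fun i : JJ Δ x => x i) (y := fun i : JJ Δ x => y i) (uD Δ.D) hE hC
        (fun i j hij => hni i j fun h => hij (Subtype.ext h)) (fun i => hxy i) hu htr }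

/-- poles and regular points, at all places -/
theorem pole_ev {a b : k} {x y : UL 𝒰 L}
    (hxy : y ^ 2 = x ^ 3 + algebraMap k (UL 𝒰 L) a * x + algebraMap k (UL 𝒰 L) b) :
    ∀ᶠ ω in EV 𝒰 k L, (oo x ω < 0 → y ≠ 0 ∧ 2 * oo y ω = 3 * oo x ω) ∧
      (0 ≤ oo x ω → y = 0 ∨ 0 ≤ oo y ω) := by
  have h2 : ∀ᶠ i in (𝒰 : Filter I), rep y i ^ 2 = rep x i ^ 3 + algebraMap k (L i) a * rep x i +
      algebraMap k (L i) b := by
    rw [← um_eq, um_pow, um_rep, hxy, um_add, um_add, um_pow, um_mul, um_rep]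
    rfl
  rw [ev_iff]
  by_cases hy : y = 0
  · have hy' : ∀ᶠ i in (𝒰 : Filter I), rep y i = 0 := by
      rw [hy]; exact rep_zero
    filter_upwards [h2, hy'] with i h3 h4 P
    refine ⟨fun h => ?_, fun _ => Or.inl hy⟩
    exact absurd h4 (ord_pole P h3 h).1
  · filter_upwards [h2, rep_ne hy] with i h3 h4 P
    refine ⟨fun h => ⟨hy, (ord_pole P h3 h).2⟩, fun h => Or.inr ?_⟩
    exact (P.reg_iff h4).1 (reg_y P h3 (Or.inr h))

/-- the places at which the points `i ∈ J` are in the charts `c i` -/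
def QJ {n : ℕ} (J : Set (Fin n)) (c : Fin n → Bool) (x : Fin n → UL 𝒰 L) : Set (Om k L) :=
  {ω | ∀ i ∈ J, c i = true ↔ oo (x i) ω < 0}

/-- the coordinate ring is integral at the places of the chart -/
theorem RI_le {n : ℕ} {a b : Fin n → k} {x y : Fin n → UL 𝒰 L}
    (hxy : ∀ i, y i ^ 2 = x i ^ 3 + algebraMap k (UL 𝒰 L) (a i) * x i +
      algebraMap k (UL 𝒰 L) (b i)) (J : Set (Fin n)) (c : Fin n → Bool) :
    RI Δ.E c x y J ≤ BQ Δ (QJ J c x) := by
  refine Algebra.adjoin_le ?_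
  rintro _ (⟨i, -, rfl⟩ | ⟨i, -, rfl⟩)
  · refine mem_BQ.2 ⟨fun _ => 0, Bd.zero Δ.nonneg, fun _ => le_refl _, ?_⟩
    filter_upwards [pole_ev (hxy i), oo_inv (y i)] with ω h1 h2 hω
    have h3 := hω i i.2
    simp only [pc]
    by_cases hc : c i = true
    · rw [if_pos hc]
      obtain ⟨h4, h5⟩ := h1.1 (h3.1 hc)
      have h6 := h3.1 hc
      right
      rw [h2]
      omega
    · rw [if_neg hc, neg_zero]
      exact h1.2 (not_lt.1 fun h => hc (h3.2 h))
  · refine mem_BQ.2 ⟨fun _ => 0, Bd.zero Δ.nonneg, fun _ => le_refl _, ?_⟩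
    by_cases hx : x i = 0
    · refine Eventually.of_forall fun ω hω => Or.inl ?_
      simp [qc, hx]
    by_cases hy : y i = 0
    · by_cases hc : c i = true
      · refine Eventually.of_forall fun ω hω => Or.inl ?_
        simp [qc, hy, hc]
      · refine Eventually.of_forall fun ω hω => Or.inr ?_
        have h3 := hω i i.2
        simp only [qc, if_neg hc, neg_zero]
        exact not_lt.1 fun h => hc (h3.2 h)
    filter_upwards [pole_ev (hxy i), oo_mul hx (inv_ne_zero hy), oo_inv (y i)] with ω h1 h2 h4 hω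
    have h3 := hω i i.2
    right
    simp only [qc]
    by_cases hc : c i = true
    · rw [if_pos hc]
      obtain ⟨-, h5⟩ := h1.1 (h3.1 hc)
      have h6 := h3.1 hc
      rw [h2, h4]
      omega
    · rw [if_neg hc, neg_zero]
      exact not_lt.1 fun h => hc (h3.2 h)

section app

variable {n : ℕ} {a b : Fin n → k} {x y : Fin n → UL 𝒰 L}
  (hab : ∀ i, 4 * a i ^ 3 + 27 * b i ^ 2 ≠ 0)
  (hxy : ∀ i, y i ^ 2 = x i ^ 3 + algebraMap k (UL 𝒰 L) (a i) * x i +
      algebraMap k (UL 𝒰 L) (b i))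
  (hgen : AlgebraicIndependent F x) {u : JJ Δ x → Δ.E}
  (S : Sit (E := Δ.E) (uD Δ.D) (JJ Δ x) (fun i => a i) (fun i => b i)
      (fun i => x i) (fun i => y i) u)

theorem hEx_of (x : Fin n → UL 𝒰 L) : ∀ i ∉ JJ Δ x, ∃ e : Δ.E, algebraMap Δ.E (UL 𝒰 L) e = x i :=
  fun i hi => ⟨⟨x i, not_not.1 hi⟩, rfl⟩

include hxy in
theorem hEy_of : ∀ i ∉ JJ Δ x, ∃ e : Δ.E, algebraMap Δ.E (UL 𝒰 L) e = y i :=
  fun i hi => ⟨⟨y i, y_mem_E (hxy i) (not_not.1 hi)⟩, rfl⟩

/-- the heights of the points which are not defined over the small field -/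
noncomputable def HJ (Δ : Dt 𝒰 k F L) (x y : Fin n → UL 𝒰 L) (i : I) : ℤ :=
  ∑ j : JJ Δ x, ht k (y j) i

include hxy S in
/-- **Common zeros in a chart.** -/
theorem ctJ {c : Fin n → Bool} {w : ℕ} (ψ : Fin w → RI Δ.E c x y (JJ Δ x))
    (hψ : ∀ 𝔭 : Ideal (RI Δ.E c x y (JJ Δ x)), 𝔭.IsPrime → (∀ j, ψ j ∈ 𝔭) → ∀ i0 : JJ Δ x,
      ¬ AlgebraicIndependent Δ.E (fun i : {i : JJ Δ x // i ≠ i0} => (Ideal.Quotient.mk 𝔭
        (PP Δ.E (fun i : JJ Δ x => c i) (fun i : JJ Δ x => x i) (fun i : JJ Δ x => y i) i) :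
          RI Δ.E c x y (JJ Δ x) ⧸ 𝔭)))
    (h0 : ∃ j, ψ j ≠ 0) :
    Ng 𝒰 Δ.χ (HJ Δ x y) (fun ω : Om k L => if ω ∈ QJ (JJ Δ x) c x then
      mo (fun j => (ψ j : UL 𝒰 L)) ω else 0) := by
  let e := Fintype.equivFin (JJ Δ x)
  set s : Fin (Fintype.card (JJ Δ x)) → UL 𝒰 L := fun j =>
    pc (c (e.symm j)) (x (e.symm j)) (y (e.symm j)) with hs
  have hyind : AlgebraicIndependent Δ.E
      (fun i : JJ Δ x => pc (c i) (x i) (y i)) := by
    refine exch _ _ S.hind le_rfl fun i => ?_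
    set M := Algebra.adjoin Δ.E (Set.range fun i : JJ Δ x => pc (c i) (x i) (y i)) with hM
    have h1 : IsAlgebraic M (qc (c i) (x i) (y i)) := by
      refine (int_q (c := fun i : JJ Δ x => c i) (a := fun i : JJ Δ x => a i)
        (b := fun i : JJ Δ x => b i) (p := fun i : JJ Δ x => pc (c i) (x i) (y i))
        (q := fun i : JJ Δ x => qc (c i) (x i) (y i)) (fun i => S.rel (fun i => c i) i)
        (R := M) (i := i) (Algebra.subset_adjoin ⟨i, rfl⟩)).isAlgebraic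
    have h2 : IsAlgebraic M (pc (c i) (x i) (y i)) :=
      isAlgebraic_algebraMap (⟨_, Algebra.subset_adjoin ⟨i, rfl⟩⟩ : M)
    by_cases hc : c i = true
    · simp only [pc, qc, if_pos hc] at h1 h2
      have h3 := h1.mul h2.inv
      have h4 : x i * (y i)⁻¹ * (y i)⁻¹⁻¹ = x i := by
        have := S.y_ne i
        field_simp
      rwa [h4] at h3
    · simp only [qc, if_neg hc] at h1
      exact h1
  have hsind : AlgebraicIndependent Δ.E s := hyind.comp _ e.symm.injective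
  have hsR : ∀ j, s j ∈ RI Δ.E c x y (JJ Δ x) := fun j =>
    (PP Δ.E (fun i : JJ Δ x => c i) (fun i : JJ Δ x => x i) (fun i : JJ Δ x => y i) (e.symm j)).2
  have hsPP : ∀ j, (⟨s j, hsR j⟩ : RI Δ.E c x y (JJ Δ x)) =
      PP Δ.E (fun i : JJ Δ x => c i) (fun i : JJ Δ x => x i) (fun i : JJ Δ x => y i) (e.symm j) :=
    fun j => rfl
  have key := ct s hsind (RI Δ.E c x y (JJ Δ x)) hsR
    (S.stable (fun i : JJ Δ x => c i) Set.univ)
    (fun J hJ hJ0 => S.simple (fun i : JJ Δ x => c i) J (fun r hr => hJ r hr) hJ0)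
    (S.finite (fun i : JJ Δ x => c i) e) (QJ (JJ Δ x) c x) (RI_le hxy _ c) ψ (by
      intro 𝔭 h𝔭 hψ𝔭 a0 hind
      refine hψ 𝔭 h𝔭 hψ𝔭 (e.symm a0) ?_
      let f : {i : JJ Δ x // i ≠ e.symm a0} → {a : Fin (Fintype.card (JJ Δ x)) // a ≠ a0} :=
        fun i => ⟨e i, fun h => i.2 ((e.symm_apply_apply (i : JJ Δ x)).symm.trans
          (congrArg e.symm h))⟩
      have hf : Function.Injective f := by
        intro i j hij
        have h1 : e (i : JJ Δ x) = e (j : JJ Δ x) := congrArg Subtype.val hij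
        exact Subtype.ext (e.injective h1)
      have h1 := hind.comp f hf
      convert h1 using 1
      funext i
      simp only [Function.comp_apply, f]
      congr 1
      rw [hsPP, Equiv.symm_apply_apply]) h0
  -- the heights
  have hH : ∀ᶠ i in (𝒰 : Filter I), Hu k s i = HJ Δ x y i := by
    have h1 : ∀ᶠ i in (𝒰 : Filter I), ∀ j : JJ Δ x,
        ht k (pc (c j) (x j) (y j)) i = ht k (y j) i := by
      rw [eventually_all]
      intro j
      by_cases hc : c j = true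
      · filter_upwards [rep_inv (y j)] with i hi
        simp only [pc, if_pos hc]
        unfold ht
        rw [hi, hgt_inv]
      · refine Eventually.of_forall fun i => ?_
        simp only [pc, if_neg hc]
    filter_upwards [h1] with i hi
    unfold Hu HJ
    rw [← Equiv.sum_comp e]
    refine Finset.sum_congr rfl fun j _ => ?_
    simp only [hs, Equiv.symm_apply_apply]
    exact hi j
  intro ε hε
  obtain ⟨B, hB⟩ := key ε hε
  refine ⟨B, ?_⟩
  filter_upwards [hB, hH] with i h1 h2 T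
  rw [← h2]
  exact h1 T

end app

end Pool.Agent.K1H80.EC
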