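import Pool.Agent.K1H80.EC.Ind

/-!
# Affine charts of constant elliptic curves, and differential ideals
-/

set_option autoImplicit false
set_option linter.unusedSectionVars false

namespace Pool.Agent.K1H80.EC

open WeierstrassCurve WeierstrassCurve.Affine
open scoped Classical

section chart

/-- the first coordinate of the chart `c` -/
noncomputable def pc {U : Type*} [Field U] (c : Bool) (_x y : U) : U := if c then y⁻¹ else y

/-- the second coordinate of the chart `c` -/
noncomputable def qc {U : Type*} [Field U] (c : Bool) (x y : U) : U := if c then x * y⁻¹ else x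

/-- the equation of the curve in the chart `c` -/
noncomputable def rel {K : Type*} [Field K] (c : Bool) (α β p q : K) : K :=
  if c then q ^ 3 + α * p ^ 2 * q + (β * p ^ 3 - p) else q ^ 3 + α * q + (β - p ^ 2)

/-- the derivative of `p` -/
noncomputable def dP {K : Type*} [Field K] (c : Bool) (α _β u p q : K) : K :=
  if c then -(u * (3 * q ^ 2 + α * p ^ 2) * 2⁻¹) else u * (3 * q ^ 2 + α) * 2⁻¹

/-- the derivative of `q` -/
noncomputable def dQ {K : Type*} [Field K] (c : Bool) (α β u p q : K) : K :=
  if c then u * (-2⁻¹ + α * p * q + 3 * 2⁻¹ * β * p ^ 2) else u * p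

variable {k : Type*} [Field k] [CharZero k] {K : Type*} [Field K] [Algebra k K] {a b : k}

theorem chart_of_point (c : Bool) (D : Derivation k K K) {x y u : K}
    (hxy : y ^ 2 = x ^ 3 + algebraMap k K a * x + algebraMap k K b) (hy : y ≠ 0)
    (hu : D x = u * y) (hu2 : 2 * D y = u * (3 * x ^ 2 + algebraMap k K a)) :
    rel c (algebraMap k K a) (algebraMap k K b) (pc c x y) (qc c x y) = 0 ∧
      D (pc c x y) = dP c (algebraMap k K a) (algebraMap k K b) u (pc c x y) (qc c x y) ∧
      D (qc c x y) = dQ c (algebraMap k K a) (algebraMap k K b) u (pc c x y) (qc c x y) := by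
  have : CharZero K := charZero_of_injective_algebraMap (algebraMap k K).injective
  have h2 : (2 : K) ≠ 0 := two_ne_zero
  have hDy : D y = u * (3 * x ^ 2 + algebraMap k K a) * 2⁻¹ := by
    rw [← hu2]; field_simp
  cases c
  · simp only [rel, pc, qc, dP, dQ, Bool.false_eq_true, if_false]
    refine ⟨by rw [hxy]; ring, hDy, hu⟩
  · simp only [rel, pc, qc, dP, dQ, if_true]
    refine ⟨?_, ?_, ?_⟩
    · field_simp
      linear_combination -hxy
    · rw [D.leibniz_inv, smul_eq_mul, hDy]
      field_simp
    · rw [D.leibniz, D.leibniz_inv, smul_eq_mul, smul_eq_mul, smul_eq_mul, hDy, hu]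
      field_simp
      linear_combination 3 * u * hxy

theorem smooth_aux (hab : 4 * a ^ 3 + 27 * b ^ 2 ≠ 0) {x y : K}
    (hxy : y ^ 2 = x ^ 3 + algebraMap k K a * x + algebraMap k K b)
    (h1 : 3 * x ^ 2 + algebraMap k K a = 0) (h2 : y = 0) : False := by
  apply hab
  apply (algebraMap k K).injective
  rw [map_zero, map_add, map_mul, map_mul, map_pow, map_pow, map_ofNat, map_ofNat]
  rw [h2] at hxy
  set α := algebraMap k K a
  set β := algebraMap k K b
  have hα : α = -(3 * x ^ 2) := by linear_combination h1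
  have hβ : β = 2 * x ^ 3 := by
    rw [hα] at hxy
    linear_combination -hxy
  rw [hα, hβ]
  ring

theorem point_of_chart (c : Bool) (hab : 4 * a ^ 3 + 27 * b ^ 2 ≠ 0) (D : Derivation k K K)
    {p q u : K} (hr : rel c (algebraMap k K a) (algebraMap k K b) p q = 0)
    (hp : D p = dP c (algebraMap k K a) (algebraMap k K b) u p q)
    (hq : D q = dQ c (algebraMap k K a) (algebraMap k K b) u p q) (hu : u ≠ 0) :
    ∃ x y : K, ∃ h : ((sw a b)⁄K).Nonsingular x y,
      IsOm D (Affine.Point.some x y h) u ∧ p = pc c x y ∧ q = qc c x y := by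
  have : CharZero K := charZero_of_injective_algebraMap (algebraMap k K).injective
  have h2 : (2 : K) ≠ 0 := two_ne_zero
  set α := algebraMap k K a with hα
  set β := algebraMap k K b with hβ
  cases c
  · simp only [rel, dP, dQ, Bool.false_eq_true, if_false] at hr hp hq
    have hxy : p ^ 2 = q ^ 3 + α * q + β := by linear_combination -hr
    have hns : ((sw a b)⁄K).Nonsingular q p := by
      rw [sw_ns]
      refine ⟨hxy, ?_⟩
      by_contra hcon
      push Not at hcon
      exact smooth_aux hab hxy hcon.1 ((mul_eq_zero.1 hcon.2).resolve_left h2)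
    refine ⟨q, p, hns, ?_, ?_, ?_⟩
    · rw [isOm_some, ← hα]
      refine ⟨hq, ?_⟩
      rw [hp]
      field_simp
    · simp [pc]
    · simp [qc]
  · simp only [rel, dP, dQ, if_true] at hr hp hq
    have hp0 : p ≠ 0 := by
      rintro rfl
      have hq0 : q = 0 := by
        have : q ^ 3 = 0 := by linear_combination hr
        exact pow_eq_zero_iff (by norm_num) |>.1 this
      rw [hq0, map_zero] at hq
      apply hu
      have h3 : u * 2⁻¹ = 0 := by linear_combination hq
      rcases mul_eq_zero.1 h3 with h | h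
      · exact h
      · exact absurd h (inv_ne_zero h2)
    have hxy : (p⁻¹) ^ 2 = (q * p⁻¹) ^ 3 + α * (q * p⁻¹) + β := by
      field_simp
      linear_combination -hr
    have hns : ((sw a b)⁄K).Nonsingular (q * p⁻¹) p⁻¹ := by
      rw [sw_ns]
      exact ⟨hxy, Or.inr (mul_ne_zero h2 (inv_ne_zero hp0))⟩
    refine ⟨q * p⁻¹, p⁻¹, hns, ?_, ?_, ?_⟩
    · rw [isOm_some, ← hα]
      constructor
      · rw [D.leibniz, D.leibniz_inv, smul_eq_mul, smul_eq_mul, smul_eq_mul, hp, hq]
        field_simp
        linear_combination 3 * hr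
      · rw [D.leibniz_inv, smul_eq_mul, hp]
        field_simp
    · simp [pc]
    · simp only [qc, if_true]
      field_simp

/-- the equation of the curve is integral -/
theorem rel_ord (c : Bool) {α β p q : K} : ∃ f g : K, rel c α β p q = q ^ 3 + f * q + g ∧
    f = (if c then α * p ^ 2 else α) ∧ g = (if c then β * p ^ 3 - p else β - p ^ 2) := by
  cases c
  · exact ⟨_, _, rfl, rfl, rfl⟩
  · exact ⟨_, _, rfl, rfl, rfl⟩

end chart

section ideal

variable {R : Type*} [CommRing R] [Algebra ℚ R]

/-- an ideal which is maximal among the proper differential ideals is prime -/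
theorem prime_of_maximal (D : Derivation ℤ R R) (m : Ideal R) (hm : m ≠ ⊤)
    (hD : ∀ r ∈ m, D r ∈ m)
    (hmax : ∀ I : Ideal R, m ≤ I → I ≠ ⊤ → (∀ r ∈ I, D r ∈ I) → I = m) : m.IsPrime := by
  have h1 : ∀ a b : R, a * b ∈ m → b ∉ m → ∃ n : ℕ, a ^ n ∈ m := by
    intro a b hab hb
    let J : Ideal R :=
      { carrier := {c | ∃ n : ℕ, a ^ n * c ∈ m}
        add_mem' := by
          rintro c d ⟨n, hn⟩ ⟨l, hl⟩
          refine ⟨n + l, ?_⟩
          have : a ^ (n + l) * (c + d) = a ^ l * (a ^ n * c) + a ^ n * (a ^ l * d) := by ring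
          rw [this]
          exact m.add_mem (m.mul_mem_left _ hn) (m.mul_mem_left _ hl)
        zero_mem' := ⟨0, by simp⟩
        smul_mem' := by
          rintro c d ⟨n, hn⟩
          refine ⟨n, ?_⟩
          have : a ^ n * (c • d) = c * (a ^ n * d) := by rw [smul_eq_mul]; ring
          rw [this]
          exact m.mul_mem_left _ hn }
    have hJ : J = ⊤ := by
      by_contra hne
      have hle : m ≤ J := fun c hc => ⟨0, by rw [pow_zero, one_mul]; exact hc⟩
      have := hmax J hle hne (by
        rintro c ⟨n, hn⟩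
        refine ⟨n + 1, ?_⟩
        have h2 := hD _ hn
        rw [D.leibniz, D.leibniz_pow] at h2
        simp only [smul_eq_mul, nsmul_eq_mul] at h2
        rcases Nat.eq_zero_or_pos n with rfl | hn0
        · simp only [pow_zero, one_mul, Nat.cast_zero, zero_mul, mul_zero, add_zero] at h2
          exact m.mul_mem_left _ h2
        · obtain ⟨l, rfl⟩ := Nat.exists_eq_succ_of_ne_zero hn0.ne'
          have h3 : a ^ (l.succ + 1) * D c = a * (a ^ l.succ * D c + c * (((l.succ : ℕ) : R) *
              (a ^ (l.succ - 1) * D a))) - ((l.succ : ℕ) : R) * D a * (a ^ l.succ * c) := by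
            rw [Nat.succ_sub_one, Nat.succ_eq_add_one]
            ring
          rw [h3]
          exact m.sub_mem (m.mul_mem_left _ h2) (m.mul_mem_left _ hn))
      apply hb
      have h4 : b ∈ J := ⟨1, by rw [pow_one]; exact hab⟩
      rw [this] at h4
      exact h4
    obtain ⟨n, hn⟩ : (1 : R) ∈ J := by rw [hJ]; trivial
    exact ⟨n, by rwa [mul_one] at hn⟩
  have h2 : m.radical = m := by
    refine hmax _ Ideal.le_radical (fun h => ?_) ?_
    · rw [Ideal.radical_eq_top] at h
      exact hm h
    · intro r hr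
      obtain ⟨n, hn, hmin⟩ := (⟨Nat.find hr, Nat.find_spec hr, fun l hl => Nat.find_min hr hl⟩ :
        ∃ n : ℕ, r ^ n ∈ m ∧ ∀ l < n, r ^ l ∉ m)
      rcases Nat.eq_zero_or_pos n with rfl | hn0
      · exfalso
        rw [pow_zero] at hn
        exact hm ((Ideal.eq_top_iff_one m).2 hn)
      · obtain ⟨l, rfl⟩ := Nat.exists_eq_succ_of_ne_zero hn0.ne'
        have h3 := hD _ hn
        rw [D.leibniz_pow, Nat.succ_sub_one] at h3
        simp only [smul_eq_mul, nsmul_eq_mul] at h3
        have h4 : D r * r ^ l ∈ m := by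
          have h5 : D r * r ^ l = algebraMap ℚ R ((l.succ : ℚ)⁻¹) *
              (((l.succ : ℕ) : R) * (r ^ l * D r)) := by
            have h6 : algebraMap ℚ R ((l.succ : ℚ)⁻¹) * ((l.succ : ℕ) : R) = 1 := by
              rw [← map_natCast (algebraMap ℚ R), ← map_mul, inv_mul_cancel₀, map_one]
              exact_mod_cast Nat.succ_ne_zero l
            rw [← mul_assoc, h6]
            ring
          rw [h5]
          exact m.mul_mem_left _ h3
        exact h1 _ _ h4 (hmin l (Nat.lt_succ_self l))
  refine ⟨hm, fun {a b} hab => ?_⟩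
  by_cases hb : b ∈ m
  · exact Or.inr hb
  · left
    obtain ⟨n, hn⟩ := h1 a b hab hb
    rw [← h2]
    exact ⟨n, hn⟩

end ideal

end Pool.Agent.K1H80.EC
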