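import Mathlib

/-!
# Coprime elements of an ideal
-/

set_option autoImplicit false
set_option linter.unusedSectionVars false

namespace Pool.Agent.K1H80.EC

open MvPolynomial Module

variable {E : Type*} [Field E]

theorem degreeOf_rename_zero {m : ℕ} {a0 : Fin m} (h : MvPolynomial {a : Fin m // a ≠ a0} E) :
    degreeOf a0 (rename (fun a : {a : Fin m // a ≠ a0} => (a : Fin m)) h) = 0 := by
  classical
  by_contra hne
  have h1 : a0 ∈ (rename (fun a : {a : Fin m // a ≠ a0} => (a : Fin m)) h).vars := by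
    rw [vars_def, Multiset.mem_toFinset]
    rw [degreeOf_def] at hne
    exact Multiset.count_ne_zero.1 hne
  have h2 := vars_rename (fun a : {a : Fin m // a ≠ a0} => (a : Fin m)) h h1
  obtain ⟨a, _, ha⟩ := Finset.mem_image.1 h2
  exact a.2 ha

/-- the classes of all but one of the variables modulo an irreducible polynomial are
independent -/
theorem exists_var {m : ℕ} {π : MvPolynomial (Fin m) E} (hπ : Irreducible π) :
    ∃ a0, ∀ h : MvPolynomial {a : Fin m // a ≠ a0} E,
      π ∣ rename (fun a : {a : Fin m // a ≠ a0} => (a : Fin m)) h → h = 0 := by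
  classical
  obtain ⟨a0, ha0⟩ : π.vars.Nonempty := by
    rw [Finset.nonempty_iff_ne_empty]
    intro h
    rw [vars_eq_empty_iff_eq_C] at h
    by_cases hc : coeff 0 π = 0
    · rw [hc, C_0] at h
      exact hπ.ne_zero h
    · refine hπ.not_isUnit ?_
      rw [h]
      exact (isUnit_iff_ne_zero.2 hc).map C
  refine ⟨a0, fun h ⟨u, hu⟩ => ?_⟩
  by_contra hne
  have h1 : rename (fun a : {a : Fin m // a ≠ a0} => (a : Fin m)) h ≠ 0 := by
    intro h0
    exact hne (rename_injective _ Subtype.val_injective (by rw [h0, map_zero]))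
  have hu0 : u ≠ 0 := by
    rintro rfl
    rw [mul_zero] at hu
    exact h1 hu
  have h2 := degreeOf_mul_eq (n := a0) hπ.ne_zero hu0
  rw [← hu, degreeOf_rename_zero] at h2
  have h3 : degreeOf a0 π ≠ 0 := by
    rw [degreeOf_def, Multiset.count_ne_zero]
    rw [vars_def, Multiset.mem_toFinset] at ha0
    exact ha0
  omega

/-- **Coprime elements.** -/
theorem exists_coprime {R : Type*} [CommRing R] [IsDomain R] [Algebra E R] {m : ℕ} (s : Fin m → R)
    (hfin : (aeval s : MvPolynomial (Fin m) E →ₐ[E] R).toRingHom.Finite)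
    (I : Ideal R) (hI : I ≠ ⊥)
    (hψ : ∀ 𝔭 : Ideal R, 𝔭.IsPrime → I ≤ 𝔭 → ∀ a0, ¬ AlgebraicIndependent E
      (fun a : {a : Fin m // a ≠ a0} => (Ideal.Quotient.mk 𝔭 (s a) : R ⧸ 𝔭))) :
    ∃ f g : MvPolynomial (Fin m) E, f ≠ 0 ∧ g ≠ 0 ∧ IsRelPrime f g ∧
      aeval s f ∈ I ∧ aeval s g ∈ I := by
  classical
  let _ : Algebra (MvPolynomial (Fin m) E) R :=
    (aeval s : MvPolynomial (Fin m) E →ₐ[E] R).toRingHom.toAlgebra
  have halg : ∀ p : MvPolynomial (Fin m) E, algebraMap (MvPolynomial (Fin m) E) R p = aeval s p :=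
    fun _ => rfl
  have : Module.Finite (MvPolynomial (Fin m) E) R := hfin
  have : Algebra.IsIntegral (MvPolynomial (Fin m) E) R := inferInstance
  set 𝔠 := I.comap (algebraMap (MvPolynomial (Fin m) E) R) with h𝔠
  have hc0 : 𝔠 ≠ ⊥ := by
    intro h
    exact hI (Ideal.eq_bot_of_comap_eq_bot h)
  have key : ∀ π : MvPolynomial (Fin m) E, Irreducible π → ¬ 𝔠 ≤ Ideal.span {π} := by
    intro π hπ hle
    have : (Ideal.span {π}).IsPrime := (Ideal.span_singleton_prime hπ.ne_zero).2 hπ.prime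
    obtain ⟨𝔓, h1, h2, h3⟩ := Ideal.exists_ideal_over_prime_of_isIntegral (Ideal.span {π}) I hle
    obtain ⟨a0, ha0⟩ := exists_var hπ
    refine hψ 𝔓 h2 h1 a0 ?_
    rw [algebraicIndependent_iff]
    intro h hh
    apply ha0 h
    rw [← Ideal.mem_span_singleton, ← h3, Ideal.mem_comap, halg, aeval_rename,
      ← Ideal.Quotient.eq_zero_iff_mem, ← hh]
    have h4 : (Ideal.Quotient.mkₐ E 𝔓) (aeval (s ∘ fun a : {a : Fin m // a ≠ a0} => (a : Fin m)) h) =
        aeval (fun a : {a : Fin m // a ≠ a0} => (Ideal.Quotient.mkₐ E 𝔓) (s a)) h := by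
      rw [comp_aeval_apply]
      rfl
    exact h4
  obtain ⟨f, hfc, hf0⟩ := (Submodule.ne_bot_iff _).1 hc0
  have hnot : ¬ ((𝔠 : Set (MvPolynomial (Fin m) E)) ⊆
      ⋃ i ∈ ((insert 0 (UniqueFactorizationMonoid.factors f).toFinset :
        Finset (MvPolynomial (Fin m) E)) : Set (MvPolynomial (Fin m) E)), (Ideal.span {i} : Ideal _)) := by
    rw [Ideal.subset_union_prime (0 : MvPolynomial (Fin m) E) (0 : MvPolynomial (Fin m) E)]
    · rintro ⟨π, hπ, hle⟩
      rw [Finset.mem_insert, Multiset.mem_toFinset] at hπ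
      rcases hπ with rfl | hπ
      · rw [Ideal.span_singleton_zero] at hle
        exact hc0 (le_bot_iff.1 hle)
      · exact key π (UniqueFactorizationMonoid.irreducible_of_factor π hπ) hle
    · intro π hπ hne _
      rw [Finset.mem_insert, Multiset.mem_toFinset] at hπ
      have h1 := UniqueFactorizationMonoid.irreducible_of_factor π (hπ.resolve_left hne)
      exact (Ideal.span_singleton_prime h1.ne_zero).2 h1.prime
  rw [Set.not_subset] at hnot
  obtain ⟨g, hgc, hg⟩ := hnot
  simp only [Set.mem_iUnion, not_exists, SetLike.mem_coe, Ideal.mem_span_singleton] at hg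
  have hg0 : g ≠ 0 := by
    rintro rfl
    exact hg 0 (by simp) (dvd_refl _)
  refine ⟨f, g, hf0, hg0, ?_, hfc, hgc⟩
  intro d hdf hdg
  by_contra hd
  have hd0 : d ≠ 0 := by
    rintro rfl
    exact hf0 (zero_dvd_iff.1 hdf)
  obtain ⟨π, hπ, hπd⟩ := WfDvdMonoid.exists_irreducible_factor hd hd0
  obtain ⟨ρ, hρ, hρπ⟩ := UniqueFactorizationMonoid.exists_mem_factors_of_dvd hf0 hπ (hπd.trans hdf)
  refine hg ρ (by simp [hρ]) ?_
  exact (hρπ.symm.dvd.trans hπd).trans hdg

end Pool.Agent.K1H80.EC
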