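import Pool.Agent.K1H80.EC.Simple3
import Pool.Agent.K1H80.EC.Exch

/-!
# Derivations of the coordinate ring into residue fields
-/

set_option autoImplicit false
set_option linter.unusedSectionVars false

namespace Pool.Agent.K1H80.EC

open scoped Classical

section alg

variable {K : Type*} [Field K]

theorem dP_u (c : Bool) (α β u p q : K) : dP c α β u p q = u * dP c α β 1 p q := by
  cases c <;> simp [dP] <;> ring

theorem dQ_u (c : Bool) (α β u p q : K) : dQ c α β u p q = u * dQ c α β 1 p q := by
  cases c <;> simp [dQ]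

/-- the curve is smooth -/
theorem dPQ_ne [CharZero K] {c : Bool} {α β p q : K} (hab : 4 * α ^ 3 + 27 * β ^ 2 ≠ 0)
    (h : rel c α β p q = 0) : dP c α β 1 p q ≠ 0 ∨ dQ c α β 1 p q ≠ 0 := by
  have h2 : (2 : K) ≠ 0 := two_ne_zero
  by_contra hcon
  push Not at hcon
  obtain ⟨h3, h4⟩ := hcon
  cases c
  · simp only [rel, dP, dQ, Bool.false_eq_true, if_false, one_mul] at h h3 h4
    apply hab
    have h5 : 3 * q ^ 2 + α = 0 := (mul_eq_zero.1 h3).resolve_right (inv_ne_zero h2)
    have hα : α = -(3 * q ^ 2) := by linear_combination h5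
    have hβ : β = 2 * q ^ 3 := by
      rw [hα, h4] at h
      linear_combination h
    rw [hα, hβ]
    ring
  · simp only [rel, dP, dQ, if_true, one_mul] at h h3 h4
    have h5 : 3 * q ^ 2 + α * p ^ 2 = 0 := by
      have := neg_eq_zero.1 h3
      exact (mul_eq_zero.1 this).resolve_right (inv_ne_zero h2)
    have h6 : -1 + 2 * α * p * q + 3 * β * p ^ 2 = 0 := by
      have h7 : -(2 : K)⁻¹ + α * p * q + 3 * 2⁻¹ * β * p ^ 2 =
          2⁻¹ * (-1 + 2 * α * p * q + 3 * β * p ^ 2) := by
        field_simp
      rw [h7] at h4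
      exact (mul_eq_zero.1 h4).resolve_left (inv_ne_zero h2)
    have hp : p ≠ 0 := by
      rintro rfl
      simp at h6
    have h8 : 2 * p = 0 := by
      linear_combination (-3) * h + q * h5 + p * h6
    exact hp ((mul_eq_zero.1 h8).resolve_left h2)

theorem exists_w [CharZero K] {c : Bool} {α β p q p' q' : K} (hab : 4 * α ^ 3 + 27 * β ^ 2 ≠ 0)
    (h : rel c α β p q = 0) (h' : dP c α β 1 p q * q' = dQ c α β 1 p q * p') :
    ∃ w, p' = w * dP c α β 1 p q ∧ q' = w * dQ c α β 1 p q := by
  rcases dPQ_ne hab h with h1 | h1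
  · refine ⟨p' / dP c α β 1 p q, by field_simp, ?_⟩
    field_simp
    linear_combination h'
  · by_cases h2 : dP c α β 1 p q = 0
    · refine ⟨q' / dQ c α β 1 p q, ?_, by field_simp⟩
      rw [h2, zero_mul] at h'
      rw [h2, mul_zero]
      exact (mul_eq_zero.1 h'.symm).resolve_left h1
    · refine ⟨p' / dP c α β 1 p q, by field_simp, ?_⟩
      field_simp
      linear_combination h'

theorem dP_ne_of_trans {E : Type*} [Field E] [Algebra E K] [CharZero K] {c : Bool} {α β : E}
    {p q : K} (h : rel c (algebraMap E K α) (algebraMap E K β) p q = 0)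
    (hp : Transcendental E p) :
    dP c (algebraMap E K α) (algebraMap E K β) 1 p q ≠ 0 := by
  have h2 : (2 : K) ≠ 0 := two_ne_zero
  intro h3
  apply hp
  have hα : IsAlgebraic E (algebraMap E K α) := isAlgebraic_algebraMap α
  have hβ : IsAlgebraic E (algebraMap E K β) := isAlgebraic_algebraMap β
  have h3K : IsAlgebraic E (3 : K) := by
    have h := isAlgebraic_algebraMap (R := E) (A := K) (3 : E)
    rwa [map_ofNat] at h
  cases c
  · simp only [rel, dP, Bool.false_eq_true, if_false, one_mul] at h h3
    have h5 : 3 * q ^ 2 + algebraMap E K α = 0 := (mul_eq_zero.1 h3).resolve_right (inv_ne_zero h2)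
    have hq : IsAlgebraic E q := by
      refine IsAlgebraic.of_pow (n := 2) (by norm_num) ?_
      have h6 : q ^ 2 = -(algebraMap E K α) * 3⁻¹ := by
        have : (3 : K) ≠ 0 := three_ne_zero
        field_simp
        linear_combination h5
      rw [h6]
      exact hα.neg.mul h3K.inv
    refine IsAlgebraic.of_pow (n := 2) (by norm_num) ?_
    have h6 : p ^ 2 = q ^ 3 + algebraMap E K α * q + algebraMap E K β := by
      linear_combination -h
    rw [h6]
    exact ((hq.pow 3).add (hα.mul hq)).add hβ
  · simp only [rel, dP, if_true, one_mul] at h h3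
    have h5 : 3 * q ^ 2 + algebraMap E K α * p ^ 2 = 0 := by
      have := neg_eq_zero.1 h3
      exact (mul_eq_zero.1 this).resolve_right (inv_ne_zero h2)
    have hp0 : p ≠ 0 := by
      rintro rfl
      exact hp isAlgebraic_zero
    set θ := q / p with hθ
    have hq : q = θ * p := by rw [hθ]; field_simp
    have h6 : 3 * θ ^ 2 + algebraMap E K α = 0 := by
      rw [hq] at h5
      have h7 : p ^ 2 * (3 * θ ^ 2 + algebraMap E K α) = 0 := by linear_combination h5
      exact (mul_eq_zero.1 h7).resolve_left (pow_ne_zero 2 hp0)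
    have hθa : IsAlgebraic E θ := by
      refine IsAlgebraic.of_pow (n := 2) (by norm_num) ?_
      have h6 : θ ^ 2 = -(algebraMap E K α) * 3⁻¹ := by
        have : (3 : K) ≠ 0 := three_ne_zero
        field_simp
        linear_combination h6
      rw [h6]
      exact hα.neg.mul h3K.inv
    have h7 : p ^ 2 * (θ ^ 3 + algebraMap E K α * θ + algebraMap E K β) = 1 := by
      rw [hq] at h
      have h8 : p * (p ^ 2 * (θ ^ 3 + algebraMap E K α * θ + algebraMap E K β)) = p * 1 := by
        linear_combination h
      exact mul_left_cancel₀ hp0 h8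
    refine IsAlgebraic.of_pow (n := 2) (by norm_num) ?_
    have h8 : p ^ 2 = (θ ^ 3 + algebraMap E K α * θ + algebraMap E K β)⁻¹ :=
      eq_inv_of_mul_eq_one_left h7
    rw [h8]
    exact (((hθa.pow 3).add (hα.mul hθa)).add hβ).inv

/-- the linearized equation -/
theorem rel_der {A U : Type*} [CommRing A] [Field U] [CharZero K] [CharZero U] {φ : A →+* K}
    {δ : A → K} (h : IsD φ δ) (c : Bool) {α β p q : A} (hα : δ α = 0) (hβ : δ β = 0)
    (i : A →+* U) (hi : Function.Injective i) (hrel : rel c (i α) (i β) (i p) (i q) = 0) :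
    dP c (φ α) (φ β) 1 (φ p) (φ q) * δ q = dQ c (φ α) (φ β) 1 (φ p) (φ q) * δ p := by
  have h2 : (2 : K) ≠ 0 := two_ne_zero
  cases c
  · simp only [rel, dP, dQ, Bool.false_eq_true, if_false, one_mul] at hrel ⊢
    have h1 : q ^ 3 + α * q + β + -(p ^ 2) = 0 := hi (by
      simp only [map_add, map_pow, map_mul, map_neg, map_zero]
      linear_combination hrel)
    have h3 := congrArg δ h1
    rw [h.add, h.add, h.add, h.neg, h.pow, h.pow, h.mul, hα, hβ, h.zero'] at h3
    simp only [Nat.cast_ofNat, Nat.reduceSub, pow_one, mul_zero, add_zero] at h3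
    field_simp
    linear_combination h3
  · simp only [rel, dP, dQ, if_true, one_mul] at hrel ⊢
    have h1 : q ^ 3 + α * p ^ 2 * q + β * p ^ 3 + -p = 0 := hi (by
      simp only [map_add, map_pow, map_mul, map_neg, map_zero]
      linear_combination hrel)
    have h3 := congrArg δ h1
    rw [h.add, h.add, h.add, h.neg, h.pow, h.mul, h.mul, h.mul, h.pow, h.pow, hα, hβ, h.zero'] at h3
    simp only [Nat.cast_ofNat, Nat.reduceSub, pow_one, mul_zero, add_zero, map_mul, map_pow] at h3
    field_simp
    linear_combination -h3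

end alg

end Pool.Agent.K1H80.EC
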