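import Pool.Agent.K1H80.EC.Core

/-!
# Prime ideals at which the divisor is smooth are differential
-/

set_option autoImplicit false
set_option linter.unusedSectionVars false

namespace Pool.Agent.K1H80.EC

open scoped Classical

variable {k E U : Type} [Field k] [CharZero k] [Field E] [Field U] [Algebra k E] [Algebra k U]
  [Algebra E U] [IsScalarTower k E U]

variable {D : Derivation k U U} {ι : Type} {a b : ι → k} {x y : ι → U} {u : ι → E}

variable (E) in
/-- the first coordinate -/
noncomputable def PP (c : ι → Bool) (x y : ι → U) (i : ι) : RC E c x y Set.univ :=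
  ⟨pc (c i) (x i) (y i), mem_p (Set.mem_univ i)⟩

variable (E) in
/-- the second coordinate -/
noncomputable def QQ (c : ι → Bool) (x y : ι → U) (i : ι) : RC E c x y Set.univ :=
  ⟨qc (c i) (x i) (y i), mem_q (Set.mem_univ i)⟩

theorem isD_ext {κ : Type*} [CommRing κ] {c : ι → Bool} {φ : RC E c x y Set.univ →+* κ}
    {δ δ' : RC E c x y Set.univ → κ} (h : IsD φ δ) (h' : IsD φ δ')
    (hE : ∀ e : E, δ (algebraMap E _ e) = δ' (algebraMap E _ e))
    (hp : ∀ i, δ (PP E c x y i) = δ' (PP E c x y i))
    (hq : ∀ i, δ (QQ E c x y i) = δ' (QQ E c x y i)) (r : RC E c x y Set.univ) : δ r = δ' r := by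
  obtain ⟨r, hr⟩ := r
  have hr' : r ∈ Algebra.adjoin E ((fun i => pc (c i) (x i) (y i)) '' Set.univ ∪
    (fun i => qc (c i) (x i) (y i)) '' Set.univ) := hr
  have : ∀ h0 : r ∈ RC E c x y Set.univ, δ ⟨r, h0⟩ = δ' ⟨r, h0⟩ := by
    induction hr' using Algebra.adjoin_induction with
    | mem w hw =>
      intro h0
      rcases hw with ⟨i, -, rfl⟩ | ⟨i, -, rfl⟩
      · exact hp i
      · exact hq i
    | algebraMap e =>
      intro h0
      exact hE e
    | add v w hv hw h4 h5 =>
      intro h0
      have h6 : (⟨v + w, h0⟩ : RC E c x y Set.univ) = ⟨v, hv⟩ + ⟨w, hw⟩ := rfl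
      rw [h6, h.add, h'.add, h4 hv hv, h5 hw hw]
    | mul v w hv hw h4 h5 =>
      intro h0
      have h6 : (⟨v * w, h0⟩ : RC E c x y Set.univ) = ⟨v, hv⟩ * ⟨w, hw⟩ := rfl
      rw [h6, h.mul, h'.mul, h4 hv hv, h5 hw hw]
  exact this hr

variable (E) in
/-- The invariant derivations in the directions of the points. -/
structure Par (d : ι → Derivation k U U) (x y : ι → U) : Prop where
  hE : ∀ i (e : E), d i (algebraMap E U e) = 0
  hx : ∀ i j, d i (x j) = algebraMap E U (if j = i then 1 else 0) * y j

theorem Sit.exists_par (S : Sit D ι a b x y u) : ∃ d : ι → Derivation k U U, Par E d x y := by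
  have hcU : CharZero U := charZero_of_injective_algebraMap (algebraMap k U).injective
  choose d hd1 hd2 using fun i : ι => exists_der_ext (k := E) (E := E) (K := U) 0 x S.hind
    (fun j => algebraMap E U (if j = i then 1 else 0) * y j)
  refine ⟨fun i => (d i).restrictScalars k, ⟨fun i e => ?_, fun i j => hd2 i j⟩⟩
  exact (d i).map_algebraMap e

section par

variable {d : ι → Derivation k U U} (hd : Par E d x y) (S : Sit D ι a b x y u)

include hd S

theorem Par.dP (c : ι → Bool) (i j : ι) :
    d i (pc (c j) (x j) (y j)) = EC.dP (c j) (algebraMap k U (a j)) (algebraMap k U (b j))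
      (algebraMap E U (if j = i then 1 else 0)) (pc (c j) (x j) (y j)) (qc (c j) (x j) (y j)) :=
  (chart_of_point (c j) (d i) (S.hxy j) (S.y_ne j) (hd.hx i j)
    (der_y (d i) (S.hxy j) (S.y_ne j) (hd.hx i j))).2.1

theorem Par.dQ (c : ι → Bool) (i j : ι) :
    d i (qc (c j) (x j) (y j)) = EC.dQ (c j) (algebraMap k U (a j)) (algebraMap k U (b j))
      (algebraMap E U (if j = i then 1 else 0)) (pc (c j) (x j) (y j)) (qc (c j) (x j) (y j)) :=
  (chart_of_point (c j) (d i) (S.hxy j) (S.y_ne j) (hd.hx i j)
    (der_y (d i) (S.hxy j) (S.y_ne j) (hd.hx i j))).2.2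

theorem Par.stable (c : ι → Bool) (i : ι) :
    ∀ z ∈ RC E c x y Set.univ, d i z ∈ RC E c x y Set.univ :=
  der_RB (c := c) (a := a) (b := b) (u := fun j => if j = i then 1 else 0) (d i)
    (fun e => ⟨0, by rw [hd.hE, map_zero]⟩) (fun j => hd.dP S c i j) (fun j => hd.dQ S c i j) _

end par

/-- the derivation of the coordinate ring in the direction of a point -/
noncomputable def Par.DR {d : ι → Derivation k U U} (hd : Par E d x y) (S : Sit D ι a b x y u)
    (c : ι → Bool) (i : ι) : Derivation k (RC E c x y Set.univ) (RC E c x y Set.univ) :=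
  resA (d i) _ (hd.stable S c i)

variable {κ : Type} [Field κ] [CharZero κ] [Algebra E κ] [Algebra k κ] [IsScalarTower k E κ]

theorem algMapRC {c : ι → Bool} (e : k) :
    ((algebraMap E (RC E c x y Set.univ) (algebraMap k E e) : RC E c x y Set.univ) : U) =
      algebraMap k U e := by
  rw [IsScalarTower.algebraMap_apply k E U]
  rfl

theorem Sit.rel_k (S : Sit D ι a b x y u) (c : ι → Bool) (π : RC E c x y Set.univ →ₐ[E] κ) (i : ι) :
    EC.rel (c i) (algebraMap k κ (a i)) (algebraMap k κ (b i)) (π (PP E c x y i))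
      (π (QQ E c x y i)) = 0 := by
  have hcU : CharZero U := charZero_of_injective_algebraMap (algebraMap k U).injective
  have h := tr_rel ((RC E c x y Set.univ).val : RC E c x y Set.univ →+* U)
    Subtype.val_injective (π : RC E c x y Set.univ →+* κ) (c i)
    (α := algebraMap E _ (algebraMap k E (a i))) (β := algebraMap E _ (algebraMap k E (b i)))
    (p := PP E c x y i) (q := QQ E c x y i) (by
      have h := S.rel c i
      change EC.rel (c i) ((algebraMap E (RC E c x y Set.univ) (algebraMap k E (a i)) :
        RC E c x y Set.univ) : U) ((algebraMap E (RC E c x y Set.univ) (algebraMap k E (b i)) :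
        RC E c x y Set.univ) : U) _ _ = 0
      rw [algMapRC, algMapRC]
      exact h)
  simp only [RingHom.coe_coe, AlgHom.commutes] at h
  rwa [← IsScalarTower.algebraMap_apply, ← IsScalarTower.algebraMap_apply] at h

theorem Par.dP_k {d : ι → Derivation k U U} (hd : Par E d x y) (S : Sit D ι a b x y u)
    (c : ι → Bool) (π : RC E c x y Set.univ →ₐ[E] κ) (i j : ι) :
    π (hd.DR S c i (PP E c x y j)) = (if j = i then 1 else 0) *
      EC.dP (c j) (algebraMap k κ (a j)) (algebraMap k κ (b j)) 1 (π (PP E c x y j))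
        (π (QQ E c x y j)) := by
  have hcU : CharZero U := charZero_of_injective_algebraMap (algebraMap k U).injective
  have h := tr_dP ((RC E c x y Set.univ).val : RC E c x y Set.univ →+* U)
    Subtype.val_injective (π : RC E c x y Set.univ →+* κ) (c j)
    (α := algebraMap E _ (algebraMap k E (a j))) (β := algebraMap E _ (algebraMap k E (b j)))
    (u := algebraMap E _ (if j = i then 1 else 0))
    (p := PP E c x y j) (q := QQ E c x y j) (d := hd.DR S c i (PP E c x y j)) (by
      have h := hd.dP S c i j
      change d i (pc (c j) (x j) (y j)) = EC.dP (c j)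
        ((algebraMap E (RC E c x y Set.univ) (algebraMap k E (a j)) :
        RC E c x y Set.univ) : U) ((algebraMap E (RC E c x y Set.univ) (algebraMap k E (b j)) :
        RC E c x y Set.univ) : U) (algebraMap E U (if j = i then 1 else 0)) _ _
      rw [algMapRC, algMapRC]
      exact h)
  simp only [RingHom.coe_coe, AlgHom.commutes] at h
  rw [← IsScalarTower.algebraMap_apply, ← IsScalarTower.algebraMap_apply] at h
  rw [h, dP_u]
  split_ifs <;> simp

theorem Par.dQ_k {d : ι → Derivation k U U} (hd : Par E d x y) (S : Sit D ι a b x y u)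
    (c : ι → Bool) (π : RC E c x y Set.univ →ₐ[E] κ) (i j : ι) :
    π (hd.DR S c i (QQ E c x y j)) = (if j = i then 1 else 0) *
      EC.dQ (c j) (algebraMap k κ (a j)) (algebraMap k κ (b j)) 1 (π (PP E c x y j))
        (π (QQ E c x y j)) := by
  have hcU : CharZero U := charZero_of_injective_algebraMap (algebraMap k U).injective
  have h := tr_dQ ((RC E c x y Set.univ).val : RC E c x y Set.univ →+* U)
    Subtype.val_injective (π : RC E c x y Set.univ →+* κ) (c j)
    (α := algebraMap E _ (algebraMap k E (a j))) (β := algebraMap E _ (algebraMap k E (b j)))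
    (u := algebraMap E _ (if j = i then 1 else 0))
    (p := PP E c x y j) (q := QQ E c x y j) (d := hd.DR S c i (QQ E c x y j)) (by
      have h := hd.dQ S c i j
      change d i (qc (c j) (x j) (y j)) = EC.dQ (c j)
        ((algebraMap E (RC E c x y Set.univ) (algebraMap k E (a j)) :
        RC E c x y Set.univ) : U) ((algebraMap E (RC E c x y Set.univ) (algebraMap k E (b j)) :
        RC E c x y Set.univ) : U) (algebraMap E U (if j = i then 1 else 0)) _ _
      rw [algMapRC, algMapRC]
      exact h)
  simp only [RingHom.coe_coe, AlgHom.commutes] at h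
  rw [← IsScalarTower.algebraMap_apply, ← IsScalarTower.algebraMap_apply] at h
  rw [h, dQ_u]
  split_ifs <;> simp

/-- the components of a derivation over `E` -/
theorem Sit.comp (S : Sit D ι a b x y u) (c : ι → Bool) (π : RC E c x y Set.univ →ₐ[E] κ)
    {δ : RC E c x y Set.univ → κ} (h : IsD (π : RC E c x y Set.univ →+* κ) δ)
    (hE : ∀ e : E, δ (algebraMap E _ e) = 0) (i : ι) : ∃ w,
      δ (PP E c x y i) = w * EC.dP (c i) (algebraMap k κ (a i)) (algebraMap k κ (b i)) 1
        (π (PP E c x y i)) (π (QQ E c x y i)) ∧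
      δ (QQ E c x y i) = w * EC.dQ (c i) (algebraMap k κ (a i)) (algebraMap k κ (b i)) 1
        (π (PP E c x y i)) (π (QQ E c x y i)) := by
  have hcU : CharZero U := charZero_of_injective_algebraMap (algebraMap k U).injective
  have h1 := rel_der h (c i) (α := algebraMap E _ (algebraMap k E (a i)))
    (β := algebraMap E _ (algebraMap k E (b i))) (p := PP E c x y i) (q := QQ E c x y i)
    (hE _) (hE _) ((RC E c x y Set.univ).val : RC E c x y Set.univ →+* U)
    Subtype.val_injective (by
      have h := S.rel c i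
      change EC.rel (c i) ((algebraMap E (RC E c x y Set.univ) (algebraMap k E (a i)) :
        RC E c x y Set.univ) : U) ((algebraMap E (RC E c x y Set.univ) (algebraMap k E (b i)) :
        RC E c x y Set.univ) : U) _ _ = 0
      rw [algMapRC, algMapRC]
      exact h)
  simp only [RingHom.coe_coe, AlgHom.commutes] at h1
  rw [← IsScalarTower.algebraMap_apply, ← IsScalarTower.algebraMap_apply] at h1
  refine exists_w ?_ (S.rel_k c π i) h1
  have h2 := S.hab i
  intro h3
  apply h2
  apply (algebraMap k κ).injective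
  rw [map_zero, ← h3, map_add, map_mul, map_mul, map_pow, map_pow, map_ofNat, map_ofNat]

/-- every derivation over `E` is a combination of the invariant ones -/
theorem Par.expand [Fintype ι] {d : ι → Derivation k U U} (hd : Par E d x y)
    (S : Sit D ι a b x y u) (c : ι → Bool) (π : RC E c x y Set.univ →ₐ[E] κ)
    {δ : RC E c x y Set.univ → κ} (h : IsD (π : RC E c x y Set.univ →+* κ) δ)
    (hE : ∀ e : E, δ (algebraMap E _ e) = 0) (w : ι → κ)
    (hwp : ∀ i, δ (PP E c x y i) = w i * EC.dP (c i) (algebraMap k κ (a i)) (algebraMap k κ (b i)) 1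
        (π (PP E c x y i)) (π (QQ E c x y i)))
    (hwq : ∀ i, δ (QQ E c x y i) = w i * EC.dQ (c i) (algebraMap k κ (a i)) (algebraMap k κ (b i)) 1
        (π (PP E c x y i)) (π (QQ E c x y i))) (r : RC E c x y Set.univ) :
    δ r = ∑ i, w i * π (hd.DR S c i r) := by
  refine isD_ext h (δ' := fun r => ∑ i, w i * π (hd.DR S c i r)) ⟨fun r s => ?_, fun r s => ?_⟩
    (fun e => ?_) (fun j => ?_) (fun j => ?_) r
  · rw [← Finset.sum_add_distrib]
    refine Finset.sum_congr rfl fun i _ => ?_
    rw [map_add, map_add]; ring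
  · rw [Finset.mul_sum, Finset.mul_sum, ← Finset.sum_add_distrib]
    refine Finset.sum_congr rfl fun i _ => ?_
    rw [Derivation.leibniz, smul_eq_mul, smul_eq_mul, map_add, map_mul, map_mul]
    simp only [RingHom.coe_coe]
    ring
  · rw [hE]
    symm
    refine Finset.sum_eq_zero fun i _ => ?_
    have : hd.DR S c i (algebraMap E _ e) = 0 := Subtype.ext (hd.hE i e)
    rw [this, map_zero, mul_zero]
  · rw [hwp, Finset.sum_eq_single j]
    · rw [hd.dP_k S c π, if_pos rfl, one_mul]
    · intro i _ hij
      rw [hd.dP_k S c π, if_neg (Ne.symm hij), zero_mul, mul_zero]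
    · intro h; exact absurd (Finset.mem_univ j) h
  · rw [hwq, Finset.sum_eq_single j]
    · rw [hd.dQ_k S c π, if_pos rfl, one_mul]
    · intro i _ hij
      rw [hd.dQ_k S c π, if_neg (Ne.symm hij), zero_mul, mul_zero]
    · intro h; exact absurd (Finset.mem_univ j) h

end Pool.Agent.K1H80.EC
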