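import Pool.Agent.K1H80.EC.Core2

/-!
# Prime ideals at which the divisor is smooth are differential: the proof
-/

set_option autoImplicit false
set_option linter.unusedSectionVars false

namespace Pool.Agent.K1H80.EC

open scoped Classical

variable {k E U : Type} [Field k] [CharZero k] [Field E] [Field U] [Algebra k E] [Algebra k U]
  [Algebra E U] [IsScalarTower k E U]

variable {D : Derivation k U U} {ι : Type} {a b : ι → k} {x y : ι → U} {u : ι → E}

variable {κ : Type} [Field κ] [CharZero κ] [Algebra E κ] [Algebra k κ] [IsScalarTower k E κ]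

theorem hab_k {ι : Type} {a b : ι → k} (h : ∀ i, 4 * a i ^ 3 + 27 * b i ^ 2 ≠ 0) (i : ι) :
    4 * algebraMap k κ (a i) ^ 3 + 27 * algebraMap k κ (b i) ^ 2 ≠ 0 := by
  intro h3
  apply h i
  apply (algebraMap k κ).injective
  rw [map_zero, ← h3, map_add, map_mul, map_mul, map_pow, map_pow, map_ofNat, map_ofNat]

/-- **The exchange.** If the divisor is smooth in the direction of the point `i1`, the other
coordinates are independent. -/
theorem Sit.exchange [Fintype ι] {d : ι → Derivation k U U} (hd : Par E d x y)
    (S : Sit D ι a b x y u) (c : ι → Bool) (π : RC E c x y Set.univ →ₐ[E] κ)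
    (Φ : RC E c x y Set.univ) (hΦ : π Φ = 0) (i1 : ι) (hi1 : π (hd.DR S c i1 Φ) ≠ 0) (i0 : ι)
    (hind : AlgebraicIndependent E (fun i : {i : ι // i ≠ i0} => π (PP E c x y i))) :
    AlgebraicIndependent E (fun i : {i : ι // i ≠ i1} => π (PP E c x y i)) := by
  set M := IntermediateField.adjoin E
    (Set.range fun i : {i : ι // i ≠ i1} => π (PP E c x y i)) with hM
  have hcE : CharZero E := charZero_of_injective_algebraMap (algebraMap k E).injective
  have hcM : CharZero M := charZero_of_injective_algebraMap (algebraMap E M).injective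
  have halg : IsAlgebraic M (π (PP E c x y i1)) := by
    by_contra htr
    obtain ⟨δ, -, hδ⟩ := exists_der_ext (k := M) (E := M) (K := κ) 0
      (fun _ : Unit => π (PP E c x y i1)) (by
        rw [algebraicIndependent_unique_type_iff]
        exact htr) (fun _ => 1)
    have hδ1 : δ (π (PP E c x y i1)) = 1 := hδ ()
    have hE : ∀ e : E, δ (π (algebraMap E _ e)) = 0 := by
      intro e
      rw [AlgHom.commutes, IsScalarTower.algebraMap_apply E M κ]
      exact δ.map_algebraMap _
    have hp : ∀ i, i ≠ i1 → δ (π (PP E c x y i)) = 0 := by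
      intro i hi
      have h1 : π (PP E c x y i) ∈ M := IntermediateField.subset_adjoin E _ ⟨⟨i, hi⟩, rfl⟩
      exact δ.map_algebraMap ⟨_, h1⟩
    have hq : ∀ i, i ≠ i1 → δ (π (QQ E c x y i)) = 0 := by
      intro i hi
      have h1 : π (PP E c x y i) ∈ M := IntermediateField.subset_adjoin E _ ⟨⟨i, hi⟩, rfl⟩
      have h2 : IsAlgebraic M (π (QQ E c x y i)) := by
        refine alg_second (R := M) (c i) (α := algebraMap k κ (a i)) (β := algebraMap k κ (b i))
          ?_ ?_ (isAlgebraic_algebraMap (⟨_, h1⟩ : M)) (S.rel_k c π i)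
        · rw [IsScalarTower.algebraMap_apply k E κ, IsScalarTower.algebraMap_apply E M κ]
          exact isAlgebraic_algebraMap _
        · rw [IsScalarTower.algebraMap_apply k E κ, IsScalarTower.algebraMap_apply E M κ]
          exact isAlgebraic_algebraMap _
      exact (isD_right δ (RingHom.id κ)).alg_zero (E := M) (fun e => δ.map_algebraMap e) h2
    have hD : IsD (π : RC E c x y Set.univ →+* κ) (fun r => δ (π r)) :=
      ⟨fun x y => by simp only [map_add], fun x y => by
        simp only [map_mul, δ.leibniz, smul_eq_mul, RingHom.coe_coe]⟩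
    choose w hw1 hw2 using fun i => S.comp c π hD hE i
    have hw0 : ∀ i, i ≠ i1 → w i = 0 := by
      intro i hi
      have h1 := hw1 i
      have h2 := hw2 i
      rw [hp i hi] at h1
      rw [hq i hi] at h2
      rcases dPQ_ne (hab_k S.hab i) (S.rel_k c π i) with h3 | h3
      · exact (mul_eq_zero.1 h1.symm).resolve_right h3
      · exact (mul_eq_zero.1 h2.symm).resolve_right h3
    have hw3 : w i1 ≠ 0 := by
      intro h0
      have h1 := hw1 i1
      rw [hδ1, h0, zero_mul] at h1
      exact one_ne_zero h1
    have h4 := hd.expand S c π hD hE w hw1 hw2 Φ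
    rw [hΦ, map_zero, Finset.sum_eq_single i1] at h4
    · exact mul_ne_zero hw3 hi1 h4.symm
    · intro i _ hi
      rw [hw0 i hi, zero_mul]
    · intro h; exact absurd (Finset.mem_univ i1) h
  refine exch _ _ hind (le_of_eq ?_) (fun i => ?_)
  · rw [Nat.card_eq_fintype_card, Nat.card_eq_fintype_card, Fintype.card_subtype_compl,
      Fintype.card_subtype_compl]
    simp
  · by_cases hi : (i : ι) = i1
    · rw [hi]
      exact IntermediateField.isAlgebraic_adjoin_iff.1 halg
    · exact isAlgebraic_algebraMap (⟨_, Algebra.subset_adjoin ⟨⟨i, hi⟩, rfl⟩⟩ :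
        Algebra.adjoin E (Set.range fun i : {i : ι // i ≠ i1} => π (PP E c x y i)))

/-- **Primes at which the divisor is smooth are differential.** -/
theorem Sit.coreA [Fintype ι] {d : ι → Derivation k U U} (hd : Par E d x y)
    (S : Sit D ι a b x y u) (c : ι → Bool) (π : RC E c x y Set.univ →ₐ[E] κ)
    (Φ : RC E c x y Set.univ) (hΦ : π Φ = 0) (hDΦ : π (S.DR c Set.univ Φ) = 0)
    (i1 : ι) (hi1 : π (hd.DR S c i1 Φ) ≠ 0) (i0 : ι)
    (hind : AlgebraicIndependent E (fun i : {i : ι // i ≠ i0} => π (PP E c x y i)))
    (r : RC E c x y Set.univ) (hr : π r = 0) : π (S.DR c Set.univ r) = 0 := by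
  have hind1 := S.exchange hd c π Φ hΦ i1 hi1 i0 hind
  -- the derivation of the field `E`
  choose e' he' using S.hE
  have hinjE : Function.Injective (algebraMap E U) := (algebraMap E U).injective
  let dE : Derivation k E κ := Derivation.mk'
    { toFun := fun e => algebraMap E κ (e' e)
      map_add' := fun e f => by
        rw [← map_add]
        congr 1
        apply hinjE
        rw [← he', map_add, map_add, map_add, he', he']
      map_smul' := fun t e => by
        rw [RingHom.id_apply, Algebra.smul_def t (algebraMap E κ (e' e)),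
          IsScalarTower.algebraMap_apply k E κ, ← map_mul]
        congr 1
        apply hinjE
        rw [← he', map_mul, ← he', Algebra.smul_def, map_mul, D.leibniz,
          ← IsScalarTower.algebraMap_apply k E U, D.map_algebraMap, smul_zero, add_zero,
          smul_eq_mul] }
    (by
      intro e f
      change algebraMap E κ (e' (e * f)) = e • algebraMap E κ (e' f) + f • algebraMap E κ (e' e)
      rw [Algebra.smul_def, Algebra.smul_def, ← map_mul, ← map_mul, ← map_add]
      congr 1
      apply hinjE
      rw [← he', (algebraMap E U).map_mul, D.leibniz, (algebraMap E U).map_add,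
        (algebraMap E U).map_mul, (algebraMap E U).map_mul, smul_eq_mul, smul_eq_mul, he', he'])
  obtain ⟨δ, hδE, hδp⟩ := exists_der_ext (k := k) (E := E) (K := κ) dE
    (fun i : {i : ι // i ≠ i1} => π (PP E c x y i)) hind1
    (fun i => π (S.DR c Set.univ (PP E c x y i)))
  have hD1 : IsD (π : RC E c x y Set.univ →+* κ) (fun r => δ (π r)) :=
    isD_left δ (π : RC E c x y Set.univ →+* κ)
  have hD2 : IsD (π : RC E c x y Set.univ →+* κ) (fun r => π (S.DR c Set.univ r)) :=
    isD_right (S.DR c Set.univ) (π : RC E c x y Set.univ →+* κ)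
  have hD := hD1.sub hD2
  have hE : ∀ e : E, δ (π (algebraMap E _ e)) - π (S.DR c Set.univ (algebraMap E _ e)) = 0 := by
    intro e
    rw [AlgHom.commutes, hδE]
    have h1 : S.DR c Set.univ (algebraMap E _ e) = algebraMap E _ (e' e) :=
      Subtype.ext (he' e)
    rw [h1, AlgHom.commutes]
    exact sub_self _
  choose w hw1 hw2 using fun i => S.comp c π hD hE i
  have hw0 : ∀ i, i ≠ i1 → w i = 0 := by
    intro i hi
    have h1 := hw1 i
    have h2 : δ (π (PP E c x y i)) = π (S.DR c Set.univ (PP E c x y i)) := hδp ⟨i, hi⟩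
    rw [h2, sub_self] at h1
    have htr : Transcendental E (π (PP E c x y i)) := hind1.transcendental ⟨i, hi⟩
    have h3 := S.rel_k c π i
    rw [IsScalarTower.algebraMap_apply k E κ, IsScalarTower.algebraMap_apply k E κ] at h3 h1
    exact (mul_eq_zero.1 h1.symm).resolve_right (dP_ne_of_trans h3 htr)
  have hw3 : w i1 = 0 := by
    have h4 := hd.expand S c π hD hE w hw1 hw2 Φ
    rw [hΦ, map_zero, hDΦ, sub_zero, Finset.sum_eq_single i1] at h4
    · exact (mul_eq_zero.1 h4.symm).resolve_right hi1
    · intro i _ hi
      rw [hw0 i hi, zero_mul]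
    · intro h; exact absurd (Finset.mem_univ i1) h
  have h5 := hd.expand S c π hD hE w hw1 hw2 r
  rw [hr, map_zero, Finset.sum_eq_zero] at h5
  · linear_combination -h5
  · intro i _
    by_cases hi : i = i1
    · rw [hi, hw3, zero_mul]
    · rw [hw0 i hi, zero_mul]

end Pool.Agent.K1H80.EC
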