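import Pool.Agent.K1H80.EC.Core

/-!
# Multihomogeneous forms on products of plane cubics
-/

set_option autoImplicit false
set_option linter.unusedSectionVars false

namespace Pool.Agent.K1H80.EC

open MvPolynomial
open scoped Classical

/-- chain rule for polynomials in several variables -/
theorem chainMv {F A B σ : Type*} [CommRing F] [CommRing A] [CommRing B] [Algebra F A] [Fintype σ]
    {φ : A →+* B} {δ : A → B} (h : IsD φ δ) (hF : ∀ c : F, δ (algebraMap F A c) = 0)
    (P : σ → A) (G : MvPolynomial σ F) :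
    δ (aeval P G) = ∑ v, φ (aeval P (pderiv v G)) * δ (P v) := by
  induction G using MvPolynomial.induction_on with
  | C c =>
    rw [aeval_C, hF]
    symm
    refine Finset.sum_eq_zero fun v _ => ?_
    rw [pderiv_C, map_zero, map_zero, zero_mul]
  | add p q hp hq =>
    rw [map_add, h.add, hp, hq, ← Finset.sum_add_distrib]
    refine Finset.sum_congr rfl fun v _ => ?_
    rw [map_add, map_add, map_add]; ring
  | mul_X p s hp =>
    rw [map_mul, aeval_X, h.mul, hp]
    have h1 : ∀ v, φ (aeval P (pderiv v (p * X s))) * δ (P v) =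
        φ (P s) * (φ (aeval P (pderiv v p)) * δ (P v)) +
          (if v = s then φ (aeval P p) * δ (P s) else 0) := by
      intro v
      rw [pderiv_mul, pderiv_X, map_add, map_mul, map_mul, aeval_X, map_add, map_mul, map_mul]
      by_cases hv : v = s
      · subst hv
        rw [Pi.single_eq_same, if_pos rfl, map_one, map_one]; ring
      · rw [Pi.single_eq_of_ne (Ne.symm hv), if_neg hv, map_zero, map_zero]; ring
    simp only [h1]
    rw [Finset.sum_add_distrib, ← Finset.mul_sum, Finset.sum_ite_eq' Finset.univ s]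
    simp only [Finset.mem_univ, if_true]
    ring

/-- `G` is multihomogeneous: every monomial has degree `d i` in the coordinates of the `i`-th
point. -/
def IsForm {F : Type*} [CommRing F] {n : ℕ} (d : Fin n → ℕ) (G : MvPolynomial (Fin n × Fin 3) F) :
    Prop := ∀ m ∈ G.support, ∀ i, ∑ c, m (i, c) = d i

theorem IsForm.euler {F : Type*} [CommRing F] {n : ℕ} {d : Fin n → ℕ}
    {G : MvPolynomial (Fin n × Fin 3) F} (h : IsForm d G) {A : Type*} [CommRing A] [Algebra F A]
    (Q : Fin n × Fin 3 → A) (i : Fin n) :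
    ∑ c, Q (i, c) * aeval Q (pderiv (i, c) G) = d i * aeval Q G := by
  have hw : IsWeightedHomogeneous (fun v : Fin n × Fin 3 => if v.1 = i then 1 else 0) G (d i) := by
    intro m hm
    have h1 := h m (mem_support_iff.2 hm) i
    rw [Finsupp.weight_apply, Finsupp.sum_fintype _ _ (fun _ => by simp), ← h1,
      Fintype.sum_prod_type, Finset.sum_eq_single i]
    · simp
    · intro j _ hj
      simp [hj]
    · intro h; exact absurd (Finset.mem_univ i) h
  have h1 := congrArg (aeval Q) hw.sum_weight_X_mul_pderiv
  rw [map_sum, map_nsmul, nsmul_eq_mul, Fintype.sum_prod_type, Finset.sum_eq_single i] at h1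
  · rw [← h1]
    refine Finset.sum_congr rfl fun c _ => ?_
    simp
  · intro j _ hj
    simp [hj]
  · intro h; exact absurd (Finset.mem_univ i) h

/-- scaling the coordinates of the points -/
theorem IsForm.scale {F : Type*} [CommRing F] {n : ℕ} {d : Fin n → ℕ}
    {G : MvPolynomial (Fin n × Fin 3) F} (h : IsForm d G) {A : Type*} [CommRing A] [Algebra F A]
    (t : Fin n → A) (Q : Fin n × Fin 3 → A) :
    aeval (fun v => t v.1 * Q v) G = (∏ i, t i ^ d i) * aeval Q G := by
  rw [aeval_def, aeval_def, eval₂_eq', eval₂_eq', Finset.mul_sum]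
  refine Finset.sum_congr rfl fun m hm => ?_
  have h1 : ∏ v, (t v.1 * Q v) ^ m v = (∏ i, t i ^ d i) * ∏ v, Q v ^ m v := by
    simp only [mul_pow]
    rw [Finset.prod_mul_distrib]
    congr 1
    rw [Fintype.prod_prod_type]
    refine Finset.prod_congr rfl fun i _ => ?_
    rw [← h m hm i, ← Finset.prod_pow_eq_pow_sum]
  rw [h1]
  ring

section vec

variable {K : Type*}

/-- the homogeneous coordinates of a point in the chart `c` -/
def cv [One K] (c : Bool) (p q : K) : Fin 3 → K := if c then ![q, 1, p] else ![q, p, 1]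

theorem cv_map {A B : Type*} [CommRing A] [CommRing B] (φ : A →+* B) (c : Bool) (p q : A)
    (j : Fin 3) : φ (cv c p q j) = cv c (φ p) (φ q) j := by
  cases c <;> fin_cases j <;> simp [cv]

variable [Field K]

/-- the tangent vector in the chart `c` -/
noncomputable def tv (c : Bool) (α β p q : K) : Fin 3 → K :=
  if c then ![dQ c α β 1 p q, 0, dP c α β 1 p q] else ![dQ c α β 1 p q, dP c α β 1 p q, 0]

/-- the gradient of the equation `Y² Z - X³ - α X Z² - β Z³` of the cubic -/
def gW (α β : K) (Q : Fin 3 → K) : Fin 3 → K :=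
  ![-(3 * Q 0 ^ 2 + α * Q 2 ^ 2), 2 * Q 1 * Q 2, Q 1 ^ 2 - 2 * α * Q 0 * Q 2 - 3 * β * Q 2 ^ 2]

/-- derivatives of the coordinates in the chart `c` -/
theorem cv_der {A : Type*} [CommRing A] {φ : A →+* K} {δ : A → K} (h : IsD φ δ) (c : Bool)
    {p q : A} {α β w : K} (hp : δ p = w * dP c α β 1 (φ p) (φ q))
    (hq : δ q = w * dQ c α β 1 (φ p) (φ q)) (j : Fin 3) :
    δ (cv c p q j) = w * tv c α β (φ p) (φ q) j := by
  cases c <;> fin_cases j <;> simp [cv, tv, hp, hq, h.one']

/-- a vector orthogonal to a point and to the tangent vector is a multiple of the gradient -/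
theorem grad_par [CharZero K] {c : Bool} {α β p q : K} (hab : 4 * α ^ 3 + 27 * β ^ 2 ≠ 0)
    (h : rel c α β p q = 0) (v : Fin 3 → K) (h1 : ∑ j, cv c p q j * v j = 0)
    (h2 : ∑ j, v j * tv c α β p q j = 0) : ∃ l, ∀ j, v j = l * gW α β (cv c p q) j := by
  have hne := dPQ_ne hab h
  have h20 : (2 : K) ≠ 0 := two_ne_zero
  rw [Fin.sum_univ_three] at h1 h2
  cases c
  · simp only [cv, tv, Bool.false_eq_true, if_false, Matrix.cons_val_zero, Matrix.cons_val_one,
      Matrix.cons_val, mul_zero, add_zero, one_mul] at h1 h2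
    simp only [rel, dP, dQ, Bool.false_eq_true, if_false, one_mul] at h hne h2
    have key : ∃ l, v 0 = l * -(3 * q ^ 2 + α) ∧ v 1 = l * (2 * p) := by
      by_cases hp : p = 0
      · have hd : 3 * q ^ 2 + α ≠ 0 := by
          intro h3
          rcases hne with h4 | h4
          · exact h4 (by rw [h3, zero_mul])
          · exact h4 hp
        refine ⟨-(v 0 / (3 * q ^ 2 + α)), by field_simp, ?_⟩
        rw [hp, mul_zero, zero_add] at h2
        have h5 : (3 * q ^ 2 + α) * 2⁻¹ ≠ 0 := mul_ne_zero hd (inv_ne_zero h20)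
        rw [(mul_eq_zero.1 h2).resolve_right h5, hp]
        ring
      · refine ⟨v 1 / (2 * p), ?_, by field_simp⟩
        field_simp
        field_simp at h2
        linear_combination h2
    obtain ⟨l, hl0, hl1⟩ := key
    refine ⟨l, fun j => ?_⟩
    fin_cases j
    · simp [gW, cv, hl0]
    · simp [gW, cv, hl1]
    · simp only [gW, cv, Bool.false_eq_true, if_false, Fin.reduceFinMk, Matrix.cons_val_zero,
        Matrix.cons_val_one, Matrix.cons_val, one_pow, mul_one]
      have h3 : v 2 = -(q * v 0) - p * v 1 := by linear_combination h1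
      rw [h3, hl0, hl1]
      linear_combination (3 * l) * h
  · simp only [cv, tv, if_true, Matrix.cons_val_zero, Matrix.cons_val_one,
      Matrix.cons_val, mul_zero, add_zero, one_mul] at h1 h2
    simp only [rel, dP, dQ, if_true, one_mul] at h hne h2
    have key : ∃ l, v 0 = l * -(3 * q ^ 2 + α * p ^ 2) ∧
        v 2 = l * (1 - 2 * α * q * p - 3 * β * p ^ 2) := by
      by_cases hd : 1 - 2 * α * q * p - 3 * β * p ^ 2 = 0
      · have hd' : 3 * q ^ 2 + α * p ^ 2 ≠ 0 := by
          intro h3
          rcases hne with h4 | h4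
          · exact h4 (by rw [h3, zero_mul, neg_zero])
          · apply h4
            field_simp
            linear_combination -hd
        refine ⟨-(v 0 / (3 * q ^ 2 + α * p ^ 2)), by field_simp, ?_⟩
        have h5 : v 2 * (3 * q ^ 2 + α * p ^ 2) = 0 := by
          field_simp at h2
          linear_combination -h2 - v 0 * hd
        rw [(mul_eq_zero.1 h5).resolve_right hd', hd, mul_zero]
      · refine ⟨v 2 / (1 - 2 * α * q * p - 3 * β * p ^ 2), ?_, (div_mul_cancel₀ _ hd).symm⟩
        rw [div_mul_eq_mul_div, eq_div_iff hd]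
        field_simp at h2
        linear_combination -h2
    obtain ⟨l, hl0, hl2⟩ := key
    refine ⟨l, fun j => ?_⟩
    fin_cases j
    · simp [gW, cv, hl0]
    · simp only [gW, cv, if_true, Fin.mk_one, Matrix.cons_val_zero,
        Matrix.cons_val_one, Matrix.cons_val, one_pow, mul_one]
      have h3 : v 1 = -(q * v 0) - p * v 2 := by linear_combination h1
      rw [h3, hl0, hl2]
      linear_combination (3 * l) * h
    · simp [gW, cv, hl2]

end vec

end Pool.Agent.K1H80.EC
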