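import Pool.Agent.K1H80.EC.Core3
import Pool.Agent.K1H80.EC.Form

/-!
# Singular points of the divisor
-/

set_option autoImplicit false
set_option linter.unusedSectionVars false

namespace Pool.Agent.K1H80.EC

open MvPolynomial
open scoped Classical

variable {k F E U : Type} [Field k] [CharZero k] [Field F] [Field E] [Field U] [Algebra k F]
  [Algebra k E] [Algebra k U] [Algebra F E] [Algebra F U] [Algebra E U] [IsScalarTower k F E]
  [IsScalarTower k E U] [IsScalarTower F E U]

variable {D : Derivation k U U} {n : ℕ} {a b : Fin n → k} {x y : Fin n → U} {I : Set (Fin n)}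
  {u : I → E}

variable {κ : Type} [Field κ] [CharZero κ] [Algebra E κ] [Algebra k κ] [Algebra F κ]
  [IsScalarTower k E κ] [IsScalarTower F E κ]

variable (E) in
/-- the coordinate ring -/
noncomputable abbrev RI (c : Fin n → Bool) (x y : Fin n → U) (I : Set (Fin n)) : Subalgebra E U :=
  RC E (fun i : I => c i) (fun i : I => x i) (fun i : I => y i) Set.univ

theorem pc_mem (hEy : ∀ i ∉ I, ∃ e : E, algebraMap E U e = y i) {c : Fin n → Bool}
    (hc : ∀ i ∉ I, c i = false) (i : Fin n) : pc (c i) (x i) (y i) ∈ RI E c x y I := by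
  by_cases hi : i ∈ I
  · exact (PP E (fun i : I => c i) (fun i : I => x i) (fun i : I => y i) ⟨i, hi⟩).2
  · rw [hc i hi]
    obtain ⟨e, he⟩ := hEy i hi
    have : pc false (x i) (y i) = y i := by simp [pc]
    rw [this, ← he]
    exact Subalgebra.algebraMap_mem _ e

theorem qc_mem (hEx : ∀ i ∉ I, ∃ e : E, algebraMap E U e = x i) {c : Fin n → Bool}
    (hc : ∀ i ∉ I, c i = false) (i : Fin n) : qc (c i) (x i) (y i) ∈ RI E c x y I := by
  by_cases hi : i ∈ I
  · exact (QQ E (fun i : I => c i) (fun i : I => x i) (fun i : I => y i) ⟨i, hi⟩).2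
  · rw [hc i hi]
    obtain ⟨e, he⟩ := hEx i hi
    have : qc false (x i) (y i) = x i := by simp [qc]
    rw [this, ← he]
    exact Subalgebra.algebraMap_mem _ e

/-- the coordinates of the points in the charts, in the coordinate ring -/
noncomputable def Pt (hEx : ∀ i ∉ I, ∃ e : E, algebraMap E U e = x i)
    (hEy : ∀ i ∉ I, ∃ e : E, algebraMap E U e = y i) {c : Fin n → Bool}
    (hc : ∀ i ∉ I, c i = false) (v : Fin n × Fin 3) : RI E c x y I :=
  cv (c v.1) ⟨_, pc_mem hEy hc v.1⟩ ⟨_, qc_mem hEx hc v.1⟩ v.2

theorem algMap_RI {c : Fin n → Bool} (f : F) :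
    algebraMap F (RI E c x y I) f = algebraMap E (RI E c x y I) (algebraMap F E f) := by
  apply Subtype.ext
  change algebraMap F U f = algebraMap E U (algebraMap F E f)
  rw [IsScalarTower.algebraMap_apply F E U]

/-- values of forms at the residue class of the point -/
theorem pi_aeval {c : Fin n → Bool} (π : RI E c x y I →ₐ[E] κ) (P : Fin n × Fin 3 → RI E c x y I)
    (G : MvPolynomial (Fin n × Fin 3) F) : π (aeval P G) = aeval (fun v => π (P v)) G := by
  let π' : RI E c x y I →ₐ[F] κ :=
    { toRingHom := (π : RI E c x y I →+* κ)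
      commutes' := fun f => by
        change π (algebraMap F (RI E c x y I) f) = _
        rw [algMap_RI, π.commutes, ← IsScalarTower.algebraMap_apply] }
  exact comp_aeval_apply (f := P) π' G

theorem coreB (hEx : ∀ i ∉ I, ∃ e : E, algebraMap E U e = x i)
    (hEy : ∀ i ∉ I, ∃ e : E, algebraMap E U e = y i) {c : Fin n → Bool}
    (hc : ∀ i ∉ I, c i = false) (hab : ∀ i, 4 * a i ^ 3 + 27 * b i ^ 2 ≠ 0)
    (hxy : ∀ i, y i ^ 2 = x i ^ 3 + algebraMap k U (a i) * x i + algebraMap k U (b i))
    (hgen : AlgebraicIndependent F x) {d : I → Derivation k U U}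
    (hd : Par E d (fun i : I => x i) (fun i : I => y i))
    (S : Sit D I (fun i => a i) (fun i => b i) (fun i => x i) (fun i => y i) u)
    (π : RI E c x y I →ₐ[E] κ) {G : MvPolynomial (Fin n × Fin 3) F} {e : Fin n → ℕ}
    (hG : IsForm e G) (hφ : π (aeval (Pt hEx hEy hc) G) = 0)
    (hpar : ∀ i, π (hd.DR S (fun i : I => c i) i (aeval (Pt hEx hEy hc) G)) = 0) (i : Fin n) :
    ∃ l, ∀ j, aeval (fun v => π (Pt hEx hEy hc v)) (pderiv (i, j) G) =
      l * gW (algebraMap k κ (a i)) (algebraMap k κ (b i)) (fun j => π (Pt hEx hEy hc (i, j))) j := by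
  have hcU : CharZero U := charZero_of_injective_algebraMap (algebraMap k U).injective
  set p : Fin n → RI E c x y I := fun i => ⟨_, pc_mem hEy hc i⟩ with hp
  set q : Fin n → RI E c x y I := fun i => ⟨_, qc_mem hEx hc i⟩ with hq
  have hPt : ∀ i j, Pt hEx hEy hc (i, j) = cv (c i) (p i) (q i) j := fun i j => rfl
  have hπPt : ∀ i j, π (Pt hEx hEy hc (i, j)) = cv (c i) (π (p i)) (π (q i)) j := fun i j =>
    cv_map (π : RI E c x y I →+* κ) _ _ _ _
  have hkR : ∀ t : k, algebraMap k (RI E c x y I) t =
      algebraMap E (RI E c x y I) (algebraMap k E t) := fun t =>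
    Subtype.ext (IsScalarTower.algebraMap_apply k E U t)
  -- the equations of the curves
  have hrelR : ∀ i, rel (c i) ((RI E c x y I).val (algebraMap E _ (algebraMap k E (a i))))
      ((RI E c x y I).val (algebraMap E _ (algebraMap k E (b i)))) ((RI E c x y I).val (p i))
      ((RI E c x y I).val (q i)) = 0 := by
    intro i
    have h1 : ∀ t : k, (RI E c x y I).val (algebraMap E _ (algebraMap k E t)) = algebraMap k U t :=
      fun t => (IsScalarTower.algebraMap_apply k E U t).symm
    rw [h1, h1]
    by_cases hi : i ∈ I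
    · exact S.rel (fun i : I => c i) ⟨i, hi⟩
    · have h2 : (RI E c x y I).val (p i) = pc (c i) (x i) (y i) := rfl
      have h3 : (RI E c x y I).val (q i) = qc (c i) (x i) (y i) := rfl
      rw [h2, h3, hc i hi]
      simp only [rel, pc, qc, Bool.false_eq_true, if_false]
      linear_combination -(hxy i)
  have hrel : ∀ i, rel (c i) (algebraMap k κ (a i)) (algebraMap k κ (b i)) (π (p i)) (π (q i)) = 0 := by
    intro i
    have h := tr_rel ((RI E c x y I).val : RI E c x y I →+* U) Subtype.val_injective
      (π : RI E c x y I →+* κ) (c i) (hrelR i)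
    simp only [RingHom.coe_coe, AlgHom.commutes] at h
    rwa [← IsScalarTower.algebraMap_apply, ← IsScalarTower.algebraMap_apply] at h
  have habκ := hab_k (κ := κ) hab
  -- the blocks in the directions of `I`
  have hI : ∀ i ∈ I, ∑ j, aeval (fun v => π (Pt hEx hEy hc v)) (pderiv (i, j) G) *
      tv (c i) (algebraMap k κ (a i)) (algebraMap k κ (b i)) (π (p i)) (π (q i)) j = 0 := by
    intro i hi
    have hD : IsD (π : RI E c x y I →+* κ) (fun r => π (hd.DR S (fun i : I => c i) ⟨i, hi⟩ r)) :=
      isD_right _ _
    have h1 := chainMv hD (F := F) (fun f => by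
      rw [algMap_RI]
      have : hd.DR S (fun i : I => c i) ⟨i, hi⟩ (algebraMap E _ (algebraMap F E f)) = 0 :=
        Subtype.ext (hd.hE _ _)
      rw [this, map_zero]) (Pt hEx hEy hc) G
    rw [hpar, Fintype.sum_prod_type, Finset.sum_eq_single i] at h1
    · rw [← h1.symm]
      refine Finset.sum_congr rfl fun j _ => ?_
      rw [RingHom.coe_coe, pi_aeval]
      congr 1
      have h2 := cv_der hD (c i) (p := p i) (q := q i) (α := algebraMap k κ (a i))
        (β := algebraMap k κ (b i)) (w := 1) (by
          have := hd.dP_k S (fun i : I => c i) π ⟨i, hi⟩ ⟨i, hi⟩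
          rw [if_pos rfl] at this
          exact this) (by
          have := hd.dQ_k S (fun i : I => c i) π ⟨i, hi⟩ ⟨i, hi⟩
          rw [if_pos rfl] at this
          exact this) j
      rw [one_mul] at h2
      exact h2.symm
    · intro i' _ hi'
      refine Finset.sum_eq_zero fun j _ => ?_
      have h3 : π (hd.DR S (fun i : I => c i) ⟨i, hi⟩ (Pt hEx hEy hc (i', j))) = 0 := by
        by_cases hI' : i' ∈ I
        · have h2 := cv_der hD (c i') (p := p i') (q := q i') (α := algebraMap k κ (a i'))
            (β := algebraMap k κ (b i')) (w := 0) (by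
              have := hd.dP_k S (fun i : I => c i) π ⟨i, hi⟩ ⟨i', hI'⟩
              rw [if_neg (by intro h; exact hi' (congrArg Subtype.val h))] at this
              exact this) (by
              have := hd.dQ_k S (fun i : I => c i) π ⟨i, hi⟩ ⟨i', hI'⟩
              rw [if_neg (by intro h; exact hi' (congrArg Subtype.val h))] at this
              exact this) j
          rw [zero_mul] at h2
          exact h2
        · obtain ⟨ex, hex⟩ := hEx i' hI'
          obtain ⟨ey, hey⟩ := hEy i' hI'
          have hp' : p i' = algebraMap E _ ey := by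
            apply Subtype.ext
            change pc (c i') (x i') (y i') = algebraMap E U ey
            rw [hc i' hI', hey]
            simp [pc]
          have hq' : q i' = algebraMap E _ ex := by
            apply Subtype.ext
            change qc (c i') (x i') (y i') = algebraMap E U ex
            rw [hc i' hI', hex]
            simp [qc]
          have h0 : ∀ e : E, hd.DR S (fun i : I => c i) ⟨i, hi⟩ (algebraMap E _ e) = 0 :=
            fun e => Subtype.ext (hd.hE _ _)
          have h2 := cv_der hD (c i') (p := p i') (q := q i') (α := algebraMap k κ (a i'))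
            (β := algebraMap k κ (b i')) (w := 0) (by
              rw [hp', h0, map_zero, zero_mul]) (by
              rw [hq', h0, map_zero, zero_mul]) j
          rw [zero_mul] at h2
          exact h2
      rw [h3, mul_zero]
    · intro h; exact absurd (Finset.mem_univ i) h
  -- the other blocks
  have hall : ∀ i, ∑ j, aeval (fun v => π (Pt hEx hEy hc v)) (pderiv (i, j) G) *
      tv (c i) (algebraMap k κ (a i)) (algebraMap k κ (b i)) (π (p i)) (π (q i)) j = 0 := by
    intro i
    by_cases hi : i ∈ I
    · exact hI i hi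
    have hEx' := hEx
    have hEy' := hEy
    choose! ex hex using hEx'
    choose! ey hey using hEy'
    have hindE : AlgebraicIndependent F (fun i : {i // i ∉ I} => ex i) := by
      have h1 : AlgebraicIndependent F (fun i : {i // i ∉ I} => x i) :=
        hgen.comp _ Subtype.val_injective
      have h2 : (fun i : {i // i ∉ I} => x i) =
          (IsScalarTower.toAlgHom F E U) ∘ (fun i : {i // i ∉ I} => ex i) := by
        funext i
        exact (hex i i.2).symm
      rw [h2] at h1
      exact h1.of_comp _
    have hindκ : AlgebraicIndependent F (fun i : {i // i ∉ I} => algebraMap E κ (ex i)) :=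
      hindE.map' (f := IsScalarTower.toAlgHom F E κ) (algebraMap E κ).injective
    obtain ⟨δ, -, hδ⟩ := exists_der_ext (k := F) (E := F) (K := κ) 0 _ hindκ
      (fun j => if (j : Fin n) = i then 1 else 0)
    have hδk : ∀ t : k, δ (algebraMap k κ t) = 0 := by
      intro t
      rw [IsScalarTower.algebraMap_apply k E κ, IsScalarTower.algebraMap_apply k F E,
        ← IsScalarTower.algebraMap_apply F E κ]
      exact δ.map_algebraMap _
    have hDδ : IsD (RingHom.id κ) (fun z => δ z) := isD_left δ (RingHom.id κ)
    have hp' : ∀ i (hi : i ∉ I), π (p i) = algebraMap E κ (ey i) := by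
      intro i' hI'
      have hp' : p i' = algebraMap E _ (ey i') := by
        apply Subtype.ext
        change pc (c i') (x i') (y i') = algebraMap E U (ey i')
        rw [hc i' hI', hey i' hI']
        simp [pc]
      rw [hp', π.commutes]
    have hq' : ∀ i (hi : i ∉ I), π (q i) = algebraMap E κ (ex i) := by
      intro i' hI'
      have hq' : q i' = algebraMap E _ (ex i') := by
        apply Subtype.ext
        change qc (c i') (x i') (y i') = algebraMap E U (ex i')
        rw [hc i' hI', hex i' hI']
        simp [qc]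
      rw [hq', π.commutes]
    have hexw : ∀ i, ∃ w, δ (π (p i)) = w * dP (c i) (algebraMap k κ (a i))
        (algebraMap k κ (b i)) 1 (π (p i)) (π (q i)) ∧ δ (π (q i)) = w * dQ (c i)
        (algebraMap k κ (a i)) (algebraMap k κ (b i)) 1 (π (p i)) (π (q i)) := fun i =>
      exists_w (habκ i) (hrel i) (rel_der hDδ (c i)
        (hδk (a i)) (hδk (b i)) (RingHom.id κ) Function.injective_id (hrel i))
    choose w hw1 hw2 using hexw
    have hw0 : ∀ i', i' ∉ I → i' ≠ i → w i' = 0 := by
      intro i' hI' hne
      have h1 := hw2 i'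
      rw [hq' i' hI', hδ ⟨i', hI'⟩, if_neg hne, hc i' hI'] at h1
      simp only [dQ, Bool.false_eq_true, if_false, one_mul] at h1
      have h2 : π (p i') ≠ 0 := by
        rw [hp' i' hI', Ne, map_eq_zero]
        intro h3
        have h4 := hey i' hI'
        rw [h3, map_zero] at h4
        have hst : IsScalarTower k F U := IsScalarTower.of_algebraMap_eq fun t => by
          rw [IsScalarTower.algebraMap_apply k E U, IsScalarTower.algebraMap_apply k F E,
            ← IsScalarTower.algebraMap_apply F E U]
        exact trans_ne_zero (hgen.transcendental i') (hxy i') h4.symm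
      exact (mul_eq_zero.1 h1.symm).resolve_right h2
    have hwi : w i ≠ 0 := by
      intro h0
      have h1 := hw2 i
      rw [hq' i hi, hδ ⟨i, hi⟩, if_pos rfl, h0, zero_mul] at h1
      exact one_ne_zero h1
    have h1 := chainMv hDδ (F := F) (fun f => δ.map_algebraMap f)
      (fun v => π (Pt hEx hEy hc v)) G
    rw [← pi_aeval, hφ, map_zero, Fintype.sum_prod_type] at h1
    have h2 : ∀ i', ∑ j, (RingHom.id κ) (aeval (fun v => π (Pt hEx hEy hc v))
        (pderiv (i', j) G)) * δ (π (Pt hEx hEy hc (i', j))) =
        w i' * ∑ j, aeval (fun v => π (Pt hEx hEy hc v)) (pderiv (i', j) G) *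
      tv (c i') (algebraMap k κ (a i')) (algebraMap k κ (b i')) (π (p i')) (π (q i')) j := by
      intro i'
      rw [Finset.mul_sum]
      refine Finset.sum_congr rfl fun j _ => ?_
      have h3 := cv_der hDδ (c i') (p := π (p i')) (q := π (q i')) (w := w i')
        (α := algebraMap k κ (a i')) (β := algebraMap k κ (b i')) (hw1 i') (hw2 i') j
      simp only [RingHom.id_apply] at h3 ⊢
      rw [hπPt, h3]
      ring
    simp only [h2] at h1
    rw [Finset.sum_eq_single i] at h1
    · exact (mul_eq_zero.1 h1.symm).resolve_left hwi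
    · intro i' _ hne
      by_cases hI' : i' ∈ I
      · rw [hI i' hI', mul_zero]
      · rw [hw0 i' hI' hne, zero_mul]
    · intro h; exact absurd (Finset.mem_univ i) h
  -- conclusion
  have h1 := hG.euler (fun v => π (Pt hEx hEy hc v)) i
  rw [← pi_aeval, hφ, mul_zero] at h1
  have h2 : ∑ j, cv (c i) (π (p i)) (π (q i)) j *
      aeval (fun v => π (Pt hEx hEy hc v)) (pderiv (i, j) G) = 0 := by
    rw [← h1]
    refine Finset.sum_congr rfl fun j _ => ?_
    rw [hπPt]
  obtain ⟨l, hl⟩ := grad_par (habκ i) (hrel i)
    (fun j => aeval (fun v => π (Pt hEx hEy hc v)) (pderiv (i, j) G)) h2 (hall i)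
  refine ⟨l, fun j => ?_⟩
  rw [hl j]
  congr 2
  funext j
  exact (hπPt i j).symm

end Pool.Agent.K1H80.EC
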