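import Pool.Agent.K1H80.EC.Core4

/-!
# The geometric input
-/

set_option autoImplicit false
set_option linter.unusedSectionVars false

namespace Pool.Agent.K1H80.EC

open MvPolynomial
open scoped Classical

/-- `Q` consists of homogeneous coordinates of points of the curves
`Y² Z = X³ + a i X Z² + b i Z³`. -/
def OnE {k K : Type} [Field k] [Field K] [Algebra k K] {n : ℕ} (a b : Fin n → k)
    (Q : Fin n × Fin 3 → K) : Prop :=
  ∀ i, (∃ c, Q (i, c) ≠ 0) ∧ Q (i, 1) ^ 2 * Q (i, 2) =
    Q (i, 0) ^ 3 + algebraMap k K (a i) * Q (i, 0) * Q (i, 2) ^ 2 +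
      algebraMap k K (b i) * Q (i, 2) ^ 3

/-- The singular points of the subscheme with the equations `G j = 0` have codimension at least
two. -/
def Red {k F : Type} [Field k] [Field F] [Algebra k F] {n w : ℕ} (a b : Fin n → k)
    (G : Fin w → MvPolynomial (Fin n × Fin 3) F) : Prop :=
  ∀ (K : Type) [Field K] [Algebra k K] [Algebra F K] [IsScalarTower k F K]
    (Q : Fin n × Fin 3 → K), OnE a b Q → (∀ j, aeval Q (G j) = 0) →
    (∀ j i, ∃ l, ∀ c, aeval Q (pderiv (i, c) (G j)) =
      l * gW (algebraMap k K (a i)) (algebraMap k K (b i)) (fun c => Q (i, c)) c) →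
    ∀ i0, ¬ AlgebraicIndependent F (fun i : {i : Fin n // i ≠ i0} => Q (i, 0) / Q (i, 2))

/-- The subscheme with the equations `G j = 0` has codimension at least two. -/
def Cod {k F : Type} [Field k] [Field F] [Algebra k F] {n w : ℕ} (a b : Fin n → k)
    (G : Fin w → MvPolynomial (Fin n × Fin 3) F) : Prop :=
  ∀ (K : Type) [Field K] [Algebra k K] [Algebra F K] [IsScalarTower k F K]
    (Q : Fin n × Fin 3 → K), OnE a b Q → (∀ j, aeval Q (G j) = 0) →
    ∀ i0, ¬ AlgebraicIndependent F (fun i : {i : Fin n // i ≠ i0} => Q (i, 0) / Q (i, 2))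

section field

variable {K : Type*} [Field K]

theorem cv_eq {c : Bool} {α β p q : K} (h : rel c α β p q = 0) :
    (∃ j, cv c p q j ≠ 0) ∧ cv c p q 1 ^ 2 * cv c p q 2 =
      cv c p q 0 ^ 3 + α * cv c p q 0 * cv c p q 2 ^ 2 + β * cv c p q 2 ^ 3 := by
  cases c
  · simp only [rel, cv, Bool.false_eq_true, if_false, Matrix.cons_val_zero, Matrix.cons_val_one,
      Matrix.cons_val] at h ⊢
    refine ⟨⟨2, by simp⟩, ?_⟩
    linear_combination -h
  · simp only [rel, cv, if_true, Matrix.cons_val_zero, Matrix.cons_val_one,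
      Matrix.cons_val] at h ⊢
    refine ⟨⟨1, by simp⟩, ?_⟩
    linear_combination -h

/-- `y` is algebraic over the ring generated by `x` -/
theorem alg_p_of_z {M : Type*} [CommRing M] [IsDomain M] [Algebra M K] [FaithfulSMul M K]
    {c : Bool} {α β p q : K} (h : rel c α β p q = 0) (hp : p ≠ 0) (hα : IsAlgebraic M α)
    (hβ : IsAlgebraic M β) (hz : IsAlgebraic M (cv c p q 0 / cv c p q 2)) : IsAlgebraic M p := by
  refine IsAlgebraic.of_pow (n := 2) (by norm_num) ?_
  cases c
  · simp only [rel, cv, Bool.false_eq_true, if_false, Matrix.cons_val_zero,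
      Matrix.cons_val, div_one] at h hz
    have h6 : p ^ 2 = q ^ 3 + α * q + β := by linear_combination -h
    rw [h6]
    exact ((hz.pow 3).add (hα.mul hz)).add hβ
  · simp only [rel, cv, if_true, Matrix.cons_val_zero, Matrix.cons_val] at h hz
    set θ := q / p with hθ
    have hq : q = θ * p := by rw [hθ]; field_simp
    have h7 : p ^ 2 * (θ ^ 3 + α * θ + β) = 1 := by
      rw [hq] at h
      have h8 : p * (p ^ 2 * (θ ^ 3 + α * θ + β)) = p * 1 := by
        linear_combination h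
      exact mul_left_cancel₀ hp h8
    have h8 : p ^ 2 = (θ ^ 3 + α * θ + β)⁻¹ := eq_inv_of_mul_eq_one_left h7
    rw [h8]
    exact (((hz.pow 3).add (hα.mul hz)).add hβ).inv

end field

variable {k F E U : Type} [Field k] [CharZero k] [Field F] [Field E] [Field U] [Algebra k F]
  [Algebra k E] [Algebra k U] [Algebra F E] [Algebra F U] [Algebra E U] [IsScalarTower k F E]
  [IsScalarTower k E U] [IsScalarTower F E U]

variable {D : Derivation k U U} {n : ℕ} {a b : Fin n → k} {x y : Fin n → U} {I : Set (Fin n)}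
  {u : I → E}

section pi

variable {κ : Type} [Field κ] [CharZero κ] [Algebra E κ] [Algebra k κ] [Algebra F κ]
  [IsScalarTower k E κ] [IsScalarTower F E κ]

theorem rel_pi (hEx : ∀ i ∉ I, ∃ e : E, algebraMap E U e = x i)
    (hEy : ∀ i ∉ I, ∃ e : E, algebraMap E U e = y i) {c : Fin n → Bool}
    (hc : ∀ i ∉ I, c i = false)
    (hxy : ∀ i, y i ^ 2 = x i ^ 3 + algebraMap k U (a i) * x i + algebraMap k U (b i))
    (S : Sit D I (fun i => a i) (fun i => b i) (fun i => x i) (fun i => y i) u)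
    (π : RI E c x y I →ₐ[E] κ) (i : Fin n) :
    rel (c i) (algebraMap k κ (a i)) (algebraMap k κ (b i)) (π ⟨_, pc_mem hEy hc i⟩)
      (π ⟨_, qc_mem hEx hc i⟩) = 0 := by
  have hcU : CharZero U := charZero_of_injective_algebraMap (algebraMap k U).injective
  have h1 : ∀ t : k, (RI E c x y I).val (algebraMap E _ (algebraMap k E t)) = algebraMap k U t :=
    fun t => (IsScalarTower.algebraMap_apply k E U t).symm
  have h := tr_rel ((RI E c x y I).val : RI E c x y I →+* U) Subtype.val_injective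
    (π : RI E c x y I →+* κ) (c i) (α := algebraMap E _ (algebraMap k E (a i)))
    (β := algebraMap E _ (algebraMap k E (b i))) (p := ⟨_, pc_mem hEy hc i⟩)
    (q := ⟨_, qc_mem hEx hc i⟩) (by
      simp only [RingHom.coe_coe]
      rw [h1, h1]
      by_cases hi : i ∈ I
      · exact S.rel (fun i : I => c i) ⟨i, hi⟩
      · have h2 : (RI E c x y I).val ⟨_, pc_mem hEy hc i⟩ = pc (c i) (x i) (y i) := rfl
        have h3 : (RI E c x y I).val ⟨_, qc_mem hEx hc i⟩ = qc (c i) (x i) (y i) := rfl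
        rw [h2, h3, hc i hi]
        simp only [rel, pc, qc, Bool.false_eq_true, if_false]
        linear_combination -(hxy i))
  simp only [RingHom.coe_coe, AlgHom.commutes] at h
  rwa [← IsScalarTower.algebraMap_apply, ← IsScalarTower.algebraMap_apply] at h

/-- the residue class of the point is generic in codimension one -/
theorem indQ (hEx : ∀ i ∉ I, ∃ e : E, algebraMap E U e = x i)
    (hEy : ∀ i ∉ I, ∃ e : E, algebraMap E U e = y i) {c : Fin n → Bool}
    (hc : ∀ i ∉ I, c i = false)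
    (hxy : ∀ i, y i ^ 2 = x i ^ 3 + algebraMap k U (a i) * x i + algebraMap k U (b i))
    (hgen : AlgebraicIndependent F x)
    (S : Sit D I (fun i => a i) (fun i => b i) (fun i => x i) (fun i => y i) u)
    (π : RI E c x y I →ₐ[E] κ) (i0 : I)
    (hind : AlgebraicIndependent E (fun i : {i : I // i ≠ i0} =>
      π (PP E (fun i : I => c i) (fun i : I => x i) (fun i : I => y i) i))) :
    AlgebraicIndependent F (fun i : {i : Fin n // i ≠ i0} =>
      π (Pt hEx hEy hc (i, 0)) / π (Pt hEx hEy hc (i, 2))) := by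
  have hπPt : ∀ i j, π (Pt hEx hEy hc (i, j)) =
      cv (c i) (π ⟨_, pc_mem hEy hc i⟩) (π ⟨_, qc_mem hEx hc i⟩) j := fun i j =>
    cv_map (π : RI E c x y I →+* κ) _ _ _ _
  have hrel := rel_pi hEx hEy hc hxy S π
  -- the coordinates in `I`
  have h1 : AlgebraicIndependent E (fun i : {i : I // i ≠ i0} =>
      π (Pt hEx hEy hc (((i : I) : Fin n), 0)) / π (Pt hEx hEy hc (((i : I) : Fin n), 2))) := by
    refine exch _ _ hind le_rfl fun i => ?_
    set M := Algebra.adjoin E (Set.range fun i : {i : I // i ≠ i0} =>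
      π (Pt hEx hEy hc (((i : I) : Fin n), 0)) / π (Pt hEx hEy hc (((i : I) : Fin n), 2))) with hM
    have h2 : π ⟨_, pc_mem hEy hc i⟩ ≠ 0 := hind.ne_zero i
    have h3 : ∀ t : k, IsAlgebraic M (algebraMap k κ t) := fun t => by
      rw [IsScalarTower.algebraMap_apply k E κ, IsScalarTower.algebraMap_apply E M κ]
      exact isAlgebraic_algebraMap _
    have h4 : IsAlgebraic M (cv (c i) (π ⟨_, pc_mem hEy hc i⟩) (π ⟨_, qc_mem hEx hc i⟩) 0 /
        cv (c i) (π ⟨_, pc_mem hEy hc i⟩) (π ⟨_, qc_mem hEx hc i⟩) 2) := by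
      rw [← hπPt, ← hπPt]
      exact isAlgebraic_algebraMap (⟨_, Algebra.subset_adjoin ⟨i, rfl⟩⟩ : M)
    have h5 : IsAlgebraic M (π ⟨_, pc_mem hEy hc i⟩) :=
      alg_p_of_z (M := M) (hrel i) h2 (h3 _) (h3 _) h4
    exact h5
  -- the coordinates outside `I`
  have hEx' := hEx
  choose! ex hex using hEx'
  have hindE : AlgebraicIndependent F (fun i : {i // i ∉ I} => ex i) := by
    have h1 : AlgebraicIndependent F (fun i : {i // i ∉ I} => x i) :=
      hgen.comp _ Subtype.val_injective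
    have h2 : (fun i : {i // i ∉ I} => x i) =
        (IsScalarTower.toAlgHom F E U) ∘ (fun i : {i // i ∉ I} => ex i) := by
      funext i
      exact (hex i i.2).symm
    rw [h2] at h1
    exact h1.of_comp _
  have h2 := hindE.sumElim_comp h1
  let f : {i : Fin n // i ≠ i0} → {i : I // i ≠ i0} ⊕ {i // i ∉ I} := fun i =>
    if h : (i : Fin n) ∈ I then Sum.inl ⟨⟨i, h⟩, fun h' => i.2 (congrArg Subtype.val h')⟩
    else Sum.inr ⟨i, h⟩
  have hf : Function.Injective f := by
    intro i j hij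
    simp only [f] at hij
    split_ifs at hij with h3 h4 h4
    · have := Sum.inl.inj hij
      exact Subtype.ext (congrArg (fun z : {i : I // i ≠ i0} => ((z : I) : Fin n)) this)
    · have := Sum.inr.inj hij
      exact Subtype.ext (congrArg (fun z : {i // i ∉ I} => (z : Fin n)) this)
  have h3 := h2.comp f hf
  convert h3 using 1
  funext i
  simp only [f, Function.comp_apply]
  split_ifs with h4
  · rfl
  · rw [hπPt, hπPt]
    simp only [Sum.elim_inr, Function.comp_apply]
    have h5 : c i = false := hc i h4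
    have h6 : (⟨_, qc_mem hEx hc i⟩ : RI E c x y I) = algebraMap E _ (ex i) := by
      apply Subtype.ext
      change qc (c i) (x i) (y i) = algebraMap E U (ex i)
      rw [hc i h4, hex i h4]
      simp [qc]
    rw [h6, π.commutes]
    simp [cv, h5]

end pi

section prime

variable (hEx : ∀ i ∉ I, ∃ e : E, algebraMap E U e = x i)
    (hEy : ∀ i ∉ I, ∃ e : E, algebraMap E U e = y i) {c : Fin n → Bool}
    (hc : ∀ i ∉ I, c i = false) (hab : ∀ i, 4 * a i ^ 3 + 27 * b i ^ 2 ≠ 0)
    (hxy : ∀ i, y i ^ 2 = x i ^ 3 + algebraMap k U (a i) * x i + algebraMap k U (b i))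
    (hgen : AlgebraicIndependent F x)
    (S : Sit D I (fun i => a i) (fun i => b i) (fun i => x i) (fun i => y i) u)
    {w : ℕ} {G : Fin w → MvPolynomial (Fin n × Fin 3) F}

/-- a homomorphism to the residue field of a prime ideal -/
theorem exists_pi (R : Subalgebra E U) (𝔭 : Ideal R) [𝔭.IsPrime] :
    ∃ (κ : Type) (_ : Field κ) (_ : Algebra E κ) (π : R →ₐ[E] κ),
      (∀ r, π r = 0 ↔ r ∈ 𝔭) ∧ ∀ {ι : Type} (z : ι → R),
        AlgebraicIndependent E (fun i => (Ideal.Quotient.mk 𝔭 (z i) : R ⧸ 𝔭)) →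
        AlgebraicIndependent E (fun i => π (z i)) := by
  refine ⟨FractionRing (R ⧸ 𝔭), inferInstance, inferInstance,
    (IsScalarTower.toAlgHom E (R ⧸ 𝔭) (FractionRing (R ⧸ 𝔭))).comp (Ideal.Quotient.mkₐ E 𝔭),
    fun r => ?_, fun z hz => ?_⟩
  · change algebraMap (R ⧸ 𝔭) (FractionRing (R ⧸ 𝔭)) (Ideal.Quotient.mk 𝔭 r) = 0 ↔ _
    rw [← map_zero (algebraMap (R ⧸ 𝔭) (FractionRing (R ⧸ 𝔭))),
      (IsFractionRing.injective (R ⧸ 𝔭) (FractionRing (R ⧸ 𝔭))).eq_iff,
      Ideal.Quotient.eq_zero_iff_mem]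
  · exact hz.map' (f := IsScalarTower.toAlgHom E (R ⧸ 𝔭) (FractionRing (R ⧸ 𝔭)))
      (IsFractionRing.injective (R ⧸ 𝔭) (FractionRing (R ⧸ 𝔭)))

include hxy hgen S in
/-- **The case of codimension two.** -/
theorem c3 (hcod : Cod a b G) (𝔭 : Ideal (RI E c x y I)) [𝔭.IsPrime]
    (h1 : ∀ j, aeval (Pt hEx hEy hc) (G j) ∈ 𝔭) (i0 : I)
    (hind : AlgebraicIndependent E (fun i : {i : I // i ≠ i0} => (Ideal.Quotient.mk 𝔭
      (PP E (fun i : I => c i) (fun i : I => x i) (fun i : I => y i) i) :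
        RI E c x y I ⧸ 𝔭))) : False := by
  obtain ⟨κ, _, _, π, hπ, hπi⟩ := exists_pi (RI E c x y I) 𝔭
  let _ : Algebra k κ := ((algebraMap E κ).comp (algebraMap k E)).toAlgebra
  let _ : Algebra F κ := ((algebraMap E κ).comp (algebraMap F E)).toAlgebra
  have : IsScalarTower k E κ := IsScalarTower.of_algebraMap_eq fun _ => rfl
  have : IsScalarTower F E κ := IsScalarTower.of_algebraMap_eq fun _ => rfl
  have : IsScalarTower k F κ := IsScalarTower.of_algebraMap_eq fun t => by
    rw [IsScalarTower.algebraMap_apply k E κ, IsScalarTower.algebraMap_apply k F E,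
      ← IsScalarTower.algebraMap_apply F E κ]
  have : CharZero κ := charZero_of_injective_algebraMap (algebraMap k κ).injective
  have h2 := indQ hEx hEy hc hxy hgen S π i0 (hπi _ hind)
  refine hcod κ (fun v => π (Pt hEx hEy hc v)) (fun i => ?_) (fun j => ?_) i0 h2
  · have hπPt : ∀ j, π (Pt hEx hEy hc (i, j)) =
        cv (c i) (π ⟨_, pc_mem hEy hc i⟩) (π ⟨_, qc_mem hEx hc i⟩) j := fun j =>
      cv_map (π : RI E c x y I →+* κ) _ _ _ _
    simp only [hπPt]
    exact cv_eq (rel_pi hEx hEy hc hxy S π i)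
  · rw [← pi_aeval, hπ]
    exact h1 j

include hab hxy hgen in
/-- **The case of divisors.** -/
theorem c2 {e : Fin w → Fin n → ℕ} (hG : ∀ j, IsForm (e j) (G j)) (hred : Red a b G)
    (𝔭 : Ideal (RI E c x y I)) [h𝔭 : 𝔭.IsPrime] (h1 : ∀ j, aeval (Pt hEx hEy hc) (G j) ∈ 𝔭)
    (h2 : ∀ j, S.DR (fun i : I => c i) Set.univ (aeval (Pt hEx hEy hc) (G j)) ∈ 𝔭) (i0 : I)
    (hind : AlgebraicIndependent E (fun i : {i : I // i ≠ i0} => (Ideal.Quotient.mk 𝔭
      (PP E (fun i : I => c i) (fun i : I => x i) (fun i : I => y i) i) :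
        RI E c x y I ⧸ 𝔭))) (hne : ∃ j, aeval (Pt hEx hEy hc) (G j) ≠ 0) : False := by
  obtain ⟨κ, _, _, π, hπ, hπi⟩ := exists_pi (RI E c x y I) 𝔭
  let _ : Algebra k κ := ((algebraMap E κ).comp (algebraMap k E)).toAlgebra
  let _ : Algebra F κ := ((algebraMap E κ).comp (algebraMap F E)).toAlgebra
  have : IsScalarTower k E κ := IsScalarTower.of_algebraMap_eq fun _ => rfl
  have : IsScalarTower F E κ := IsScalarTower.of_algebraMap_eq fun _ => rfl
  have : IsScalarTower k F κ := IsScalarTower.of_algebraMap_eq fun t => by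
    rw [IsScalarTower.algebraMap_apply k E κ, IsScalarTower.algebraMap_apply k F E,
      ← IsScalarTower.algebraMap_apply F E κ]
  have : CharZero κ := charZero_of_injective_algebraMap (algebraMap k κ).injective
  obtain ⟨d, hd⟩ := S.exists_par
  by_cases hsm : ∃ j i1, π (hd.DR S (fun i : I => c i) i1 (aeval (Pt hEx hEy hc) (G j))) ≠ 0
  · obtain ⟨j, i1, hi1⟩ := hsm
    have h3 := S.coreA hd (fun i : I => c i) π (aeval (Pt hEx hEy hc) (G j))
      ((hπ _).2 (h1 j)) ((hπ _).2 (h2 j)) i1 hi1 i0 (hπi _ hind)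
    have h4 : 𝔭 = ⊥ := by
      by_contra h5
      exact h𝔭.ne_top (S.simple (fun i : I => c i) 𝔭
        (fun r hr => (hπ _).1 (h3 r ((hπ r).2 hr))) h5)
    obtain ⟨j', hj'⟩ := hne
    apply hj'
    have := h1 j'
    rwa [h4, Ideal.mem_bot] at this
  · push Not at hsm
    have h4 := indQ hEx hEy hc hxy hgen S π i0 (hπi _ hind)
    refine hred κ (fun v => π (Pt hEx hEy hc v)) (fun i => ?_) (fun j => ?_) (fun j i => ?_) i0 h4
    · have hπPt : ∀ j, π (Pt hEx hEy hc (i, j)) =
          cv (c i) (π ⟨_, pc_mem hEy hc i⟩) (π ⟨_, qc_mem hEx hc i⟩) j := fun j =>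
        cv_map (π : RI E c x y I →+* κ) _ _ _ _
      simp only [hπPt]
      exact cv_eq (rel_pi hEx hEy hc hxy S π i)
    · rw [← pi_aeval, hπ]
      exact h1 j
    · exact coreB hEx hEy hc hab hxy hgen hd S π (hG j) ((hπ _).2 (h1 j)) (hsm j) i

end prime

end Pool.Agent.K1H80.EC
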