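import Pool.Agent.K1H80.EC.Num

/-!
# Auxiliary polynomials
-/

set_option autoImplicit false
set_option linter.unusedSectionVars false

namespace Pool.Agent.K1H80.EC

open MvPolynomial Module

variable {E K : Type*} [Field E] [Field K] [Algebra E K] {m J : ℕ} (s : Fin m → K) (r : Fin J → K)

/-- the sums of the `r j` with coefficients which are polynomials in `s` of degree at most `N` -/
def RD (N : ℕ) : Submodule E K where
  carrier := {w | ∃ p : Fin J → MvPolynomial (Fin m) E, (∀ j, (p j).totalDegree ≤ N) ∧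
    w = ∑ j, aeval s (p j) * r j}
  add_mem' := by
    rintro _ _ ⟨p, hp, rfl⟩ ⟨p', hp', rfl⟩
    refine ⟨fun j => p j + p' j, fun j => ?_, ?_⟩
    · exact (totalDegree_add _ _).trans (max_le (hp j) (hp' j))
    · rw [← Finset.sum_add_distrib]
      refine Finset.sum_congr rfl fun j _ => ?_
      rw [map_add]; ring
  zero_mem' := ⟨fun _ => 0, fun j => by simp, by simp⟩
  smul_mem' := by
    rintro e _ ⟨p, hp, rfl⟩
    refine ⟨fun j => C e * p j, fun j => ?_, ?_⟩
    · exact (totalDegree_mul _ _).trans (by simpa using hp j)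
    · rw [Finset.smul_sum]
      refine Finset.sum_congr rfl fun j _ => ?_
      rw [map_mul, aeval_C, Algebra.smul_def, mul_assoc]

theorem RD_mono {N M : ℕ} (h : N ≤ M) : RD (E := E) s r N ≤ RD s r M := by
  rintro _ ⟨p, hp, rfl⟩
  exact ⟨p, fun j => (hp j).trans h, rfl⟩

theorem mul_RD {N M : ℕ} {p : MvPolynomial (Fin m) E} (hp : p.totalDegree ≤ M) {w : K}
    (hw : w ∈ RD (E := E) s r N) : aeval s p * w ∈ RD (E := E) s r (N + M) := by
  obtain ⟨p', hp', rfl⟩ := hw
  refine ⟨fun j => p * p' j, fun j => ?_, ?_⟩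
  · exact (totalDegree_mul _ _).trans (by have := hp' j; omega)
  · rw [Finset.mul_sum]
    refine Finset.sum_congr rfl fun j _ => ?_
    rw [map_mul, mul_assoc]

/-- multiplication by `w` raises degrees by at most `N` -/
def TT (N : ℕ) (w : K) : Prop := ∀ j, w * r j ∈ RD (E := E) s r N

variable {s r}

theorem TT.mono {N M : ℕ} {w : K} (h : TT (E := E) s r N w) (hM : N ≤ M) :
    TT (E := E) s r M w := fun j => RD_mono s r hM (h j)

theorem TT.add {N : ℕ} {v w : K} (hv : TT (E := E) s r N v) (hw : TT (E := E) s r N w) :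
    TT (E := E) s r N (v + w) := fun j => by
  rw [add_mul]; exact add_mem (hv j) (hw j)

theorem TT.zero (N : ℕ) : TT (E := E) s r N 0 := fun j => by
  rw [zero_mul]; exact zero_mem _

theorem TT.smul {N : ℕ} {w : K} (hw : TT (E := E) s r N w) (e : E) :
    TT (E := E) s r N (algebraMap E K e * w) := fun j => by
  rw [mul_assoc, ← Algebra.smul_def]; exact Submodule.smul_mem _ _ (hw j)

theorem TT.mulp {N M : ℕ} {w : K} (hw : TT (E := E) s r N w) {p : MvPolynomial (Fin m) E}
    (hp : p.totalDegree ≤ M) : TT (E := E) s r (N + M) (aeval s p * w) := fun j => by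
  rw [mul_assoc]; exact mul_RD s r hp (hw j)

theorem TT.sum {N : ℕ} {ι : Type*} (t : Finset ι) {w : ι → K}
    (hw : ∀ i ∈ t, TT (E := E) s r N (w i)) : TT (E := E) s r N (∑ i ∈ t, w i) := fun j => by
  rw [Finset.sum_mul]; exact sum_mem fun i hi => hw i hi j

section growth

variable {D : K → K} {dE : E → E} (hadd : ∀ v w, D (v + w) = D v + D w)
  (hmul : ∀ v w, D (v * w) = D v * w + v * D w)
  (hE : ∀ e, D (algebraMap E K e) = algebraMap E K (dE e))

include hmul in
theorem D_one : D 1 = 0 := by
  have h := hmul 1 1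
  rw [mul_one, mul_one, one_mul] at h
  exact left_eq_add.1 h

include hmul in
theorem tt_mon {c : ℕ} (hc : ∀ a, TT (E := E) s r c (D (s a))) (e : Fin m →₀ ℕ) :
    TT (E := E) s r (c + e.sum fun _ n => n) (D (aeval s (monomial e (1 : E)))) := by
  induction e using Finsupp.induction_linear with
  | zero =>
    rw [monomial_zero', C_1, map_one, D_one hmul]
    exact TT.zero _
  | add e e' h h' =>
    have h1 : monomial (e + e') (1 : E) = monomial e 1 * monomial e' 1 := by
      rw [monomial_mul, one_mul]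
    have hs : (e + e').sum (fun _ n => n) = (e.sum fun _ n => n) + (e'.sum fun _ n => n) :=
      Finsupp.sum_add_index' (fun _ => rfl) (fun _ _ _ => rfl)
    rw [h1, map_mul, hmul, hs]
    refine TT.add ?_ ?_
    · rw [mul_comm]
      refine (h.mulp (M := e'.sum fun _ n => n) ?_).mono (by omega)
      rw [totalDegree_monomial _ one_ne_zero]
    · refine (h'.mulp (M := e.sum fun _ n => n) ?_).mono (by omega)
      rw [totalDegree_monomial _ one_ne_zero]
  | single a n =>
    induction n with
    | zero =>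
      rw [Finsupp.single_zero, monomial_zero', C_1, map_one, D_one hmul]
      exact TT.zero _
    | succ n ih =>
      have h1 : monomial (Finsupp.single a (n + 1)) (1 : E) = X a * monomial (Finsupp.single a n) 1 := by
        rw [X, monomial_mul, one_mul, ← Finsupp.single_add, add_comm 1 n]
      rw [h1, map_mul, hmul, Finsupp.sum_single_index rfl]
      rw [Finsupp.sum_single_index rfl] at ih
      refine TT.add ?_ ?_
      · rw [aeval_X, mul_comm]
        refine ((hc a).mulp (M := n) ?_).mono (by omega)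
        rw [totalDegree_monomial _ one_ne_zero, Finsupp.sum_single_index rfl]
      · refine (ih.mulp (M := 1) ?_).mono (by omega)
        exact (totalDegree_X (R := E) a).le

include hadd hmul hE in
theorem tt_poly {c : ℕ} (h1 : TT (E := E) s r c 1) (hc : ∀ a, TT (E := E) s r c (D (s a)))
    {N : ℕ} {p : MvPolynomial (Fin m) E} (hp : p.totalDegree ≤ N) :
    TT (E := E) s r (c + N) (D (aeval s p)) := by
  have hsum : ∀ (t : Finset (Fin m →₀ ℕ)) (w : (Fin m →₀ ℕ) → K),
      D (∑ i ∈ t, w i) = ∑ i ∈ t, D (w i) := by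
    intro t w
    classical
    induction t using Finset.induction_on with
    | empty => simp [D_zero hadd]
    | insert a t ha ih => rw [Finset.sum_insert ha, Finset.sum_insert ha, hadd, ih]
  rw [p.as_sum, map_sum, hsum]
  refine TT.sum _ fun e he => ?_
  have h2 : monomial e (coeff e p) = C (coeff e p) * monomial e 1 := by
    rw [C_mul_monomial, mul_one]
  have h3 : (e.sum fun _ n => n) ≤ N := (le_totalDegree he).trans hp
  rw [h2, map_mul, hmul, aeval_C, hE]
  refine TT.add ?_ ?_
  · refine TT.smul ?_ _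
    rw [← mul_one (aeval s (monomial e (1 : E)))]
    refine h1.mulp ?_
    rw [totalDegree_monomial _ one_ne_zero]
    exact h3
  · refine TT.smul ?_ _
    exact (tt_mon hmul hc e).mono (by omega)

include hadd hmul hE in
theorem D_RD {c : ℕ} (h1 : TT (E := E) s r c 1) (hc : ∀ a, TT (E := E) s r c (D (s a)))
    (hr : ∀ j, D (r j) ∈ RD (E := E) s r c) {N : ℕ} {w : K} (hw : w ∈ RD (E := E) s r N) :
    D w ∈ RD (E := E) s r (N + c) := by
  obtain ⟨p, hp, rfl⟩ := hw
  have hsum : ∀ (t : Finset (Fin J)) (w : Fin J → K),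
      D (∑ i ∈ t, w i) = ∑ i ∈ t, D (w i) := by
    intro t w
    classical
    induction t using Finset.induction_on with
    | empty => simp [D_zero hadd]
    | insert a t ha ih => rw [Finset.sum_insert ha, Finset.sum_insert ha, hadd, ih]
  rw [hsum]
  refine sum_mem fun j _ => ?_
  rw [hmul]
  refine add_mem ?_ ?_
  · have := tt_poly hadd hmul hE h1 hc (hp j) j
    rwa [add_comm c N] at this
  · have := mul_RD s r (hp j) (hr j)
    rwa [add_comm c N] at this

end growth

/-- the elements `f(s) u + g(s) v` with `u` and `v` in `R` -/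
def fg (s : Fin m → K) (R : Subalgebra E K) (f g : MvPolynomial (Fin m) E) : Submodule E K where
  carrier := {w | ∃ u ∈ R, ∃ v ∈ R, w = aeval s f * u + aeval s g * v}
  add_mem' := by
    rintro _ _ ⟨u, hu, v, hv, rfl⟩ ⟨u', hu', v', hv', rfl⟩
    exact ⟨u + u', add_mem hu hu', v + v', add_mem hv hv', by ring⟩
  zero_mem' := ⟨0, zero_mem _, 0, zero_mem _, by simp⟩
  smul_mem' := by
    rintro e _ ⟨u, hu, v, hv, rfl⟩
    refine ⟨e • u, R.smul_mem hu e, e • v, R.smul_mem hv e, ?_⟩
    rw [Algebra.smul_def, Algebra.smul_def, Algebra.smul_def]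
    ring

theorem finrank_sup_le {V : Type*} [AddCommGroup V] [Module E V] {ι : Type*} (t : Finset ι)
    (W : ι → Submodule E V) (hW : ∀ i, FiniteDimensional E (W i)) :
    finrank E (t.sup W : Submodule E V) ≤ ∑ i ∈ t, finrank E (W i) := by
  classical
  induction t using Finset.induction_on with
  | empty => simp
  | insert a t ha ih =>
    rw [Finset.sup_insert, Finset.sum_insert ha]
    have h1 : FiniteDimensional E (t.sup W : Submodule E V) := Submodule.finite_finset_sup t W
    exact (Submodule.finrank_add_le_finrank_add_finrank _ _).trans (by omega)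

/-- the degree filtration is finite dimensional modulo `f`, `g`, with a precise bound -/
theorem RD_rank (R : Subalgebra E K) (hr : ∀ j, r j ∈ R)
    (hs : ∀ a, s a ∈ R)
    {f g : MvPolynomial (Fin m) E} (hf : f ≠ 0) (hg : g ≠ 0) (hfg : IsRelPrime f g) {a b : ℕ}
    (ha : f.totalDegree = a) (hb : g.totalDegree = b) (N : ℕ) :
    FiniteDimensional E ((RD (E := E) s r N).map (fg s R f g).mkQ) ∧
    (a + b ≤ N → (finrank E ((RD (E := E) s r N).map (fg s R f g).mkQ) : ℤ) ≤
      J * (hh m a N - hh m a (N - b))) := by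
  classical
  have hev : ∀ p : MvPolynomial (Fin m) E, aeval s p ∈ R := by
    intro p
    have h1 : Algebra.adjoin E (Set.range s) ≤ R := Algebra.adjoin_le (by rintro _ ⟨a, rfl⟩; exact hs a)
    refine h1 ?_
    rw [Algebra.adjoin_range_eq_range_aeval]
    exact ⟨p, rfl⟩
  set φ : Fin J → MvPolynomial (Fin m) E →ₗ[E] K ⧸ fg s R f g := fun j =>
    (fg s R f g).mkQ ∘ₗ (LinearMap.mulRight E (r j)) ∘ₗ (aeval s : MvPolynomial (Fin m) E →ₐ[E] K).toLinearMap
    with hφ
  have h1 : (RD (E := E) s r N).map (fg s R f g).mkQ ≤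
      Finset.univ.sup fun j => (restrictTotalDegree (Fin m) E N).map (φ j) := by
    rintro _ ⟨_, ⟨p, hp, rfl⟩, rfl⟩
    rw [map_sum]
    refine sum_mem fun j _ => ?_
    have h2 : (restrictTotalDegree (Fin m) E N).map (φ j) ≤
        Finset.univ.sup fun j => (restrictTotalDegree (Fin m) E N).map (φ j) :=
      Finset.le_sup (f := fun j => (restrictTotalDegree (Fin m) E N).map (φ j)) (Finset.mem_univ j)
    refine h2 ⟨p j, ?_, rfl⟩
    exact (mem_restrictTotalDegree _ _ _).2 (hp j)
  have hfin : ∀ j, FiniteDimensional E ((restrictTotalDegree (Fin m) E N).map (φ j)) := by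
    intro j
    infer_instance
  have hfin2 : FiniteDimensional E (Finset.univ.sup fun j =>
      (restrictTotalDegree (Fin m) E N).map (φ j) : Submodule E _) :=
    Submodule.finite_finset_sup _ _
  refine ⟨Submodule.finiteDimensional_of_le h1, fun hN => ?_⟩
  have h3 : ∀ j, (finrank E ((restrictTotalDegree (Fin m) E N).map (φ j)) : ℤ) ≤
      hh m a N - hh m a (N - b) := by
    intro j
    have h4 := rank_le (restrictTotalDegree (Fin m) E N) (two f g) (φ j) (by
      rintro v ⟨_, hv⟩
      have hv' : v ∈ Ideal.span {f, g} := hv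
      rw [Ideal.mem_span_pair] at hv'
      obtain ⟨u, w, rfl⟩ := hv'
      rw [hφ]
      simp only [LinearMap.comp_apply, AlgHom.toLinearMap_apply, LinearMap.mulRight_apply,
        Submodule.mkQ_apply, Submodule.Quotient.mk_eq_zero]
      refine ⟨aeval s u * r j, mul_mem (hev u) (hr j), aeval s w * r j,
        mul_mem (hev w) (hr j), ?_⟩
      rw [map_add, map_mul, map_mul]
      ring)
    have h5 := codim hf hg hfg ha hb hN
    rw [finrank_rTD] at h4
    unfold hh
    have h6 : N - b - a = N - a - b := by omega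
    rw [h6]
    have h4' : (finrank E ((restrictTotalDegree (Fin m) E N).map (φ j)) : ℤ) +
      (finrank E (restrictTotalDegree (Fin m) E N ⊓ two f g : Submodule E _) : ℤ) ≤
      ((N + m).choose m : ℤ) := by exact_mod_cast h4
    have h5' : ((N - a + m).choose m : ℤ) + ((N - b + m).choose m : ℤ) ≤
      (finrank E (restrictTotalDegree (Fin m) E N ⊓ two f g : Submodule E _) : ℤ) +
        ((N - a - b + m).choose m : ℤ) := by exact_mod_cast h5
    linarith
  have h7 : finrank E ((RD (E := E) s r N).map (fg s R f g).mkQ) ≤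
      ∑ j : Fin J, finrank E ((restrictTotalDegree (Fin m) E N).map (φ j)) :=
    (Submodule.finrank_mono h1).trans (finrank_sup_le _ _ hfin)
  have h8 : (finrank E ((RD (E := E) s r N).map (fg s R f g).mkQ) : ℤ) ≤
      ∑ j : Fin J, (finrank E ((restrictTotalDegree (Fin m) E N).map (φ j)) : ℤ) := by
    exact_mod_cast h7
  refine h8.trans ((Finset.sum_le_sum fun j _ => h3 j).trans ?_)
  rw [Finset.sum_const, Finset.card_univ, Fintype.card_fin, nsmul_eq_mul]

/-- **The auxiliary polynomial.** -/
theorem siegel {D : K → K} {dE : E → E} (hadd : ∀ v w, D (v + w) = D v + D w)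
    (hmul : ∀ v w, D (v * w) = D v * w + v * D w)
    (hE : ∀ e, D (algebraMap E K e) = algebraMap E K (dE e))
    (hs : AlgebraicIndependent E s) (R : Subalgebra E K) (hsR : ∀ a, s a ∈ R)
    (hD : ∀ w ∈ R, D w ∈ R) (hr : ∀ j, r j ∈ R) (h1 : ∃ j, r j = 1)
    (hspan : ∀ w ∈ R, ∃ p : Fin J → MvPolynomial (Fin m) E, w = ∑ j, aeval s (p j) * r j)
    {f g : MvPolynomial (Fin m) E} (hf : f ≠ 0) (hg : g ≠ 0) (hfg : IsRelPrime f g) (q : ℕ) :
    ∃ N0, 1 ≤ N0 ∧ ∃ p : MvPolynomial (Fin m) E, p.totalDegree ≤ N0 ∧ p ≠ 0 ∧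
      ∀ i < q * N0, ∃ u ∈ R, ∃ v ∈ R, D^[i] (aeval s p) = aeval s f * u + aeval s g * v := by
  classical
  -- a bound for the growth
  have hex : ∀ w ∈ R, ∃ c, w ∈ RD (E := E) s r c := by
    intro w hw
    obtain ⟨p, rfl⟩ := hspan w hw
    exact ⟨Finset.univ.sup fun j => (p j).totalDegree, p,
      fun j => Finset.le_sup (f := fun j => (p j).totalDegree) (Finset.mem_univ j), rfl⟩
  have hexT : ∀ w ∈ R, ∃ c, TT (E := E) s r c w := by
    intro w hw
    choose c hc using fun j => hex (w * r j) (mul_mem hw (hr j))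
    exact ⟨Finset.univ.sup c, fun j => RD_mono s r (Finset.le_sup (Finset.mem_univ j)) (hc j)⟩
  obtain ⟨c1, hc1⟩ := hexT 1 (one_mem R)
  choose c2 hc2 using fun a => hexT (D (s a)) (hD _ (hsR a))
  choose c3 hc3 using fun j => hex (D (r j)) (hD _ (hr j))
  set b := g.totalDegree with hb
  set a := f.totalDegree with ha
  set c := c1 + Finset.univ.sup c2 + Finset.univ.sup c3 + b with hc
  have h2 : TT (E := E) s r c 1 := hc1.mono (by omega)
  have h3 : ∀ a, TT (E := E) s r c (D (s a)) := fun a => (hc2 a).mono (by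
    have := Finset.le_sup (f := c2) (Finset.mem_univ a)
    omega)
  have h4 : ∀ j, D (r j) ∈ RD (E := E) s r c := fun j => RD_mono s r (by
    have := Finset.le_sup (f := c3) (Finset.mem_univ j)
    omega) (hc3 j)
  have h5 : ∀ N, ∀ w ∈ RD (E := E) s r N, D w ∈ RD (E := E) s r (N + c) := fun N w hw =>
    D_RD hadd hmul hE h2 h3 h4 hw
  -- the parameters
  obtain ⟨N0, hN1, hN2, hN⟩ := numeric m a b c J q (by omega) (by
    rintro rfl
    rw [ha, eq_C_of_isEmpty f, totalDegree_C])
  refine ⟨N0, hN1, ?_⟩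
  set V0 := (restrictTotalDegree (Fin m) E N0).map
    (aeval s : MvPolynomial (Fin m) E →ₐ[E] K).toLinearMap with hV0
  have hinj : Function.Injective (aeval s : MvPolynomial (Fin m) E →ₐ[E] K).toLinearMap := hs
  have hV0r : finrank E V0 = (N0 + m).choose m := by
    rw [← finrank_rTD (E := E) m N0]
    exact (LinearEquiv.finrank_eq (Submodule.equivMapOfInjective _ hinj _)).symm
  have hfV0 : FiniteDimensional E V0 := by rw [hV0]; infer_instance
  obtain ⟨j1, hj1⟩ := h1
  have hV0le : V0 ≤ RD (E := E) s r N0 := by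
    rintro _ ⟨p, hp, rfl⟩
    refine ⟨fun j => if j = j1 then p else 0, fun j => ?_, ?_⟩
    · dsimp only
      split_ifs
      · exact (mem_restrictTotalDegree _ _ _).1 hp
      · simp
    · rw [Finset.sum_eq_single j1]
      · dsimp only
        rw [if_pos rfl, hj1, mul_one]; rfl
      · intro j _ hj
        dsimp only
        rw [if_neg hj]; simp
      · intro h; exact absurd (Finset.mem_univ _) h
  have hrk := fun N => RD_rank (s := s) (r := r) R hr hsR hf hg hfg ha.symm hb.symm N
  obtain ⟨v, ⟨p, hp, hpv⟩, hv0, hv⟩ := chain (D := D) (b := fg s R f g) dE hadd (by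
      intro e v
      rw [Algebra.smul_def, hmul, hE, Algebra.smul_def, Algebra.smul_def]) V0
    (fun i => RD (E := E) s r (N0 + c * i)) (fun i => (hrk _).1) (by
      intro i v hv
      induction i with
      | zero => exact hV0le hv
      | succ i ih =>
        rw [Function.iterate_succ_apply', mul_add, mul_one, ← add_assoc]
        exact h5 _ _ ih) (q * N0) (by
      rw [hV0r]
      exact hN (fun N => finrank E ((RD (E := E) s r N).map (fg s R f g).mkQ))
        (fun N hN => (hrk N).2 hN))
  refine ⟨p, (mem_restrictTotalDegree _ _ _).1 hp, ?_, fun i hi => ?_⟩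
  · rintro rfl
    rw [map_zero] at hpv
    exact hv0 hpv.symm
  · have h6 := hv i hi
    have h7 : aeval s p = v := hpv
    rw [h7]
    exact h6

end Pool.Agent.K1H80.EC
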