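import Pool.Agent.Y731.FG.All
import Pool.Agent.K1H80.EC.Sg
import Pool.Agent.K1H80.EC.Cop

/-!
# Common zeros outside codimension two
-/

set_option autoImplicit false
set_option linter.unusedSectionVars false
set_option linter.unusedVariables false

namespace Pool.Agent.K1H80.EC

open FF Filter MvPolynomial Module Pool.Agent.W603.LV Pool.Agent.W603.PV Pool.Agent.W603.CZ
open Pool.Agent.Y731.FG
open scoped Classical

variable {I : Type} {𝒰 : Ultrafilter I} {k F : Type} [Field k] [IsAlgClosed k] [CharZero k]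
  [Field F] {L : I → Type} [∀ i, Field (L i)] [∀ i, Algebra k (L i)] [∀ i, Algebra F (L i)]
  [∀ i, IsFF k (L i)] (Δ : Dt 𝒰 k F L)

/-- the order of a derivative -/
theorem oo_uD_ge (x : UL 𝒰 L) : ∀ᶠ ω in EV 𝒰 k L, uD Δ.D x = 0 ∨
    oo x ω - 1 - |vo ω.2 (Δ.D ω.1)| ≤ oo (uD Δ.D x) ω := by
  by_cases h0 : uD Δ.D x = 0
  · exact Eventually.of_forall fun ω => Or.inl h0
  rw [ev_iff]
  have h1 : uD Δ.D x = um 𝒰 (fun i => Δ.D i (rep x i)) := by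
    rw [← uD_um, um_rep]
  filter_upwards [rep_um (𝒰 := 𝒰) (fun i => Δ.D i (rep x i)), Δ.D_ne, rep_ne h0] with i h2 h3 h4 P
  right
  unfold oo
  rw [h1] at h4 ⊢
  simp only at h4 ⊢
  rw [h2] at h4 ⊢
  have h5 := Pool.Agent.Y141.FG.ord_der_ge P h3 h4
  split_ifs at h5 <;> omega

/-- the elements whose poles in `Q` are bounded -/
def BQ (Q : Set (Om k L)) : Subalgebra Δ.E (UL 𝒰 L) where
  carrier := {x | ∃ e, Bd 𝒰 Δ.χ e ∧ (∀ ω, 0 ≤ e ω) ∧ ∀ᶠ ω in EV 𝒰 k L, ω ∈ Q →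
    x = 0 ∨ -e ω ≤ oo x ω}
  mul_mem' := by
    rintro x y ⟨e, he, he0, h1⟩ ⟨f, hf, hf0, h2⟩
    by_cases hx : x = 0
    · subst hx
      exact ⟨fun _ => 0, Bd.zero Δ.nonneg, fun _ => le_refl _,
        Eventually.of_forall fun ω _ => Or.inl (zero_mul y)⟩
    by_cases hy : y = 0
    · subst hy
      exact ⟨fun _ => 0, Bd.zero Δ.nonneg, fun _ => le_refl _,
        Eventually.of_forall fun ω _ => Or.inl (mul_zero x)⟩
    refine ⟨_, he.add hf, fun ω => add_nonneg (he0 ω) (hf0 ω), ?_⟩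
    filter_upwards [h1, h2, oo_mul hx hy] with ω h3 h4 h5 hω
    right
    rw [h5]
    have := (h3 hω).resolve_left hx
    have := (h4 hω).resolve_left hy
    linarith
  add_mem' := by
    rintro x y ⟨e, he, he0, h1⟩ ⟨f, hf, hf0, h2⟩
    refine ⟨_, he.add hf, fun ω => add_nonneg (he0 ω) (hf0 ω), ?_⟩
    filter_upwards [h1, h2, oo_add x y] with ω h3 h4 h5 hω
    have h6 := he0 ω
    have h7 := hf0 ω
    refine h5 _ ?_ ?_
    · rcases h3 hω with h | h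
      · exact Or.inl h
      · right
        linarith
    · rcases h4 hω with h | h
      · exact Or.inl h
      · right
        linarith
  algebraMap_mem' := by
    intro c
    exact ⟨_, Δ.bd_E c.2, fun ω => abs_nonneg _, Eventually.of_forall fun ω _ =>
      Or.inr (neg_abs_le _)⟩

variable {Δ}

theorem mem_BQ {Q : Set (Om k L)} {x : UL 𝒰 L} : x ∈ BQ Δ Q ↔
    ∃ e, Bd 𝒰 Δ.χ e ∧ (∀ ω, 0 ≤ e ω) ∧ ∀ᶠ ω in EV 𝒰 k L, ω ∈ Q → x = 0 ∨ -e ω ≤ oo x ω := Iff.rfl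

/-- `x` is at least as small as the `ψ j`, up to `n` and a bounded error, at the places in `Q` -/
def Sml (Q : Set (Om k L)) {w : ℕ} (ψ : Fin w → UL 𝒰 L) (n : ℕ) (x : UL 𝒰 L) : Prop :=
  ∃ e, Bd 𝒰 Δ.χ e ∧ (∀ ω, 0 ≤ e ω) ∧ ∀ᶠ ω in EV 𝒰 k L, ω ∈ Q → ∀ μ : ℤ,
    (∀ j, ψ j = 0 ∨ μ ≤ oo (ψ j) ω) → x = 0 ∨ μ - n - e ω ≤ oo x ω

theorem Sml.mono {Q : Set (Om k L)} {w : ℕ} {ψ : Fin w → UL 𝒰 L} {n n' : ℕ} {x : UL 𝒰 L}
    (h : Sml (Δ := Δ) Q ψ n x) (hn : n ≤ n') : Sml (Δ := Δ) Q ψ n' x := by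
  obtain ⟨e, he, he0, h1⟩ := h
  refine ⟨e, he, he0, ?_⟩
  filter_upwards [h1] with ω h2 hω μ hμ
  rcases h2 hω μ hμ with h | h
  · exact Or.inl h
  · right
    have : (n : ℤ) ≤ n' := by exact_mod_cast hn
    linarith

theorem Sml.zero (Q : Set (Om k L)) {w : ℕ} (ψ : Fin w → UL 𝒰 L) (n : ℕ) :
    Sml (Δ := Δ) Q ψ n 0 :=
  ⟨fun _ => 0, Bd.zero Δ.nonneg, fun _ => le_refl _, Eventually.of_forall fun ω _ _ _ => Or.inl rfl⟩

theorem Sml.add {Q : Set (Om k L)} {w : ℕ} {ψ : Fin w → UL 𝒰 L} {n : ℕ} {x y : UL 𝒰 L}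
    (hx : Sml (Δ := Δ) Q ψ n x) (hy : Sml (Δ := Δ) Q ψ n y) : Sml (Δ := Δ) Q ψ n (x + y) := by
  obtain ⟨e, he, he0, h1⟩ := hx
  obtain ⟨f, hf, hf0, h2⟩ := hy
  refine ⟨_, he.add hf, fun ω => add_nonneg (he0 ω) (hf0 ω), ?_⟩
  filter_upwards [h1, h2, oo_add x y] with ω h3 h4 h5 hω μ hμ
  have h6 := he0 ω
  have h7 := hf0 ω
  refine h5 _ ?_ ?_
  · rcases h3 hω μ hμ with h | h
    · exact Or.inl h
    · right
      linarith
  · rcases h4 hω μ hμ with h | h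
    · exact Or.inl h
    · right
      linarith

theorem Sml.mul {Q : Set (Om k L)} {w : ℕ} {ψ : Fin w → UL 𝒰 L} {n : ℕ} {c x : UL 𝒰 L}
    (hc : c ∈ BQ Δ Q) (hx : Sml (Δ := Δ) Q ψ n x) : Sml (Δ := Δ) Q ψ n (c * x) := by
  by_cases hc0 : c = 0
  · rw [hc0, zero_mul]; exact Sml.zero Q ψ n
  by_cases hx0 : x = 0
  · rw [hx0, mul_zero]; exact Sml.zero Q ψ n
  obtain ⟨e, he, he0, h1⟩ := hc
  obtain ⟨f, hf, hf0, h2⟩ := hx
  refine ⟨_, he.add hf, fun ω => add_nonneg (he0 ω) (hf0 ω), ?_⟩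
  filter_upwards [h1, h2, oo_mul hc0 hx0] with ω h3 h4 h5 hω μ hμ
  right
  rw [h5]
  have h6 := (h3 hω).resolve_left hc0
  have h7 := (h4 hω μ hμ).resolve_left hx0
  linarith

theorem Sml.der {Q : Set (Om k L)} {w : ℕ} {ψ : Fin w → UL 𝒰 L} {n : ℕ} {x : UL 𝒰 L}
    (hx : Sml (Δ := Δ) Q ψ n x) : Sml (Δ := Δ) Q ψ (n + 1) (uD Δ.D x) := by
  obtain ⟨f, hf, hf0, h2⟩ := hx
  refine ⟨_, hf.add Δ.vo_bd, fun ω => add_nonneg (hf0 ω) (abs_nonneg _), ?_⟩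
  filter_upwards [h2, oo_uD_ge Δ x] with ω h4 h5 hω μ hμ
  rcases h5 with h5 | h5
  · exact Or.inl h5
  · rcases h4 hω μ hμ with h | h
    · left
      rw [h, map_zero]
    · right
      push_cast
      linarith

theorem Sml.self (Q : Set (Om k L)) {w : ℕ} (ψ : Fin w → UL 𝒰 L) (j : Fin w) :
    Sml (Δ := Δ) Q ψ 0 (ψ j) := by
  refine ⟨fun _ => 0, Bd.zero Δ.nonneg, fun _ => le_refl _, Eventually.of_forall fun ω _ μ hμ => ?_⟩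
  rcases hμ j with h | h
  · exact Or.inl h
  · right
    simpa using h

/-- the ideal of the small elements -/
def SmlI (R : Subalgebra Δ.E (UL 𝒰 L)) (Q : Set (Om k L)) (hQ : R ≤ BQ Δ Q) {w : ℕ}
    (ψ : Fin w → UL 𝒰 L) : Ideal R where
  carrier := {x | Sml (Δ := Δ) Q ψ 0 (x : UL 𝒰 L)}
  add_mem' := fun hx hy => hx.add hy
  zero_mem' := Sml.zero Q ψ 0
  smul_mem' := fun c x hx => Sml.mul (hQ c.2) hx

/-- the differential ideal of the small elements -/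
def SmlD (R : Subalgebra Δ.E (UL 𝒰 L)) (Q : Set (Om k L)) (hQ : R ≤ BQ Δ Q) {w : ℕ}
    (ψ : Fin w → UL 𝒰 L) : Ideal R where
  carrier := {x | ∃ n, Sml (Δ := Δ) Q ψ n (x : UL 𝒰 L)}
  add_mem' := by
    rintro x y ⟨n, hx⟩ ⟨n', hy⟩
    exact ⟨n + n', (hx.mono (by omega)).add (hy.mono (by omega))⟩
  zero_mem' := ⟨0, Sml.zero Q ψ 0⟩
  smul_mem' := by
    rintro c x ⟨n, hx⟩
    exact ⟨n, Sml.mul (hQ c.2) hx⟩

/-- a bound for the multiplicities -/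
theorem mult_bound (R : Subalgebra Δ.E (UL 𝒰 L)) (hDR : ∀ w ∈ R, uD Δ.D w ∈ R)
    (hsim : ∀ J : Ideal R, (∀ w : R, w ∈ J → (⟨uD Δ.D w, hDR _ w.2⟩ : R) ∈ J) → J ≠ ⊥ → J = ⊤)
    (Q : Set (Om k L)) (hQ : R ≤ BQ Δ Q) {w : ℕ} (ψ : Fin w → R) (h0 : ∃ j, ψ j ≠ 0) :
    ∃ (M : ℕ) (e : Om k L → ℤ), Bd 𝒰 Δ.χ e ∧ (∀ ω, 0 ≤ e ω) ∧ ∀ᶠ ω in EV 𝒰 k L, ω ∈ Q →
      mo (fun j => (ψ j : UL 𝒰 L)) ω ≤ M + e ω := by
  have h1 : SmlD R Q hQ (fun j => (ψ j : UL 𝒰 L)) = ⊤ := by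
    apply hsim
    · rintro x ⟨n, hx⟩
      exact ⟨n + 1, hx.der⟩
    · obtain ⟨j, hj⟩ := h0
      intro h
      apply hj
      rw [← Ideal.mem_bot, ← h]
      exact ⟨0, Sml.self Q (fun j => (ψ j : UL 𝒰 L)) j⟩
  have h2 : (1 : R) ∈ SmlD R Q hQ (fun j => (ψ j : UL 𝒰 L)) := by rw [h1]; trivial
  obtain ⟨M, e, he, he0, h3⟩ := h2
  refine ⟨M, e, he, he0, ?_⟩
  filter_upwards [h3, oo_one (𝒰 := 𝒰) (k := k) (L := L)] with ω h4 h5 hω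
  have h6 := h4 hω (mo (fun j => (ψ j : UL 𝒰 L)) ω) (fun j => by
    by_cases hj : (ψ j : UL 𝒰 L) = 0
    · exact Or.inl hj
    · exact Or.inr (mo_le _ hj ω))
  have h7 := h6.resolve_left (by
    intro h
    exact one_ne_zero h)
  have h8 : oo ((1 : R) : UL 𝒰 L) ω = 0 := h5
  rw [h8] at h7
  linarith

end Pool.Agent.K1H80.EC
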