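import Mathlib

/-!
# Derivations of fields of characteristic zero: extension, uniqueness, constants
-/

set_option autoImplicit false
set_option linter.unusedSectionVars false

namespace Pool.Agent.K1H80.EC

open TensorProduct

universe u v w

/-- extensions of fields of characteristic zero are formally smooth -/
theorem formallySmooth_field {F : Type u} {K : Type v} [Field F] [CharZero F] [Field K]
    [Algebra F K] : Algebra.FormallySmooth F K := by
  obtain ⟨ι, v, hv⟩ := exists_isTranscendenceBasis' F K
  have halg : Algebra.IsAlgebraic (IntermediateField.adjoin F (Set.range v)) K :=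
    hv.isAlgebraic_field
  have hsep : Algebra.IsSeparable (IntermediateField.adjoin F (Set.range v)) K := inferInstance
  exact .of_algebraicIndependent_of_isSeparable hv.1

/-- **Extension of derivations** from a domain to a field of characteristic zero. -/
theorem exists_ext {k : Type u} {R : Type v} {K : Type w} [CommRing k] [CommRing R] [IsDomain R]
    [Field K] [CharZero K] [Algebra k R] [Algebra k K] [Algebra R K] [IsScalarTower k R K]
    (hinj : Function.Injective (algebraMap R K)) (d : Derivation k R K) :
    ∃ D : Derivation k K K, ∀ r, D (algebraMap R K r) = d r := by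
  have hfs : FaithfulSMul R K := (faithfulSMul_iff_algebraMap_injective _ _).2 hinj
  let _ : Algebra (FractionRing R) K := FractionRing.liftAlgebra R K
  have hst : IsScalarTower R (FractionRing R) K := inferInstance
  have hchF : CharZero (FractionRing R) := by
    have h1 : CharZero R := ⟨fun a b h => by
      have h2 := congrArg (algebraMap R K) h
      rw [map_natCast, map_natCast] at h2
      exact_mod_cast h2⟩
    exact charZero_of_injective_algebraMap (IsFractionRing.injective R (FractionRing R))
  have h1 : Algebra.FormallySmooth (FractionRing R) K := formallySmooth_field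
  have h2 : Algebra.FormallySmooth R (FractionRing R) :=
    .of_isLocalization (nonZeroDivisors R)
  have h3 : Algebra.FormallySmooth R K := .comp R (FractionRing R) K
  have h4 : Subsingleton (Algebra.H1Cotangent R K) := h3.subsingleton_h1Cotangent
  let l : K ⊗[R] Ω[R⁄k] →ₗ[K] K := LinearMap.liftBaseChange K d.liftKaehlerDifferential
  have h5 : LinearMap.ker (KaehlerDifferential.mapBaseChange k R K) = ⊥ := by
    rw [LinearMap.ker_eq_bot']
    intro x hx
    obtain ⟨y, hy⟩ := (Algebra.H1Cotangent.exact_δ_mapBaseChange k R K x).1 hx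
    rw [Subsingleton.elim y 0, map_zero] at hy
    exact hy.symm
  obtain ⟨g, hg⟩ := LinearMap.exists_leftInverse_of_injective _ h5
  refine ⟨(l.comp g).compDer (KaehlerDifferential.D k K), fun r => ?_⟩
  have h6 : KaehlerDifferential.mapBaseChange k R K (1 ⊗ₜ KaehlerDifferential.D k R r) =
      KaehlerDifferential.D k K (algebraMap R K r) := by
    rw [KaehlerDifferential.mapBaseChange_tmul, one_smul, KaehlerDifferential.map_D]
  change l (g (KaehlerDifferential.D k K (algebraMap R K r))) = d r
  rw [← h6]
  have h7 := LinearMap.congr_fun hg (1 ⊗ₜ KaehlerDifferential.D k R r)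
  rw [LinearMap.comp_apply, LinearMap.id_apply] at h7
  rw [h7]
  change LinearMap.liftBaseChange K d.liftKaehlerDifferential (1 ⊗ₜ KaehlerDifferential.D k R r) = _
  rw [LinearMap.liftBaseChange_tmul, one_smul, Derivation.liftKaehlerDifferential_comp_D]

/-- Derivations of a subfield extend, with prescribed values at algebraically independent
elements. -/
theorem exists_der_ext {k : Type u} {E : Type v} {K : Type w} [CommRing k] [Field E]
    [Field K] [CharZero K] [Algebra k E] [Algebra k K] [Algebra E K] [IsScalarTower k E K]
    (d : Derivation k E K) {ι : Type*} (t : ι → K) (ht : AlgebraicIndependent E t) (c : ι → K) :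
    ∃ D : Derivation k K K, (∀ e, D (algebraMap E K e) = d e) ∧ ∀ i, D (t i) = c i := by
  obtain ⟨D0, hD0⟩ := exists_ext (algebraMap E K).injective d
  let _ : Algebra (MvPolynomial ι E) K :=
    ((MvPolynomial.aeval t : MvPolynomial ι E →ₐ[E] K) : MvPolynomial ι E →+* K).toAlgebra
  have hst : IsScalarTower E (MvPolynomial ι E) K := IsScalarTower.of_algebraMap_eq' (by
    ext c
    simp [RingHom.algebraMap_toAlgebra])
  obtain ⟨D1, hD1⟩ := exists_ext (k := E) (R := MvPolynomial ι E) (K := K) ht
    (MvPolynomial.mkDerivation E (fun i => c i - D0 (t i)))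
  refine ⟨D0 + D1.restrictScalars k, fun e => ?_, fun i => ?_⟩
  · rw [Derivation.add_apply, hD0, Derivation.restrictScalars_apply, D1.map_algebraMap, add_zero]
  · have h := hD1 (MvPolynomial.X i)
    rw [MvPolynomial.mkDerivation_X] at h
    have h2 : algebraMap (MvPolynomial ι E) K (MvPolynomial.X i) = t i :=
      MvPolynomial.aeval_X t i
    rw [h2] at h
    rw [Derivation.add_apply, Derivation.restrictScalars_apply, h]
    ring

/-- a derivation along a homomorphism -/
structure IsD {A B : Type*} [CommRing A] [CommRing B] (φ : A →+* B) (δ : A → B) : Prop where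
  add : ∀ x y, δ (x + y) = δ x + δ y
  mul : ∀ x y, δ (x * y) = φ x * δ y + φ y * δ x

namespace IsD

section ring

variable {A B : Type*} [CommRing A] [CommRing B] {φ : A →+* B} {δ δ' : A → B}

theorem zero' (h : IsD φ δ) : δ 0 = 0 := by
  have h1 := h.add 0 0
  rw [add_zero] at h1
  exact left_eq_add.1 h1

theorem one' (h : IsD φ δ) : δ 1 = 0 := by
  have h1 := h.mul 1 1
  rw [mul_one, map_one, one_mul] at h1
  exact left_eq_add.1 h1

theorem sub (h : IsD φ δ) (h' : IsD φ δ') : IsD φ (fun x => δ x - δ' x) :=
  ⟨fun x y => by simp only [h.add, h'.add]; ring, fun x y => by simp only [h.mul, h'.mul]; ring⟩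

theorem pow (h : IsD φ δ) (x : A) (n : ℕ) : δ (x ^ n) = n * φ x ^ (n - 1) * δ x := by
  induction n with
  | zero => simp [h.one']
  | succ n ih =>
    rw [pow_succ, h.mul, ih, map_pow]
    rcases n with _ | n
    · simp
    · simp only [Nat.add_sub_cancel]
      push_cast
      ring

theorem sum (h : IsD φ δ) {ι : Type*} (s : Finset ι) (f : ι → A) :
    δ (∑ i ∈ s, f i) = ∑ i ∈ s, δ (f i) := by
  classical
  induction s using Finset.induction_on with
  | empty => simp [h.zero']
  | insert a s ha ih => rw [Finset.sum_insert ha, Finset.sum_insert ha, h.add, ih]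

theorem neg (h : IsD φ δ) (x : A) : δ (-x) = -δ x := by
  have h1 := h.add x (-x)
  rw [add_neg_cancel, h.zero'] at h1
  exact (neg_eq_of_add_eq_zero_right h1.symm).symm

/-- chain rule with constant coefficients -/
theorem chain {k : Type*} [CommRing k] [Algebra k A] (h : IsD φ δ)
    (hc : ∀ c : k, δ (algebraMap k A c) = 0) (x : A) (P : Polynomial k) :
    δ (Polynomial.aeval x P) = φ (Polynomial.aeval x P.derivative) * δ x := by
  induction P using Polynomial.induction_on' with
  | add P Q hP hQ => rw [map_add, h.add, hP, hQ, Polynomial.derivative_add, map_add, map_add]; ring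
  | monomial n c =>
    rw [Polynomial.aeval_monomial, h.mul, hc, h.pow, Polynomial.derivative_monomial,
      Polynomial.aeval_monomial]
    simp only [map_mul, map_pow, map_natCast]
    ring

end ring

section field

variable {A B : Type*} [Field A] [Field B] {φ : A →+* B} {δ δ' : A → B}

theorem alg_zero {E : Type*} [Field E] [CharZero E] [Algebra E A] (h : IsD φ δ)
    (hc : ∀ c : E, δ (algebraMap E A c) = 0) {x : A} (hx : IsAlgebraic E x) : δ x = 0 := by
  have h1 := h.chain hc x (minpoly E x)
  rw [minpoly.aeval, h.zero'] at h1
  have h2 : Polynomial.aeval x (minpoly E x).derivative ≠ 0 :=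
    (minpoly.irreducible hx.isIntegral).separable.aeval_derivative_ne_zero (minpoly.aeval E x)
  have h3 : φ (Polynomial.aeval x (minpoly E x).derivative) ≠ 0 := (map_ne_zero φ).mpr h2
  exact (mul_eq_zero.mp h1.symm).resolve_left h3

theorem inv' (h : IsD φ δ) (x : A) : δ x⁻¹ = -(φ x)⁻¹ ^ 2 * δ x := by
  by_cases hx : x = 0
  · rw [hx, inv_zero, h.zero', mul_zero]
  have h1 := h.mul x x⁻¹
  rw [mul_inv_cancel₀ hx, h.one', map_inv₀] at h1
  have h2 : φ x ≠ 0 := (map_ne_zero φ).mpr hx
  apply mul_left_cancel₀ h2
  have h3 : φ x * (-(φ x)⁻¹ ^ 2 * δ x) = -((φ x)⁻¹ * δ x) := by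
    field_simp
  rw [h3]
  linear_combination -h1

theorem div' (h : IsD φ δ) (x y : A) :
    δ (x / y) = (φ y * δ x - φ x * δ y) / (φ y) ^ 2 := by
  by_cases hy : y = 0
  · rw [hy, div_zero, h.zero', map_zero]
    simp
  have h2 : φ y ≠ 0 := (map_ne_zero φ).mpr hy
  rw [div_eq_mul_inv, h.mul, h.inv', map_inv₀]
  field_simp
  ring

/-- Two derivations that agree on a subfield agree on the elements algebraic over it. -/
theorem eq_of_alg {E : Type*} [Field E] [CharZero E] [Algebra E A] (h : IsD φ δ) (h' : IsD φ δ')
    (hc : ∀ c : E, δ (algebraMap E A c) = δ' (algebraMap E A c)) {x : A} (hx : IsAlgebraic E x) :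
    δ x = δ' x := by
  have := (h.sub h').alg_zero (fun c => by rw [hc, sub_self]) hx
  exact sub_eq_zero.1 this

/-- the elements where two derivations agree are a subfield -/
def eqField (h : IsD φ δ) (h' : IsD φ δ') : Subfield A where
  carrier := {x | δ x = δ' x}
  mul_mem' := by
    intro x y hx hy
    have hx' : δ x = δ' x := hx
    have hy' : δ y = δ' y := hy
    change δ (x * y) = δ' (x * y)
    rw [h.mul, h'.mul, hx', hy']
  one_mem' := by change δ 1 = δ' 1; rw [h.one', h'.one']
  add_mem' := by
    intro x y hx hy
    have hx' : δ x = δ' x := hx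
    have hy' : δ y = δ' y := hy
    change δ (x + y) = δ' (x + y)
    rw [h.add, h'.add, hx', hy']
  zero_mem' := by change δ 0 = δ' 0; rw [h.zero', h'.zero']
  neg_mem' := by
    intro x hx
    have hx' : δ x = δ' x := hx
    change δ (-x) = δ' (-x)
    rw [h.neg, h'.neg, hx']
  inv_mem' := by
    intro x hx
    have hx' : δ x = δ' x := hx
    change δ x⁻¹ = δ' x⁻¹
    rw [h.inv', h'.inv', hx']

theorem mem_eqField (h : IsD φ δ) (h' : IsD φ δ') {x : A} : x ∈ h.eqField h' ↔ δ x = δ' x :=
  Iff.rfl

end field

end IsD

theorem isD_left {k A B : Type*} [CommRing k] [CommRing A] [CommRing B] [Algebra k A] [Algebra k B]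
    (D : Derivation k B B) (φ : A →+* B) : IsD φ (fun x => D (φ x)) :=
  ⟨fun x y => by simp only [map_add], fun x y => by
    simp only [map_mul, D.leibniz, smul_eq_mul]⟩

theorem isD_right {k A B : Type*} [CommRing k] [CommRing A] [CommRing B] [Algebra k A] [Algebra k B]
    (D : Derivation k A A) (φ : A →+* B) : IsD φ (fun x => φ (D x)) :=
  ⟨fun x y => by simp only [map_add], fun x y => by
    simp only [map_mul, D.leibniz, smul_eq_mul, map_add]⟩

/-- **Constants are algebraic over constants.** -/
theorem const_alg {k E K N : Type*} [CommRing k] [Field E] [Field K] [CharZero K] [Field N]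
    [Algebra k K] [Algebra k N] [Algebra K N] [Algebra E K] [Algebra E N] [IsScalarTower E K N]
    (D : Derivation k K K) (D' : Derivation k N N)
    (hDD' : ∀ x, D' (algebraMap K N x) = algebraMap K N (D x))
    (hE : ∀ x : K, D x = 0 → IsAlgebraic E x) {z : N} (hz : IsAlgebraic K z) (hz0 : D' z = 0) :
    IsAlgebraic E z := by
  classical
  set p := minpoly K z with hp
  have hint : IsIntegral K z := hz.isIntegral
  have hmon : p.Monic := minpoly.monic hint
  -- the derivative of the coefficients
  let q : Polynomial K := ∑ i ∈ Finset.range p.natDegree, Polynomial.monomial i (D (p.coeff i))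
  have hq : Polynomial.aeval z q = 0 := by
    have h1 : Polynomial.aeval z p = 0 := minpoly.aeval K z
    rw [Polynomial.aeval_eq_sum_range] at h1
    have h2 := congrArg D' h1
    rw [map_zero, map_sum, Finset.sum_range_succ] at h2
    have h3 : ∀ i, D' (p.coeff i • z ^ i) = algebraMap K N (D (p.coeff i)) * z ^ i := by
      intro i
      rw [Algebra.smul_def, D'.leibniz, hDD', D'.leibniz_pow, hz0]
      simp only [smul_zero, smul_eq_mul, mul_zero, zero_add]
      ring
    simp only [h3] at h2
    rw [hmon.coeff_natDegree, D.map_one_eq_zero, map_zero, zero_mul, add_zero] at h2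
    simp only [q, map_sum, Polynomial.aeval_monomial]
    exact h2
  have hq0 : q = 0 := by
    by_contra hne
    have h1 : p.natDegree ≤ q.natDegree := Polynomial.natDegree_le_natDegree
      (minpoly.degree_le_of_ne_zero K z hne hq)
    have h2 : q.natDegree < p.natDegree ∨ q = 0 := by
      have h3 : q.degree < p.natDegree := by
        refine (Polynomial.degree_sum_le _ _).trans_lt ?_
        rw [Finset.sup_lt_iff (WithBot.bot_lt_coe _)]
        intro i hi
        exact (Polynomial.degree_monomial_le i _).trans_lt
          (by exact_mod_cast Finset.mem_range.1 hi)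
      by_cases h4 : q = 0
      · exact Or.inr h4
      · left
        rwa [Polynomial.degree_eq_natDegree h4, Nat.cast_lt] at h3
    rcases h2 with h2 | h2
    · exact absurd h1 (not_le.2 h2)
    · exact hne h2
  have hcoef : ∀ i, IsAlgebraic E (p.coeff i) := by
    intro i
    rcases lt_trichotomy i p.natDegree with h | h | h
    · apply hE
      have h1 := congrArg (fun r => Polynomial.coeff r i) hq0
      simp only [q, Polynomial.finsetSum_coeff, Polynomial.coeff_monomial, Polynomial.coeff_zero] at h1
      rw [Finset.sum_ite_eq' (Finset.range p.natDegree) i] at h1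
      rwa [if_pos (Finset.mem_range.2 h)] at h1
    · rw [h, hmon.coeff_natDegree]
      exact isAlgebraic_one
    · rw [Polynomial.coeff_eq_zero_of_natDegree_lt h]
      exact isAlgebraic_zero
  -- `z` is algebraic over the algebraic closure of `E` in `K`
  let A : IntermediateField E K := algebraicClosure E K
  have hlift : p ∈ Polynomial.lifts (algebraMap A K) := by
    rw [Polynomial.lifts_iff_coeff_lifts]
    intro i
    exact ⟨⟨p.coeff i, by rw [mem_algebraicClosure_iff]; exact hcoef i⟩, rfl⟩
  obtain ⟨r, hr⟩ := hlift
  have hr0 : r ≠ 0 := by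
    rintro rfl
    have : p = 0 := by rw [← hr]; simp
    exact hmon.ne_zero this
  have hzA : IsAlgebraic A z := by
    refine ⟨r, hr0, ?_⟩
    have h1 : Polynomial.aeval z (r.map (algebraMap A K)) = 0 := by
      have : r.map (algebraMap A K) = p := hr
      rw [this]
      exact minpoly.aeval K z
    rw [Polynomial.aeval_map_algebraMap] at h1
    exact h1
  exact hzA.restrictScalars E

end Pool.Agent.K1H80.EC
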