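import Pool.Agent.K1H80.EC.Ct2
import Pool.Agent.K1H80.EC.Core5

/-!
# Points of constant elliptic curves over function fields and their ultraproducts
-/

set_option autoImplicit false
set_option linter.unusedSectionVars false
set_option linter.unusedVariables false

namespace Pool.Agent.K1H80.EC

open FF Filter Module Pool.Agent.W603.LV Pool.Agent.W603.PV Pool.Agent.W603.CZ
open Pool.Agent.Y731.FG
open scoped Classical

section one

variable {k : Type} [Field k] [IsAlgClosed k] [CharZero k] {K : Type} [Field K] [Algebra k K]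
  [IsFF k K]

/-- orders at the poles of `x` -/
theorem ord_pole (P : Place k K) {a b : k} {x y : K}
    (hxy : y ^ 2 = x ^ 3 + algebraMap k K a * x + algebraMap k K b) (hx : P.ord x < 0) :
    y ≠ 0 ∧ 2 * P.ord y = 3 * P.ord x := by
  have hx0 : x ≠ 0 := by
    rintro rfl
    rw [P.ord_zero] at hx
    exact lt_irrefl _ hx
  have h3 : P.ord (x ^ 3) = 3 * P.ord x := by rw [P.ord_pow]; norm_num
  have hz : algebraMap k K a * x + algebraMap k K b = 0 ∨
      P.ord x ≤ P.ord (algebraMap k K a * x + algebraMap k K b) := by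
    by_cases ha : algebraMap k K a = 0
    · rw [ha, zero_mul, zero_add]
      by_cases hb : b = 0
      · left; rw [hb, map_zero]
      · right; rw [P.ord_const hb]; exact hx.le
    · have ha' : a ≠ 0 := by rintro rfl; exact ha (map_zero _)
      by_cases hb : b = 0
      · right
        rw [hb, map_zero, add_zero, P.ord_mul ha hx0, P.ord_const ha', zero_add]
      · by_cases hs : algebraMap k K a * x + algebraMap k K b = 0
        · exact Or.inl hs
        · right
          have hb' : algebraMap k K b ≠ 0 := by rwa [Ne, map_eq_zero]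
          have h := P.ord_add (mul_ne_zero ha hx0) hb' hs
          rw [P.ord_mul ha hx0, P.ord_const ha', P.ord_const hb, zero_add] at h
          rwa [min_eq_left hx.le] at h
  have key : y ^ 2 ≠ 0 ∧ P.ord (y ^ 2) = 3 * P.ord x := by
    rw [hxy, add_assoc]
    rcases hz with hz | hz
    · rw [hz, add_zero]
      exact ⟨pow_ne_zero 3 hx0, h3⟩
    · by_cases hs : algebraMap k K a * x + algebraMap k K b = 0
      · rw [hs, add_zero]
        exact ⟨pow_ne_zero 3 hx0, h3⟩
      · have h := P.ord_add_eq (pow_ne_zero 3 hx0) hs (by rw [h3]; omega)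
        rw [h3] at h
        exact h
  have hy : y ≠ 0 := by
    rintro rfl
    exact key.1 (by simp)
  refine ⟨hy, ?_⟩
  have h := key.2
  rw [P.ord_pow] at h
  exact_mod_cast h

theorem reg_y (P : Place k K) {a b : k} {x y : K}
    (hxy : y ^ 2 = x ^ 3 + algebraMap k K a * x + algebraMap k K b) (hx : P.Reg x) : P.Reg y := by
  by_cases hy : y = 0
  · exact Or.inl hy
  have h1 : P.Reg (y ^ 2) := by
    rw [hxy, pow_succ, pow_two]
    exact P.reg_add (P.reg_add (P.reg_mul (P.reg_mul hx hx) hx) (P.reg_mul (P.reg_const a) hx))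
      (P.reg_const b)
  right
  have h2 := (P.reg_iff (pow_ne_zero 2 hy)).1 h1
  rw [P.ord_pow] at h2
  push_cast at h2
  omega

/-- the invariant differential has no poles and no zeros -/
theorem ord_om (P : Place k K) {D : Derivation k K K} (hD : D ≠ 0) {a b : k}
    (hab : 4 * a ^ 3 + 27 * b ^ 2 ≠ 0) {x y : K}
    (hxy : y ^ 2 = x ^ 3 + algebraMap k K a * x + algebraMap k K b) (hy : y ≠ 0)
    (hDx : D x ≠ 0) : -|vo P D| ≤ P.ord (D x / y) := by
  have hcK : CharZero K := charZero_of_injective_algebraMap (algebraMap k K).injective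
  have hv := neg_abs_le (vo P D)
  have hx0 : x ≠ 0 := by
    rintro rfl
    exact hDx (map_zero _)
  rw [P.ord_div hDx hy]
  rcases lt_or_ge (P.ord x) 0 with hx | hx
  · obtain ⟨-, h1⟩ := ord_pole P hxy hx
    have h2 := (ord_der P hD hx.ne).2
    omega
  · have hxr : P.Reg x := Or.inr hx
    have hyr := reg_y P hxy hxr
    have hy' := (P.reg_iff hy).1 hyr
    rcases hy'.eq_or_lt with h0 | h0
    · have h2 := Pool.Agent.Y141.FG.ord_der_ge P hD hDx
      split_ifs at h2 <;> omega
    · -- a point of order two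
      have hDy := (ord_der P hD h0.ne').2
      have hDy0 := (ord_der P hD h0.ne').1
      have h1 : 2 * y * D y = (3 * x ^ 2 + algebraMap k K a) * D x := by
        have h := congrArg D hxy
        rw [D.leibniz_pow, map_add, map_add, D.leibniz_pow, D.leibniz, D.map_algebraMap,
          D.map_algebraMap, smul_zero, add_zero, add_zero] at h
        simp only [nsmul_eq_mul, smul_eq_mul, Nat.cast_ofNat, Nat.reduceSub, pow_one] at h
        linear_combination h
      have hf' : P.Reg (3 * x ^ 2 + algebraMap k K a) := by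
        refine P.reg_add (P.reg_mul ?_ ?_) (P.reg_const a)
        · have : (3 : K) = algebraMap k K 3 := by rw [map_ofNat]
          rw [this]; exact P.reg_const _
        · rw [pow_two]; exact P.reg_mul hxr hxr
      have hyred : P.red y = 0 := (P.red_eq_zero_iff hyr).2 (Or.inr h0)
      have hbez : (27 * algebraMap k K b - 18 * algebraMap k K a * x) * (y * y) +
          (6 * algebraMap k K a * (x * x) - 9 * algebraMap k K b * x + 4 * (algebraMap k K a) ^ 2) *
            (3 * x ^ 2 + algebraMap k K a) = algebraMap k K (4 * a ^ 3 + 27 * b ^ 2) := by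
        simp only [map_add, map_mul, map_pow, map_ofNat]
        have : y * y = x ^ 3 + algebraMap k K a * x + algebraMap k K b := by rw [← hxy]; ring
        rw [this]
        ring
      have hc : ∀ t : k, ∀ m : ℕ, P.Reg ((m : K) * algebraMap k K t) := fun t m => by
        have : ((m : K) * algebraMap k K t) = algebraMap k K (m * t) := by
          rw [map_mul, map_natCast]
        rw [this]; exact P.reg_const _
      have hr1 : P.Reg (27 * algebraMap k K b - 18 * algebraMap k K a * x) := by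
        rw [sub_eq_add_neg]
        refine P.reg_add ?_ (P.reg_neg (P.reg_mul ?_ hxr))
        · exact_mod_cast hc b 27
        · exact_mod_cast hc a 18
      have hr2 : P.Reg (6 * algebraMap k K a * (x * x) - 9 * algebraMap k K b * x +
          4 * (algebraMap k K a) ^ 2) := by
        refine P.reg_add ?_ ?_
        · rw [sub_eq_add_neg]
          refine P.reg_add (P.reg_mul ?_ (P.reg_mul hxr hxr)) (P.reg_neg (P.reg_mul ?_ hxr))
          · exact_mod_cast hc a 6
          · exact_mod_cast hc b 9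
        · have h := hc (a ^ 2) 4
          rw [map_pow] at h
          exact_mod_cast h
      have hred := congrArg P.red hbez
      rw [P.red_add (P.reg_mul hr1 (P.reg_mul hyr hyr)) (P.reg_mul hr2 hf'),
        P.red_mul hr1 (P.reg_mul hyr hyr), P.red_mul hyr hyr, hyred, mul_zero, mul_zero,
        zero_add, P.red_mul hr2 hf'] at hred
      have hne : P.red (3 * x ^ 2 + algebraMap k K a) ≠ 0 := by
        intro h
        rw [h, mul_zero] at hred
        have h3 := (P.red_eq_zero_iff (P.reg_const (4 * a ^ 3 + 27 * b ^ 2))).1 hred.symm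
        rcases h3 with h3 | h3
        · rw [map_eq_zero] at h3
          exact hab h3
        · rw [P.ord_const hab] at h3
          exact lt_irrefl _ h3
      have h4 : 3 * x ^ 2 + algebraMap k K a ≠ 0 ∧ P.ord (3 * x ^ 2 + algebraMap k K a) = 0 := by
        have h5 : ¬ (3 * x ^ 2 + algebraMap k K a = 0 ∨ 0 < P.ord (3 * x ^ 2 + algebraMap k K a)) :=
          fun h => hne ((P.red_eq_zero_iff hf').2 h)
        push Not at h5
        refine ⟨h5.1, le_antisymm h5.2 ((P.reg_iff h5.1).1 hf')⟩
      have h5 := congrArg P.ord h1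
      have h2K : (2 : K) ≠ 0 := two_ne_zero
      rw [P.ord_mul (mul_ne_zero h2K hy) hDy0, P.ord_mul h2K hy, P.ord_mul h4.1 hDx, h4.2] at h5
      have h6 : P.ord (2 : K) = 0 := by
        have : (2 : K) = algebraMap k K 2 := by rw [map_ofNat]
        rw [this, P.ord_const two_ne_zero]
      omega

end one

variable {I : Type} {𝒰 : Ultrafilter I} {k F : Type} [Field k] [IsAlgClosed k] [CharZero k]
  [Field F] {L : I → Type} [∀ i, Field (L i)] [∀ i, Algebra k (L i)] [∀ i, Algebra F (L i)]
  [∀ i, IsFF k (L i)] {Δ : Dt 𝒰 k F L}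

/-- elements with bounded poles are small -/
theorem mem_E_of_bd {z : UL 𝒰 L} {e : Om k L → ℤ} (he : Bd 𝒰 Δ.χ e)
    (h : ∀ᶠ ω in EV 𝒰 k L, max (-(oo z ω)) 0 ≤ e ω) : z ∈ Δ.E := by
  obtain ⟨B, hB⟩ := he
  rw [Δ.mem_E]
  refine ⟨B, ?_⟩
  filter_upwards [hB, ev_iff.1 h] with i h1 h2
  exact Pool.Agent.Y141.FG.hgt_le_of (rep z i) (fun P => e ⟨i, P⟩) (fun P => h2 P) h1

/-- **The small field is algebraically closed** in the ultraproduct. -/
theorem mem_E_of_alg {z : UL 𝒰 L} (hz : IsAlgebraic Δ.E z) : z ∈ Δ.E := by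
  by_cases hz0 : z = 0
  · rw [hz0]; exact zero_mem _
  set p := minpoly Δ.E z with hp
  have hint : IsIntegral Δ.E z := hz.isIntegral
  have hmon : p.Monic := minpoly.monic hint
  have h1 : z ^ p.natDegree = ∑ j ∈ Finset.range p.natDegree, -((p.coeff j : UL 𝒰 L) * z ^ j) := by
    have h := minpoly.aeval Δ.E z
    rw [← hp, Polynomial.aeval_eq_sum_range, Finset.sum_range_succ, hmon.coeff_natDegree,
      one_smul] at h
    rw [Finset.sum_neg_distrib]
    have h2 : ∑ j ∈ Finset.range p.natDegree, p.coeff j • z ^ j =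
        ∑ j ∈ Finset.range p.natDegree, ((p.coeff j : UL 𝒰 L) * z ^ j) :=
      Finset.sum_congr rfl fun j _ => rfl
    rw [h2] at h
    linear_combination h
  refine mem_E_of_bd (Δ := Δ) (e := fun ω => ∑ j ∈ Finset.range p.natDegree,
    |oo ((p.coeff j : Δ.E) : UL 𝒰 L) ω|) (Bd.sum Δ.nonneg _ fun j _ => Δ.bd_E (p.coeff j).2) ?_
  have h3 : ∀ᶠ ω in EV 𝒰 k L, ∀ j ∈ Finset.range p.natDegree, ((p.coeff j : Δ.E) : UL 𝒰 L) ≠ 0 →
      oo (-((p.coeff j : UL 𝒰 L) * z ^ j)) ω = oo ((p.coeff j : Δ.E) : UL 𝒰 L) ω + j * oo z ω := by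
    rw [Finset.eventually_all]
    intro j _
    by_cases hj : ((p.coeff j : Δ.E) : UL 𝒰 L) = 0
    · exact Eventually.of_forall fun ω h => absurd hj h
    · filter_upwards [oo_neg ((p.coeff j : UL 𝒰 L) * z ^ j), oo_mul hj (pow_ne_zero j hz0),
        oo_pow z j] with ω e1 e2 e3 _
      rw [e1, e2, e3]
  filter_upwards [oo_sum (Finset.range p.natDegree) (fun j => -((p.coeff j : UL 𝒰 L) * z ^ j)),
    h3, oo_pow z p.natDegree] with ω h4 h5 h6
  have hnn : 0 ≤ ∑ j ∈ Finset.range p.natDegree, |oo ((p.coeff j : Δ.E) : UL 𝒰 L) ω| :=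
    Finset.sum_nonneg fun j _ => abs_nonneg _
  refine max_le ?_ hnn
  by_contra hcon
  push Not at hcon
  have hneg : oo z ω < 0 := by linarith
  have h7 := h4 (p.natDegree * oo z ω + 1) (fun j hj => by
    by_cases hj0 : ((p.coeff j : Δ.E) : UL 𝒰 L) = 0
    · left
      rw [hj0, zero_mul, neg_zero]
    · right
      rw [h5 j hj hj0]
      have h8 := Finset.single_le_sum (f := fun j => |oo ((p.coeff j : Δ.E) : UL 𝒰 L) ω|)
        (fun j _ => abs_nonneg _) hj
      have h9 := neg_abs_le (oo ((p.coeff j : Δ.E) : UL 𝒰 L) ω)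
      have h10 : (j : ℤ) + 1 ≤ p.natDegree := by exact_mod_cast Finset.mem_range.1 hj
      have h11 : (p.natDegree : ℤ) * oo z ω ≤ (j + 1) * oo z ω :=
        mul_le_mul_of_nonpos_right h10 hneg.le
      linarith)
  rw [← h1] at h7
  rcases h7 with h7 | h7
  · exact pow_ne_zero _ hz0 h7
  · rw [h6] at h7
    linarith

/-- the value of the invariant differential is small -/
theorem om_mem_E {a b : k} (hab : 4 * a ^ 3 + 27 * b ^ 2 ≠ 0) {x y : UL 𝒰 L}
    (hxy : y ^ 2 = x ^ 3 + algebraMap k (UL 𝒰 L) a * x + algebraMap k (UL 𝒰 L) b) (hy : y ≠ 0) :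
    uD Δ.D x / y ∈ Δ.E := by
  have h1 : uD Δ.D x / y = um 𝒰 (fun i => Δ.D i (rep x i) / rep y i) := by
    rw [um_div, um_rep]
    rfl
  refine mem_E_of_bd (Δ := Δ) Δ.vo_bd ?_
  rw [ev_iff]
  have h2 : ∀ᶠ i in (𝒰 : Filter I), rep y i ^ 2 = rep x i ^ 3 + algebraMap k (L i) a * rep x i +
      algebraMap k (L i) b := by
    rw [← um_eq, um_pow, um_rep, hxy, um_add, um_add, um_pow, um_mul, um_rep]
    rfl
  filter_upwards [h2, rep_ne hy, Δ.D_ne, rep_um (𝒰 := 𝒰) (fun i => Δ.D i (rep x i) / rep y i)]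
    with i h3 h4 h5 h6 P
  have h7 : oo (uD Δ.D x / y) (⟨i, P⟩ : Om k L) = P.ord (Δ.D i (rep x i) / rep y i) := by
    unfold oo
    rw [h1]
    simp only
    rw [h6]
  rw [h7]
  refine max_le ?_ (abs_nonneg _)
  by_cases h8 : Δ.D i (rep x i) = 0
  · rw [h8, zero_div, P.ord_zero, neg_zero]
    exact abs_nonneg _
  · have := ord_om P h5 hab h3 h4 h8
    linarith

theorem y_mem_E {a b : k} {x y : UL 𝒰 L} [Algebra k F] [∀ i, IsScalarTower k F (L i)]
    (hxy : y ^ 2 = x ^ 3 + algebraMap k (UL 𝒰 L) a * x + algebraMap k (UL 𝒰 L) b)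
    (hx : x ∈ Δ.E) : y ∈ Δ.E := by
  refine Δ.hE.root y 2 (by norm_num) ?_
  have hk : ∀ t : k, algebraMap k (UL 𝒰 L) t ∈ Δ.E := fun t =>
    Δ.K0_le ⟨fun _ => t, rfl⟩
  rw [hxy]
  exact add_mem (add_mem (pow_mem hx 3) (mul_mem (hk a) hx)) (hk b)

end Pool.Agent.K1H80.EC
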