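import Mathlib

/-!
# Dimensions of spaces of polynomials
-/

set_option autoImplicit false
set_option linter.unusedSectionVars false

namespace Pool.Agent.K1H80.EC

open MvPolynomial Module

variable {E : Type*} [Field E]

/-- the dimension of the space of polynomials of degree at most `N` -/
theorem finrank_rTD (m N : ℕ) :
    finrank E (restrictTotalDegree (Fin m) E N) = (N + m).choose m := by
  classical
  set T := (Finset.univ : Finset (Option (Fin m))).finsuppAntidiag N with hT
  have hcard : T.card = (N + m).choose m := by
    rw [hT, Finset.card_finsuppAntidiag_nat_eq_choose]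
    rw [Finset.card_univ, Fintype.card_option, Fintype.card_fin]
    rw [show m + 1 + N - 1 = N + m by omega, Nat.choose_symm_add]
  have hb := MvPolynomial.basisRestrictSupport E {n : Fin m →₀ ℕ | (n.sum fun _ e => e) ≤ N}
  have hfr : finrank E (restrictTotalDegree (Fin m) E N) =
      Nat.card {n : Fin m →₀ ℕ | (n.sum fun _ e => e) ≤ N} :=
    Module.finrank_eq_nat_card_basis hb
  have hsum : ∀ s : Fin m →₀ ℕ, (s.sum fun _ e => e) = ∑ i, s i := fun s =>
    Finsupp.sum_fintype _ _ (fun _ => rfl)
  have hfin : Finite {n : Fin m →₀ ℕ | (n.sum fun _ e => e) ≤ N} := by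
    apply Finite.of_injective
      (fun s : {n : Fin m →₀ ℕ | (n.sum fun _ e => e) ≤ N} =>
        (⟨s.1.optionElim (N - (s.1.sum fun _ e => e)), by
        rw [hT, Finset.mem_finsuppAntidiag]
        refine ⟨?_, Finset.subset_univ _⟩
        rw [Fintype.sum_option]
        simp only [Finsupp.optionElim_apply_none, Finsupp.optionElim_apply_some]
        have h1 := hsum s.1
        have h2 : (s.1.sum fun _ e => e) ≤ N := s.2
        omega⟩ : T))
    intro s s' h
    apply Subtype.ext
    ext i
    have h1 := congrArg (fun t : T => (t : Option (Fin m) →₀ ℕ) (some i)) h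
    simpa using h1
  rw [hfr, ← hcard, ← Fintype.card_coe, ← Nat.card_eq_fintype_card]
  apply le_antisymm
  · apply Nat.card_le_card_of_injective
      (fun s : {n : Fin m →₀ ℕ | (n.sum fun _ e => e) ≤ N} =>
        (⟨s.1.optionElim (N - (s.1.sum fun _ e => e)), by
        rw [hT, Finset.mem_finsuppAntidiag]
        refine ⟨?_, Finset.subset_univ _⟩
        rw [Fintype.sum_option]
        simp only [Finsupp.optionElim_apply_none, Finsupp.optionElim_apply_some]
        have h1 := hsum s.1
        have h2 : (s.1.sum fun _ e => e) ≤ N := s.2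
        omega⟩ : T))
    intro s s' h
    apply Subtype.ext
    ext i
    have h1 := congrArg (fun t : T => (t : Option (Fin m) →₀ ℕ) (some i)) h
    simpa using h1
  · have hmem : ∀ t : T, (t : Option (Fin m) →₀ ℕ) none + ∑ i : Fin m,
        (t : Option (Fin m) →₀ ℕ) (some i) = N := by
      intro t
      have h1 := (Finset.mem_finsuppAntidiag.1 t.2).1
      rw [Fintype.sum_option] at h1
      exact h1
    apply Nat.card_le_card_of_injective
      (fun t : T => (⟨(t : Option (Fin m) →₀ ℕ).some, by
        change ((t : Option (Fin m) →₀ ℕ).some.sum fun _ e => e) ≤ N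
        rw [hsum]
        simp only [Finsupp.some_apply]
        have := hmem t
        omega⟩ : {n : Fin m →₀ ℕ | (n.sum fun _ e => e) ≤ N}))
    intro t t' h
    have h0 : ∀ i, (t : Option (Fin m) →₀ ℕ) (some i) = (t' : Option (Fin m) →₀ ℕ) (some i) := by
      intro i
      have h1 := congrArg (fun s : {n : Fin m →₀ ℕ | (n.sum fun _ e => e) ≤ N} => s.1 i) h
      simpa using h1
    apply Subtype.ext
    ext o
    rcases o with _ | i
    · have h1 := hmem t
      have h2 := hmem t'
      simp only [h0] at h1
      omega
    · exact h0 i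

/-- multiplication by a polynomial of degree `a` -/
theorem finrank_mul_rTD {m : ℕ} (f : MvPolynomial (Fin m) E) (hf : f ≠ 0) (N : ℕ) :
    finrank E ((restrictTotalDegree (Fin m) E N).map (LinearMap.mulLeft E f)) =
      (N + m).choose m := by
  rw [← finrank_rTD (E := E) m N]
  have hinj : Function.Injective (LinearMap.mulLeft E f) := by
    intro x y h
    exact mul_left_cancel₀ hf h
  exact (LinearEquiv.finrank_eq (Submodule.equivMapOfInjective _ hinj _)).symm

theorem totalDegree_mul_eq {m : ℕ} {f g : MvPolynomial (Fin m) E} (hf : f ≠ 0) (hg : g ≠ 0) :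
    (f * g).totalDegree = f.totalDegree + g.totalDegree :=
  totalDegree_mul_of_isDomain hf hg

/-- the ideal generated by two polynomials -/
noncomputable def two {m : ℕ} (f g : MvPolynomial (Fin m) E) : Submodule E (MvPolynomial (Fin m) E) :=
  (Ideal.span {f, g}).restrictScalars E

/-- **Second differences.** -/
theorem codim {m : ℕ} {f g : MvPolynomial (Fin m) E} (hf : f ≠ 0) (hg : g ≠ 0)
    (hfg : IsRelPrime f g) {a b N : ℕ} (ha : f.totalDegree = a) (hb : g.totalDegree = b)
    (hN : a + b ≤ N) :
    (N - a + m).choose m + (N - b + m).choose m ≤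
      finrank E (restrictTotalDegree (Fin m) E N ⊓ two f g : Submodule E (MvPolynomial (Fin m) E)) +
        (N - a - b + m).choose m := by
  set A := (restrictTotalDegree (Fin m) E (N - a)).map (LinearMap.mulLeft E f) with hA
  set B := (restrictTotalDegree (Fin m) E (N - b)).map (LinearMap.mulLeft E g) with hB
  have h1 : finrank E A = (N - a + m).choose m := finrank_mul_rTD f hf _
  have h2 : finrank E B = (N - b + m).choose m := finrank_mul_rTD g hg _
  have h3 : (A ⊔ B : Submodule E _) ≤ restrictTotalDegree (Fin m) E N ⊓ two f g := by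
    rw [sup_le_iff]
    constructor
    · rintro _ ⟨u, hu, rfl⟩
      have hu' : u.totalDegree ≤ N - a := (mem_restrictTotalDegree _ _ _).1 hu
      refine ⟨?_, ?_⟩
      · change f * u ∈ restrictTotalDegree (Fin m) E N
        rw [mem_restrictTotalDegree]
        refine (totalDegree_mul _ _).trans ?_
        omega
      · change f * u ∈ Ideal.span {f, g}
        exact Ideal.mul_mem_right _ _ (Ideal.subset_span (by simp))
    · rintro _ ⟨u, hu, rfl⟩
      have hu' : u.totalDegree ≤ N - b := (mem_restrictTotalDegree _ _ _).1 hu
      refine ⟨?_, ?_⟩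
      · change g * u ∈ restrictTotalDegree (Fin m) E N
        rw [mem_restrictTotalDegree]
        refine (totalDegree_mul _ _).trans ?_
        omega
      · change g * u ∈ Ideal.span {f, g}
        exact Ideal.mul_mem_right _ _ (Ideal.subset_span (by simp))
  have h4 : (A ⊓ B : Submodule E _) ≤
      (restrictTotalDegree (Fin m) E (N - a - b)).map (LinearMap.mulLeft E (f * g)) := by
    rintro h ⟨⟨u, hu, hu2⟩, ⟨v, hv, hv2⟩⟩
    have hu' : u.totalDegree ≤ N - a := (mem_restrictTotalDegree _ _ _).1 hu
    have e1 : f * u = h := hu2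
    have e2 : g * v = h := hv2
    by_cases h0 : h = 0
    · rw [h0]; exact zero_mem _
    have hdvd : g ∣ f * u := by rw [e1, ← e2]; exact dvd_mul_right _ _
    have hdvd2 : g ∣ u := hfg.symm.dvd_of_dvd_mul_left hdvd
    obtain ⟨w, hw⟩ := hdvd2
    have hu0 : u ≠ 0 := by rintro rfl; rw [mul_zero] at e1; exact h0 e1.symm
    have hw0 : w ≠ 0 := by rintro rfl; rw [mul_zero] at hw; exact hu0 hw
    refine ⟨w, ?_, ?_⟩
    · change w ∈ restrictTotalDegree (Fin m) E (N - a - b)
      rw [mem_restrictTotalDegree]
      have := totalDegree_mul_eq hg hw0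
      rw [← hw] at this
      omega
    · change f * g * w = h
      rw [mul_assoc, ← hw, e1]
  have hfA : FiniteDimensional E A := by rw [hA]; infer_instance
  have hfB : FiniteDimensional E B := by rw [hB]; infer_instance
  have h5 := Submodule.finrank_sup_add_finrank_inf_eq A B
  have hfin : FiniteDimensional E (restrictTotalDegree (Fin m) E N) := inferInstance
  have hfin2 : FiniteDimensional E
      (restrictTotalDegree (Fin m) E N ⊓ two f g : Submodule E (MvPolynomial (Fin m) E)) :=
    Submodule.finiteDimensional_of_le inf_le_left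
  have h6 := Submodule.finrank_mono h3
  have h7 := (Submodule.finrank_mono h4).trans
    (le_of_eq (finrank_mul_rTD (f * g) (mul_ne_zero hf hg) _))
  omega

/-- the rank of a map that vanishes on a subspace of polynomials -/
theorem rank_le {V W : Type*} [AddCommGroup V] [Module E V] [AddCommGroup W] [Module E W]
    (A C : Submodule E V) [FiniteDimensional E A] (φ : V →ₗ[E] W)
    (hC : ∀ v ∈ A ⊓ C, φ v = 0) :
    finrank E (A.map φ) + finrank E (A ⊓ C : Submodule E V) ≤ finrank E A := by
  have h1 := LinearMap.finrank_range_add_finrank_ker (φ.domRestrict A)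
  have h2 : LinearMap.range (φ.domRestrict A) = A.map φ := LinearMap.range_domRestrict _ _
  have h3 : finrank E (A ⊓ C : Submodule E V) ≤ finrank E (LinearMap.ker (φ.domRestrict A)) := by
    have h4 : (A ⊓ C : Submodule E V) ≤ (LinearMap.ker (φ.domRestrict A)).map A.subtype := by
      intro v hv
      refine ⟨⟨v, hv.1⟩, ?_, rfl⟩
      have : φ v = 0 := hC v hv
      exact this
    have h5 : finrank E ((LinearMap.ker (φ.domRestrict A)).map A.subtype) =
        finrank E (LinearMap.ker (φ.domRestrict A)) :=
      (LinearEquiv.finrank_eq (Submodule.equivMapOfInjective A.subtype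
        A.injective_subtype _)).symm
    rw [← h5]
    exact Submodule.finrank_mono h4
  rw [h2] at h1
  omega

section chain

variable {V : Type*} [AddCommGroup V] [Module E V]

/-- the first `i` iterates lie in `b` -/
def Q (D : V → V) (b : Submodule E V) (i : ℕ) (v : V) : Prop := ∀ j < i, D^[j] v ∈ b

theorem Q_succ {D : V → V} {b : Submodule E V} {i : ℕ} {v : V} :
    Q D b (i + 1) v ↔ v ∈ b ∧ Q D b i (D v) := by
  constructor
  · intro h
    refine ⟨h 0 (Nat.succ_pos i), fun j hj => ?_⟩
    have := h (j + 1) (by omega)
    rwa [Function.iterate_succ_apply] at this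
  · rintro ⟨h1, h2⟩ j hj
    rcases j with _ | j
    · exact h1
    · rw [Function.iterate_succ_apply]
      exact h2 j (by omega)

theorem Q_mono {D : V → V} {b : Submodule E V} {i : ℕ} {v : V} (h : Q D b (i + 1) v) :
    Q D b i v := fun j hj => h j (by omega)

variable {D : V → V} {b : Submodule E V} (dE : E → E) (hadd : ∀ v w, D (v + w) = D v + D w)
  (hsmul : ∀ (e : E) (v : V), D (e • v) = dE e • v + e • D v)

include hadd in
theorem D_zero : D 0 = 0 := by
  have h := hadd 0 0
  rw [add_zero] at h
  exact left_eq_add.1 h

include hadd in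
theorem iter_add (i : ℕ) (v w : V) : D^[i] (v + w) = D^[i] v + D^[i] w := by
  induction i generalizing v w with
  | zero => rfl
  | succ i ih => rw [Function.iterate_succ_apply, hadd, ih]; rfl

include hadd in
theorem Q_add {i : ℕ} {v w : V} (hv : Q D b i v) (hw : Q D b i w) : Q D b i (v + w) := by
  intro j hj
  rw [iter_add hadd]
  exact b.add_mem (hv j hj) (hw j hj)

include hadd hsmul in
theorem Q_smul {i : ℕ} {v : V} (hv : Q D b i v) (e : E) : Q D b i (e • v) := by
  induction i generalizing v e with
  | zero => intro j hj; omega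
  | succ i ih =>
    have h1 := Q_succ.1 hv
    rw [Q_succ]
    refine ⟨b.smul_mem e h1.1, ?_⟩
    rw [hsmul]
    exact Q_add hadd (ih (Q_mono hv) _) (ih h1.2 _)

include hadd hsmul in
theorem iter_smul {i : ℕ} {v : V} (hv : Q D b i v) (e : E) :
    D^[i] (e • v) - e • D^[i] v ∈ b := by
  induction i generalizing v e with
  | zero => simp
  | succ i ih =>
    rw [Function.iterate_succ_apply, Function.iterate_succ_apply, hsmul, iter_add hadd,
      add_sub_assoc]
    refine b.add_mem ?_ (ih (Q_succ.1 hv).2 e)
    exact Q_smul dE hadd hsmul hv (dE e) i (Nat.lt_succ_self i)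

/-- the subspace of the vectors whose first `i` iterates lie in `b` -/
def BB (D : V → V) (b : Submodule E V) (dE : E → E) (hadd : ∀ v w, D (v + w) = D v + D w)
    (hsmul : ∀ (e : E) (v : V), D (e • v) = dE e • v + e • D v) (i : ℕ) : Submodule E V where
  carrier := {v | Q D b i v}
  add_mem' := fun hv hw => Q_add hadd hv hw
  zero_mem' := by
    intro j _
    have h0 := D_zero hadd
    have : D^[j] 0 = 0 := by
      induction j with
      | zero => rfl
      | succ j ih => rw [Function.iterate_succ_apply, h0]; exact ih (by omega)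
    rw [this]
    exact b.zero_mem
  smul_mem' := fun e _ hv => Q_smul dE hadd hsmul hv e

include hadd hsmul in
/-- **The chain lemma.** -/
theorem chain (V0 : Submodule E V) [FiniteDimensional E V0] (W : ℕ → Submodule E V)
    (hfin : ∀ i, FiniteDimensional E ((W i).map b.mkQ))
    (hW : ∀ i, ∀ v ∈ V0, D^[i] v ∈ W i) (l : ℕ)
    (hl : ∑ i ∈ Finset.range l, finrank E ((W i).map b.mkQ) < finrank E V0) :
    ∃ v ∈ V0, v ≠ 0 ∧ ∀ i < l, D^[i] v ∈ b := by
  have key : ∀ i, finrank E V0 ≤ finrank E (V0 ⊓ BB D b dE hadd hsmul i : Submodule E V) +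
      ∑ j ∈ Finset.range i, finrank E ((W j).map b.mkQ) := by
    intro i
    induction i with
    | zero =>
      have : (V0 ⊓ BB D b dE hadd hsmul 0 : Submodule E V) = V0 := by
        refine inf_eq_left.2 fun v _ => ?_
        intro j hj
        omega
      rw [this]
      simp
    | succ i ih =>
      rw [Finset.sum_range_succ]
      have hfd : FiniteDimensional E (V0 ⊓ BB D b dE hadd hsmul i : Submodule E V) :=
        Submodule.finiteDimensional_of_le inf_le_left
      -- the linear map
      let φ : (V0 ⊓ BB D b dE hadd hsmul i : Submodule E V) →ₗ[E] V ⧸ b :=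
        { toFun := fun v => b.mkQ (D^[i] (v : V))
          map_add' := fun v w => by
            rw [← map_add]
            congr 1
            exact iter_add hadd i v w
          map_smul' := fun e v => by
            rw [RingHom.id_apply, ← map_smul, ← sub_eq_zero, ← map_sub, Submodule.mkQ_apply,
              Submodule.Quotient.mk_eq_zero]
            exact iter_smul dE hadd hsmul v.2.2 e }
      have h1 := LinearMap.finrank_range_add_finrank_ker φ
      have h2 : finrank E (LinearMap.range φ) ≤ finrank E ((W i).map b.mkQ) := by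
        refine Submodule.finrank_mono ?_
        rintro _ ⟨v, rfl⟩
        exact ⟨_, hW i v v.2.1, rfl⟩
      have h3 : finrank E (LinearMap.ker φ) ≤
          finrank E (V0 ⊓ BB D b dE hadd hsmul (i + 1) : Submodule E V) := by
        have hfd2 : FiniteDimensional E (V0 ⊓ BB D b dE hadd hsmul (i + 1) : Submodule E V) :=
          Submodule.finiteDimensional_of_le inf_le_left
        have h4 : (LinearMap.ker φ).map (Submodule.subtype _) ≤
            (V0 ⊓ BB D b dE hadd hsmul (i + 1) : Submodule E V) := by
          rintro _ ⟨v, hv, rfl⟩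
          refine ⟨v.2.1, ?_⟩
          intro j hj
          rcases Nat.lt_succ_iff_lt_or_eq.1 hj with h | h
          · exact v.2.2 j h
          · subst h
            have h5 : b.mkQ (D^[j] (v : V)) = 0 := hv
            rwa [Submodule.mkQ_apply, Submodule.Quotient.mk_eq_zero] at h5
        have h5 := Submodule.finrank_mono h4
        have h6 : finrank E ((LinearMap.ker φ).map (Submodule.subtype _)) =
            finrank E (LinearMap.ker φ) :=
          (LinearEquiv.finrank_eq (Submodule.equivMapOfInjective _
            (Submodule.injective_subtype _) _)).symm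
        rw [← h6]
        exact h5
      omega
  have h1 := key l
  have h2 : 0 < finrank E (V0 ⊓ BB D b dE hadd hsmul l : Submodule E V) := by omega
  have h3 : (V0 ⊓ BB D b dE hadd hsmul l : Submodule E V) ≠ ⊥ := by
    intro h
    rw [h, finrank_bot] at h2
    exact lt_irrefl _ h2
  obtain ⟨v, hv, hv0⟩ := (Submodule.ne_bot_iff _).1 h3
  exact ⟨v, hv.1, hv0, hv.2⟩

end chain

end Pool.Agent.K1H80.EC
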