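import Pool.Agent.K1H80.EC.Ni

/-!
# Points of non-isogenous constant elliptic curves are independent
-/

set_option autoImplicit false
set_option linter.unusedSectionVars false

namespace Pool.Agent.K1H80.EC

open WeierstrassCurve WeierstrassCurve.Affine
open scoped Classical

/-- algebraicity over a larger field -/
theorem isAlg_mono {E M U : Type*} [Field E] [Field M] [Field U] [Algebra E M] [Algebra M U]
    [Algebra E U] [IsScalarTower E M U] {S : Set U} (hS : ∀ s ∈ S, ∃ m : M, algebraMap M U m = s)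
    {z : U} (hz : IsAlgebraic (Algebra.adjoin E S) z) : IsAlgebraic M z := by
  have hle : Algebra.adjoin E S ≤ (IsScalarTower.toAlgHom E M U).range := by
    rw [Algebra.adjoin_le_iff]
    intro s hs
    obtain ⟨m, hm⟩ := hS s hs
    exact ⟨m, hm⟩
  let f : Algebra.adjoin E S →+* M :=
    ((AlgEquiv.ofInjective (IsScalarTower.toAlgHom E M U)
      (algebraMap M U).injective).symm : _ →+* M).comp
      (Subalgebra.inclusion hle : Algebra.adjoin E S →+* (IsScalarTower.toAlgHom E M U).range)
  have hf : ∀ r, algebraMap M U (f r) = r := by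
    intro r
    have h1 := (AlgEquiv.ofInjective (IsScalarTower.toAlgHom E M U)
      (algebraMap M U).injective).apply_symm_apply (Subalgebra.inclusion hle r)
    exact congrArg Subtype.val h1
  obtain ⟨p, hp0, hp⟩ := hz
  refine ⟨p.map f, ?_, ?_⟩
  · rw [Ne, Polynomial.map_eq_zero_iff]
    · exact hp0
    · intro r r' h
      have := congrArg (algebraMap M U) h
      rw [hf, hf] at this
      exact Subtype.ext this
  · rw [Polynomial.aeval_def, Polynomial.eval₂_map]
    have h2 : (algebraMap M U).comp f = algebraMap (Algebra.adjoin E S) U := RingHom.ext hf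
    rw [h2]
    exact hp

theorem alg_congr {E U : Type*} [Field E] [Field U] [Algebra E U] {z : U} {S S' : Set U}
    (h : S = S') (hz : IsAlgebraic (Algebra.adjoin E S) z) :
    IsAlgebraic (Algebra.adjoin E S') z := by
  subst h
  exact hz

theorem isAlg_empty {E U : Type*} [Field E] [Field U] [Algebra E U] {z : U}
    (hz : IsAlgebraic (Algebra.adjoin E (∅ : Set U)) z) : IsAlgebraic E z :=
  isAlg_mono (M := E) (fun s hs => absurd hs (Set.notMem_empty s)) hz

variable {k E U : Type} [Field k] [CharZero k] [Field E] [Field U] [Algebra k E] [Algebra k U]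
  [Algebra E U] [IsScalarTower k E U]

/-- the field generated by some of the points -/
theorem alg_of_pts {ι : Type} {a b : ι → k} {x y : ι → U}
    (hxy : ∀ i, y i ^ 2 = x i ^ 3 + algebraMap k U (a i) * x i + algebraMap k U (b i))
    (s : Set ι) {z : U}
    (hz : IsAlgebraic (IntermediateField.adjoin E (x '' s ∪ y '' s)) z) :
    IsAlgebraic (Algebra.adjoin E (x '' s)) z := by
  rw [IntermediateField.isAlgebraic_adjoin_iff] at hz
  refine hz.adjoin_of_forall_isAlgebraic ?_
  rintro w ⟨(⟨c, hc, rfl⟩ | ⟨c, hc, rfl⟩), hw⟩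
  · exact absurd ⟨c, hc, rfl⟩ hw
  · refine IsAlgebraic.of_pow (n := 2) (by norm_num) ?_
    rw [hxy]
    have h1 : ∀ e : k, IsAlgebraic (Algebra.adjoin E (x '' s)) (algebraMap k U e) := fun e => by
      rw [IsScalarTower.algebraMap_apply k E U]
      exact isAlgebraic_algebraMap (algebraMap E (Algebra.adjoin E (x '' s)) (algebraMap k E e))
    have h2 : IsAlgebraic (Algebra.adjoin E (x '' s)) (x c) :=
      isAlgebraic_algebraMap (⟨x c, Algebra.subset_adjoin ⟨c, hc, rfl⟩⟩ : Algebra.adjoin E (x '' s))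
    exact ((h2.pow 3).add ((h1 _).mul h2)).add (h1 _)

/-- **Points of pairwise non-isogenous constant elliptic curves are independent.** -/
theorem indep (D : Derivation k U U)
    (hE : ∀ e : E, ∃ e' : E, D (algebraMap E U e) = algebraMap E U e')
    (hC : ∀ z : U, D z = 0 → IsAlgebraic E z) {ι : Type} {a b : ι → k}
    (hni : ∀ i j, i ≠ j → NonIsogenous (a i) (b i) (a j) (b j)) {x y : ι → U}
    (hxy : ∀ i, y i ^ 2 = x i ^ 3 + algebraMap k U (a i) * x i + algebraMap k U (b i))
    {u : ι → E} (hu : ∀ i, D (x i) = algebraMap E U (u i) * y i)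
    (hx : ∀ i, Transcendental E (x i)) : AlgebraicIndependent E x := by
  have hcE : CharZero E := charZero_of_injective_algebraMap (algebraMap k E).injective
  have hcU : CharZero U := charZero_of_injective_algebraMap (algebraMap k U).injective
  refine algebraicIndependent_of_finite_type' (algebraMap E U).injective fun t ht hind i hi => ?_
  by_contra hcon
  have halg : IsAlgebraic (Algebra.adjoin E (x '' t)) (x i) := by
    by_contra h; exact hcon h
  obtain ⟨s, ⟨hst, hs⟩, hmin⟩ := exists_minimal_of_wellFoundedLT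
    (fun s : Finset ι => (s : Set ι) ⊆ t ∧ IsAlgebraic (Algebra.adjoin E (x '' s)) (x i))
    ⟨ht.toFinset, by simp, alg_congr (by rw [Set.Finite.coe_toFinset]) halg⟩
  have hne : s.Nonempty := by
    by_contra h
    rw [Finset.not_nonempty_iff_eq_empty] at h
    subst h
    apply hx i
    exact isAlg_empty (alg_congr (by simp) hs)
  obtain ⟨c, hc⟩ := hne
  set s' := s.erase c with hs'
  have hs't : (s' : Set ι) ⊆ t := fun j hj => hst (Finset.mem_of_mem_erase hj)
  have hnot : ¬ IsAlgebraic (Algebra.adjoin E (x '' s')) (x i) := by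
    intro h
    have h1 := hmin ⟨hs't, h⟩ (Finset.erase_subset c s)
    exact (Finset.notMem_erase c s) (h1 hc)
  obtain ⟨E', hE'⟩ : ∃ E' : IntermediateField E U,
    E' = IntermediateField.adjoin E (x '' s' ∪ y '' s') := ⟨_, rfl⟩
  have hst' : IsScalarTower k E' U := IsScalarTower.of_algebraMap_eq fun _ => rfl
  have hxE' : ∀ j ∈ s', x j ∈ E' := fun j hj => by
    rw [hE']
    exact IntermediateField.subset_adjoin E _ (Or.inl ⟨j, hj, rfl⟩)
  have hyE' : ∀ j ∈ s', y j ∈ E' := fun j hj => by
    rw [hE']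
    exact IntermediateField.subset_adjoin E _ (Or.inr ⟨j, hj, rfl⟩)
  have hkE' : ∀ e : k, algebraMap k U e ∈ E' := fun e => by
    rw [IsScalarTower.algebraMap_apply k E U]
    exact E'.algebraMap_mem _
  have hy0 : ∀ j, y j ≠ 0 := fun j => trans_ne_zero (hx j) (hxy j)
  have hDE' : ∀ z ∈ E', D z ∈ E' := by
    rw [hE']
    refine der_adjoin D hE _ ?_
    rw [← hE']
    rintro _ (⟨j, hj, rfl⟩ | ⟨j, hj, rfl⟩)
    · rw [hu]
      exact mul_mem (E'.algebraMap_mem _) (hyE' j hj)
    · have h2 : (2 : U) ≠ 0 := two_ne_zero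
      have h1 : D (y j) = algebraMap E U (u j) * (3 * x j ^ 2 + algebraMap k U (a j)) / 2 := by
        rw [← der_y D (hxy j) (hy0 j) (hu j)]; field_simp
      rw [h1]
      refine div_mem (mul_mem (E'.algebraMap_mem _) (add_mem (mul_mem ?_ (pow_mem (hxE' j hj) 2))
        (hkE' _))) ?_
      · exact_mod_cast natCast_mem E' 3
      · exact_mod_cast natCast_mem E' 2
  have key : ∀ z : U, IsAlgebraic E' z → IsAlgebraic (Algebra.adjoin E (x '' s')) z :=
    fun z hz => by
      rw [hE'] at hz
      exact alg_of_pts hxy _ hz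
  refine pair (k := k) (E := E') (U := U) D (fun e => ⟨⟨_, hDE' _ e.2⟩, rfl⟩)
    (fun z hz => ?_) (hni c i ?_) (hxy c) (hxy i)
    (u := ⟨_, E'.algebraMap_mem (u c)⟩) (u' := ⟨_, E'.algebraMap_mem (u i)⟩) (hu c) (hu i)
    (fun h => ?_) (fun h => hnot (key _ h)) ?_
  · exact (hC z hz).extendScalars (algebraMap E E').injective
  · rintro rfl
    exact hi (hst hc)
  · have h1 := key _ h
    have h2 := hind.transcendental_adjoin (s := {j : t | (j : ι) ∈ s'}) (i := ⟨c, hst hc⟩)
      (fun h => (Finset.notMem_erase c s) h)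
    apply h2
    refine alg_congr ?_ h1
    ext w
    constructor
    · rintro ⟨j, hj, rfl⟩
      exact ⟨⟨j, hs't hj⟩, hj, rfl⟩
    · rintro ⟨⟨j, hj'⟩, hj, rfl⟩
      exact ⟨j, hj, rfl⟩
  · have hst2 : IsScalarTower E (IntermediateField.adjoin E' {x c, y c}) U :=
      IsScalarTower.of_algebraMap_eq fun _ => rfl
    refine isAlg_mono (E := E) (M := IntermediateField.adjoin E' {x c, y c}) ?_ hs
    rintro _ ⟨j, hj, rfl⟩
    by_cases hjc : j = c
    · subst hjc
      exact ⟨⟨x j, IntermediateField.subset_adjoin E' _ (by simp)⟩, rfl⟩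
    · exact ⟨⟨x j, (IntermediateField.adjoin E' {x c, y c}).algebraMap_mem
        ⟨x j, hxE' j (Finset.mem_erase.2 ⟨hjc, hj⟩)⟩⟩, rfl⟩

end Pool.Agent.K1H80.EC
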