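import Pool.Agent.K1H80.EC.Tr

/-!
# Points of non-isogenous constant elliptic curves: pairs
-/

set_option autoImplicit false
set_option linter.unusedSectionVars false

namespace Pool.Agent.K1H80.EC

open WeierstrassCurve WeierstrassCurve.Affine
open scoped Classical

/-- The elliptic curves `y² = x³ + a x + b` and `y² = x³ + a' x + b'` over `k` are not isogenous:
over no extension field `M` of `k` is there a rational map `(X, Y)` from the first to the second
curve which is not constant. (Here `(x, y)` is a generic point of the first curve over `M`, the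
coordinates `X`, `Y` of a rational map are elements of its function field `M(x, y)`, and the map is
constant if `X` is algebraic over `M`.) -/
def NonIsogenous {k : Type} [Field k] (a b a' b' : k) : Prop :=
  ∀ (M Ω : Type) [Field M] [Field Ω] [Algebra k M] [Algebra k Ω] [Algebra M Ω]
    [IsScalarTower k M Ω] (x y : Ω), Transcendental M x →
    y ^ 2 = x ^ 3 + algebraMap k Ω a * x + algebraMap k Ω b →
    ∀ X ∈ IntermediateField.adjoin M {x, y}, ∀ Y ∈ IntermediateField.adjoin M {x, y},
      Y ^ 2 = X ^ 3 + algebraMap k Ω a' * X + algebraMap k Ω b' → IsAlgebraic M X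

/-- a derivation that preserves `E` and maps the elements of `S` to `E(S)` preserves `E(S)` -/
theorem der_adjoin {k E U : Type*} [Field k] [Field E] [Field U] [Algebra k U] [Algebra E U]
    (D : Derivation k U U) (hE : ∀ e : E, ∃ e' : E, D (algebraMap E U e) = algebraMap E U e')
    (S : Set U) (hS : ∀ s ∈ S, D s ∈ IntermediateField.adjoin E S) :
    ∀ z ∈ IntermediateField.adjoin E S, D z ∈ IntermediateField.adjoin E S := by
  intro z hz
  induction hz using IntermediateField.adjoin_induction with
  | mem x hx => exact hS x hx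
  | algebraMap x =>
    obtain ⟨e', he'⟩ := hE x
    rw [he']
    exact (IntermediateField.adjoin E S).algebraMap_mem e'
  | add x y _ _ h1 h2 =>
    rw [map_add]
    exact add_mem h1 h2
  | mul x y hx hy h1 h2 =>
    rw [D.leibniz, smul_eq_mul, smul_eq_mul]
    exact add_mem (mul_mem hx h2) (mul_mem hy h1)
  | inv x hx h1 =>
    rw [D.leibniz_inv, smul_eq_mul]
    exact mul_mem (neg_mem (pow_mem (inv_mem hx) 2)) h1

/-- restriction of a derivation to an invariant subfield -/
noncomputable def resD {k E U : Type*} [Field k] [Field E] [Field U] [Algebra k E] [Algebra k U]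
    [Algebra E U] [IsScalarTower k E U] (D : Derivation k U U) (M : IntermediateField E U)
    (h : ∀ z ∈ M, D z ∈ M) : Derivation k M M :=
  Derivation.mk'
    { toFun := fun z => ⟨D z, h z z.2⟩
      map_add' := fun x y => Subtype.ext (by simp)
      map_smul' := fun c x => Subtype.ext (by
        have : ((c • x : M) : U) = c • (x : U) := rfl
        simp [this]) }
    (fun x y => Subtype.ext (by
      change D ((x : U) * y) = (x : U) * D y + (y : U) * D x
      rw [D.leibniz, smul_eq_mul, smul_eq_mul]))

theorem coe_resD {k E U : Type*} [Field k] [Field E] [Field U] [Algebra k E] [Algebra k U]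
    [Algebra E U] [IsScalarTower k E U] (D : Derivation k U U) (M : IntermediateField E U)
    (h : ∀ z ∈ M, D z ∈ M) (z : M) : ((resD D M h z : M) : U) = D z := rfl

variable {k E U : Type} [Field k] [CharZero k] [Field E] [Field U] [Algebra k E] [Algebra k U]
  [Algebra E U] [IsScalarTower k E U]

/-- the derivative of `y` -/
theorem der_y {a b : k} (D : Derivation k U U) {x y u : U}
    (hxy : y ^ 2 = x ^ 3 + algebraMap k U a * x + algebraMap k U b) (hy : y ≠ 0)
    (hu : D x = u * y) : 2 * D y = u * (3 * x ^ 2 + algebraMap k U a) := by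
  have h4 := congrArg D hxy
  rw [pow_two, pow_three, D.leibniz, map_add, map_add, D.leibniz, D.leibniz, D.leibniz,
    D.map_algebraMap, D.map_algebraMap] at h4
  simp only [smul_eq_mul, mul_zero, add_zero] at h4
  rw [hu] at h4
  apply mul_left_cancel₀ hy
  linear_combination h4

theorem trans_ne_zero {a b : k} {x y : U} (hx : Transcendental E x)
    (hxy : y ^ 2 = x ^ 3 + algebraMap k U a * x + algebraMap k U b) : y ≠ 0 := by
  rintro rfl
  apply hx
  refine ⟨Polynomial.X ^ 3 + Polynomial.C (algebraMap k E a) * Polynomial.X +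
    Polynomial.C (algebraMap k E b), ?_, ?_⟩
  · intro h
    have := congrArg (fun p => Polynomial.coeff p 3) h
    simp at this
  · simp only [map_add, map_mul, map_pow, Polynomial.aeval_X, Polynomial.aeval_C]
    rw [← IsScalarTower.algebraMap_apply k E U, ← IsScalarTower.algebraMap_apply k E U, ← hxy]
    ring

/-- **Pairs.** -/
theorem pair (D : Derivation k U U)
    (hE : ∀ e : E, ∃ e' : E, D (algebraMap E U e) = algebraMap E U e')
    (hC : ∀ z : U, D z = 0 → IsAlgebraic E z) {a b a' b' : k} (hni : NonIsogenous a b a' b')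
    {x y x' y' : U} (hxy : y ^ 2 = x ^ 3 + algebraMap k U a * x + algebraMap k U b)
    (hxy' : y' ^ 2 = x' ^ 3 + algebraMap k U a' * x' + algebraMap k U b') {u u' : E}
    (hu : D x = algebraMap E U u * y) (hu' : D x' = algebraMap E U u' * y')
    (hx : Transcendental E x) (hx' : Transcendental E x')
    (halg : IsAlgebraic (IntermediateField.adjoin E {x, y}) x') : False := by
  have hcE : CharZero E := charZero_of_injective_algebraMap (algebraMap k E).injective
  have hcU : CharZero U := charZero_of_injective_algebraMap (algebraMap k U).injective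
  have hy : y ≠ 0 := trans_ne_zero hx hxy
  have hy' : y' ≠ 0 := trans_ne_zero hx' hxy'
  have h2 : (2 : U) ≠ 0 := two_ne_zero
  have hDy := der_y D hxy hy hu
  have hDy' := der_y D hxy' hy' hu'
  have hDyd : D y = algebraMap E U u * (3 * x ^ 2 + algebraMap k U a) / 2 := by
    rw [← hDy]; field_simp
  have hDyd' : D y' = algebraMap E U u' * (3 * x' ^ 2 + algebraMap k U a') / 2 := by
    rw [← hDy']; field_simp
  set M : IntermediateField E U := IntermediateField.adjoin E {x, y} with hM
  have hxM : x ∈ M := IntermediateField.subset_adjoin E _ (by simp)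
  have hyM : y ∈ M := IntermediateField.subset_adjoin E _ (by simp)
  have hkM : ∀ c : k, algebraMap k U c ∈ M := fun c => by
    rw [IsScalarTower.algebraMap_apply k E U]
    exact M.algebraMap_mem _
  have hst : IsScalarTower k M U := IsScalarTower.of_algebraMap_eq fun _ => rfl
  have h3M : ∀ n : ℕ, (n : U) ∈ M := fun n => natCast_mem M n
  have hDM : ∀ z ∈ M, D z ∈ M := by
    refine der_adjoin D hE _ ?_
    rintro s hs
    rcases hs with rfl | hs
    · rw [hu]
      exact mul_mem (M.algebraMap_mem _) hyM
    · rw [Set.mem_singleton_iff.1 hs, hDyd]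
      refine div_mem (mul_mem (M.algebraMap_mem _) (add_mem (mul_mem ?_ (pow_mem hxM 2))
        (hkM a))) ?_
      · exact_mod_cast h3M 3
      · exact_mod_cast h3M 2
  let DM := resD D M hDM
  let N := AlgebraicClosure M
  have hcN : CharZero N := charZero_of_injective_algebraMap (algebraMap M N).injective
  obtain ⟨DN, hDN⟩ := exists_ext (k := k) (R := M) (K := N) (algebraMap M N).injective
    ((Algebra.linearMap M N).compDer DM)
  have hDN' : ∀ m : M, DN (algebraMap M N m) = algebraMap M N (DM m) := hDN
  -- the embedding of `M(x', y')`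
  let M' : IntermediateField M U := IntermediateField.adjoin M {x', y'}
  have hstE : IsScalarTower E M' U := IsScalarTower.of_algebraMap_eq fun _ => rfl
  have hstk : IsScalarTower k M' U := IsScalarTower.of_algebraMap_eq fun _ => rfl
  have hx'M : x' ∈ M' := IntermediateField.subset_adjoin M _ (by simp)
  have hy'M : y' ∈ M' := IntermediateField.subset_adjoin M _ (by simp)
  have hkM' : ∀ c : k, algebraMap k U c ∈ M' := fun c => by
    exact M'.algebraMap_mem ⟨_, hkM c⟩
  have hDM' : ∀ z ∈ M', D z ∈ M' := by
    refine der_adjoin D (fun e => ⟨DM e, rfl⟩) _ ?_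
    rintro s hs
    have hE' : ∀ e : E, algebraMap E U e ∈ M' := fun e =>
      M'.algebraMap_mem ⟨_, M.algebraMap_mem e⟩
    rcases hs with rfl | hs
    · rw [hu']
      exact mul_mem (hE' _) hy'M
    · rw [Set.mem_singleton_iff.1 hs, hDyd']
      refine div_mem (mul_mem (hE' _) (add_mem (mul_mem ?_ (pow_mem hx'M 2))
        (hkM' a'))) ?_
      · exact_mod_cast natCast_mem M' 3
      · exact_mod_cast natCast_mem M' 2
  have hintx : IsIntegral M x' := halg.isIntegral
  have hinty : IsIntegral M y' := by
    refine IsIntegral.of_pow (n := 2) (by norm_num) ?_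
    rw [hxy']
    have h1 : IsIntegral M (algebraMap k U a') := isIntegral_algebraMap (x := (⟨_, hkM a'⟩ : M))
    have h3 : IsIntegral M (algebraMap k U b') := isIntegral_algebraMap (x := (⟨_, hkM b'⟩ : M))
    exact ((hintx.pow 3).add (h1.mul hintx)).add h3
  have halgM' : Algebra.IsAlgebraic M M' := by
    refine IntermediateField.isAlgebraic_adjoin ?_
    rintro s hs
    rcases hs with rfl | hs
    · exact hintx
    · rw [Set.mem_singleton_iff.1 hs]; exact hinty
  let j : M' →ₐ[M] N := IsAlgClosed.lift
  have hkj : ∀ c : k, j ⟨_, hkM' c⟩ = algebraMap k N c := by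
    intro c
    have h1 : (⟨_, hkM' c⟩ : M') = algebraMap M M' ⟨_, hkM c⟩ := rfl
    rw [h1, j.commutes, IsScalarTower.algebraMap_apply k M N]
    rfl
  let DM' : Derivation k M' M' := resD (E := M) (k := k) D M' hDM'
  have hcomm : ∀ z : M', DN (j z) = j (DM' z) := by
    intro z
    refine (isD_left DN (j : M' →+* N)).eq_of_alg (E := M) (isD_right DM' (j : M' →+* N))
      (fun m => ?_) (Algebra.IsAlgebraic.isAlgebraic z)
    change DN (j (algebraMap M M' m)) = j (DM' (algebraMap M M' m))
    rw [j.commutes, hDN']
    have h1 : DM' (algebraMap M M' m) = algebraMap M M' (DM m) := Subtype.ext rfl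
    rw [h1, j.commutes]
  set X1 : N := j ⟨x', hx'M⟩ with hX1
  set Y1 : N := j ⟨y', hy'M⟩ with hY1
  have e1 : Y1 ^ 2 = X1 ^ 3 + algebraMap k N a' * X1 + algebraMap k N b' := by
    rw [hX1, hY1, ← hkj, ← hkj, ← map_pow, ← map_pow, ← map_mul, ← map_add, ← map_add]
    congr 1
    exact Subtype.ext hxy'
  have hY10 : Y1 ≠ 0 := by
    rw [hY1, Ne, map_eq_zero]
    intro h
    exact hy' (congrArg Subtype.val h)
  have hDX1 : DN X1 = algebraMap M N (algebraMap E M u') * Y1 := by
    rw [hX1, hcomm, hY1, ← j.commutes, ← map_mul]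
    congr 1
    exact Subtype.ext hu'
  have hns : ((sw a' b')⁄N).Nonsingular X1 Y1 := by
    rw [sw_ns]
    exact ⟨e1, Or.inr (mul_ne_zero two_ne_zero hY10)⟩
  have hom : om DN (Affine.Point.some X1 Y1 hns) = algebraMap M N (algebraMap E M u') := by
    change DN X1 / Y1 = _
    rw [hDX1, mul_div_cancel_right₀ _ hY10]
  -- the trace
  have hgal : IsGalois M N := inferInstance
  obtain ⟨Q, c, n, hn, hQ, hc, hQr⟩ := trace (M := M) DN (fun m => ⟨DM m, hDN' m⟩)
    (Affine.Point.some X1 Y1 hns) ⟨_, hom⟩
  -- transcendence
  have hX1t : Transcendental E X1 := by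
    intro h
    apply hx'
    have h1 : IsAlgebraic E (⟨x', hx'M⟩ : M') := by
      have h3 : X1 = (j.restrictScalars E) ⟨x', hx'M⟩ := rfl
      rw [h3] at h
      exact (isAlgebraic_algHom_iff (j.restrictScalars E) j.injective).1 h
    have h4 : x' = (IsScalarTower.toAlgHom E M' U) ⟨x', hx'M⟩ := rfl
    rw [h4]
    exact h1.algHom _
  obtain ⟨dd, -, hdd⟩ := exists_der_ext (k := E) (E := E) (K := N) 0 (fun _ : Unit => X1)
    ((algebraicIndependent_unique_type_iff).2 hX1t) (fun _ => 1)
  have hdd1 : dd X1 = 1 := hdd ()
  let d1 : Derivation k N N := dd.restrictScalars k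
  have hd1 : ∀ z : N, IsAlgebraic E z → d1 z = 0 := by
    intro z hz
    exact (isD_right dd (RingHom.id N)).alg_zero (E := E) (fun e => dd.map_algebraMap e) hz
  have hQ0 : om d1 Q = 0 := by
    rcases Q with _ | ⟨X, Y, h⟩
    · rfl
    · apply om_of_const
      apply hd1
      obtain ⟨⟨X', hX'⟩, ⟨Y', hY'⟩⟩ := hQr X Y h rfl
      have hXY := (sw_ns.1 h).1
      rw [← hX', ← hY', IsScalarTower.algebraMap_apply k M N, IsScalarTower.algebraMap_apply k M N,
        ← map_pow, ← map_pow, ← map_mul, ← map_add, ← map_add] at hXY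
      have hXY' := congrArg (algebraMap M U) ((algebraMap M N).injective hXY)
      rw [map_pow, map_add, map_add, map_pow, map_mul, ← IsScalarTower.algebraMap_apply k M U,
        ← IsScalarTower.algebraMap_apply k M U] at hXY'
      have h3 : IsAlgebraic E (algebraMap M U X') := by
        refine hni E U x y hx hxy _ X'.2 _ Y'.2 hXY'
      have h4 : IsAlgebraic E X' := (isAlgebraic_algebraMap_iff (algebraMap M U).injective).1 h3
      rw [← hX']
      exact h4.algebraMap
  have hc0 : om d1 c = 0 := by
    rcases c with _ | ⟨X, Y, h⟩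
    · rfl
    · apply om_of_const
      apply hd1
      refine const_alg (k := k) (E := E) (K := M) (N := N) DM DN hDN' ?_
        (Algebra.IsAlgebraic.isAlgebraic X) (const_of_om hc).1
      intro z hz
      have h3 : D (z : U) = 0 := congrArg Subtype.val hz
      exact (isAlgebraic_algebraMap_iff (algebraMap M U).injective).1 (hC _ h3)
  have hP0 : om d1 (Affine.Point.some X1 Y1 hns) = 0 := by
    have h3 := hQ0
    rw [hQ, om_add, om_nsmul, hc0, add_zero] at h3
    rcases mul_eq_zero.1 h3 with h4 | h4
    · exfalso
      have : n = 0 := by exact_mod_cast h4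
      omega
    · exact h4
  have h5 := (const_of_om hP0).1
  have h6 : d1 X1 = 1 := hdd1
  rw [h6] at h5
  exact one_ne_zero h5

end Pool.Agent.K1H80.EC
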