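import Pool.Agent.K1H80.EC.Hil

set_option autoImplicit false
set_option linter.unusedSectionVars false

namespace Pool.Agent.K1H80.EC

open MvPolynomial Module

/-- a difference of binomial coefficients -/
def hh (m a N : ℕ) : ℤ := ((N + m).choose m : ℤ) - ((N - a + m).choose m : ℤ)

theorem hh_succ {m a N : ℕ} (ha : a ≤ N) : hh m a N ≤ hh m a (N + 1) := by
  unfold hh
  rcases m with _ | m
  · simp
  · have h1 : (N + 1 + (m + 1)).choose (m + 1) = (N + (m + 1)).choose m +
        (N + (m + 1)).choose (m + 1) := by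
      rw [show N + 1 + (m + 1) = (N + (m + 1)) + 1 by omega, Nat.choose_succ_succ]
    have h2 : (N + 1 - a + (m + 1)).choose (m + 1) = (N - a + (m + 1)).choose m +
        (N - a + (m + 1)).choose (m + 1) := by
      rw [show N + 1 - a + (m + 1) = (N - a + (m + 1)) + 1 by omega, Nat.choose_succ_succ]
    have h3 : (N - a + (m + 1)).choose m ≤ (N + (m + 1)).choose m :=
      Nat.choose_le_choose m (by omega)
    rw [h1, h2]
    push_cast
    have h4 : ((N - a + (m + 1)).choose m : ℤ) ≤ ((N + (m + 1)).choose m : ℤ) := by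
      exact_mod_cast h3
    linarith

theorem hh_mono {m a N N' : ℕ} (ha : a ≤ N) (h : N ≤ N') : hh m a N ≤ hh m a N' := by
  obtain ⟨r, rfl⟩ := Nat.exists_eq_add_of_le h
  clear h
  induction r with
  | zero => exact le_refl _
  | succ r ih => exact ih.trans (hh_succ (by omega))

theorem hh_nonneg (m a N : ℕ) : 0 ≤ hh m a N := by
  unfold hh
  have h3 : (N - a + m).choose m ≤ (N + m).choose m :=
    Nat.choose_le_choose m (by omega)
  have h4 : ((N - a + m).choose m : ℤ) ≤ ((N + m).choose m : ℤ) := by
    exact_mod_cast h3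
  linarith

theorem hh_le (m M a : ℕ) : hh (m + 1) a (M + a) ≤ a * (M + a + m).choose m := by
  unfold hh
  induction a with
  | zero => simp
  | succ a ih =>
    have h1 : (M + (a + 1) + (m + 1)).choose (m + 1) = (M + a + (m + 1)).choose m +
        (M + a + (m + 1)).choose (m + 1) := by
      rw [show M + (a + 1) + (m + 1) = (M + a + (m + 1)) + 1 by omega, Nat.choose_succ_succ]
    have h2 : M + (a + 1) - (a + 1) = M := by omega
    have h3 : M + a - a = M := by omega
    rw [h3] at ih
    rw [h1, h2]
    have h4 : (M + a + m).choose m ≤ (M + (a + 1) + m).choose m :=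
      Nat.choose_le_choose m (by omega)
    have h5 : ((M + a + m).choose m : ℤ) ≤ ((M + (a + 1) + m).choose m : ℤ) := by
      exact_mod_cast h4
    have h6 : M + a + (m + 1) = M + (a + 1) + m := by omega
    push_cast
    rw [h6] at ih ⊢
    have h7 : (a : ℤ) * ((M + a + m).choose m : ℤ) ≤ a * ((M + (a + 1) + m).choose m : ℤ) :=
      mul_le_mul_of_nonneg_left h5 (by positivity)
    linarith

/-- **The choice of the parameters.** -/
theorem numeric (m a b c J q : ℕ) (hb : b ≤ c) (ha0 : m = 0 → a = 0) :
    ∃ N0, 1 ≤ N0 ∧ a + b ≤ N0 ∧ ∀ d : ℕ → ℕ,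
      (∀ N, a + b ≤ N → (d N : ℤ) ≤ J * (hh m a N - hh m a (N - b))) →
      ∑ i ∈ Finset.range (q * N0), d (N0 + c * i) < (N0 + m).choose m := by
  -- the choice
  obtain ⟨N0, h1, h2, h3⟩ : ∃ N0, 1 ≤ N0 ∧ a + b + c ≤ N0 ∧
      (J : ℤ) * hh m a (N0 + c * (q * N0)) < (N0 + m).choose m := by
    rcases m with _ | m
    · refine ⟨1 + (a + b + c), by omega, by omega, ?_⟩
      rw [ha0 rfl]
      unfold hh
      simp
    · set N0 := J * a * (1 + c * q + m) ^ m * (m + 1).factorial + 1 + (a + b + c) with hN0
      refine ⟨N0, by omega, by omega, ?_⟩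
      have h4 := hh_le m (N0 + c * (q * N0) - a) a
      have h5 : N0 + c * (q * N0) - a + a = N0 + c * (q * N0) := by omega
      rw [h5] at h4
      have h6 : (N0 + c * (q * N0) + m).choose m ≤ ((1 + c * q + m) * N0) ^ m := by
        refine (Nat.choose_le_pow _ _).trans (Nat.pow_le_pow_left ?_ m)
        have h7 : 1 ≤ N0 := by omega
        nlinarith
      have h7 : (N0 + 1) ^ (m + 1) ≤ (m + 1).factorial * (N0 + (m + 1)).choose (m + 1) := by
        have := Nat.pow_le_choose (α := ℚ) (m + 1) (N0 + (m + 1))
        rw [show N0 + (m + 1) + 1 - (m + 1) = N0 + 1 by omega,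
          div_le_iff₀ (by positivity)] at this
        rw [mul_comm]
        exact_mod_cast this
      have h8 : J * a * (1 + c * q + m) ^ m * (m + 1).factorial < N0 := by omega
      have h9 : (m + 1).factorial * (J * (a * ((1 + c * q + m) * N0) ^ m)) <
          (m + 1).factorial * (N0 + (m + 1)).choose (m + 1) := by
        refine lt_of_lt_of_le ?_ h7
        calc (m + 1).factorial * (J * (a * ((1 + c * q + m) * N0) ^ m))
            = (J * a * (1 + c * q + m) ^ m * (m + 1).factorial) * N0 ^ m := by
              rw [mul_pow]; ring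
          _ < N0 * N0 ^ m := Nat.mul_lt_mul_of_pos_right h8 (by positivity)
          _ = N0 ^ (m + 1) := by rw [pow_succ, mul_comm]
          _ ≤ (N0 + 1) ^ (m + 1) := Nat.pow_le_pow_left (by omega) _
      have h10 : J * (a * ((1 + c * q + m) * N0) ^ m) < (N0 + (m + 1)).choose (m + 1) :=
        lt_of_mul_lt_mul_left h9 (Nat.zero_le _)
      have h11 : (J : ℤ) * (a * ((((1 + c * q + m) * N0) ^ m : ℕ) : ℤ)) <
          ((N0 + (m + 1)).choose (m + 1) : ℕ) := by exact_mod_cast h10
      refine lt_of_le_of_lt ?_ h11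
      refine mul_le_mul_of_nonneg_left (h4.trans ?_) (by positivity)
      refine mul_le_mul_of_nonneg_left ?_ (by positivity)
      exact_mod_cast h6
  refine ⟨N0, h1, by omega, fun d hd => ?_⟩
  have h4 : ((∑ i ∈ Finset.range (q * N0), d (N0 + c * i) : ℕ) : ℤ) ≤
      J * (hh m a (N0 - c + c * (q * N0)) - hh m a (N0 - c)) := by
    push_cast
    calc ∑ i ∈ Finset.range (q * N0), (d (N0 + c * i) : ℤ)
        ≤ ∑ i ∈ Finset.range (q * N0), (J : ℤ) * (hh m a (N0 - c + c * (i + 1)) -
            hh m a (N0 - c + c * i)) := by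
          refine Finset.sum_le_sum fun i _ => ?_
          refine (hd _ (by omega)).trans ?_
          refine mul_le_mul_of_nonneg_left ?_ (by positivity)
          have e1 : N0 + c * i = N0 - c + c * (i + 1) := by
            rw [mul_add, mul_one]
            omega
          rw [e1]
          have : hh m a (N0 - c + c * i) ≤ hh m a (N0 - c + c * (i + 1) - b) := by
            apply hh_mono
            · omega
            · rw [mul_add, mul_one]
              omega
          linarith
      _ = J * (hh m a (N0 - c + c * (q * N0)) - hh m a (N0 - c)) := by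
          rw [← Finset.mul_sum, Finset.sum_range_sub (fun i => hh m a (N0 - c + c * i))]
          simp
  have h5 : hh m a (N0 - c + c * (q * N0)) ≤ hh m a (N0 + c * (q * N0)) :=
    hh_mono (by omega) (by omega)
  have h6 := hh_nonneg m a (N0 - c)
  have h7 : ((∑ i ∈ Finset.range (q * N0), d (N0 + c * i) : ℕ) : ℤ) < ((N0 + m).choose m : ℤ) := by
    refine lt_of_le_of_lt h4 (lt_of_le_of_lt ?_ h3)
    exact mul_le_mul_of_nonneg_left (by linarith) (by positivity)
  exact_mod_cast h7

end Pool.Agent.K1H80.EC
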