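import Mathlib

/-!
# The invariant differential of `y² = x³ + a x + b` is additive

For a derivation `D` of a field `K` over `k ∋ a, b` and a point `P = (x, y)` of the elliptic curve
`y² = x³ + a x + b` over `K` put `ω(P) = D x / y`. This is a homomorphism from the group of the points
over `K` to `K`.
-/

set_option autoImplicit false
set_option linter.unusedSectionVars false

namespace Pool.Agent.K1H80.EC

open WeierstrassCurve WeierstrassCurve.Affine
open scoped Classical

universe u v

/-- the curve `y² = x³ + a x + b` -/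
def sw {k : Type u} [Field k] (a b : k) : WeierstrassCurve k := ⟨0, 0, 0, a, b⟩

variable {k : Type u} [Field k] {a b : k} {K : Type v} [Field K] [Algebra k K]

theorem sw_eq {x y : K} : ((sw a b)⁄K).Equation x y ↔
    y ^ 2 = x ^ 3 + algebraMap k K a * x + algebraMap k K b := by
  rw [Affine.equation_iff]
  simp [sw, WeierstrassCurve.baseChange, WeierstrassCurve.map]

theorem sw_ns {x y : K} : ((sw a b)⁄K).Nonsingular x y ↔
    (y ^ 2 = x ^ 3 + algebraMap k K a * x + algebraMap k K b) ∧
      (3 * x ^ 2 + algebraMap k K a ≠ 0 ∨ 2 * y ≠ 0) := by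
  rw [Affine.nonsingular_iff, sw_eq]
  refine and_congr_right fun h => ?_
  simp only [sw, WeierstrassCurve.baseChange, WeierstrassCurve.map, map_zero, zero_mul, mul_zero,
    add_zero, sub_zero]
  refine or_congr ?_ ?_
  · exact ⟨fun h h' => h h'.symm, fun h h' => h h'.symm⟩
  · refine not_congr ⟨fun h => ?_, fun h => ?_⟩
    · linear_combination h
    · linear_combination h

theorem sw_negY (x y : K) : ((sw a b)⁄K).negY x y = -y := by
  simp [sw, WeierstrassCurve.baseChange, WeierstrassCurve.map, Affine.negY]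

theorem sw_addX (x₁ x₂ l : K) : ((sw a b)⁄K).addX x₁ x₂ l = l ^ 2 - x₁ - x₂ := by
  simp [sw, WeierstrassCurve.baseChange, WeierstrassCurve.map, Affine.addX]

theorem sw_addY (x₁ x₂ y₁ l : K) : ((sw a b)⁄K).addY x₁ x₂ y₁ l =
    -(l * (l ^ 2 - x₁ - x₂ - x₁) + y₁) := by
  rw [Affine.addY, sw_negY, Affine.negAddY, sw_addX]

variable [CharZero k]

/-- `u` is the value of the invariant differential at the point `P` moved by the derivation `D` -/
def IsOm (D : Derivation k K K) : ((sw a b)⁄K).Point → K → Prop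
  | 0, u => u = 0
  | .some x y _, u => D x = u * y ∧ 2 * D y = u * (3 * x ^ 2 + algebraMap k K a)

/-- the value of the invariant differential -/
noncomputable def om (D : Derivation k K K) : ((sw a b)⁄K).Point → K
  | 0 => 0
  | .some x y _ => D x / y

variable {D : Derivation k K K}

theorem isOm_zero : IsOm D (0 : ((sw a b)⁄K).Point) 0 := rfl

theorem isOm_some {x y : K} {h : ((sw a b)⁄K).Nonsingular x y} {u : K} :
    IsOm D (Affine.Point.some x y h) u ↔
      D x = u * y ∧ 2 * D y = u * (3 * x ^ 2 + algebraMap k K a) := Iff.rfl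

theorem isOm_om (P : ((sw a b)⁄K).Point) : IsOm D P (om D P) := by
  have h2 : (2 : K) ≠ 0 := by
    have : CharZero K := charZero_of_injective_algebraMap (algebraMap k K).injective
    exact two_ne_zero
  rcases P with _ | ⟨x, y, h⟩
  · rfl
  · obtain ⟨h1, h3⟩ := sw_ns.1 h
    have h4 := congrArg D h1
    rw [pow_two, pow_three, D.leibniz, map_add, map_add, D.leibniz, D.leibniz, D.leibniz,
      D.map_algebraMap, D.map_algebraMap] at h4
    simp only [smul_eq_mul, mul_zero, add_zero] at h4
    rw [isOm_some]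
    change D x = D x / y * y ∧ 2 * D y = D x / y * _
    by_cases hy : y = 0
    · have h5 : D x * (3 * x ^ 2 + algebraMap k K a) = 0 := by
        rw [hy] at h4
        simp only [zero_mul, map_zero] at h4
        linear_combination -h4
      have h6 : D x = 0 := by
        rcases mul_eq_zero.1 h5 with h6 | h6
        · exact h6
        · rw [hy, mul_zero] at h3
          exact absurd h6 (h3.resolve_right (fun h => h rfl))
      rw [h6, hy]
      simp
    · refine ⟨(div_mul_cancel₀ _ hy).symm, ?_⟩
      field_simp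
      linear_combination h4

theorem IsOm.unique {P : ((sw a b)⁄K).Point} {u v : K} (hu : IsOm D P u) (hv : IsOm D P v) :
    u = v := by
  have : CharZero K := charZero_of_injective_algebraMap (algebraMap k K).injective
  rcases P with _ | ⟨x, y, h⟩
  · exact (show u = 0 from hu).trans (show v = 0 from hv).symm
  · rw [isOm_some] at hu hv
    obtain ⟨h1, h3⟩ := sw_ns.1 h
    by_cases hy : y = 0
    · have h4 : 3 * x ^ 2 + algebraMap k K a ≠ 0 := by
        rw [hy, mul_zero] at h3
        exact h3.resolve_right (fun h => h rfl)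
      exact mul_right_cancel₀ h4 (hu.2.symm.trans hv.2)
    · exact mul_right_cancel₀ hy (hu.1.symm.trans hv.1)

theorem IsOm.eq {P : ((sw a b)⁄K).Point} {u : K} (hu : IsOm D P u) : om D P = u :=
  (isOm_om P).unique hu

theorem IsOm.neg {P : ((sw a b)⁄K).Point} {u : K} (hu : IsOm D P u) : IsOm D (-P) (-u) := by
  rcases P with _ | ⟨x, y, h⟩
  · have : u = 0 := hu
    rw [this]
    exact neg_zero
  · rw [Affine.Point.neg_some, isOm_some, sw_negY]
    rw [isOm_some] at hu
    refine ⟨by rw [hu.1]; ring, ?_⟩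
    rw [map_neg]
    linear_combination -hu.2

theorem IsOm.add {P Q : ((sw a b)⁄K).Point} {u v : K} (hu : IsOm D P u) (hv : IsOm D Q v) :
    IsOm D (P + Q) (u + v) := by
  have : CharZero K := charZero_of_injective_algebraMap (algebraMap k K).injective
  rcases P with _ | ⟨x₁, y₁, h₁⟩
  · have : u = 0 := hu
    rw [this, zero_add]
    have h0 : (Affine.Point.zero : ((sw a b)⁄K).Point) = 0 := rfl
    rw [h0, zero_add]
    exact hv
  rcases Q with _ | ⟨x₂, y₂, h₂⟩
  · have : v = 0 := hv
    rw [this, add_zero]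
    have h0 : (Affine.Point.zero : ((sw a b)⁄K).Point) = 0 := rfl
    rw [h0, add_zero]
    exact hu
  obtain ⟨e1, n1⟩ := sw_ns.1 h₁
  obtain ⟨e2, n2⟩ := sw_ns.1 h₂
  by_cases hx : x₁ = x₂
  · subst hx
    by_cases hy : y₁ = ((sw a b)⁄K).negY x₁ y₂
    · rw [Affine.Point.add_of_Y_eq rfl hy]
      change u + v = 0
      have h3 : Affine.Point.some x₁ y₁ h₁ = -Affine.Point.some x₁ y₂ h₂ := by
        rw [Affine.Point.neg_some]
        congr 1
      rw [h3] at hu
      rw [hu.unique hv.neg]
      ring
    · -- doubling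
      rw [sw_negY] at hy
      have hyy : y₁ = y₂ := by
        have : (y₁ - y₂) * (y₁ + y₂) = 0 := by linear_combination e1 - e2
        rcases mul_eq_zero.1 this with h | h
        · exact sub_eq_zero.1 h
        · exact absurd (eq_neg_of_add_eq_zero_left h) hy
      subst hyy
      have hy0 : y₁ ≠ 0 := by
        rintro rfl
        exact hy neg_zero.symm
      have huv := hu.unique hv
      subst huv
      have hns : y₁ ≠ ((sw a b)⁄K).negY x₁ y₁ := by rw [sw_negY]; exact hy
      rw [Affine.Point.add_of_Y_ne hns, isOm_some]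
      set l := ((sw a b)⁄K).slope x₁ x₁ y₁ y₁ with hl
      have hl2 : l * (2 * y₁) = 3 * x₁ ^ 2 + algebraMap k K a := by
        rw [hl, Affine.slope_of_Y_ne rfl hns, sw_negY]
        simp only [sw, WeierstrassCurve.baseChange, WeierstrassCurve.map, map_zero, zero_mul,
          mul_zero, add_zero, sub_zero, sub_neg_eq_add]
        rw [← two_mul, div_mul_cancel₀ _ (mul_ne_zero two_ne_zero hy0)]
      rw [sw_addX, sw_addY]
      rw [isOm_some] at hu
      obtain ⟨d1, d2⟩ := hu
      have hD := congrArg D hl2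
      rw [D.leibniz, D.leibniz, map_add, D.leibniz, D.map_algebraMap, pow_two, D.leibniz] at hD
      have hD2 : D (2 : K) = 0 := by exact_mod_cast D.map_natCast 2
      have hD3 : D (3 : K) = 0 := by exact_mod_cast D.map_natCast 3
      rw [hD2, hD3] at hD
      simp only [smul_eq_mul, mul_zero, add_zero] at hD
      have hDl : D l = u * (3 * x₁ - l ^ 2) := by
        apply mul_right_cancel₀ (mul_ne_zero two_ne_zero hy0)
        rw [d1] at hD
        linear_combination hD - l * d2 + l * u * hl2
      have hD3 : D (l ^ 2 - x₁ - x₁) = (u + u) * -(l * (l ^ 2 - x₁ - x₁ - x₁) + y₁) := by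
        rw [map_sub, map_sub, pow_two, D.leibniz, smul_eq_mul, hDl, d1]
        ring
      refine ⟨hD3, ?_⟩
      have hD4 : D (-(l * (l ^ 2 - x₁ - x₁ - x₁) + y₁)) =
          -(D l * (l ^ 2 - x₁ - x₁ - x₁) + l * (D (l ^ 2 - x₁ - x₁) - D x₁) + D y₁) := by
        rw [map_neg, map_add, D.leibniz, map_sub D (l ^ 2 - x₁ - x₁)]
        simp only [smul_eq_mul]
        ring
      rw [hD4, hD3, hDl, d1]
      have h5 : algebraMap k K a = l * (2 * y₁) - 3 * x₁ ^ 2 := by rw [hl2]; ring
      rw [h5] at d2 ⊢
      linear_combination -d2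
  · -- the chord
    rw [Affine.Point.add_of_X_ne hx, isOm_some]
    set l := ((sw a b)⁄K).slope x₁ x₂ y₁ y₂ with hl
    have hx0 : x₁ - x₂ ≠ 0 := sub_ne_zero.2 hx
    have hl2 : l * (x₁ - x₂) = y₁ - y₂ := by
      rw [hl, Affine.slope_of_X_ne hx, div_mul_cancel₀ _ hx0]
    rw [sw_addX, sw_addY]
    rw [isOm_some] at hu hv
    obtain ⟨d1, d2⟩ := hu
    obtain ⟨d3, d4⟩ := hv
    have hD := congrArg D hl2
    rw [D.leibniz, map_sub, map_sub, d1, d3] at hD
    simp only [smul_eq_mul] at hD
    -- the relation `l (y₁ + y₂) = x₁² + x₁ x₂ + x₂² + a`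
    have key : l * (y₁ + y₂) = x₁ ^ 2 + x₁ * x₂ + x₂ ^ 2 + algebraMap k K a := by
      apply mul_right_cancel₀ hx0
      linear_combination (y₁ + y₂) * hl2 + e1 - e2
    have hy2 : y₂ = y₁ - l * (x₁ - x₂) := by rw [hl2]; ring
    have h5 : algebraMap k K a = l * (y₁ + y₂) - x₁ ^ 2 - x₁ * x₂ - x₂ ^ 2 := by
      rw [key]; ring
    rw [h5, hy2] at d2 d4
    have hDl : 2 * D l = u * (2 * x₁ + x₂ - l ^ 2) + v * (x₁ + 2 * x₂ - l ^ 2) := by
      apply mul_right_cancel₀ hx0
      rw [hy2] at hD
      linear_combination 2 * hD + d2 - d4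
    have h2 : (2 : K) ≠ 0 := two_ne_zero
    have hD3 : D (l ^ 2 - x₁ - x₂) = (u + v) * -(l * (l ^ 2 - x₁ - x₂ - x₁) + y₁) := by
      rw [map_sub, map_sub, pow_two, D.leibniz, smul_eq_mul, d1, d3, hy2]
      linear_combination l * hDl
    refine ⟨hD3, ?_⟩
    have hD4 : D (-(l * (l ^ 2 - x₁ - x₂ - x₁) + y₁)) =
        -(D l * (l ^ 2 - x₁ - x₂ - x₁) + l * (D (l ^ 2 - x₁ - x₂) - D x₁) + D y₁) := by
      rw [map_neg, map_add, D.leibniz, map_sub D (l ^ 2 - x₁ - x₂)]
      simp only [smul_eq_mul]
      ring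
    rw [hD4, hD3, d1, h5, hy2]
    linear_combination -(l ^ 2 - x₁ - x₂ - x₁) * hDl - d2

theorem om_zero : om D (0 : ((sw a b)⁄K).Point) = 0 := rfl

theorem om_add (P Q : ((sw a b)⁄K).Point) : om D (P + Q) = om D P + om D Q :=
  ((isOm_om P).add (isOm_om Q)).eq

/-- the invariant differential as a homomorphism -/
noncomputable def omH (D : Derivation k K K) : ((sw a b)⁄K).Point →+ K where
  toFun := om D
  map_zero' := om_zero
  map_add' := om_add

theorem om_neg (P : ((sw a b)⁄K).Point) : om D (-P) = -om D P := map_neg (omH D) P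

theorem om_sub (P Q : ((sw a b)⁄K).Point) : om D (P - Q) = om D P - om D Q :=
  map_sub (omH D) P Q

theorem om_nsmul (n : ℕ) (P : ((sw a b)⁄K).Point) : om D (n • P) = n * om D P := by
  rw [← nsmul_eq_mul]
  exact map_nsmul (omH D) n P

theorem om_sum {ι : Type*} (s : Finset ι) (P : ι → ((sw a b)⁄K).Point) :
    om D (∑ i ∈ s, P i) = ∑ i ∈ s, om D (P i) := map_sum (omH D) P s

/-- points with the value zero have constant coordinates -/
theorem const_of_om {x y : K} {h : ((sw a b)⁄K).Nonsingular x y}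
    (hP : om D (Affine.Point.some x y h) = 0) : D x = 0 ∧ D y = 0 := by
  have : CharZero K := charZero_of_injective_algebraMap (algebraMap k K).injective
  have h1 := isOm_om (D := D) (Affine.Point.some x y h)
  rw [hP, isOm_some] at h1
  refine ⟨by rw [h1.1, zero_mul], ?_⟩
  have h2 := h1.2
  rw [zero_mul] at h2
  exact (mul_eq_zero.1 h2).resolve_left two_ne_zero

theorem om_of_const {x y : K} {h : ((sw a b)⁄K).Nonsingular x y} (hx : D x = 0) :
    om D (Affine.Point.some x y h) = 0 := by
  change D x / y = 0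
  rw [hx, zero_div]

end Pool.Agent.K1H80.EC
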