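import Pool.Agent.K1H80.EC.Simple

/-!
# Prime differential ideals are zero: auxiliary results
-/

set_option autoImplicit false
set_option linter.unusedSectionVars false

namespace Pool.Agent.K1H80.EC

open WeierstrassCurve WeierstrassCurve.Affine
open scoped Classical

section general

variable {E U : Type} [Field E] [Field U] [Algebra E U]

/-- algebraic over the first coordinates -/
theorem alg_RB {ι : Type} {p q : ι → U} {B : Set ι}
    (hq : ∀ i ∈ B, IsAlgebraic (Algebra.adjoin E (p '' B)) (q i)) (r : RB E p q B) :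
    IsAlgebraic (Algebra.adjoin E (p '' B)) (r : U) := by
  have h2 : IsAlgebraic (Algebra.adjoin E (p '' B ∪ q '' B)) (r : U) :=
    isAlgebraic_algebraMap (⟨r, r.2⟩ : Algebra.adjoin E (p '' B ∪ q '' B))
  refine h2.adjoin_of_forall_isAlgebraic ?_
  rintro w ⟨(⟨i, hi, rfl⟩ | ⟨i, hi, rfl⟩), hw⟩
  · exact absurd ⟨i, hi, rfl⟩ hw
  · exact hq i hi

/-- a homomorphism that keeps the first coordinates independent is injective -/
theorem inj_RB {ι : Type} {p q : ι → U} {B : Set ι} {κ : Type} [Field κ] [Algebra E κ]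
    (hq : ∀ i ∈ B, IsAlgebraic (Algebra.adjoin E (p '' B)) (q i)) (φ : RB E p q B →ₐ[E] κ)
    (pb : ι → κ) (hpb : ∀ i (hi : i ∈ B), pb i = φ ⟨p i, mem_p hi⟩)
    (hind : AlgebraicIndepOn E pb B) : Function.Injective φ := by
  rw [injective_iff_map_eq_zero]
  by_contra hcon
  push Not at hcon
  obtain ⟨r, hr0, hr1⟩ := hcon
  have hA1 : Algebra.adjoin E (p '' B) ≤ RB E p q B := Algebra.adjoin_mono Set.subset_union_left
  let _ : Algebra (Algebra.adjoin E (p '' B)) (RB E p q B) :=
    (Subalgebra.inclusion hA1).toRingHom.toAlgebra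
  have hst : IsScalarTower (Algebra.adjoin E (p '' B)) (RB E p q B) U :=
    IsScalarTower.of_algebraMap_eq fun _ => rfl
  have hralg : IsAlgebraic (Algebra.adjoin E (p '' B)) r := by
    have h1 := alg_RB hq r
    obtain ⟨f, hf0, hf⟩ := h1
    refine ⟨f, hf0, ?_⟩
    apply Subtype.val_injective
    have h3 := Polynomial.aeval_algebraMap_apply U r f
    have h4 : algebraMap (RB E p q B) U r = (r : U) := rfl
    rw [h4, hf] at h3
    exact h3.symm
  have h3 := Ideal.comap_ne_bot_of_algebraic_mem (R := Algebra.adjoin E (p '' B))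
    (S := RB E p q B) (I := RingHom.ker φ) hr1 (by rw [RingHom.mem_ker]; exact hr0) hralg
  rw [Submodule.ne_bot_iff] at h3
  obtain ⟨s, hs, hs0⟩ := h3
  rw [Ideal.mem_comap, RingHom.mem_ker] at hs
  have h4 : (s : U) ∈ Algebra.adjoin E (Set.range fun i : B => p i) := by
    have h5 : (Set.range fun i : B => p i) = p '' B := by
      rw [Set.image_eq_range]
    rw [h5]
    exact s.2
  rw [Algebra.adjoin_range_eq_range_aeval] at h4
  obtain ⟨f, hf⟩ := h4
  have hf' : MvPolynomial.aeval (fun i : B => p i) f = (s : U) := hf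
  let P1 : B → RB E p q B := fun i => ⟨p i, mem_p i.2⟩
  have h8 : ((MvPolynomial.aeval P1 f : RB E p q B) : U) =
      MvPolynomial.aeval (fun i : B => p i) f := by
    have h := MvPolynomial.comp_aeval_apply (f := P1) ((RB E p q B).val) f
    exact h
  have h6 : MvPolynomial.aeval (fun i : B => pb i) f = 0 := by
    have h7 : (fun i : B => pb i) = fun i : B => φ (P1 i) := funext fun i => hpb i i.2
    rw [h7, ← MvPolynomial.comp_aeval_apply]
    rw [← hs]
    congr 1
    apply Subtype.ext
    rw [h8, hf']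
    rfl
  have h9 : f = 0 := hind (by rw [h6, map_zero])
  apply hs0
  apply Subtype.ext
  rw [← hf', h9, map_zero]
  rfl

/-- the second coordinate is algebraic if the first one is -/
theorem alg_second {R κ : Type} [CommRing R] [IsDomain R] [Field κ] [Algebra R κ]
    [FaithfulSMul R κ] (c : Bool) {α β p q : κ}
    (hα : IsAlgebraic R α) (hβ : IsAlgebraic R β) (hp : IsAlgebraic R p)
    (hrel : rel c α β p q = 0) : IsAlgebraic R q := by
  obtain ⟨f, g, h4, h5, h6⟩ := rel_ord c (α := α) (β := β) (p := p) (q := q)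
  rw [hrel] at h4
  let A : Subalgebra R κ := Subalgebra.algebraicClosure R κ
  have hf : f ∈ A := by
    rw [h5]
    split_ifs
    · exact hα.mul (hp.pow 2)
    · exact hα
  have hg : g ∈ A := by
    rw [h6]
    split_ifs
    · exact (hβ.mul (hp.pow 3)).sub hp
    · exact hβ.sub (hp.pow 2)
  have h7 : IsIntegral A q := integral_cubic (f := (⟨f, hf⟩ : A)) (g := ⟨g, hg⟩) h4.symm
  have h8 : IsAlgebraic A q := h7.isAlgebraic
  exact h8.restrictScalars R

/-- every element of the residue field is algebraic -/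
theorem alg_res {ι : Type} {p q : ι → U} {R1 κ : Type} [CommRing R1] [IsDomain R1] [Field κ]
    [Algebra E R1] [Algebra E κ] [Algebra R1 κ] [FaithfulSMul R1 κ] [IsScalarTower E R1 κ]
    (π : RB E p q Set.univ →ₐ[E] κ) (hπ : ∀ z, ∃ r s, z = π r / π s)
    (h1 : ∀ i, IsAlgebraic R1 (π ⟨p i, mem_p (Set.mem_univ i)⟩))
    (h2 : ∀ i, IsAlgebraic R1 (π ⟨q i, mem_q (Set.mem_univ i)⟩)) : Algebra.IsAlgebraic R1 κ := by
  have hE1 : ∀ e : E, IsAlgebraic R1 (algebraMap E κ e) := fun e => by
    rw [IsScalarTower.algebraMap_apply E R1 κ]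
    exact isAlgebraic_algebraMap _
  have h3 : ∀ r, IsAlgebraic R1 (π r) := by
    rintro ⟨r, hr⟩
    have hr' : r ∈ Algebra.adjoin E (p '' Set.univ ∪ q '' Set.univ) := hr
    have : ∀ (h : r ∈ RB E p q Set.univ), IsAlgebraic R1 (π ⟨r, h⟩) := by
      induction hr' using Algebra.adjoin_induction with
      | mem w hw =>
        intro h
        rcases hw with ⟨i, -, rfl⟩ | ⟨i, -, rfl⟩
        · exact h1 i
        · exact h2 i
      | algebraMap e =>
        intro h
        have : (⟨algebraMap E U e, h⟩ : RB E p q Set.univ) = algebraMap E _ e := rfl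
        rw [this, π.commutes]
        exact hE1 e
      | add v w hv hw h4 h5 =>
        intro h
        have : (⟨v + w, h⟩ : RB E p q Set.univ) = ⟨v, hv⟩ + ⟨w, hw⟩ := rfl
        rw [this, map_add]
        exact (h4 hv hv).add (h5 hw hw)
      | mul v w hv hw h4 h5 =>
        intro h
        have : (⟨v * w, h⟩ : RB E p q Set.univ) = ⟨v, hv⟩ * ⟨w, hw⟩ := rfl
        rw [this, map_mul]
        exact (h4 hv hv).mul (h5 hw hw)
    exact this hr
  refine ⟨fun z => ?_⟩
  obtain ⟨r, s, rfl⟩ := hπ z
  rw [div_eq_mul_inv]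
  exact (h3 r).mul (h3 s).inv

end general

variable {k E U : Type} [Field k] [CharZero k] [Field E] [Field U] [Algebra k E] [Algebra k U]
  [Algebra E U] [IsScalarTower k E U]

/-- The situation: points `(x i, y i)` of constant elliptic curves over the differential field `U`
with invariant differentials `u i` in the field `E`, independent over `E`, and charts `c i`. -/
structure Sit (D : Derivation k U U) (ι : Type) (a b : ι → k) (x y : ι → U) (u : ι → E) : Prop where
  hE : ∀ e : E, ∃ e' : E, D (algebraMap E U e) = algebraMap E U e'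
  hC : ∀ z : U, D z = 0 → IsAlgebraic E z
  hab : ∀ i, 4 * a i ^ 3 + 27 * b i ^ 2 ≠ 0
  hxy : ∀ i, y i ^ 2 = x i ^ 3 + algebraMap k U (a i) * x i + algebraMap k U (b i)
  hu0 : ∀ i, u i ≠ 0
  hu : ∀ i, D (x i) = algebraMap E U (u i) * y i
  hind : AlgebraicIndependent E x

variable (E) in
/-- the coordinate ring in the charts `c` of the points in `B` -/
noncomputable abbrev RC {ι : Type} (c : ι → Bool) (x y : ι → U) (B : Set ι) : Subalgebra E U :=
  RB E (fun i => pc (c i) (x i) (y i)) (fun i => qc (c i) (x i) (y i)) B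

variable {D : Derivation k U U} {ι : Type} {a b : ι → k} {x y : ι → U} {u : ι → E}

theorem Sit.y_ne (S : Sit D ι a b x y u) (i : ι) : y i ≠ 0 :=
  trans_ne_zero (S.hind.transcendental i) (S.hxy i)

theorem Sit.rel (S : Sit D ι a b x y u) (c : ι → Bool) (i : ι) :
    EC.rel (c i) (algebraMap k U (a i)) (algebraMap k U (b i)) (pc (c i) (x i) (y i))
      (qc (c i) (x i) (y i)) = 0 :=
  (chart_of_point (c i) D (S.hxy i) (S.y_ne i) (S.hu i)
    (der_y D (S.hxy i) (S.y_ne i) (S.hu i))).1

theorem Sit.dP (S : Sit D ι a b x y u) (c : ι → Bool) (i : ι) :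
    D (pc (c i) (x i) (y i)) = EC.dP (c i) (algebraMap k U (a i)) (algebraMap k U (b i))
      (algebraMap E U (u i)) (pc (c i) (x i) (y i)) (qc (c i) (x i) (y i)) :=
  (chart_of_point (c i) D (S.hxy i) (S.y_ne i) (S.hu i)
    (der_y D (S.hxy i) (S.y_ne i) (S.hu i))).2.1

theorem Sit.dQ (S : Sit D ι a b x y u) (c : ι → Bool) (i : ι) :
    D (qc (c i) (x i) (y i)) = EC.dQ (c i) (algebraMap k U (a i)) (algebraMap k U (b i))
      (algebraMap E U (u i)) (pc (c i) (x i) (y i)) (qc (c i) (x i) (y i)) :=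
  (chart_of_point (c i) D (S.hxy i) (S.y_ne i) (S.hu i)
    (der_y D (S.hxy i) (S.y_ne i) (S.hu i))).2.2

theorem Sit.stable (S : Sit D ι a b x y u) (c : ι → Bool) (B : Set ι) :
    ∀ z ∈ RC E c x y B, D z ∈ RC E c x y B :=
  der_RB (c := c) (a := a) (b := b) (u := u) D S.hE (fun i => S.dP c i) (fun i => S.dQ c i) B

/-- the derivation of the coordinate ring -/
noncomputable def Sit.DR (S : Sit D ι a b x y u) (c : ι → Bool) (B : Set ι) :
    Derivation k (RC E c x y B) (RC E c x y B) := resA D _ (S.stable c B)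

theorem Sit.coe_DR (S : Sit D ι a b x y u) (c : ι → Bool) (B : Set ι) (r : RC E c x y B) :
    ((S.DR c B r : RC E c x y B) : U) = D r := rfl

theorem Sit.q_alg (S : Sit D ι a b x y u) (c : ι → Bool) (B : Set ι) :
    ∀ i ∈ B, IsAlgebraic (Algebra.adjoin E ((fun i => pc (c i) (x i) (y i)) '' B))
      (qc (c i) (x i) (y i)) := by
  intro i hi
  exact (int_q (c := c) (a := a) (b := b) (p := fun i => pc (c i) (x i) (y i))
    (q := fun i => qc (c i) (x i) (y i)) (fun i => S.rel c i)
    (R := Algebra.adjoin E ((fun i => pc (c i) (x i) (y i)) '' B)) (i := i)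
    (Algebra.subset_adjoin ⟨i, hi, rfl⟩)).isAlgebraic

/-- **The contradiction.** -/
theorem Sit.absurd_aux (S : Sit D ι a b x y u) (c : ι → Bool) (B : Set ι) (i : ι) (hi : i ∉ B)
    {κ Ω : Type} [Field κ] [CharZero κ] [Algebra k κ] [Field Ω] [Algebra U Ω] [Algebra k Ω]
    [IsScalarTower k U Ω] [Algebra E Ω] [IsScalarTower E U Ω]
    [Algebra.IsAlgebraic U Ω] [CharZero U]
    (Dκ : Derivation k κ κ) (DΩ : Derivation k Ω Ω)
    (hDΩ : ∀ z : U, DΩ (algebraMap U Ω z) = algebraMap U Ω (D z)) (j : κ →+* Ω)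
    (hj2 : ∀ z, DΩ (j z) = j (Dκ z))
    (hj3 : ∀ d : Ω → Ω, IsD (RingHom.id Ω) d → (∀ r : RC E c x y B, d (algebraMap U Ω r) = 0) →
      ∀ z, d (j z) = 0) (hjk : ∀ e : k, j (algebraMap k κ e) = algebraMap k Ω e)
    {xb yb u' : κ} (hns : ((sw (a i) (b i))⁄κ).Nonsingular xb yb)
    (hom : IsOm Dκ (Affine.Point.some xb yb hns) u') (hju : j u' = algebraMap E Ω (u i)) :
    False := by
  have hcΩ : CharZero Ω := charZero_of_injective_algebraMap (algebraMap U Ω).injective
  have hstkEΩ : IsScalarTower k E Ω := IsScalarTower.of_algebraMap_eq fun e => by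
    rw [IsScalarTower.algebraMap_apply k U Ω, IsScalarTower.algebraMap_apply k E U,
      IsScalarTower.algebraMap_apply E U Ω]
  -- the derivation that moves only the `i`-th point
  have hindΩ : AlgebraicIndependent E (fun j => algebraMap U Ω (x j)) :=
    S.hind.map' (f := IsScalarTower.toAlgHom E U Ω) (algebraMap U Ω).injective
  obtain ⟨d, -, hd⟩ := exists_der_ext (k := E) (E := E) (K := Ω) 0 _ hindΩ
    (fun j => if j = i then 1 else 0)
  let dk : Derivation k Ω Ω := d.restrictScalars k
  have hdk : ∀ z, dk z = d z := fun z => rfl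
  have hdx : ∀ j, j ≠ i → d (algebraMap U Ω (x j)) = 0 := fun j hj => by rw [hd, if_neg hj]
  have hdy : ∀ j, j ≠ i → d (algebraMap U Ω (y j)) = 0 := by
    intro j hj
    have h1 := congrArg (algebraMap U Ω) (S.hxy j)
    rw [map_pow, map_add, map_add, map_mul, map_pow, ← IsScalarTower.algebraMap_apply,
      ← IsScalarTower.algebraMap_apply] at h1
    have h2 := der_y dk h1 (by rw [Ne, map_eq_zero]; exact S.y_ne j) (u := 0) (by
      rw [hdk, hdx j hj, zero_mul])
    rw [zero_mul] at h2
    exact (mul_eq_zero.1 h2).resolve_left two_ne_zero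
  have hd1 : ∀ r : RC E c x y B, d (algebraMap U Ω r) = 0 := by
    rintro ⟨r, hr⟩
    change d (algebraMap U Ω r) = 0
    have hr' : r ∈ Algebra.adjoin E ((fun i => pc (c i) (x i) (y i)) '' B ∪
      (fun i => qc (c i) (x i) (y i)) '' B) := hr
    clear hr
    induction hr' using Algebra.adjoin_induction with
    | mem w hw =>
      rcases hw with ⟨j, hj, rfl⟩ | ⟨j, hj, rfl⟩
      · have hji : j ≠ i := by rintro rfl; exact hi hj
        simp only [pc]
        split_ifs
        · rw [map_inv₀, d.leibniz_inv, hdy j hji, smul_zero]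
        · exact hdy j hji
      · have hji : j ≠ i := by rintro rfl; exact hi hj
        simp only [qc]
        split_ifs
        · rw [map_mul, map_inv₀, d.leibniz, d.leibniz_inv, hdy j hji, hdx j hji, smul_zero,
            smul_zero, smul_zero, add_zero]
        · exact hdx j hji
    | algebraMap e =>
      rw [← IsScalarTower.algebraMap_apply, d.map_algebraMap]
    | add v w hv hw h4 h5 => rw [map_add, map_add, h4, h5, add_zero]
    | mul v w hv hw h4 h5 => rw [map_mul, d.leibniz, h4, h5, smul_zero, smul_zero, add_zero]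
  have hdj : ∀ z, d (j z) = 0 := hj3 d (isD_left d (RingHom.id Ω)) hd1
  -- the two points
  have h2Ω : (2 : Ω) ≠ 0 := two_ne_zero
  have ex : algebraMap U Ω (y i) ^ 2 = algebraMap U Ω (x i) ^ 3 +
      algebraMap k Ω (a i) * algebraMap U Ω (x i) + algebraMap k Ω (b i) := by
    have h1 := congrArg (algebraMap U Ω) (S.hxy i)
    rwa [map_pow, map_add, map_add, map_mul, map_pow, ← IsScalarTower.algebraMap_apply,
      ← IsScalarTower.algebraMap_apply] at h1
  have hy0 : algebraMap U Ω (y i) ≠ 0 := by rw [Ne, map_eq_zero]; exact S.y_ne i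
  have hns1 : ((sw (a i) (b i))⁄Ω).Nonsingular (algebraMap U Ω (x i)) (algebraMap U Ω (y i)) := by
    rw [sw_ns]
    exact ⟨ex, Or.inr (mul_ne_zero h2Ω hy0)⟩
  obtain ⟨eb1, eb2⟩ := sw_ns.1 hns
  have hnsj : ((sw (a i) (b i))⁄Ω).Nonsingular (j xb) (j yb) := by
    rw [sw_ns]
    constructor
    · rw [← hjk, ← hjk, ← map_pow, ← map_pow, ← map_mul, ← map_add, ← map_add, eb1]
    · rcases eb2 with h | h
      · left
        have h1 : j (3 * xb ^ 2 + algebraMap k κ (a i)) ≠ 0 := by
          rw [Ne, map_eq_zero]; exact h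
        rwa [map_add, map_mul, map_pow, hjk, map_ofNat] at h1
      · right
        have h1 : j (2 * yb) ≠ 0 := by rw [Ne, map_eq_zero]; exact h
        rwa [map_mul, map_ofNat] at h1
  let P1 : ((sw (a i) (b i))⁄Ω).Point := Affine.Point.some _ _ hns1
  let P2 : ((sw (a i) (b i))⁄Ω).Point := Affine.Point.some _ _ hnsj
  have ho1 : om DΩ P1 = algebraMap E Ω (u i) := by
    change DΩ (algebraMap U Ω (x i)) / algebraMap U Ω (y i) = _
    rw [hDΩ, S.hu, map_mul, mul_div_cancel_right₀ _ hy0, ← IsScalarTower.algebraMap_apply]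
  have ho2 : om DΩ P2 = algebraMap E Ω (u i) := by
    apply IsOm.eq
    rw [isOm_some]
    have h1 := isOm_some.1 hom
    constructor
    · rw [hj2, h1.1, map_mul, hju]
    · rw [hj2]
      have h2 := congrArg j h1.2
      rw [map_mul, map_mul, map_add, map_mul, map_pow, hju, hjk, map_ofNat, map_ofNat] at h2
      exact h2
  have hcc : om DΩ (P1 - P2) = 0 := by rw [om_sub, ho1, ho2, sub_self]
  have hd2 : om dk (P1 - P2) = 0 := by
    generalize P1 - P2 = Q at hcc
    rcases Q with _ | ⟨X, Y, h⟩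
    · rfl
    · apply om_of_const
      have hcE : CharZero E := charZero_of_injective_algebraMap (algebraMap k E).injective
      have h1 : IsAlgebraic E X := const_alg (k := k) (E := E) (K := U) (N := Ω) D DΩ hDΩ
        S.hC (Algebra.IsAlgebraic.isAlgebraic X) (const_of_om hcc).1
      exact (isD_right d (RingHom.id Ω)).alg_zero (E := E) (fun e => d.map_algebraMap e) h1
  have hd3 : om dk P2 = 0 := om_of_const (hdj _)
  have hd4 : om dk P1 = 0 := by
    rw [om_sub, hd3, sub_zero] at hd2
    exact hd2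
  have hd5 := (const_of_om hd4).1
  rw [hdk, hd i, if_pos rfl] at hd5
  exact one_ne_zero hd5

end Pool.Agent.K1H80.EC
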