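import Pool.Agent.K1H80.EC.Simple2

/-!
# Prime differential ideals are zero
-/

set_option autoImplicit false
set_option linter.unusedSectionVars false

namespace Pool.Agent.K1H80.EC

open WeierstrassCurve WeierstrassCurve.Affine
open scoped Classical

variable {k E U : Type} [Field k] [CharZero k] [Field E] [Field U] [Algebra k E] [Algebra k U]
  [Algebra E U] [IsScalarTower k E U]

/-- the residue field of a prime differential ideal, with its points -/
theorem Sit.residue {D : Derivation k U U} {ι : Type} {a b : ι → k} {x y : ι → U}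
    {u : ι → E} (S : Sit D ι a b x y u) (c : ι → Bool) (P : Ideal (RC E c x y Set.univ))
    [hP : P.IsPrime] (hDP : ∀ r ∈ P, S.DR c Set.univ r ∈ P) :
    ∃ (κ : Type) (_ : Field κ) (_ : CharZero κ) (_ : Algebra k κ) (_ : Algebra E κ)
      (_ : IsScalarTower k E κ) (π : RC E c x y Set.univ →ₐ[E] κ) (Dκ : Derivation k κ κ)
      (xb yb : ι → κ) (hns : ∀ i, ((sw (a i) (b i))⁄κ).Nonsingular (xb i) (yb i)),
      (∀ r, Dκ (π r) = π (S.DR c Set.univ r)) ∧ (∀ r, π r = 0 ↔ r ∈ P) ∧
      (∀ z, ∃ r s, z = π r / π s) ∧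
      (∀ i, IsOm Dκ (Affine.Point.some (xb i) (yb i) (hns i)) (algebraMap E κ (u i))) ∧
      (∀ i, EC.rel (c i) (algebraMap k κ (a i)) (algebraMap k κ (b i))
        (π ⟨_, mem_p (Set.mem_univ i)⟩) (π ⟨_, mem_q (Set.mem_univ i)⟩) = 0) := by
  have hcU : CharZero U := charZero_of_injective_algebraMap (algebraMap k U).injective
  let R := RC E c x y (Set.univ : Set ι)
  let κ := FractionRing (R ⧸ P)
  have hcκ : CharZero κ := charZero_of_injective_algebraMap (algebraMap k κ).injective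
  obtain ⟨Dκ, hDκ⟩ := exists_resD (k := k) (S.DR c Set.univ) P hDP
  let π : R →ₐ[E] κ := (IsScalarTower.toAlgHom E (R ⧸ P) κ).comp (Ideal.Quotient.mkₐ E P)
  have hπD : ∀ r, Dκ (π r) = π (S.DR c Set.univ r) := hDκ
  have hπ0 : ∀ r, π r = 0 ↔ r ∈ P := by
    intro r
    change algebraMap (R ⧸ P) κ (Ideal.Quotient.mk P r) = 0 ↔ _
    rw [map_eq_zero_iff _ (IsFractionRing.injective (R ⧸ P) κ), Ideal.Quotient.eq_zero_iff_mem]
  have hst : IsScalarTower k E κ := inferInstance
  have hπk : ∀ e : k, π (algebraMap k R e) = algebraMap k κ e := by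
    intro e
    rw [IsScalarTower.algebraMap_apply k E R, π.commutes, ← IsScalarTower.algebraMap_apply]
  have hinjR : Function.Injective (algebraMap R U) := Subtype.val_injective
  have hrelb : ∀ i, EC.rel (c i) (algebraMap k κ (a i)) (algebraMap k κ (b i))
      (π ⟨_, mem_p (Set.mem_univ i)⟩) (π ⟨_, mem_q (Set.mem_univ i)⟩) = 0 := by
    intro i
    rw [← hπk, ← hπk]
    exact tr_rel (algebraMap R U) hinjR (π : R →+* κ) (c i) (S.rel c i)
  have hdpb : ∀ i, Dκ (π ⟨_, mem_p (Set.mem_univ i)⟩) =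
      EC.dP (c i) (algebraMap k κ (a i)) (algebraMap k κ (b i))
      (algebraMap E κ (u i)) (π ⟨_, mem_p (Set.mem_univ i)⟩)
      (π ⟨_, mem_q (Set.mem_univ i)⟩) := by
    intro i
    rw [← hπk, ← hπk, ← π.commutes, hπD]
    exact tr_dP (algebraMap R U) hinjR (π : R →+* κ) (c i) (S.dP c i)
  have hdqb : ∀ i, Dκ (π ⟨_, mem_q (Set.mem_univ i)⟩) =
      EC.dQ (c i) (algebraMap k κ (a i)) (algebraMap k κ (b i))
      (algebraMap E κ (u i)) (π ⟨_, mem_p (Set.mem_univ i)⟩)
      (π ⟨_, mem_q (Set.mem_univ i)⟩) := by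
    intro i
    rw [← hπk, ← hπk, ← π.commutes, hπD]
    exact tr_dQ (algebraMap R U) hinjR (π : R →+* κ) (c i) (S.dQ c i)
  have hpt := fun i => point_of_chart (c i) (S.hab i) Dκ (hrelb i) (hdpb i) (hdqb i)
    (by rw [Ne, map_eq_zero]; exact S.hu0 i)
  choose xb yb hnsb homb hpxb hqxb using hpt
  refine ⟨κ, inferInstance, hcκ, inferInstance, inferInstance, hst, π, Dκ, xb, yb, hnsb, hπD, hπ0,
    ?_, homb, hrelb⟩
  intro z
  obtain ⟨r, s, -, rfl⟩ := IsFractionRing.div_surjective (A := R ⧸ P) z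
  obtain ⟨r, rfl⟩ := Ideal.Quotient.mk_surjective r
  obtain ⟨s, rfl⟩ := Ideal.Quotient.mk_surjective s
  exact ⟨r, s, rfl⟩

/-- **Prime differential ideals are zero.** -/
theorem Sit.prime_bot {D : Derivation k U U} {ι : Type} [Finite ι] {a b : ι → k} {x y : ι → U}
    {u : ι → E} (S : Sit D ι a b x y u) (c : ι → Bool) (P : Ideal (RC E c x y Set.univ))
    [hP : P.IsPrime] (hDP : ∀ r ∈ P, S.DR c Set.univ r ∈ P) : P = ⊥ := by
  have hcU : CharZero U := charZero_of_injective_algebraMap (algebraMap k U).injective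
  obtain ⟨κ, iF, iC, ik, iE, iT, π, Dκ, xb, yb, hns, hπD, hπ0, hπs, hom, hrel⟩ := S.residue c P hDP
  -- a maximal independent subset
  obtain ⟨pb, hpb⟩ : ∃ pb : ι → κ, ∀ i, pb i = π ⟨_, mem_p (Set.mem_univ i)⟩ :=
    ⟨fun i => π ⟨_, mem_p (Set.mem_univ i)⟩, fun i => rfl⟩
  obtain ⟨B, hB, hBmax⟩ := exists_maximal_of_wellFoundedGT
    (fun B : Set ι => AlgebraicIndepOn E pb B)
    ⟨∅, by
      rw [AlgebraicIndepOn, algebraicIndependent_empty_type_iff]
      exact (algebraMap E κ).injective⟩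
  have halgp : ∀ i, IsAlgebraic (Algebra.adjoin E (pb '' B)) (pb i) := by
    intro i
    by_contra h
    have h1 := AlgebraicIndepOn.insert hB h
    have h2 := hBmax h1 (Set.subset_insert i B)
    apply h
    exact isAlgebraic_algebraMap (⟨pb i, Algebra.subset_adjoin ⟨i, h2 (Set.mem_insert i B), rfl⟩⟩ :
      Algebra.adjoin E (pb '' B))
  have hle : RC E c x y B ≤ RC E c x y Set.univ := RB_mono (Set.subset_univ B)
  let π1 : RC E c x y B →ₐ[E] κ := π.comp (Subalgebra.inclusion hle)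
  have hπ1 : Function.Injective π1 := inj_RB (S.q_alg c B) π1 pb (fun i hi => hpb i) hB
  let _ : Algebra (RC E c x y B) κ := (π1 : RC E c x y B →+* κ).toAlgebra
  have hfs : FaithfulSMul (RC E c x y B) κ := (faithfulSMul_iff_algebraMap_injective _ _).2 hπ1
  have hstE : IsScalarTower E (RC E c x y B) κ :=
    IsScalarTower.of_algebraMap_eq fun e => (π1.commutes e).symm
  have h1 : ∀ i, IsAlgebraic (RC E c x y B) (pb i) := fun i =>
    isAlg_mono' (E := E) (M := RC E c x y B) hπ1 (by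
      rintro _ ⟨j, hj, rfl⟩
      exact ⟨⟨_, mem_p hj⟩, (hpb j).symm⟩) (halgp i)
  have hk1 : ∀ e : k, IsAlgebraic (RC E c x y B) (algebraMap k κ e) := fun e => by
    rw [IsScalarTower.algebraMap_apply k E κ, IsScalarTower.algebraMap_apply E (RC E c x y B) κ]
    exact isAlgebraic_algebraMap _
  have halgκ : Algebra.IsAlgebraic (RC E c x y B) κ := alg_res π hπs
    (fun i => by rw [← hpb]; exact h1 i)
    (fun i => alg_second (c i) (hk1 _) (hk1 _) (by rw [← hpb]; exact h1 i) (hrel i))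
  -- the amalgam
  let Ω := AlgebraicClosure U
  have hcΩ : CharZero Ω := charZero_of_injective_algebraMap (algebraMap U Ω).injective
  obtain ⟨DΩ, hDΩ⟩ := exists_ext (k := k) (R := U) (K := Ω) (algebraMap U Ω).injective
    ((Algebra.linearMap U Ω).compDer D)
  have hDΩ' : ∀ z : U, DΩ (algebraMap U Ω z) = algebraMap U Ω (D z) := hDΩ
  obtain ⟨j, hj1, hj2, hj3⟩ := amalg (k := k) (R := RC E c x y B) (κ := κ) (Ω := Ω) hπ1
    (by
      intro r s hrs
      exact Subtype.ext ((algebraMap U Ω).injective hrs)) halgκ (S.DR c B) Dκ DΩ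
    (fun r => by
      change Dκ (π _) = π _
      rw [hπD]
      rfl)
    (fun r => by
      change DΩ (algebraMap U Ω r) = algebraMap U Ω _
      rw [hDΩ']
      rfl)
  have hjE : ∀ e : E, j (algebraMap E κ e) = algebraMap E Ω e := by
    intro e
    rw [IsScalarTower.algebraMap_apply E (RC E c x y B) κ, hj1]
    rfl
  have hjk : ∀ e : k, j (algebraMap k κ e) = algebraMap k Ω e := by
    intro e
    rw [IsScalarTower.algebraMap_apply k E κ, hjE, IsScalarTower.algebraMap_apply k U Ω,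
      IsScalarTower.algebraMap_apply k E U, IsScalarTower.algebraMap_apply E U Ω]
  have hBuniv : B = Set.univ := by
    by_contra hne
    obtain ⟨i, hi⟩ := (Set.ne_univ_iff_exists_notMem B).1 hne
    exact S.absurd_aux c B i hi Dκ DΩ hDΩ' j hj2 hj3 hjk (hns i) (hom i) (hjE _)
  rw [eq_bot_iff]
  intro r hr
  have h1 : (r : U) ∈ RC E c x y B := by
    rw [hBuniv]
    exact r.2
  have h2 : π1 ⟨r, h1⟩ = 0 := (hπ0 _).2 hr
  have h3 : (⟨r, h1⟩ : RC E c x y B) = 0 := hπ1 (by rw [h2, map_zero])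
  have h4 : (r : U) = 0 := congrArg Subtype.val h3
  rw [Ideal.mem_bot]
  exact Subtype.ext h4

/-- **The differential coordinate ring is simple.** -/
theorem Sit.simple {D : Derivation k U U} {ι : Type} [Finite ι] {a b : ι → k} {x y : ι → U}
    {u : ι → E} (S : Sit D ι a b x y u) (c : ι → Bool) (I : Ideal (RC E c x y Set.univ))
    (hDI : ∀ r ∈ I, S.DR c Set.univ r ∈ I) (hI : I ≠ ⊥) : I = ⊤ := by
  by_contra hne
  have hcE : CharZero E := charZero_of_injective_algebraMap (algebraMap k E).injective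
  have hnoeth : IsNoetherianRing (RC E c x y Set.univ) := by
    have h1 : Algebra.FiniteType E (RC E c x y Set.univ) := by
      rw [← Subalgebra.fg_iff_finiteType]
      exact Subalgebra.fg_def.2 ⟨_, ((Set.toFinite _).image _).union ((Set.toFinite _).image _), rfl⟩
    exact Algebra.FiniteType.isNoetherianRing E _
  obtain ⟨m, ⟨hm1, hm2, hm3⟩, hmax⟩ := exists_maximal_of_wellFoundedGT
    (fun J : Ideal (RC E c x y Set.univ) => I ≤ J ∧ J ≠ ⊤ ∧ ∀ r ∈ J, S.DR c Set.univ r ∈ J)
    ⟨I, le_rfl, hne, hDI⟩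
  let _ : Algebra ℚ (RC E c x y Set.univ) :=
    ((algebraMap E (RC E c x y Set.univ)).comp (algebraMap ℚ E)).toAlgebra
  have hprime : m.IsPrime := prime_of_maximal ((S.DR c Set.univ).restrictScalars ℤ) m hm2
    (fun r hr => hm3 r hr) (fun J h1 h2 h3 => le_antisymm (hmax ⟨hm1.trans h1, h2, h3⟩ h1) h1)
  have := S.prime_bot c m hm3
  rw [this, le_bot_iff] at hm1
  exact hI hm1

end Pool.Agent.K1H80.EC
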