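import Pool.Agent.K1H80.EC.Om
import Pool.Agent.K1H80.EC.Der

/-!
# The trace of a point with rational invariant differential
-/

set_option autoImplicit false
set_option linter.unusedSectionVars false

namespace Pool.Agent.K1H80.EC

open WeierstrassCurve WeierstrassCurve.Affine
open scoped Classical

universe u v w

variable {k : Type u} [Field k] [CharZero k] {a b : k} {M : Type v} [Field M] [Algebra k M]
  {N : Type w} [Field N] [Algebra k N] [Algebra M N] [IsScalarTower k M N]

/-- automorphisms commute with the derivation -/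
theorem der_comm (D : Derivation k N N) (hD : ∀ m : M, ∃ m' : M, D (algebraMap M N m) =
    algebraMap M N m') [Algebra.IsAlgebraic M N] (σ : N ≃ₐ[M] N) (z : N) : D (σ z) = σ (D z) := by
  have : CharZero M := charZero_of_injective_algebraMap (algebraMap k M).injective
  refine (isD_left D (σ : N →+* N)).eq_of_alg (E := M) (isD_right D (σ : N →+* N)) (fun m => ?_)
    (Algebra.IsAlgebraic.isAlgebraic z)
  obtain ⟨m', hm'⟩ := hD m
  change D (σ (algebraMap M N m)) = σ (D (algebraMap M N m))
  rw [hm', σ.commutes, σ.commutes, hm']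

/-- the action of an automorphism on the points -/
noncomputable abbrev act (σ : N ≃ₐ[M] N) : ((sw a b)⁄N).Point →+ ((sw a b)⁄N).Point :=
  Affine.Point.map (W' := sw a b) (σ : N →ₐ[M] N)

theorem act_some (σ : N ≃ₐ[M] N) {x y : N} (h : ((sw a b)⁄N).Nonsingular x y) :
    ∃ h', act (a := a) (b := b) σ (Affine.Point.some x y h) =
      Affine.Point.some (σ x) (σ y) h' := ⟨_, rfl⟩

theorem om_act (D : Derivation k N N) (hD : ∀ m : M, ∃ m' : M, D (algebraMap M N m) =
    algebraMap M N m') [Algebra.IsAlgebraic M N] (σ : N ≃ₐ[M] N) (P : ((sw a b)⁄N).Point) :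
    om D (act σ P) = σ (om D P) := by
  rcases P with _ | ⟨x, y, h⟩
  · exact (map_zero σ).symm
  · change D (σ x) / σ y = σ (D x / y)
    rw [der_comm D hD, map_div₀]

/-- the set of the conjugates is finite -/
theorem orbit_finite [Algebra.IsAlgebraic M N] (P : ((sw a b)⁄N).Point) :
    (Set.range fun σ : N ≃ₐ[M] N => act (a := a) (b := b) σ P).Finite := by
  rcases P with _ | ⟨x, y, h⟩
  · refine (Set.finite_singleton (0 : ((sw a b)⁄N).Point)).subset ?_
    rintro _ ⟨σ, rfl⟩
    exact Set.mem_singleton_iff.2 rfl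
  · let f : N × N → ((sw a b)⁄N).Point := fun p =>
      if h : ((sw a b)⁄N).Nonsingular p.1 p.2 then Affine.Point.some p.1 p.2 h else 0
    have h1 : ((minpoly M x).rootSet N ×ˢ (minpoly M y).rootSet N).Finite :=
      (Set.Finite.prod (Polynomial.rootSet_finite _ _) (Polynomial.rootSet_finite _ _))
    refine (h1.image f).subset ?_
    rintro _ ⟨σ, rfl⟩
    obtain ⟨h', e⟩ := act_some (a := a) (b := b) σ h
    refine ⟨(σ x, σ y), ⟨?_, ?_⟩, ?_⟩
    · rw [Polynomial.mem_rootSet]
      refine ⟨minpoly.ne_zero (Algebra.IsIntegral.isIntegral x), ?_⟩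
      have h2 := Polynomial.aeval_algHom_apply (σ : N →ₐ[M] N) x (minpoly M x)
      rw [minpoly.aeval, map_zero] at h2
      exact h2
    · rw [Polynomial.mem_rootSet]
      refine ⟨minpoly.ne_zero (Algebra.IsIntegral.isIntegral y), ?_⟩
      have h2 := Polynomial.aeval_algHom_apply (σ : N →ₐ[M] N) y (minpoly M y)
      rw [minpoly.aeval, map_zero] at h2
      exact h2
    · change f (σ x, σ y) = act σ (Affine.Point.some x y h)
      rw [e]
      exact dif_pos h'

/-- **The trace.** If the invariant differential of the point `P` is rational over `M`, then a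
multiple of `P` differs from a rational point by a constant point. -/
theorem trace [IsGalois M N] (D : Derivation k N N)
    (hD : ∀ m : M, ∃ m' : M, D (algebraMap M N m) = algebraMap M N m')
    (P : ((sw a b)⁄N).Point) (hP : ∃ u : M, om D P = algebraMap M N u) :
    ∃ (Q c : ((sw a b)⁄N).Point) (n : ℕ), 0 < n ∧ Q = n • P + c ∧ om D c = 0 ∧
      ∀ x y h, Q = Affine.Point.some x y h →
        (∃ x', algebraMap M N x' = x) ∧ ∃ y', algebraMap M N y' = y := by
  obtain ⟨u, hu⟩ := hP
  have hfin := orbit_finite (M := M) P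
  set T := hfin.toFinset with hT
  have hmem : ∀ R, R ∈ T ↔ ∃ σ : N ≃ₐ[M] N, act σ P = R := by
    intro R
    rw [hT, Set.Finite.mem_toFinset, Set.mem_range]
  have hPT : P ∈ T := (hmem P).2 ⟨AlgEquiv.refl, by
    rcases P with _ | ⟨x, y, h⟩
    · rfl
    · obtain ⟨h', e⟩ := act_some (a := a) (b := b) (AlgEquiv.refl : N ≃ₐ[M] N) h
      rw [e]
      rfl⟩
  have hact : ∀ σ τ : N ≃ₐ[M] N, ∀ R : ((sw a b)⁄N).Point, act σ (act τ R) = act (σ * τ) R := by
    intro σ τ R
    rcases R with _ | ⟨x, y, h⟩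
    · rfl
    · rfl
  refine ⟨∑ R ∈ T, R, ∑ R ∈ T, (R - P), T.card, Finset.card_pos.2 ⟨P, hPT⟩, ?_, ?_, ?_⟩
  · rw [Finset.sum_sub_distrib, Finset.sum_const]
    abel
  · rw [om_sum]
    refine Finset.sum_eq_zero fun R hR => ?_
    obtain ⟨σ, rfl⟩ := (hmem R).1 hR
    rw [om_sub, om_act D hD, hu, σ.commutes, sub_self]
  · have hfix : ∀ σ : N ≃ₐ[M] N, act σ (∑ R ∈ T, R) = ∑ R ∈ T, R := by
      intro σ
      rw [map_sum]
      refine Finset.sum_nbij (fun R => act σ R) ?_ ?_ ?_ ?_
      · intro R hR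
        obtain ⟨τ, rfl⟩ := (hmem R).1 hR
        exact (hmem _).2 ⟨σ * τ, (hact σ τ P).symm⟩
      · intro R _ R' _ h
        exact Affine.Point.map_injective _ h
      · intro R hR
        obtain ⟨τ, rfl⟩ := (hmem R).1 hR
        refine ⟨act (σ⁻¹ * τ) P, (hmem _).2 ⟨_, rfl⟩, ?_⟩
        change act σ (act (σ⁻¹ * τ) P) = _
        rw [hact, mul_inv_cancel_left]
      · intro R _
        rfl
    intro x y h hQ
    have hxy : ∀ σ : N ≃ₐ[M] N, σ x = x ∧ σ y = y := by
      intro σ
      have h1 := hfix σ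
      rw [hQ] at h1
      obtain ⟨h', e⟩ := act_some (a := a) (b := b) σ h
      rw [e] at h1
      simpa using h1
    have h2 : x ∈ (⊥ : IntermediateField M N) :=
      (InfiniteGalois.mem_bot_iff_fixed x).2 fun σ => (hxy σ).1
    have h3 : y ∈ (⊥ : IntermediateField M N) :=
      (InfiniteGalois.mem_bot_iff_fixed y).2 fun σ => (hxy σ).2
    exact ⟨IntermediateField.mem_bot.1 h2, IntermediateField.mem_bot.1 h3⟩

end Pool.Agent.K1H80.EC
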