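import Pool.Agent.K1H80.EC.Loc

/-!
# The inequalities in the ultraproduct
-/

set_option autoImplicit false
set_option linter.unusedSectionVars false
set_option linter.unusedVariables false

namespace Pool.Agent.K1H80.EC

open FF Filter MvPolynomial Module Pool.Agent.W603.LV Pool.Agent.W603.PV Pool.Agent.W603.CZ
open Pool.Agent.Y731.FG
open scoped Classical

variable {I : Type} {𝒰 : Ultrafilter I} {k F : Type} [Field k] [IsAlgClosed k] [CharZero k]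
  [Field F] [Algebra k F] {L : I → Type} [∀ i, Field (L i)] [∀ i, Algebra k (L i)]
  [∀ i, Algebra F (L i)] [∀ i, IsScalarTower k F (L i)]
  [∀ i, IsFF k (L i)] {Δ : Dt 𝒰 k F L}

variable {n : ℕ} {a b : Fin n → k} {x y : Fin n → UL 𝒰 L}
  (hab : ∀ i, 4 * a i ^ 3 + 27 * b i ^ 2 ≠ 0)
  (hni : ∀ i j, i ≠ j → NonIsogenous (a i) (b i) (a j) (b j))
  (hxy : ∀ i, y i ^ 2 = x i ^ 3 + algebraMap k (UL 𝒰 L) (a i) * x i +
      algebraMap k (UL 𝒰 L) (b i))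
  (hgen : AlgebraicIndependent F x)
  {w : ℕ} {G : Fin w → MvPolynomial (Fin n × Fin 3) F} {d : Fin w → Fin n → ℕ}
  (hG : ∀ j, IsForm (d j) (G j)) (hne : ∃ j, aeval (XX x y) (G j) ≠ 0)

theorem HJ_nonneg (i : I) : 0 ≤ HJ Δ x y i := Finset.sum_nonneg fun _ _ => hgt_nonneg _

/-- the admissible charts -/
abbrev Ch (Δ : Dt 𝒰 k F L) (x : Fin n → UL 𝒰 L) : Type :=
  {c : Fin n → Bool // ∀ i ∉ JJ Δ x, c i = false}

theorem exists_ch (x : Fin n → UL 𝒰 L) (ω : Om k L) :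
    ∃ c : Ch Δ x, ω ∈ QJ (JJ Δ x) c.1 x := by
  refine ⟨⟨fun i => decide (i ∈ JJ Δ x ∧ oo (x i) ω < 0), fun i hi => by simp [hi]⟩, ?_⟩
  intro i hi
  simp [hi]

include hxy hgen in
theorem y_ne_of (i : Fin n) : y i ≠ 0 := trans_ne_zero (hgen.transcendental i) (hxy i)

include hab hni hxy hgen hG hne in
/-- **The inequality for subschemes of codimension two.** -/
theorem T2u (hcod : Cod a b G) : ∃ e : Om k L → ℤ, Ng 𝒰 Δ.χ (HJ Δ x y) e ∧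
    ∀ᶠ ω in EV 𝒰 k L, lamE G d (XX x y) ω ≤ e ω := by
  obtain ⟨u, S⟩ := exists_sit (Δ := Δ) hab hni hxy
  have hEx := hEx_of (Δ := Δ) x
  have hEy := hEy_of (Δ := Δ) hxy
  have hH : ∀ᶠ i in (𝒰 : Filter I), 0 ≤ HJ Δ x y i := Eventually.of_forall fun i => HJ_nonneg i
  have hch := fun c : Ch Δ x => lamE_chart hxy (y_ne_of hxy hgen) hEx hEy c.2 hG
  set ψ : (c : Ch Δ x) → Fin w → RI Δ.E c.1 x y (JJ Δ x) := fun c j =>
    aeval (Pt hEx hEy c.2) (G j) with hψ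
  have hct : ∀ c : Ch Δ x, Ng 𝒰 Δ.χ (HJ Δ x y) (fun ω : Om k L =>
      if ω ∈ QJ (JJ Δ x) c.1 x then mo (fun j => (ψ c j : UL 𝒰 L)) ω else 0) := by
    intro c
    refine ctJ hxy S (ψ c) (fun 𝔭 h𝔭 h1 i0 hind => ?_) ?_
    · exact c3 hEx hEy c.2 hxy hgen S hcod 𝔭 h1 i0 hind
    · obtain ⟨j, hj⟩ := hne
      exact ⟨j, ((hch c).1 j).1 hj⟩
  refine ⟨fun ω => ∑ c : Ch Δ x, max (if ω ∈ QJ (JJ Δ x) c.1 x then
    mo (fun j => (ψ c j : UL 𝒰 L)) ω else 0) 0 + e0 Δ d x y ω,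
    (Ng.sum Δ.nonneg hH Finset.univ fun c _ => (hct c).pos).add ((e0_bd hxy d).ng hH), ?_⟩
  filter_upwards [eventually_all.2 fun c => (hch c).2] with ω h1
  obtain ⟨c, hω⟩ := exists_ch (Δ := Δ) x ω
  obtain ⟨j0, hj0⟩ := hne
  obtain ⟨j, hj, hj2⟩ := exists_mo (fun j => (ψ c j : UL 𝒰 L))
    ⟨j0, fun h => ((hch c).1 j0).1 hj0 (Subtype.ext h)⟩ ω
  have h2 := h1 c hω j (fun h => hj (by
    change ((aeval (Pt hEx hEy c.2) (G j) : RI Δ.E c.1 x y (JJ Δ x)) : UL 𝒰 L) = 0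
    rw [h]; rfl))
  have h3 := Finset.single_le_sum (f := fun c : Ch Δ x => max (if ω ∈ QJ (JJ Δ x) c.1 x then
    mo (fun j => (ψ c j : UL 𝒰 L)) ω else 0) 0) (fun c _ => le_max_right _ _) (Finset.mem_univ c)
  have h4 := le_max_left (if ω ∈ QJ (JJ Δ x) c.1 x then
    mo (fun j => (ψ c j : UL 𝒰 L)) ω else 0) 0
  rw [if_pos hω, ← hj2] at h4
  have h5 : oo ((ψ c j : RI Δ.E c.1 x y (JJ Δ x)) : UL 𝒰 L) ω ≤
      ∑ c : Ch Δ x, max (if ω ∈ QJ (JJ Δ x) c.1 x then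
        mo (fun j => (ψ c j : UL 𝒰 L)) ω else 0) 0 := by
    refine le_trans ?_ h3
    simp only [if_pos hω]
    rw [← hj2]
    exact le_max_left _ _
  have h6 : lamE G d (XX x y) ω - e0 Δ d x y ω ≤
    oo ((ψ c j : RI Δ.E c.1 x y (JJ Δ x)) : UL 𝒰 L) ω := h2
  linarith

include hab hni hxy hgen hG hne in
/-- **The inequality for divisors.** -/
theorem T1u (hred : Red a b G) : ∃ e : Om k L → ℤ, Ng 𝒰 Δ.χ (HJ Δ x y) e ∧
    ∀ᶠ ω in EV 𝒰 k L, lamE G d (XX x y) ω - (if 0 < lamE G d (XX x y) ω then 1 else 0) ≤ e ω := by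
  obtain ⟨u, S⟩ := exists_sit (Δ := Δ) hab hni hxy
  have hEx := hEx_of (Δ := Δ) x
  have hEy := hEy_of (Δ := Δ) hxy
  have hH : ∀ᶠ i in (𝒰 : Filter I), 0 ≤ HJ Δ x y i := Eventually.of_forall fun i => HJ_nonneg i
  have hch := fun c : Ch Δ x => lamE_chart hxy (y_ne_of hxy hgen) hEx hEy c.2 hG
  set ψ : (c : Ch Δ x) → Fin (w + w) → RI Δ.E c.1 x y (JJ Δ x) := fun c =>
    Fin.append (fun j => aeval (Pt hEx hEy c.2) (G j))
      (fun j => S.DR (fun i : JJ Δ x => c.1 i) Set.univ (aeval (Pt hEx hEy c.2) (G j))) with hψ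
  have hψl : ∀ c j, ψ c (Fin.castAdd w j) = aeval (Pt hEx hEy c.2) (G j) := fun c j => by
    simp only [hψ, Fin.append_left]
  have hψr : ∀ c j, ψ c (Fin.natAdd w j) =
      S.DR (fun i : JJ Δ x => c.1 i) Set.univ (aeval (Pt hEx hEy c.2) (G j)) := fun c j => by
    simp only [hψ, Fin.append_right]
  have hct : ∀ c : Ch Δ x, Ng 𝒰 Δ.χ (HJ Δ x y) (fun ω : Om k L =>
      if ω ∈ QJ (JJ Δ x) c.1 x then mo (fun j => (ψ c j : UL 𝒰 L)) ω else 0) := by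
    intro c
    refine ctJ hxy S (ψ c) (fun 𝔭 h𝔭 h1 i0 hind => ?_) ?_
    · refine c2 hEx hEy c.2 hab hxy hgen S hG hred 𝔭 (fun j => ?_) (fun j => ?_) i0 hind ?_
      · rw [← hψl]; exact h1 _
      · rw [← hψr]; exact h1 _
      · obtain ⟨j, hj⟩ := hne
        exact ⟨j, ((hch c).1 j).1 hj⟩
    · obtain ⟨j, hj⟩ := hne
      exact ⟨Fin.castAdd w j, by rw [hψl]; exact ((hch c).1 j).1 hj⟩
  refine ⟨fun ω => ∑ c : Ch Δ x, max (if ω ∈ QJ (JJ Δ x) c.1 x then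
    mo (fun j => (ψ c j : UL 𝒰 L)) ω else 0) 0 + (e0 Δ d x y ω + |vo ω.2 (Δ.D ω.1)|),
    (Ng.sum Δ.nonneg hH Finset.univ fun c _ => (hct c).pos).add
      (((e0_bd hxy d).add Δ.vo_bd).ng hH), ?_⟩
  have hder : ∀ᶠ ω in EV 𝒰 k L, ∀ (c : Ch Δ x) (j : Fin w),
      uD Δ.D ((aeval (Pt hEx hEy c.2) (G j) : RI Δ.E c.1 x y (JJ Δ x)) : UL 𝒰 L) = 0 ∨
      oo ((aeval (Pt hEx hEy c.2) (G j) : RI Δ.E c.1 x y (JJ Δ x)) : UL 𝒰 L) ω - 1 -
        |vo ω.2 (Δ.D ω.1)| ≤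
      oo (uD Δ.D ((aeval (Pt hEx hEy c.2) (G j) : RI Δ.E c.1 x y (JJ Δ x)) : UL 𝒰 L)) ω :=
    eventually_all.2 fun c => eventually_all.2 fun j => oo_uD_ge Δ _
  filter_upwards [eventually_all.2 fun c => (hch c).2, hder] with ω h1 hder
  obtain ⟨c, hω⟩ := exists_ch (Δ := Δ) x ω
  obtain ⟨j0, hj0⟩ := hne
  have hvo := abs_nonneg (vo ω.2 (Δ.D ω.1))
  have he0 := e0_nonneg (Δ := Δ) (x := x) (y := y) d ω
  have hsum : 0 ≤ ∑ c : Ch Δ x, max (if ω ∈ QJ (JJ Δ x) c.1 x then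
    mo (fun j => (ψ c j : UL 𝒰 L)) ω else 0) 0 := Finset.sum_nonneg fun c _ => le_max_right _ _
  by_cases hl : 0 < lamE G d (XX x y) ω
  swap
  · rw [if_neg hl]
    linarith [not_lt.1 hl]
  rw [if_pos hl]
  obtain ⟨j, hj, hj2⟩ := exists_mo (fun j => (ψ c j : UL 𝒰 L))
    ⟨Fin.castAdd w j0, fun h => ((hch c).1 j0).1 hj0 (Subtype.ext (by rw [← hψl]; exact h))⟩ ω
  have h3 := Finset.single_le_sum (f := fun c : Ch Δ x => max (if ω ∈ QJ (JJ Δ x) c.1 x then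
    mo (fun j => (ψ c j : UL 𝒰 L)) ω else 0) 0) (fun c _ => le_max_right _ _) (Finset.mem_univ c)
  have h5 : oo ((ψ c j : RI Δ.E c.1 x y (JJ Δ x)) : UL 𝒰 L) ω ≤
      ∑ c : Ch Δ x, max (if ω ∈ QJ (JJ Δ x) c.1 x then
        mo (fun j => (ψ c j : UL 𝒰 L)) ω else 0) 0 := by
    refine le_trans ?_ h3
    simp only [if_pos hω]
    rw [← hj2]
    exact le_max_left _ _
  have h6 : lamE G d (XX x y) ω - e0 Δ d x y ω - 1 - |vo ω.2 (Δ.D ω.1)| ≤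
      oo ((ψ c j : RI Δ.E c.1 x y (JJ Δ x)) : UL 𝒰 L) ω := by
    induction j using Fin.addCases with
    | left j =>
      rw [hψl] at hj ⊢
      have h2 := h1 c hω j (fun h => hj (by rw [h]; rfl))
      linarith
    | right j =>
      rw [hψr] at hj ⊢
      have hj' : uD Δ.D ((aeval (Pt hEx hEy c.2) (G j) : RI Δ.E c.1 x y (JJ Δ x)) : UL 𝒰 L) ≠ 0 :=
        hj
      have hj'' : aeval (Pt hEx hEy c.2) (G j) ≠ 0 := by
        intro h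
        apply hj'
        rw [h]
        exact map_zero _
      have h2 := h1 c hω j hj''
      have h7 := (hder c j).resolve_left hj'
      have h8 : oo ((S.DR (fun i : JJ Δ x => c.1 i) Set.univ (aeval (Pt hEx hEy c.2) (G j)) :
          RI Δ.E c.1 x y (JJ Δ x)) : UL 𝒰 L) ω =
        oo (uD Δ.D ((aeval (Pt hEx hEy c.2) (G j) : RI Δ.E c.1 x y (JJ Δ x)) : UL 𝒰 L)) ω := rfl
      rw [h8]
      linarith
  linarith

end Pool.Agent.K1H80.EC
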